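import Mathlib

namespace Helper80.CW

open Set Metric MeasureTheory
open scoped ContDiff Topology

abbrev E3 := EuclideanSpace ℝ (Fin 3)

/-- standard basis vector -/
noncomputable def e (i : Fin 3) : E3 := EuclideanSpace.single i (1 : ℝ)

/-- partial derivative -/
noncomputable def pd (i : Fin 3) (f : E3 → ℝ) : E3 → ℝ := fun x => fderiv ℝ f x (e i)

/-- smooth away from `0` -/
def Sm (f : E3 → ℝ) : Prop := ∀ x, x ≠ 0 → ContDiffAt ℝ ∞ f x

/-- positively homogeneous of degree `k` away from `0` -/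
def Hom (k : ℤ) (f : E3 → ℝ) : Prop :=
  ∀ r : ℝ, 0 < r → ∀ x, x ≠ 0 → f (r • x) = r ^ k * f x

theorem Sm.diffAt {f : E3 → ℝ} (hf : Sm f) {x : E3} (hx : x ≠ 0) : DifferentiableAt ℝ f x :=
  (hf x hx).differentiableAt (by simp)

theorem Sm.pd {f : E3 → ℝ} (hf : Sm f) (i : Fin 3) : Sm (pd i f) := by
  intro x hx
  have h := (hf x hx).fderiv_right (m := ∞) (by simp)
  exact h.clm_apply contDiffAt_const

theorem Sm.add {f g : E3 → ℝ} (hf : Sm f) (hg : Sm g) : Sm (fun x => f x + g x) :=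
  fun x hx => (hf x hx).add (hg x hx)

theorem Sm.sub {f g : E3 → ℝ} (hf : Sm f) (hg : Sm g) : Sm (fun x => f x - g x) :=
  fun x hx => (hf x hx).sub (hg x hx)

theorem Sm.mul {f g : E3 → ℝ} (hf : Sm f) (hg : Sm g) : Sm (fun x => f x * g x) :=
  fun x hx => (hf x hx).mul (hg x hx)

theorem Sm.pow {f : E3 → ℝ} (hf : Sm f) (n : ℕ) : Sm (fun x => f x ^ n) :=
  fun x hx => (hf x hx).pow n

theorem Sm.const (c : ℝ) : Sm (fun _ => c) := fun _ _ => contDiffAt_const

theorem Sm.neg {f : E3 → ℝ} (hf : Sm f) : Sm (fun x => - f x) := fun x hx => (hf x hx).neg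

theorem Sm.sum {ι : Type*} {s : Finset ι} {f : ι → E3 → ℝ} (hf : ∀ i ∈ s, Sm (f i)) :
    Sm (fun x => ∑ i ∈ s, f i x) := fun x hx => ContDiffAt.sum (fun i hi => hf i hi x hx)

theorem Sm.coord (i : Fin 3) : Sm (fun x => x i) := by
  intro x _
  fun_prop

theorem Sm.norm : Sm (fun x => ‖x‖) := fun _ hx => contDiffAt_norm ℝ hx

theorem pd_add {f g : E3 → ℝ} (hf : Sm f) (hg : Sm g) (i : Fin 3) {x : E3} (hx : x ≠ 0) :
    pd i (fun x => f x + g x) x = pd i f x + pd i g x := by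
  unfold pd
  rw [fderiv_fun_add (hf.diffAt hx) (hg.diffAt hx)]
  rfl

theorem pd_sub {f g : E3 → ℝ} (hf : Sm f) (hg : Sm g) (i : Fin 3) {x : E3} (hx : x ≠ 0) :
    pd i (fun x => f x - g x) x = pd i f x - pd i g x := by
  unfold pd
  rw [fderiv_fun_sub (hf.diffAt hx) (hg.diffAt hx)]
  rfl

theorem pd_mul {f g : E3 → ℝ} (hf : Sm f) (hg : Sm g) (i : Fin 3) {x : E3} (hx : x ≠ 0) :
    pd i (fun x => f x * g x) x = pd i f x * g x + f x * pd i g x := by
  unfold pd
  rw [fderiv_fun_mul (hf.diffAt hx) (hg.diffAt hx)]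
  simp
  ring

theorem pd_const_mul (c : ℝ) {f : E3 → ℝ} (hf : Sm f) (i : Fin 3) {x : E3} (hx : x ≠ 0) :
    pd i (fun x => c * f x) x = c * pd i f x := by
  unfold pd
  rw [fderiv_const_mul (hf.diffAt hx)]
  simp

theorem pd_sum {ι : Type*} {s : Finset ι} {f : ι → E3 → ℝ} (hf : ∀ i ∈ s, Sm (f i))
    (j : Fin 3) {x : E3} (hx : x ≠ 0) :
    pd j (fun x => ∑ i ∈ s, f i x) x = ∑ i ∈ s, pd j (f i) x := by
  unfold pd
  rw [fderiv_fun_sum (fun i hi => (hf i hi).diffAt hx)]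
  simp

theorem pd_coord (i j : Fin 3) (x : E3) : pd i (fun x => x j) x = if i = j then 1 else 0 := by
  unfold pd
  have : (fun x : E3 => x j) = (EuclideanSpace.proj j : E3 →L[ℝ] ℝ) := by
    ext x; simp
  rw [this, ContinuousLinearMap.fderiv]
  simp [e, eq_comm]

theorem pd_congr {f g : E3 → ℝ} (h : ∀ x, x ≠ 0 → f x = g x) (i : Fin 3) {x : E3} (hx : x ≠ 0) :
    pd i f x = pd i g x := by
  unfold pd
  have : f =ᶠ[𝓝 x] g := by
    filter_upwards [isOpen_ne.mem_nhds hx] with y hy using h y hy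
  rw [this.fderiv_eq]

theorem norm_sq_eq (x : E3) : ‖x‖ ^ 2 = ∑ i, x i ^ 2 := EuclideanSpace.real_norm_sq_eq x

theorem pd_norm (i : Fin 3) {x : E3} (hx : x ≠ 0) : pd i (fun x => ‖x‖) x = x i / ‖x‖ := by
  have h1 : pd i (fun x => ‖x‖ * ‖x‖) x = pd i (fun x => ‖x‖) x * ‖x‖ + ‖x‖ * pd i (fun x => ‖x‖) x :=
    pd_mul Sm.norm Sm.norm i hx
  have h2 : pd i (fun x => ‖x‖ * ‖x‖) x = pd i (fun x => ∑ j, x j * x j) x := by
    apply pd_congr _ _ hx
    intro y _
    have := norm_sq_eq y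
    simp only [sq] at this
    exact this
  have h3 : pd i (fun x : E3 => ∑ j, x j * x j) x = ∑ j, pd i (fun x => x j * x j) x :=
    pd_sum (fun j _ => (Sm.coord j).mul (Sm.coord j)) i hx
  have h4 : ∀ j, pd i (fun x : E3 => x j * x j) x = (if i = j then 1 else 0) * x j + x j * (if i = j then 1 else 0) := by
    intro j
    rw [pd_mul (Sm.coord j) (Sm.coord j) i hx, pd_coord]
  simp only [h4] at h3
  rw [h2, h3, Finset.sum_add_distrib] at h1
  simp only [ite_mul, one_mul, zero_mul, mul_ite, mul_one, mul_zero, Finset.sum_ite_eq,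
    Finset.mem_univ, if_true] at h1
  have hn : ‖x‖ ≠ 0 := by simpa using hx
  field_simp
  linarith

theorem pd_comm {f : E3 → ℝ} (hf : Sm f) (i j : Fin 3) {x : E3} (hx : x ≠ 0) :
    pd i (pd j f) x = pd j (pd i f) x := by
  have hs : IsSymmSndFDerivAt ℝ f x := by
    apply (hf x hx).isSymmSndFDerivAt
    simp only [minSmoothness_of_isRCLikeNormedField]
    exact ENat.LEInfty.out
  have hd : DifferentiableAt ℝ (fderiv ℝ f) x :=
    ((hf x hx).fderiv_right (m := ∞) (by simp)).differentiableAt (by simp)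
  have key : ∀ k l : Fin 3, pd k (pd l f) x = fderiv ℝ (fderiv ℝ f) x (e k) (e l) := by
    intro k l
    unfold pd
    rw [fderiv_clm_apply hd (differentiableAt_const _)]
    simp
  rw [key, key]
  exact hs _ _

theorem Hom.pd {k : ℤ} {f : E3 → ℝ} (hk : Hom k f) (hf : Sm f) (i : Fin 3) :
    Hom (k - 1) (pd i f) := by
  intro r hr x hx
  have hrx : r • x ≠ 0 := smul_ne_zero hr.ne' hx
  have h1 : (fun y => f (r • y)) =ᶠ[𝓝 x] (fun y => r ^ k * f y) := by
    filter_upwards [isOpen_ne.mem_nhds hx] with y hy using hk r hr y hy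
  have h2 : fderiv ℝ (fun y => f (r • y)) x = r • fderiv ℝ f (r • x) := by
    have := HasFDerivAt.comp x (g := f) (f := fun y : E3 => r • y) (hf.diffAt hrx).hasFDerivAt
      ((hasFDerivAt_id x).const_smul r)
    have h3 := this.fderiv
    simp only [Function.comp_def] at h3
    rw [h3]
    ext v
    simp
  have h4 : fderiv ℝ (fun y => r ^ k * f y) x = r ^ k • fderiv ℝ f x := by
    rw [fderiv_const_mul (hf.diffAt hx)]
  have h5 : r • fderiv ℝ f (r • x) = r ^ k • fderiv ℝ f x := by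
    rw [← h2, h1.fderiv_eq, h4]
  have h6 := congrArg (fun L : E3 →L[ℝ] ℝ => L (e i)) h5
  simp only [smul_apply, smul_eq_mul] at h6
  unfold CW.pd
  rw [zpow_sub_one₀ hr.ne']
  field_simp
  linarith

theorem Hom.mul {k l : ℤ} {f g : E3 → ℝ} (hf : Hom k f) (hg : Hom l g) :
    Hom (k + l) (fun x => f x * g x) := by
  intro r hr x hx
  simp only
  rw [hf r hr x hx, hg r hr x hx, zpow_add₀ hr.ne']
  ring

theorem Hom.add {k : ℤ} {f g : E3 → ℝ} (hf : Hom k f) (hg : Hom k g) :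
    Hom k (fun x => f x + g x) := by
  intro r hr x hx
  simp only
  rw [hf r hr x hx, hg r hr x hx]
  ring

theorem Hom.sub {k : ℤ} {f g : E3 → ℝ} (hf : Hom k f) (hg : Hom k g) :
    Hom k (fun x => f x - g x) := by
  intro r hr x hx
  simp only
  rw [hf r hr x hx, hg r hr x hx]
  ring

theorem Hom.const_mul {k : ℤ} {f : E3 → ℝ} (c : ℝ) (hf : Hom k f) :
    Hom k (fun x => c * f x) := by
  intro r hr x hx
  simp only
  rw [hf r hr x hx]
  ring

theorem Hom.sum {ι : Type*} {s : Finset ι} {k : ℤ} {f : ι → E3 → ℝ} (hf : ∀ i ∈ s, Hom k (f i)) :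
    Hom k (fun x => ∑ i ∈ s, f i x) := by
  intro r hr x hx
  simp only
  rw [Finset.mul_sum]
  exact Finset.sum_congr rfl (fun i hi => hf i hi r hr x hx)

theorem Hom.sq {k : ℤ} {f : E3 → ℝ} (hf : Hom k f) : Hom (2 * k) (fun x => f x ^ 2) := by
  intro r hr x hx
  simp only
  rw [hf r hr x hx, two_mul, zpow_add₀ hr.ne']
  ring

theorem Hom.coord (i : Fin 3) : Hom 1 (fun x => x i) := by
  intro r _ x _
  simp

theorem Hom.norm : Hom 1 (fun x => ‖x‖) := by
  intro r hr x _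
  simp [norm_smul, abs_of_pos hr]

theorem sum_smul_e (x : E3) : ∑ i, x i • e i = x := by
  ext j
  fin_cases j <;> simp [Fin.sum_univ_three, e]

theorem fderiv_eq_sum {f : E3 → ℝ} (x v : E3) : fderiv ℝ f x v = ∑ i, v i * pd i f x := by
  conv_lhs => rw [← sum_smul_e v]
  simp [pd]

theorem euler {k : ℤ} {f : E3 → ℝ} (hk : Hom k f) (hf : Sm f) {x : E3} (hx : x ≠ 0) :
    ∑ i, x i * pd i f x = k * f x := by
  rw [← fderiv_eq_sum]
  have h1 : HasDerivAt (fun t : ℝ => f (t • x)) (fderiv ℝ f x x) 1 := by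
    have h := HasFDerivAt.comp_hasDerivAt (x := (1 : ℝ)) (f := fun t : ℝ => t • x) (l := f)
      (f' := x) (l' := fderiv ℝ f x) (by simpa using (hf.diffAt hx).hasFDerivAt)
      (by simpa using (hasDerivAt_id (1 : ℝ)).smul_const x)
    exact h
  have h2 : HasDerivAt (fun t : ℝ => t ^ k * f x) (k * f x) 1 := by
    have := (hasDerivAt_zpow k (1 : ℝ) (Or.inl one_ne_zero)).mul_const (f x)
    simpa using this
  have h3 : (fun t : ℝ => f (t • x)) =ᶠ[𝓝 1] (fun t : ℝ => t ^ k * f x) := by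
    filter_upwards [isOpen_Ioi.mem_nhds (show (0 : ℝ) < 1 by norm_num)] with t ht
    exact hk t ht x hx
  exact h1.unique (h2.congr_of_eventuallyEq h3)

end Helper80.CW
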