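import Pool.Agent.Helper80.CW.Smooth

namespace Helper80.CW

open Set Metric MeasureTheory
open scoped ContDiff Topology RealInnerProductSpace Real

/-- the width hypothesis -/
def Width1 (K : Set E3) : Prop :=
  ∀ u : E3, ‖u‖ = 1 → sSup ((fun x => ⟪x, u⟫) '' K) - sInf ((fun x => ⟪x, u⟫) '' K) = 1

section
variable {K : Set E3}

theorem Width1.nonempty (hw : Width1 K) : K.Nonempty := by
  by_contra hne
  rw [not_nonempty_iff_eq_empty] at hne
  subst hne
  have := hw (e 0) (norm_e 0)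
  simp at this

/-- support function -/
noncomputable def supp (K : Set E3) (x : E3) : ℝ := sSup ((fun y => ⟪y, x⟫) '' K)

theorem supp_attained (hK : IsCompact K) (hne : K.Nonempty) (x : E3) :
    ∃ y ∈ K, supp K x = ⟪y, x⟫ := by
  have hc : ContinuousOn (fun y : E3 => ⟪y, x⟫) K := by fun_prop
  exact hK.exists_sSup_image_eq hne hc

theorem supp_ge (hK : IsCompact K) (hne : K.Nonempty) (x : E3) {y : E3} (hy : y ∈ K) :
    ⟪y, x⟫ ≤ supp K x := by
  have hc : ContinuousOn (fun y : E3 => ⟪y, x⟫) K := by fun_prop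
  obtain ⟨z, _, hz1, hz2⟩ := hK.exists_sSup_image_eq_and_ge hne hc
  unfold supp
  rw [hz1]
  exact hz2 y hy

theorem supp_neg (hK : IsCompact K) (hne : K.Nonempty) (x : E3) :
    supp K (-x) = - sInf ((fun y => ⟪y, x⟫) '' K) := by
  have hc : ContinuousOn (fun y : E3 => ⟪y, x⟫) K := by fun_prop
  obtain ⟨z, hzK, hz1, hz2⟩ := hK.exists_sInf_image_eq_and_le hne hc
  obtain ⟨w, hwK, hw⟩ := supp_attained hK hne (-x)
  have h1 := supp_ge hK hne (-x) hzK
  have h2 := hz2 w hwK
  rw [inner_neg_right] at h1 hw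
  rw [hz1]
  linarith

theorem supp_smul (hK : IsCompact K) (hne : K.Nonempty) {t : ℝ} (ht : 0 ≤ t) (x : E3) :
    supp K (t • x) = t * supp K x := by
  obtain ⟨y, hy, h1⟩ := supp_attained hK hne (t • x)
  obtain ⟨z, hz, h2⟩ := supp_attained hK hne x
  have h3 := supp_ge hK hne (t • x) hz
  have h4 := supp_ge hK hne x hy
  rw [inner_smul_right] at h1 h3
  apply le_antisymm
  · rw [h1]
    exact mul_le_mul_of_nonneg_left h4 ht
  · rw [h2]
    exact h3

theorem supp_width (hK : IsCompact K) (hw : Width1 K) (x : E3) :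
    supp K x + supp K (-x) = ‖x‖ := by
  have hne := hw.nonempty
  by_cases hx : x = 0
  · subst hx
    obtain ⟨y, _, h1⟩ := supp_attained hK hne 0
    simp at h1
    simp [h1]
  have hn : 0 < ‖x‖ := norm_pos_iff.2 hx
  have hu : ‖‖x‖⁻¹ • x‖ = 1 := by simp [norm_smul, hn.ne']
  have h1 := hw _ hu
  have h2 := supp_neg hK hne (‖x‖⁻¹ • x)
  have h3 : supp K (‖x‖⁻¹ • x) + supp K (-(‖x‖⁻¹ • x)) = 1 := by
    rw [h2]
    unfold supp
    linarith
  have h4 : supp K x = ‖x‖ * supp K (‖x‖⁻¹ • x) := by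
    rw [← supp_smul hK hne hn.le, smul_smul, mul_inv_cancel₀ hn.ne', one_smul]
  have h5 : supp K (-x) = ‖x‖ * supp K (-(‖x‖⁻¹ • x)) := by
    rw [← supp_smul hK hne hn.le, smul_neg, smul_smul, mul_inv_cancel₀ hn.ne', one_smul]
  rw [h4, h5, ← mul_add, h3, mul_one]

/-- translation of the support function -/
noncomputable def H0 (K : Set E3) (k0 x : E3) : ℝ := supp K x - ⟪k0, x⟫

theorem H0_supp (hK : IsCompact K) (hw : Width1 K) {k0 : E3} (hk0 : k0 ∈ K) :
    ∃ R, Supp (H0 K k0) R := by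
  have hne := hw.nonempty
  obtain ⟨R, hR⟩ := (isBounded_iff_forall_norm_le.1 hK.isBounded)
  have hR0 : 0 ≤ R := (norm_nonneg _).trans (hR k0 hk0)
  refine ⟨2 * R, ?_, ?_, ?_, ?_, ?_, by positivity⟩
  · intro x y
    obtain ⟨z, hz, h1⟩ := supp_attained hK hne (x + y)
    have h2 := supp_ge hK hne x hz
    have h3 := supp_ge hK hne y hz
    unfold H0
    rw [inner_add_right] at h1 ⊢
    linarith
  · intro t ht x
    unfold H0
    rw [supp_smul hK hne ht, inner_smul_right]
    ring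
  · intro x
    unfold H0
    have := supp_ge hK hne x hk0
    linarith
  · intro x
    obtain ⟨z, hz, h1⟩ := supp_attained hK hne x
    unfold H0
    rw [h1, ← inner_sub_left]
    calc ⟪z - k0, x⟫ ≤ ‖z - k0‖ * ‖x‖ := real_inner_le_norm _ _
      _ ≤ (2 * R) * ‖x‖ := by
        apply mul_le_mul_of_nonneg_right _ (norm_nonneg _)
        calc ‖z - k0‖ ≤ ‖z‖ + ‖k0‖ := norm_sub_le _ _
          _ ≤ R + R := add_le_add (hR z hz) (hR k0 hk0)
          _ = 2 * R := by ring
  · intro x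
    unfold H0
    have := supp_width hK hw x
    rw [inner_neg_right]
    linarith

theorem body_sub (hK : IsCompact K) (hc : Convex ℝ K) (hw : Width1 K) {k0 : E3} (_hk0 : k0 ∈ K)
    {f : E3 → ℝ} {δ : ℝ} (hf : ∀ x, f x ≤ H0 K k0 x + δ * ‖x‖) (hδ : 0 ≤ δ) :
    {y : E3 | ∀ z, ⟪y, z⟫ ≤ f z} ⊆ cthickening δ ((fun y => y + k0) ⁻¹' K) := by
  have hne := hw.nonempty
  intro y hy
  obtain ⟨p, hpK, hp⟩ := exists_norm_eq_iInf_of_complete_convex hne hK.isComplete hc (y + k0)
  rw [norm_eq_iInf_iff_real_inner_le_zero hc hpK] at hp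
  have hpm : p - k0 ∈ (fun y => y + k0) ⁻¹' K := by
    simp [hpK]
  apply mem_cthickening_of_dist_le y (p - k0) δ _ hpm
  rw [dist_eq_norm]
  set x := y - (p - k0) with hx
  have hx' : y + k0 - p = x := by
    rw [hx]
    abel
  rw [hx'] at hp
  obtain ⟨z, hz, h1⟩ := supp_attained hK hne x
  have h2 := hp z hz
  rw [inner_sub_right] at h2
  have h3 := hy x
  have h4 := hf x
  unfold H0 at h4
  rw [h1] at h4
  have h5 : ⟪x, x⟫ = ⟪y, x⟫ - ⟪p, x⟫ + ⟪k0, x⟫ := by
    conv_lhs => rw [hx, inner_sub_left, inner_sub_left]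
    rw [← hx]
    ring
  have h6 : ⟪x, x⟫ ≤ δ * ‖x‖ := by
    rw [h5]
    rw [real_inner_comm z x, real_inner_comm p x] at h2
    linarith
  rw [real_inner_self_eq_norm_mul_norm] at h6
  rcases eq_or_lt_of_le (norm_nonneg x) with h7 | h7
  · rw [← h7]
    exact hδ
  · exact le_of_mul_le_mul_right h6 h7

theorem cw_main (K : Set E3) (hK : IsCompact K) (hc : Convex ℝ K) (hw : Width1 K) :
    ENNReal.ofReal (4 * π / 33) ≤ volume K := by
  obtain ⟨k0, hk0⟩ := hw.nonempty
  obtain ⟨R, hR⟩ := H0_supp hK hw hk0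
  set K0 : Set E3 := (fun y => y + k0) ⁻¹' K with hK0
  have hK0c : IsCompact K0 := by
    have : K0 = (fun y => y - k0) '' K := by
      ext y
      constructor
      · intro hy
        exact ⟨y + k0, hy, by simp⟩
      · rintro ⟨z, hz, rfl⟩
        simpa [hK0] using hz
    rw [this]
    exact hK.image (by fun_prop)
  have hvol : volume K0 = volume K := measure_preimage_add_right volume k0 K
  rw [← hvol]
  have hstep : ∀ ε : ℝ, 0 < ε → ε < 1 →
      ENNReal.ofReal (4 * π * (1 - ε) ^ 3 / 33) ≤ volume (cthickening (R * ε) K0) := by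
    intro ε hε hε1
    have hS := Ht_SSup hR hε hε1
    have h1 := hS.volume_ge
    have h2 := body_sub hK hc hw hk0 (f := Ht (H0 K k0) ε) (δ := R * ε) (Ht_le hR hε)
      (mul_nonneg hR.Rnn hε.le)
    have h3 := h1.trans (measure_mono h2)
    refine le_trans (ENNReal.ofReal_le_ofReal ?_) h3
    have h4 := cw_ge hε
    have h5 : (1 - ε) ^ 3 ≤ (cw ε) ^ 3 := pow_le_pow_left₀ (by linarith) h4 3
    have hpi := Real.pi_pos
    have : 4 * π * (1 - ε) ^ 3 ≤ 4 * π * (cw ε) ^ 3 :=
      mul_le_mul_of_nonneg_left h5 (by positivity)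
    linarith
  have hlim1 : Filter.Tendsto (fun ε : ℝ => volume (cthickening (R * ε) K0)) (𝓝[>] 0)
      (𝓝 (volume K0)) := by
    have h1 := tendsto_measure_cthickening_of_isCompact (μ := (volume : Measure E3)) hK0c
    have h2 : Filter.Tendsto (fun ε : ℝ => R * ε) (𝓝[>] 0) (𝓝 0) := by
      have : Continuous (fun ε : ℝ => R * ε) := by fun_prop
      have h3 := this.tendsto 0
      simp only [mul_zero] at h3
      exact h3.mono_left nhdsWithin_le_nhds
    exact h1.comp h2
  have hlim2 : Filter.Tendsto (fun ε : ℝ => ENNReal.ofReal (4 * π * (1 - ε) ^ 3 / 33)) (𝓝[>] 0)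
      (𝓝 (ENNReal.ofReal (4 * π / 33))) := by
    apply ENNReal.tendsto_ofReal
    have : Continuous (fun ε : ℝ => 4 * π * (1 - ε) ^ 3 / 33) := by fun_prop
    have h3 := this.tendsto 0
    simp only [sub_zero, one_pow, mul_one] at h3
    exact h3.mono_left nhdsWithin_le_nhds
  apply le_of_tendsto_of_tendsto hlim2 hlim1
  have hlt : ∀ᶠ ε : ℝ in 𝓝 0, ε < 1 := eventually_lt_nhds one_pos
  filter_upwards [self_mem_nhdsWithin, hlt.filter_mono nhdsWithin_le_nhds] with ε h1 h2
  exact hstep ε h1 h2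

end

end Helper80.CW
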