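import Pool.Agent.Helper80.CW.DC2

/-!
# The configuration domain and the reduction to twelve vertices

Parameters: edge defects `t : St → ℝ` of four contact points (states = signed axes).
The family of multipliers is affine in `t`, the constraints are affine in `t`.
-/

set_option linter.all false

namespace Helper80.CW.DL

open Set Metric MeasureTheory Helper82.CW MvPolynomial Helper80.CW Helper37.FX
open scoped ContDiff Topology RealInnerProductSpace

/-- states: signed axes -/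
abbrev St := Fin 3 × Bool

/-- total defect -/
def Tt {R : Type*} [CommRing R] (t : St → R) : R :=
  t (0, false) + t (0, true) + t (1, false) + t (1, true) + t (2, false) + t (2, true)

/-- the vector `E s - 2 w` -/
def Eg {R : Type*} [CommRing R] (s : R × R × R) (t : St → R) : R × R × R :=
  let x0 := t (0, false)
  let y0 := t (0, true)
  let x1 := t (1, false)
  let y1 := t (1, true)
  let x2 := t (2, false)
  let y2 := t (2, true)
  (((x0 + y0 - x1 - y1 - x2 - y2) * s.1 + (y2 - x2) * s.2.1 + (y1 - x1) * s.2.2) - 2 * (y0 - x0),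
   ((y2 - x2) * s.1 + (x1 + y1 - x0 - y0 - x2 - y2) * s.2.1 + (y0 - x0) * s.2.2) - 2 * (y1 - x1),
   ((y1 - x1) * s.1 + (y0 - x0) * s.2.1 + (x2 + y2 - x0 - y0 - x1 - y1) * s.2.2) - 2 * (y2 - x2))

/-- the contact form -/
noncomputable def Lf (s : V3) (t : St → ℝ) (q : V3) : ℝ :=
  (s.1 + (Eg s t).1 / 4) * q.1 + (s.2.1 + (Eg s t).2.1 / 4) * q.2.1 +
    (s.2.2 + (Eg s t).2.2 / 4) * q.2.2

def cgz : Fin 4 → ℤ × ℤ × ℤ
  | 0 => (1, 1, 1)
  | 1 => (1, -1, -1)
  | 2 => (-1, 1, -1)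
  | 3 => (-1, -1, 1)

def cg (j : Fin 4) : V3 := (((cgz j).1 : ℝ), ((cgz j).2.1 : ℝ), ((cgz j).2.2 : ℝ))

def n2 (q : V3) : ℝ := q.1 ^ 2 + q.2.1 ^ 2 + q.2.2 ^ 2

/-- `p ± u / 2` -/
noncomputable def qe (b : Bool) (u p : V3) : V3 :=
  match b with
  | false => (p.1 + u.1 / 2, p.2.1 + u.2.1 / 2, p.2.2 + u.2.2 / 2)
  | true => (p.1 - u.1 / 2, p.2.1 - u.2.1 / 2, p.2.2 - u.2.2 / 2)

/-- **the domain of a configuration** -/
structure DomC (T1 T2 r e1 e2 : ℝ) (t : St → ℝ) (u p : V3) : Prop where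
  pos : ∀ a, 0 ≤ t a
  lo : T1 ≤ Tt t
  hi : Tt t ≤ T2
  ball : ∀ b, n2 (qe b u p) ≤ (6 - Tt t) / 16 + e1
  con : ∀ b j, n2 (qe b u p) + (6 - Tt t) / 16 - 1 - r * Lf (cg j) t (qe b u p) ≤ e2

section
variable {T1 T2 r e1 e2 : ℝ} {t : St → ℝ} {u p : V3}

theorem Tt_x01 (t : St → ℝ) : Tt (fun a => t (x01 a)) = Tt t := by
  simp only [Tt, x01]; ring

theorem Tt_x12 (t : St → ℝ) : Tt (fun a => t (x12 a)) = Tt t := by
  simp only [Tt, x12]; ring

theorem Tt_xfl (t : St → ℝ) : Tt (fun a => t (xfl a)) = Tt t := by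
  simp only [Tt, xfl, Bool.not_false, Bool.not_true]; ring

theorem Lf_x01 (s : V3) (t : St → ℝ) (q : V3) :
    Lf s (fun a => t (x01 a)) (q.2.1, q.1, q.2.2) = Lf (s.2.1, s.1, s.2.2) t q := by
  simp only [Lf, Eg, x01]; ring

theorem Lf_x12 (s : V3) (t : St → ℝ) (q : V3) :
    Lf s (fun a => t (x12 a)) (q.1, q.2.2, q.2.1) = Lf (s.1, s.2.2, s.2.1) t q := by
  simp only [Lf, Eg, x12]; ring

theorem Lf_xfl (s : V3) (t : St → ℝ) (q : V3) :
    Lf s (fun a => t (xfl a)) (-q.1, -q.2.1, q.2.2) = Lf (-s.1, -s.2.1, s.2.2) t q := by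
  simp only [Lf, Eg, xfl, Bool.not_false, Bool.not_true]; ring

theorem cg_01 (j : Fin 4) : ∃ i, cg i = ((cg j).2.1, (cg j).1, (cg j).2.2) := by
  fin_cases j
  · exact ⟨0, by simp [cg, cgz]⟩
  · exact ⟨2, by simp [cg, cgz]⟩
  · exact ⟨1, by simp [cg, cgz]⟩
  · exact ⟨3, by simp [cg, cgz]⟩

theorem cg_12 (j : Fin 4) : ∃ i, cg i = ((cg j).1, (cg j).2.2, (cg j).2.1) := by
  fin_cases j
  · exact ⟨0, by simp [cg, cgz]⟩
  · exact ⟨1, by simp [cg, cgz]⟩
  · exact ⟨3, by simp [cg, cgz]⟩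
  · exact ⟨2, by simp [cg, cgz]⟩

theorem cg_fl (j : Fin 4) : ∃ i, cg i = (-(cg j).1, -(cg j).2.1, (cg j).2.2) := by
  fin_cases j
  · exact ⟨3, by simp [cg, cgz]⟩
  · exact ⟨2, by simp [cg, cgz]⟩
  · exact ⟨1, by simp [cg, cgz]⟩
  · exact ⟨0, by simp [cg, cgz]⟩

theorem DomC.s01 (h : DomC T1 T2 r e1 e2 t u p) :
    DomC T1 T2 r e1 e2 (fun a => t (x01 a)) (u.2.1, u.1, u.2.2) (p.2.1, p.1, p.2.2) where
  pos := fun a => h.pos _
  lo := by rw [Tt_x01]; exact h.lo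
  hi := by rw [Tt_x01]; exact h.hi
  ball := fun b => by
    rw [Tt_x01]
    have e : n2 (qe b (u.2.1, u.1, u.2.2) (p.2.1, p.1, p.2.2)) = n2 (qe b u p) := by
      cases b <;> simp only [n2, qe] <;> ring
    rw [e]
    exact h.ball b
  con := fun b j => by
    rw [Tt_x01]
    have e : n2 (qe b (u.2.1, u.1, u.2.2) (p.2.1, p.1, p.2.2)) = n2 (qe b u p) := by
      cases b <;> simp only [n2, qe] <;> ring
    have e2 : qe b (u.2.1, u.1, u.2.2) (p.2.1, p.1, p.2.2) =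
        ((qe b u p).2.1, (qe b u p).1, (qe b u p).2.2) := by
      cases b <;> rfl
    obtain ⟨i, hi⟩ := cg_01 j
    rw [e, e2, Lf_x01, ← hi]
    exact h.con b i

theorem DomC.s12 (h : DomC T1 T2 r e1 e2 t u p) :
    DomC T1 T2 r e1 e2 (fun a => t (x12 a)) (u.1, u.2.2, u.2.1) (p.1, p.2.2, p.2.1) where
  pos := fun a => h.pos _
  lo := by rw [Tt_x12]; exact h.lo
  hi := by rw [Tt_x12]; exact h.hi
  ball := fun b => by
    rw [Tt_x12]
    have e : n2 (qe b (u.1, u.2.2, u.2.1) (p.1, p.2.2, p.2.1)) = n2 (qe b u p) := by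
      cases b <;> simp only [n2, qe] <;> ring
    rw [e]
    exact h.ball b
  con := fun b j => by
    rw [Tt_x12]
    have e : n2 (qe b (u.1, u.2.2, u.2.1) (p.1, p.2.2, p.2.1)) = n2 (qe b u p) := by
      cases b <;> simp only [n2, qe] <;> ring
    have e2 : qe b (u.1, u.2.2, u.2.1) (p.1, p.2.2, p.2.1) =
        ((qe b u p).1, (qe b u p).2.2, (qe b u p).2.1) := by
      cases b <;> rfl
    obtain ⟨i, hi⟩ := cg_12 j
    rw [e, e2, Lf_x12, ← hi]
    exact h.con b i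

theorem DomC.fl (h : DomC T1 T2 r e1 e2 t u p) :
    DomC T1 T2 r e1 e2 (fun a => t (xfl a)) (-u.1, -u.2.1, u.2.2) (-p.1, -p.2.1, p.2.2) where
  pos := fun a => h.pos _
  lo := by rw [Tt_xfl]; exact h.lo
  hi := by rw [Tt_xfl]; exact h.hi
  ball := fun b => by
    rw [Tt_xfl]
    have e : n2 (qe b (-u.1, -u.2.1, u.2.2) (-p.1, -p.2.1, p.2.2)) = n2 (qe b u p) := by
      cases b <;> simp only [n2, qe] <;> ring
    rw [e]
    exact h.ball b
  con := fun b j => by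
    rw [Tt_xfl]
    have e : n2 (qe b (-u.1, -u.2.1, u.2.2) (-p.1, -p.2.1, p.2.2)) = n2 (qe b u p) := by
      cases b <;> simp only [n2, qe] <;> ring
    have e2 : qe b (-u.1, -u.2.1, u.2.2) (-p.1, -p.2.1, p.2.2) =
        (-(qe b u p).1, -(qe b u p).2.1, (qe b u p).2.2) := by
      cases b <;> simp only [qe] <;> ext <;> simp <;> ring
    obtain ⟨i, hi⟩ := cg_fl j
    rw [e, e2, Lf_xfl, ← hi]
    exact h.con b i

theorem DomC.ng (h : DomC T1 T2 r e1 e2 t u p) : DomC T1 T2 r e1 e2 t (ng u) p := by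
  have e : ∀ b, qe b (DL.ng u) p = qe (!b) u p := by
    intro b
    cases b <;> simp only [qe, DL.ng, Bool.not_false, Bool.not_true] <;> ext <;> simp <;> ring
  exact ⟨h.pos, h.lo, h.hi, fun b => by rw [e]; exact h.ball _, fun b j => by
    rw [e]; exact h.con _ j⟩

end

end Helper80.CW.DL
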