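import Pool.Agent.Helper80.CW.DD

/-!
# The configuration domain with slacks affine in the total defect
-/

set_option linter.all false

namespace Helper80.CW.DL

open Set Metric MeasureTheory Helper82.CW MvPolynomial Helper80.CW Helper37.FX
open scoped ContDiff Topology RealInnerProductSpace

/-- **the domain of a configuration**, slacks `e + f T` -/
structure DomA (T1 T2 r e1 f1 e2 f2 c3 : ℝ) (t : St → ℝ) (u p : V3) : Prop where
  pos : ∀ a, 0 ≤ t a
  lo : T1 ≤ Tt t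
  hi : Tt t ≤ T2
  ball : ∀ b, n2 (qe b u p) ≤ (6 - Tt t) / 16 + (e1 + f1 * Tt t)
  con : ∀ b j, n2 (qe b u p) + (6 - Tt t) / 16 - 1 - r * Lf (cg j) t (qe b u p) ≤
    e2 + f2 * Tt t
  cap : ∀ b, n2 (qe b u p) ≤ c3

section
variable {T1 T2 r e1 f1 e2 f2 c3 : ℝ} {t : St → ℝ} {u p : V3}

theorem DomC.toA {T1 T2 r e1 e2 : ℝ} {t : St → ℝ} {u p : V3} (h : DomC T1 T2 r e1 e2 t u p) :
    DomA T1 T2 r e1 0 e2 0 ((6 - T1) / 16 + e1) t u p :=
  ⟨h.pos, h.lo, h.hi, fun b => by have := h.ball b; linarith, fun b j => by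
    have := h.con b j; linarith, fun b => by
    have := h.ball b; have := h.lo; linarith⟩

theorem DomA.s01 (h : DomA T1 T2 r e1 f1 e2 f2 c3 t u p) :
    DomA T1 T2 r e1 f1 e2 f2 c3 (fun a => t (x01 a)) (u.2.1, u.1, u.2.2) (p.2.1, p.1, p.2.2) where
  pos := fun a => h.pos _
  lo := by rw [Tt_x01]; exact h.lo
  hi := by rw [Tt_x01]; exact h.hi
  ball := fun b => by
    rw [Tt_x01]
    have e : n2 (qe b (u.2.1, u.1, u.2.2) (p.2.1, p.1, p.2.2)) = n2 (qe b u p) := by
      cases b <;> simp only [n2, qe] <;> ring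
    rw [e]
    exact h.ball b
  cap := fun b => by
    have e : n2 (qe b (u.2.1, u.1, u.2.2) (p.2.1, p.1, p.2.2)) = n2 (qe b u p) := by
      cases b <;> simp only [n2, qe] <;> ring
    rw [e]
    exact h.cap b
  con := fun b j => by
    rw [Tt_x01]
    have e : n2 (qe b (u.2.1, u.1, u.2.2) (p.2.1, p.1, p.2.2)) = n2 (qe b u p) := by
      cases b <;> simp only [n2, qe] <;> ring
    have e3 : qe b (u.2.1, u.1, u.2.2) (p.2.1, p.1, p.2.2) =
        ((qe b u p).2.1, (qe b u p).1, (qe b u p).2.2) := by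
      cases b <;> rfl
    obtain ⟨i, hi⟩ := cg_01 j
    rw [e, e3, Lf_x01, ← hi]
    exact h.con b i

theorem DomA.s12 (h : DomA T1 T2 r e1 f1 e2 f2 c3 t u p) :
    DomA T1 T2 r e1 f1 e2 f2 c3 (fun a => t (x12 a)) (u.1, u.2.2, u.2.1) (p.1, p.2.2, p.2.1) where
  pos := fun a => h.pos _
  lo := by rw [Tt_x12]; exact h.lo
  hi := by rw [Tt_x12]; exact h.hi
  ball := fun b => by
    rw [Tt_x12]
    have e : n2 (qe b (u.1, u.2.2, u.2.1) (p.1, p.2.2, p.2.1)) = n2 (qe b u p) := by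
      cases b <;> simp only [n2, qe] <;> ring
    rw [e]
    exact h.ball b
  cap := fun b => by
    have e : n2 (qe b (u.1, u.2.2, u.2.1) (p.1, p.2.2, p.2.1)) = n2 (qe b u p) := by
      cases b <;> simp only [n2, qe] <;> ring
    rw [e]
    exact h.cap b
  con := fun b j => by
    rw [Tt_x12]
    have e : n2 (qe b (u.1, u.2.2, u.2.1) (p.1, p.2.2, p.2.1)) = n2 (qe b u p) := by
      cases b <;> simp only [n2, qe] <;> ring
    have e3 : qe b (u.1, u.2.2, u.2.1) (p.1, p.2.2, p.2.1) =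
        ((qe b u p).1, (qe b u p).2.2, (qe b u p).2.1) := by
      cases b <;> rfl
    obtain ⟨i, hi⟩ := cg_12 j
    rw [e, e3, Lf_x12, ← hi]
    exact h.con b i

theorem DomA.fl (h : DomA T1 T2 r e1 f1 e2 f2 c3 t u p) :
    DomA T1 T2 r e1 f1 e2 f2 c3 (fun a => t (xfl a)) (-u.1, -u.2.1, u.2.2) (-p.1, -p.2.1, p.2.2) where
  pos := fun a => h.pos _
  lo := by rw [Tt_xfl]; exact h.lo
  hi := by rw [Tt_xfl]; exact h.hi
  ball := fun b => by
    rw [Tt_xfl]
    have e : n2 (qe b (-u.1, -u.2.1, u.2.2) (-p.1, -p.2.1, p.2.2)) = n2 (qe b u p) := by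
      cases b <;> simp only [n2, qe] <;> ring
    rw [e]
    exact h.ball b
  cap := fun b => by
    have e : n2 (qe b (-u.1, -u.2.1, u.2.2) (-p.1, -p.2.1, p.2.2)) = n2 (qe b u p) := by
      cases b <;> simp only [n2, qe] <;> ring
    rw [e]
    exact h.cap b
  con := fun b j => by
    rw [Tt_xfl]
    have e : n2 (qe b (-u.1, -u.2.1, u.2.2) (-p.1, -p.2.1, p.2.2)) = n2 (qe b u p) := by
      cases b <;> simp only [n2, qe] <;> ring
    have e3 : qe b (-u.1, -u.2.1, u.2.2) (-p.1, -p.2.1, p.2.2) =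
        (-(qe b u p).1, -(qe b u p).2.1, (qe b u p).2.2) := by
      cases b <;> simp only [qe] <;> ext <;> simp <;> ring
    obtain ⟨i, hi⟩ := cg_fl j
    rw [e, e3, Lf_xfl, ← hi]
    exact h.con b i

theorem DomA.ng (h : DomA T1 T2 r e1 f1 e2 f2 c3 t u p) : DomA T1 T2 r e1 f1 e2 f2 c3 t (ng u) p := by
  have e : ∀ b, qe b (DL.ng u) p = qe (!b) u p := by
    intro b
    cases b <;> simp only [qe, DL.ng, Bool.not_false, Bool.not_true] <;> ext <;> simp <;> ring
  exact ⟨h.pos, h.lo, h.hi, fun b => by rw [e]; exact h.ball _, fun b j => by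
    rw [e]; exact h.con _ j, fun b => by rw [e]; exact h.cap _⟩

end

end Helper80.CW.DL
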