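import Pool.Agent.Helper80.CW.DU
import Pool.Agent.Helper29.TOP.PF

/-!
# Form S: integer lists, statement for all states, volume theorem
-/

set_option linter.all false

namespace Helper80.CW.DL

open Set Metric MeasureTheory Helper82.CW MvPolynomial Helper80.CW Helper37.FX Helper29.TOP
open scoped ContDiff Topology RealInnerProductSpace Real

/-- certificate of form S: seeds, scale `N`, target `M / (4 N)`, defects `T ∈ [t1 / K, t2 / K]`,
`r = rn / rd`, slacks `k1 + l1 τ, k2 + l2 τ` in units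
`1 / (16 K rd)` at `T = τ / K`, cap `|q|² ≤ k3 / (16 K rd)` -/
structure Ct2 where
  S0 : List Sd
  N : ℤ
  M : ℤ
  K : ℤ
  t1 : ℤ
  t2 : ℤ
  rn : ℤ
  rd : ℤ
  k1 : ℤ
  k2 : ℤ
  l1 : ℤ
  l2 : ℤ
  k3 : ℤ

namespace Ct2
variable (c : Ct2)

/-- the part with the constraints -/
def ct : Ct := ⟨[], [], c.N, c.M, c.K, c.t1, c.t2, c.rn, c.rd, c.k1, c.k2, c.l1, c.l2, c.k3⟩

/-- the list of a functional -/
def G (F : Sd → List Mo) : List Mo := (orbS c.S0).flatMap F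

/-- the lists of the matrix of mixed terms -/
def Nn (j l : Fin 3) : List Mo := c.G (gN j l)

/-- tangential trace -/
def TN : List Mo :=
  c.Nn 0 0 ++ (c.Nn 1 1 ++ (c.Nn 2 2 ++ (mm (-1) 0 0 (c.Nn 0 0) ++ (mm (-1) 0 1 (c.Nn 0 1) ++
    (mm (-1) 0 2 (c.Nn 0 2) ++ (mm (-1) 1 0 (c.Nn 1 0) ++ (mm (-1) 1 1 (c.Nn 1 1) ++
    (mm (-1) 1 2 (c.Nn 1 2) ++ (mm (-1) 2 0 (c.Nn 2 0) ++ (mm (-1) 2 1 (c.Nn 2 1) ++
    mm (-1) 2 2 (c.Nn 2 2)))))))))))

def Qp : List Mo := cst (c.M + c.N) :: ((c.G g2).map (sc (-1)) ++ ((c.G g0).map (sc (-4)) ++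
  ((c.G g1).map (sc (-4)) ++ c.TN.map (sc (-2)))))

def Qm : List Mo := cst (c.M + c.N) :: ((c.G g2).map (sc (-1)) ++ ((c.G g0).map (sc (-4)) ++
  ((c.G g1).map (sc 4) ++ c.TN.map (sc 2))))

def Qs : List Mo := cst (c.M - c.N) :: (c.G g2 ++ ((c.G g0).map (sc (-4)) ++ c.TN.map (sc 2)))

def P11 : List Mo := pf11 c.Qs c.Nn
def P12 : List Mo := pf12 c.Qs c.Nn
def P22 : List Mo := pf22 c.Qs c.Nn

/-- the conditions at a point -/
def GoodS (u p : V3) : Prop :=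
  0 ≤ vl c.Qp u p ∧ 0 ≤ vl c.Qm u p ∧
    ∀ w1 w2 : ℝ, 0 ≤ vl c.P11 u p * w1 ^ 2 + 2 * vl c.P12 u p * (w1 * w2) + vl c.P22 u p * w2 ^ 2

/-- a proposition holds at `(u, p)` if the point belongs to the domain of some state
(convex combination of the twelve vertices) -/
def Hy (u p : V3) (Q : Prop) : Prop :=
  ∀ θ : St × Bool → ℝ, (∀ v, 0 ≤ θ v) → ∑ v, θ v = 1 →
    (∀ i b, ∑ v, θ v * vl (c.ct.cL i b v.1 (c.ct.tau v.2)) u p ≤ 0) →
    (∀ b, vl (c.ct.capL b) u p ≤ 0) → Q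

/-- the three statements to be checked -/
def AffP (u p : V3) : Prop := c.Hy u p (0 ≤ vl c.Qp u p)
def AffM (u p : V3) : Prop := c.Hy u p (0 ≤ vl c.Qm u p)
def AffZ (u p : V3) : Prop := c.Hy u p
  (∀ w1 w2 : ℝ, 0 ≤ vl c.P11 u p * w1 ^ 2 + 2 * vl c.P12 u p * (w1 * w2) + vl c.P22 u p * w2 ^ 2)

/-- all three -/
def AffS (u p : V3) : Prop := c.Hy u p (c.GoodS u p)

theorem affS_of {u p : V3} (h1 : c.AffP u p) (h2 : c.AffM u p) (h3 : c.AffZ u p) : c.AffS u p :=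
  fun θ a b d e => ⟨h1 θ a b d e, h2 θ a b d e, h3 θ a b d e⟩

def ok : Bool :=
  decide (0 < c.N) && decide (0 < c.K) && decide (0 < c.rd) && decide (0 ≤ c.t1) &&
    decide (c.t1 < c.t2) && okS c.S0

theorem vl_TN (u p : V3) : vl c.TN u p = (vl (c.Nn 0 0) u p + vl (c.Nn 1 1) u p +
    vl (c.Nn 2 2) u p) - ∑ j, ∑ l, cv j u * cv l u * vl (c.Nn j l) u p := by
  have e : ∀ i, cx u i = cv i u := fun i => by fin_cases i <;> rfl
  unfold TN
  simp only [vl_append, vl_mm, Fin.sum_univ_three, e]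
  push_cast
  ring

theorem sum_vl (l : List Sd) (F : Sd → List Mo) (u p : V3) :
    (l.map fun s => vl (F s) u p).sum = vl (l.flatMap F) u p := by
  induction l with
  | nil => rfl
  | cons s l ih => rw [List.map_cons, List.sum_cons, ih, List.flatMap_cons, vl_append]

theorem AA_nil (S0 : List Sd) (t : St → ℝ) (F : Sd → List Mo) (u p : V3) :
    AA S0 [] t (fun s => vl (F s) u p) = vl ((orbS S0).flatMap F) u p := by
  unfold AA
  rw [sum_vl]
  have : ∀ a, orbSa a ([] : List Sd) = [] := by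
    intro a
    unfold orbSa
    simp
  simp [this]

theorem goodW {u p : V3} (hN : (0 : ℝ) < c.N) (hu : u.1 ^ 2 + u.2.1 ^ 2 + u.2.2 ^ 2 = 1)
    (h3 : 0 ≤ u.2.2) (h2 : u.2.2 ≤ u.2.1) (h1 : u.2.1 ≤ u.1) (h : c.GoodS u p) (t : St → ℝ) :
    GoodW c.S0 [] (c.N : ℝ) (c.M / (4 * c.N)) t u p := by
  have u0 : 0 < u.1 := by
    by_contra hh
    have a1 : u.1 = 0 := by linarith
    have a2 : u.2.1 = 0 := by linarith
    have a3 : u.2.2 = 0 := by linarith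
    rw [a1, a2, a3] at hu
    norm_num at hu
  obtain ⟨hp, hm, hz⟩ := h
  have tN : trT (NN c.S0 [] (c.N : ℝ) t u p) (fun i => cv i u) = vl c.TN u p / c.N := by
    rw [vl_TN]
    unfold trT bil NN
    simp only [AA_nil, Fin.sum_univ_three, Nn, G]
    ring
  unfold GoodW
  simp only [AA_nil]
  set A0 := vl ((orbS c.S0).flatMap g0) u p with hA0
  set A1 := vl ((orbS c.S0).flatMap g1) u p with hA1
  set A2 := vl ((orbS c.S0).flatMap g2) u p with hA2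
  have qp : vl c.Qp u p = c.M + c.N - A2 - 4 * A0 - 4 * A1 - 2 * vl c.TN u p := by
    unfold Qp G
    simp only [vl_cons, vm_cst, vl_append, vl_sc]
    push_cast
    ring
  have qm : vl c.Qm u p = c.M + c.N - A2 - 4 * A0 + 4 * A1 + 2 * vl c.TN u p := by
    unfold Qm G
    simp only [vl_cons, vm_cst, vl_append, vl_sc]
    push_cast
    ring
  have qs : vl c.Qs u p = c.M - c.N + A2 - 4 * A0 + 2 * vl c.TN u p := by
    unfold Qs G
    simp only [vl_cons, vm_cst, vl_append, vl_sc]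
    push_cast
    ring
  rw [qp] at hp
  rw [qm] at hm
  refine ⟨?_, ?_, ?_⟩
  · rw [tN, ← sub_nonneg]
    have : (c.M : ℝ) / (4 * c.N) - (-(1 / 4) + A0 / c.N + A1 / c.N + A2 / (2 * c.N) / 2 +
        vl c.TN u p / c.N / 2) =
        (c.M + c.N - A2 - 4 * A0 - 4 * A1 - 2 * vl c.TN u p) / (4 * c.N) := by field_simp; ring
    rw [this]
    positivity
  · rw [tN, ← sub_nonneg]
    have : (c.M : ℝ) / (4 * c.N) - (-(1 / 4) + A0 / c.N - A1 / c.N + A2 / (2 * c.N) / 2 -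
        vl c.TN u p / c.N / 2) =
        (c.M + c.N - A2 - 4 * A0 + 4 * A1 + 2 * vl c.TN u p) / (4 * c.N) := by field_simp; ring
    rw [this]
    positivity
  · intro e he hue
    have hc := pf_cond1 c.Qs c.Nn u0 hz (e := e)
      (by
        simp only [Fin.sum_univ_three, cv] at hue
        linarith)
      (by simpa only [Fin.sum_univ_three] using he)
    have hb : bil (NN c.S0 [] (c.N : ℝ) t u p) e e =
        (∑ j, ∑ l, e j * e l * vl (c.Nn j l) u p) / c.N := by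
      unfold bil NN
      simp only [AA_nil, Finset.sum_div, Nn, G]
      exact Finset.sum_congr rfl fun j _ => Finset.sum_congr rfl fun l _ => by ring
    rw [tN, hb, ← sub_nonneg]
    rw [qs] at hc
    set E := ∑ j, ∑ l, e j * e l * vl (c.Nn j l) u p
    have : (c.M : ℝ) / (4 * c.N) - (1 / 4 + A0 / c.N - A2 / (2 * c.N) / 2 + E / c.N -
        vl c.TN u p / c.N / 2) =
        (c.M - c.N + A2 - 4 * A0 + 2 * vl c.TN u p - 4 * E) / (4 * c.N) := by field_simp; ring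
    rw [this]
    positivity

/-- **volume, form S**: the conditions on the domain of every configuration -/
theorem vol {f : E3 → ℝ} (h : SSup f 1) {x0 : E3} (hx0 : x0 ∈ Bd f) (B : E3 ≃ₗᵢ[ℝ] E3)
    (hN : 0 < c.N) (hS : okS c.S0 = true) {T1 T2 r e1 f1 e2 f2 c3 : ℝ} (t : St → ℝ)
    (hD : ∀ u p : E3, ‖u‖ = 1 → x0 + B (p + (1 / 2 : ℝ) • u) ∈ Bd f →
      x0 + B (p - (1 / 2 : ℝ) • u) ∈ Bd f → DomA T1 T2 r e1 f1 e2 f2 c3 t (v3 u) (v3 p))
    (H : ∀ t (u p : V3), u.1 ^ 2 + u.2.1 ^ 2 + u.2.2 ^ 2 = 1 → 0 ≤ u.2.2 → u.2.2 ≤ u.2.1 →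
      u.2.1 ≤ u.1 → DomA T1 T2 r e1 f1 e2 f2 c3 t u p → c.GoodS u p) :
    ENNReal.ofReal (π / 6 - 2 * π * (c.M / (4 * c.N))) ≤ volume (Bd f) := by
  have hN' : (0 : ℝ) < c.N := by exact_mod_cast hN
  refine volF h hx0 B (S0 := c.S0) (S1 := []) (N := (c.N : ℝ)) hS rfl
    (Dom := DomA T1 T2 r e1 f1 e2 f2 c3)
    (fun θ u p h => h.s01) (fun θ u p h => h.s12) (fun θ u p h => h.fl) (fun θ u p h => h.ng) t
    hD ?_
  intro t u p hu h3 h2 h1 hd
  exact c.goodW hN' hu h3 h2 h1 (H t u p hu h3 h2 h1 hd) t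

/-- the numbers of the domain -/
noncomputable def T1r : ℝ := c.t1 / c.K
noncomputable def T2r : ℝ := c.t2 / c.K
noncomputable def rr : ℝ := c.rn / c.rd
noncomputable def e1r : ℝ := c.k1 / (16 * c.K * c.rd)
noncomputable def e2r : ℝ := c.k2 / (16 * c.K * c.rd)
noncomputable def f1r : ℝ := c.l1 / (16 * c.rd)
noncomputable def f2r : ℝ := c.l2 / (16 * c.rd)
noncomputable def c3r : ℝ := c.k3 / (16 * c.K * c.rd)

/-- from the twelve vertices to the domain of a configuration -/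
theorem Hy.dom {c : Ct2} (hok : c.ok = true) {u p : V3} {Q : Prop} (h : c.Hy u p Q)
    (hu : u.1 ^ 2 + u.2.1 ^ 2 + u.2.2 ^ 2 = 1) {t : St → ℝ}
    (hd : DomA c.T1r c.T2r c.rr c.e1r c.f1r c.e2r c.f2r c.c3r t u p) : Q := by
  simp only [ok, Bool.and_eq_true, decide_eq_true_eq] at hok
  obtain ⟨⟨⟨⟨⟨hN, hK⟩, hr⟩, ht1⟩, ht2⟩, hS⟩ := hok
  have hK' : (0 : ℝ) < c.K := by exact_mod_cast hK
  have hr' : (0 : ℝ) < c.rd := by exact_mod_cast hr
  have ht1' : (0 : ℝ) ≤ c.t1 := by exact_mod_cast ht1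
  have ht2' : (c.t1 : ℝ) < c.t2 := by exact_mod_cast ht2
  have hden : (0 : ℝ) < 16 * (c.K : ℝ) * c.rd := by positivity
  have hde : ((c.ct.den : ℤ) : ℝ) = 16 * (c.K : ℝ) * c.rd := by
    unfold Ct.den ct
    push_cast
    ring
  obtain ⟨θ, th0, th1, rfl⟩ := c.ct.exists_tof (t := t) hK' ht1' ht2' hd.pos hd.lo hd.hi
  refine h θ th0 th1 ?_ ?_
  swap
  · intro b
    rw [c.ct.vl_capL b (by exact hu) p, hde]
    have hb := hd.cap b
    have e : (16 * (c.K : ℝ) * c.rd) * c.c3r = c.k3 := by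
      unfold c3r
      field_simp
    have h2 := mul_le_mul_of_nonneg_left hb hden.le
    have h3 : (c.ct.k3 : ℝ) = c.k3 := rfl
    rw [h3]
    linarith
  intro i b
  rw [c.ct.sum_cL hK'.ne' hr'.ne' i b (by exact hu) p th1]
  cases i with
  | none =>
    have hb := hd.ball b
    simp only [Ct.cf]
    rw [hde]
    have e : (16 * (c.K : ℝ) * c.rd) * (c.e1r + c.f1r * Tt (c.ct.tof θ)) =
        c.k1 + c.l1 * c.K * Tt (c.ct.tof θ) := by
      unfold e1r f1r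
      field_simp
    have h2 := mul_le_mul_of_nonneg_left hb hden.le
    have h3 : (c.ct.k1 : ℝ) + c.ct.l1 * c.ct.K * Tt (c.ct.tof θ) =
        c.k1 + c.l1 * c.K * Tt (c.ct.tof θ) := rfl
    rw [h3]
    linarith
  | some j =>
    have hb := hd.con b j
    simp only [Ct.cf]
    rw [hde]
    have e : (16 * (c.K : ℝ) * c.rd) * (c.e2r + c.f2r * Tt (c.ct.tof θ)) =
        c.k2 + c.l2 * c.K * Tt (c.ct.tof θ) := by
      unfold e2r f2r
      field_simp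
    have h2 := mul_le_mul_of_nonneg_left hb hden.le
    have h3 : (c.ct.k2 : ℝ) + c.ct.l2 * c.ct.K * Tt (c.ct.tof θ) =
        c.k2 + c.l2 * c.K * Tt (c.ct.tof θ) := rfl
    have h4 : ((c.ct.rn : ℝ) / c.ct.rd) = c.rr := rfl
    rw [h3, h4]
    linarith

/-- **volume, form S, from the statement at the twelve vertices** -/
theorem volAff {c : Ct2} (hok : c.ok = true) {f : E3 → ℝ} (h : SSup f 1) {x0 : E3}
    (hx0 : x0 ∈ Bd f) (B : E3 ≃ₗᵢ[ℝ] E3) (t : St → ℝ)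
    (hD : ∀ u p : E3, ‖u‖ = 1 → x0 + B (p + (1 / 2 : ℝ) • u) ∈ Bd f →
      x0 + B (p - (1 / 2 : ℝ) • u) ∈ Bd f → DomA c.T1r c.T2r c.rr c.e1r c.f1r c.e2r c.f2r c.c3r t (v3 u) (v3 p))
    (H : ∀ (u p : V3), u.1 ^ 2 + u.2.1 ^ 2 + u.2.2 ^ 2 = 1 → 0 ≤ u.2.2 → u.2.2 ≤ u.2.1 →
      u.2.1 ≤ u.1 → c.AffS u p) :
    ENNReal.ofReal (π / 6 - 2 * π * (c.M / (4 * c.N))) ≤ volume (Bd f) := by
  have hok' := hok
  simp only [ok, Bool.and_eq_true, decide_eq_true_eq] at hok'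
  obtain ⟨⟨⟨⟨⟨hN, hK⟩, hr⟩, ht1⟩, ht2⟩, hS⟩ := hok'
  exact c.vol h hx0 B hN hS t hD
    fun t u p hu h3 h2 h1 hd => (H u p hu h3 h2 h1).dom hok hu hd

end Ct2

end Helper80.CW.DL
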