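import Pool.Agent.Helper80.CW.DV

/-!
# The computable layer: lists of monomials, orbits of the symmetry group of the tetrahedron
-/

set_option linter.all false

namespace Helper80.CW.DL

open Set Metric MeasureTheory Helper82.CW MvPolynomial Helper80.CW Helper37.FX
open scoped ContDiff Topology RealInnerProductSpace Real

/-- a monomial: coefficient, exponents of `u`, exponents of `p` -/
abbrev Mo := ℤ × (ℕ × ℕ × ℕ) × (ℕ × ℕ × ℕ)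

/-- a real vector with three entries -/
abbrev V3 := ℝ × ℝ × ℝ

/-- value of a monomial -/
def vm (m : Mo) (u p : V3) : ℝ :=
  (m.1 : ℝ) * (u.1 ^ m.2.1.1 * u.2.1 ^ m.2.1.2.1 * u.2.2 ^ m.2.1.2.2) *
    (p.1 ^ m.2.2.1 * p.2.1 ^ m.2.2.2.1 * p.2.2 ^ m.2.2.2.2)

/-- value of a list of monomials -/
def vl (l : List Mo) (u p : V3) : ℝ := (l.map fun m => vm m u p).sum

theorem vl_nil (u p : V3) : vl [] u p = 0 := rfl

theorem vl_cons (m : Mo) (l : List Mo) (u p : V3) : vl (m :: l) u p = vm m u p + vl l u p := by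
  simp [vl]

theorem vl_append (l l' : List Mo) (u p : V3) : vl (l ++ l') u p = vl l u p + vl l' u p := by
  simp [vl]

/-- the polynomial of a monomial -/
noncomputable def toPQ (m : Mo) : PQ :=
  C (m.1 : ℝ) * (X (Sum.inl 0) ^ m.2.1.1 * X (Sum.inl 1) ^ m.2.1.2.1 * X (Sum.inl 2) ^ m.2.1.2.2) *
    (X (Sum.inr 0) ^ m.2.2.1 * X (Sum.inr 1) ^ m.2.2.2.1 * X (Sum.inr 2) ^ m.2.2.2.2)

/-- coordinates -/
def v3 (x : E3) : V3 := (x 0, x 1, x 2)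

theorem val_toPQ (m : Mo) (u p : E3) : val (toPQ m) u p = vm m (v3 u) (v3 p) := by
  simp [val, toPQ, vm, v3]

def du (i : Fin 3) (m : Mo) : Mo :=
  match i with
  | 0 => (m.1 * m.2.1.1, (m.2.1.1 - 1, m.2.1.2.1, m.2.1.2.2), m.2.2)
  | 1 => (m.1 * m.2.1.2.1, (m.2.1.1, m.2.1.2.1 - 1, m.2.1.2.2), m.2.2)
  | 2 => (m.1 * m.2.1.2.2, (m.2.1.1, m.2.1.2.1, m.2.1.2.2 - 1), m.2.2)

def dp (i : Fin 3) (m : Mo) : Mo :=
  match i with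
  | 0 => (m.1 * m.2.2.1, m.2.1, (m.2.2.1 - 1, m.2.2.2.1, m.2.2.2.2))
  | 1 => (m.1 * m.2.2.2.1, m.2.1, (m.2.2.1, m.2.2.2.1 - 1, m.2.2.2.2))
  | 2 => (m.1 * m.2.2.2.2, m.2.1, (m.2.2.1, m.2.2.2.1, m.2.2.2.2 - 1))

def mu (i : Fin 3) (m : Mo) : Mo :=
  match i with
  | 0 => (m.1, (m.2.1.1 + 1, m.2.1.2.1, m.2.1.2.2), m.2.2)
  | 1 => (m.1, (m.2.1.1, m.2.1.2.1 + 1, m.2.1.2.2), m.2.2)
  | 2 => (m.1, (m.2.1.1, m.2.1.2.1, m.2.1.2.2 + 1), m.2.2)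

def sc (c : ℤ) (m : Mo) : Mo := (c * m.1, m.2)

theorem toPQ_du (i : Fin 3) (m : Mo) : toPQ (du i m) = pderiv (Sum.inl i) (toPQ m) := by
  obtain ⟨c, ⟨a0, a1, a2⟩, ⟨b0, b1, b2⟩⟩ := m
  fin_cases i <;>
  · simp [toPQ, du, pderiv_mul, pderiv_pow, pderiv_X_of_ne, pderiv_X_self]
    ring

theorem toPQ_dp (i : Fin 3) (m : Mo) : toPQ (dp i m) = pderiv (Sum.inr i) (toPQ m) := by
  obtain ⟨c, ⟨a0, a1, a2⟩, ⟨b0, b1, b2⟩⟩ := m
  fin_cases i <;>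
  · simp [toPQ, dp, pderiv_mul, pderiv_pow, pderiv_X_of_ne, pderiv_X_self]
    ring

theorem toPQ_mu (i : Fin 3) (m : Mo) : toPQ (mu i m) = X (Sum.inl i) * toPQ m := by
  obtain ⟨c, ⟨a0, a1, a2⟩, ⟨b0, b1, b2⟩⟩ := m
  fin_cases i <;>
  · simp [toPQ, mu]
    ring

theorem toPQ_sc (c : ℤ) (m : Mo) : toPQ (sc c m) = C (c : ℝ) * toPQ m := by
  obtain ⟨d, ⟨a0, a1, a2⟩, ⟨b0, b1, b2⟩⟩ := m
  simp [toPQ, sc]
  ring

/-- degree in `u` -/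
def dg (m : Mo) : ℕ := m.2.1.1 + m.2.1.2.1 + m.2.1.2.2

theorem toPQ_hom (m : Mo) : IsWeightedHomogeneous w (toPQ m) (dg m) := by
  obtain ⟨c, ⟨a0, a1, a2⟩, ⟨b0, b1, b2⟩⟩ := m
  have hX : ∀ n, IsWeightedHomogeneous w (X n : PQ) (w n) := fun n =>
    isWeightedHomogeneous_X ℝ w n
  have h1 := (((isWeightedHomogeneous_C w (c : ℝ)).mul
    ((((hX (Sum.inl 0)).pow a0).mul ((hX (Sum.inl 1)).pow a1)).mul ((hX (Sum.inl 2)).pow a2))).mul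
    ((((hX (Sum.inr 0)).pow b0).mul ((hX (Sum.inr 1)).pow b1)).mul ((hX (Sum.inr 2)).pow b2)))
  have e : dg (c, (a0, a1, a2), (b0, b1, b2)) =
      0 + (a0 • w (Sum.inl 0) + a1 • w (Sum.inl 1) + a2 • w (Sum.inl 2)) +
      (b0 • w (Sum.inr 0) + b1 • w (Sum.inr 1) + b2 • w (Sum.inr 2)) := by
    simp [dg, w]
  rw [e]
  exact h1

/-- the lists of `D0`, `D1`, `2 D2` of a monomial -/
def d0 (m : Mo) : List Mo :=
  [du 0 (du 0 m), du 1 (du 1 m), du 2 (du 2 m), sc (-((dg m : ℤ) * (dg m + 1))) m]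

def d1 (m : Mo) : List Mo :=
  [du 0 (dp 0 m), du 1 (dp 1 m), du 2 (dp 2 m), sc (-((dg m : ℤ) + 1)) (mu 0 (dp 0 m)),
    sc (-((dg m : ℤ) + 1)) (mu 1 (dp 1 m)), sc (-((dg m : ℤ) + 1)) (mu 2 (dp 2 m))]

def d2 (m : Mo) : List Mo :=
  [dp 0 (dp 0 m), dp 1 (dp 1 m), dp 2 (dp 2 m),
    sc (-1) (mu 0 (mu 0 (dp 0 (dp 0 m)))), sc (-1) (mu 1 (mu 1 (dp 1 (dp 1 m)))),
    sc (-1) (mu 2 (mu 2 (dp 2 (dp 2 m)))), sc (-2) (mu 0 (mu 1 (dp 1 (dp 0 m)))),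
    sc (-2) (mu 0 (mu 2 (dp 2 (dp 0 m)))), sc (-2) (mu 1 (mu 2 (dp 2 (dp 1 m))))]

theorem val_D0 (m : Mo) (u p : E3) :
    val (D0 (dg m) (toPQ m)) u p = vl (d0 m) (v3 u) (v3 p) := by
  simp only [d0, vl_cons, vl_nil, ← val_toPQ, toPQ_du, toPQ_sc, D0, Fin.sum_univ_three, val,
    map_add, map_sub, map_mul, eval_C]
  push_cast
  ring

theorem val_D1 (m : Mo) (u p : E3) :
    val (D1 (dg m) (toPQ m)) u p = vl (d1 m) (v3 u) (v3 p) := by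
  simp only [d1, vl_cons, vl_nil, ← val_toPQ, toPQ_du, toPQ_dp, toPQ_mu, toPQ_sc, D1,
    Fin.sum_univ_three, val, map_add, map_sub, map_mul, eval_C]
  push_cast
  ring

theorem val_D2 (m : Mo) (u p : E3) :
    2 * val (D2 (toPQ m)) u p = vl (d2 m) (v3 u) (v3 p) := by
  have c1 := pderiv_comm' (Sum.inr 1) (Sum.inr 0) (toPQ m)
  have c2 := pderiv_comm' (Sum.inr 2) (Sum.inr 0) (toPQ m)
  have c3 := pderiv_comm' (Sum.inr 2) (Sum.inr 1) (toPQ m)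
  simp only [d2, vl_cons, vl_nil, ← val_toPQ, toPQ_dp, toPQ_mu, toPQ_sc, D2,
    Fin.sum_univ_three, val, map_add, map_sub, map_mul, eval_C, c1, c2, c3]
  push_cast
  ring

end Helper80.CW.DL
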