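import Pool.Agent.Helper80.CW.DJ
import Pool.Agent.Helper45.TOP.Cnd

/-!
# The constraints as integer data, lists of states and constraints
-/

set_option linter.all false

namespace Helper80.CW.DL

open Set Metric MeasureTheory Helper82.CW MvPolynomial Helper80.CW Helper37.FX
open Pool.Agent.Helper45.TOP

namespace Ct
variable (c : Ct)

/-- a constraint at a vertex as integer data -/
def cvx (i : Option (Fin 4)) (b : Bool) (a : St) (τ : ℤ) : Cv :=
  match i with
  | none => Cv.mk2 (!b) c.den 0 0 0 (-(c.rd * (6 * c.K - τ)) - (c.k1 + c.l1 * τ))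
  | some j =>
    let s := cgz j
    let G := Eg s (dl a)
    Cv.mk2 (!b) c.den (-4 * (c.rn * (4 * c.K * s.1 + τ * G.1)))
      (-4 * (c.rn * (4 * c.K * s.2.1 + τ * G.2.1))) (-4 * (c.rn * (4 * c.K * s.2.2 + τ * G.2.2)))
      (-(16 * c.K * c.rd) + c.rd * (6 * c.K - τ) - (c.k2 + c.l2 * τ))

theorem vl_cvx (i : Option (Fin 4)) (b : Bool) (a : St) (τ : ℤ) (u p : V3) :
    vl (c.cL i b a τ) u p = (c.cvx i b a τ).val u.1 u.2.1 u.2.2 p.1 p.2.1 p.2.2 := by
  cases i with
  | none =>
    cases b <;>
    · simp only [cL, cvx, vl, vm, cst, den, sgn, Cv.mk2, Cv.val, List.cons_append, List.nil_append,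
        List.map_cons, List.map_nil, List.sum_cons, List.sum_nil, Bool.not_true, Bool.not_false,
        cond, Bool.false_eq_true, if_false, if_true]
      push_cast
      ring
  | some j =>
    generalize hs : cgz j = s
    obtain ⟨s0, s1, s2⟩ := s
    cases b <;>
    · simp only [cL, cvx, vl, vm, cst, den, sgn, Cv.mk2, Cv.val, List.cons_append, List.nil_append,
        List.map_cons, List.map_nil, List.sum_cons, List.sum_nil, Bool.not_true, Bool.not_false,
        cond, Bool.false_eq_true, if_false, if_true, hs]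
      push_cast
      ring

/-- constraints in order: index `2 i' + b` -/
def cix : List (Option (Fin 4) × Bool) :=
  [(none, false), (none, true), (some 0, false), (some 0, true), (some 1, false), (some 1, true),
    (some 2, false), (some 2, true), (some 3, false), (some 3, true)]

/-- states in order: index `2 a' + bool` -/
def vix : List (St × Bool) :=
  [((0, false), false), ((0, false), true), ((0, true), false), ((0, true), true),
    ((1, false), false), ((1, false), true), ((1, true), false), ((1, true), true),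
    ((2, false), false), ((2, false), true), ((2, true), false), ((2, true), true)]

theorem mem_cix (x : Option (Fin 4) × Bool) : x ∈ cix := by
  revert x; decide

theorem mem_vix (v : St × Bool) : v ∈ vix := by
  revert v; decide

theorem sum_vix (F : St × Bool → ℝ) : ∑ v, F v = (vix.map F).sum := by
  simp only [Fintype.sum_prod_type, Fin.sum_univ_three, Fintype.sum_bool, vix, List.map_cons,
    List.map_nil, List.sum_cons, List.sum_nil]
  ring

/-- for every state the list of the ten constraints -/
def cvs : List (List Cv) := vix.map fun v => cix.map fun i => c.cvx i.1 i.2 v.1 (c.tau v.2)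

end Ct

/-- the cap as integer data -/
def Ct.capv (c : Ct) (b : Bool) : Cv := Cv.mk2 (!b) c.den 0 0 0 (-c.k3)

theorem Ct.vl_capv (c : Ct) (b : Bool) (u p : V3) :
    vl (c.capL b) u p = (c.capv b).val u.1 u.2.1 u.2.2 p.1 p.2.1 p.2.2 := by
  cases b <;>
  · simp only [capL, capv, vl, vm, cst, den, sgn, Cv.mk2, Cv.val,
      List.map_cons, List.map_nil, List.sum_cons, List.sum_nil, Bool.not_true, Bool.not_false,
      cond, Bool.false_eq_true, if_false, if_true]
    push_cast
    ring

/-- the twelve constraints as functions of the state, index `2 i' + b`, `10, 11` = cap -/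
def Ct.cfs (c : Ct) : List (St × Bool → Cv) :=
  (Ct.cix.map fun i v => c.cvx i.1 i.2 v.1 (c.tau v.2)) ++
    [fun _ => c.capv false, fun _ => c.capv true]

/-- for every state the list of the twelve constraints -/
def Ct.cvs12 (c : Ct) : List (List Cv) := Ct.vix.map fun v => c.cfs.map fun F => F v

/-- the hypothesis with integer data -/
theorem Ct2.Hy.of_cv {c : Ct2} {u p : V3} {Q : Prop}
    (h : ∀ θ : St × Bool → ℝ, (∀ v, 0 ≤ θ v) → ∑ v, θ v = 1 →
      (∀ F ∈ c.ct.cfs, ∑ v, θ v * (F v).val u.1 u.2.1 u.2.2 p.1 p.2.1 p.2.2 ≤ 0) → Q) :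
    c.Hy u p Q := by
  intro θ h0 h1 hC hcap
  refine h θ h0 h1 fun F hF => ?_
  unfold Ct.cfs at hF
  rcases List.mem_append.1 hF with hF | hF
  · obtain ⟨i, hi, rfl⟩ := List.mem_map.1 hF
    have := hC i.1 i.2
    simp only [c.ct.vl_cvx] at this
    exact this
  · have e : ∀ b, ∑ v, θ v * (c.ct.capv b).val u.1 u.2.1 u.2.2 p.1 p.2.1 p.2.2 ≤ 0 := by
      intro b
      rw [← Finset.sum_mul, h1, one_mul, ← c.ct.vl_capv]
      exact hcap b
    simp only [List.mem_cons, List.not_mem_nil, or_false] at hF
    rcases hF with rfl | rfl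
    · exact e false
    · exact e true

/-- the same with lists -/
theorem Ct2.Hy.of_list {c : Ct2} {u p : V3} {Q : Prop}
    (h : ∀ θ : St × Bool → ℝ, (∀ v, 0 ≤ θ v) → (Ct.vix.map θ).sum = 1 →
      (∀ F ∈ c.ct.cfs, (Ct.vix.map fun v => θ v * (F v).val
        u.1 u.2.1 u.2.2 p.1 p.2.1 p.2.2).sum ≤ 0) → Q) : c.Hy u p Q := by
  refine Ct2.Hy.of_cv fun θ h0 h1 hC => h θ h0 (by rw [← Ct.sum_vix]; exact h1) fun F hF => ?_
  rw [← Ct.sum_vix]
  exact hC F hF

end Helper80.CW.DL
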