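import Mathlib

/-!
# A checker for polynomial inequalities in two variables on a curved triangle

Polynomials in `x` with coefficients polynomials in `y` (integer coefficients), evaluated on the
unit square; halving of boxes by exact Taylor shifts; a box is accepted if `c₀₀ + ∑ max c 0 ≤ 0`
or if it lies outside the region `F + F² + r y ≤ r`, `F = Fm x`.
-/

namespace Helper80.BX

def ev : List ℤ → ℝ → ℝ
  | [], _ => 0
  | c :: l, y => c + y * ev l y

def ev2 : List (List ℤ) → ℝ → ℝ → ℝ
  | [], _, _ => 0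
  | l :: p, x, y => ev l y + x * ev2 p x y

def smul (k : ℤ) : List ℤ → List ℤ
  | [] => []
  | c :: l => k * c :: smul k l

def addl : List ℤ → List ℤ → List ℤ
  | [], m => m
  | a :: l, [] => a :: l
  | a :: l, b :: m => (a + b) :: addl l m

def hl : List ℤ → List ℤ
  | [] => []
  | c :: l => c * 2 ^ l.length :: hl l

def sh : List ℤ → List ℤ
  | [] => []
  | c :: l => addl (c :: sh l) (sh l)

def add2 : List (List ℤ) → List (List ℤ) → List (List ℤ)
  | [], q => q
  | l :: p, [] => l :: p
  | l :: p, m :: q => addl l m :: add2 p q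

def hl2 : List (List ℤ) → List (List ℤ)
  | [] => []
  | l :: p => smul (2 ^ p.length) l :: hl2 p

def sh2 : List (List ℤ) → List (List ℤ)
  | [] => []
  | l :: p => add2 (l :: sh2 p) (sh2 p)

def mhl : List (List ℤ) → List (List ℤ)
  | [] => []
  | l :: p => hl l :: mhl p

def msh : List (List ℤ) → List (List ℤ)
  | [] => []
  | l :: p => sh l :: msh p

def pz (c : ℤ) : ℤ := max c 0

def ubl : List ℤ → ℤ
  | [] => 0
  | c :: l => pz c + ubl l

def ub0 : List ℤ → ℤ
  | [] => 0
  | c :: l => c + ubl l

def ubs : List (List ℤ) → ℤ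
  | [] => 0
  | l :: p => ubl l + ubs p

def ub : List (List ℤ) → ℤ
  | [] => 0
  | l :: p => ub0 l + ubs p

theorem ev_smul (k : ℤ) (l : List ℤ) (y : ℝ) : ev (smul k l) y = k * ev l y := by
  induction l with
  | nil => simp [smul, ev]
  | cons c l ih =>
    simp only [smul, ev, ih]
    push_cast
    ring

theorem ev_addl (l m : List ℤ) (y : ℝ) : ev (addl l m) y = ev l y + ev m y := by
  induction l generalizing m with
  | nil => simp [addl, ev]
  | cons a l ih =>
    cases m with
    | nil => simp [addl, ev]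
    | cons b m =>
      simp only [addl, ev, ih]
      push_cast
      ring

theorem ev_hl (l : List ℤ) (y : ℝ) : 2 * ev (hl l) y = 2 ^ l.length * ev l (y / 2) := by
  induction l with
  | nil => simp [hl, ev]
  | cons c l ih =>
    simp only [hl, ev, List.length_cons]
    push_cast
    rw [pow_succ]
    linear_combination y * ih

theorem ev_sh (l : List ℤ) (y : ℝ) : ev (sh l) y = ev l (1 + y) := by
  induction l with
  | nil => simp [sh, ev]
  | cons c l ih =>
    simp only [sh, ev_addl, ev, ih]
    ring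

theorem ev2_add2 (p q : List (List ℤ)) (x y : ℝ) : ev2 (add2 p q) x y = ev2 p x y + ev2 q x y := by
  induction p generalizing q with
  | nil => simp [add2, ev2]
  | cons l p ih =>
    cases q with
    | nil => simp [add2, ev2]
    | cons m q =>
      simp only [add2, ev2, ih, ev_addl]
      ring

theorem ev2_hl2 (p : List (List ℤ)) (x y : ℝ) :
    2 * ev2 (hl2 p) x y = 2 ^ p.length * ev2 p (x / 2) y := by
  induction p with
  | nil => simp [hl2, ev2]
  | cons l p ih =>
    simp only [hl2, ev2, List.length_cons, ev_smul]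
    push_cast
    rw [pow_succ]
    linear_combination x * ih

theorem ev2_sh2 (p : List (List ℤ)) (x y : ℝ) : ev2 (sh2 p) x y = ev2 p (1 + x) y := by
  induction p with
  | nil => simp [sh2, ev2]
  | cons l p ih =>
    simp only [sh2, ev2_add2, ev2, ih]
    ring

theorem ev2_msh (p : List (List ℤ)) (x y : ℝ) : ev2 (msh p) x y = ev2 p x (1 + y) := by
  induction p with
  | nil => simp [msh, ev2]
  | cons l p ih => simp only [msh, ev2, ih, ev_sh]

/-- all rows have length `n` -/
def Rect (n : ℕ) : List (List ℤ) → Prop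
  | [] => True
  | l :: p => l.length = n ∧ Rect n p

theorem ev2_mhl {n : ℕ} (p : List (List ℤ)) (hp : Rect n p) (x y : ℝ) :
    2 * ev2 (mhl p) x y = 2 ^ n * ev2 p x (y / 2) := by
  induction p with
  | nil => simp [mhl, ev2]
  | cons l p ih =>
    have h1 := ev_hl l y
    rw [hp.1] at h1
    have h2 := ih hp.2
    simp only [mhl, ev2]
    linear_combination h1 + x * h2

theorem len_smul (k : ℤ) (l : List ℤ) : (smul k l).length = l.length := by
  induction l with
  | nil => rfl
  | cons c l ih => simp [smul, ih]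

theorem len_addl (l m : List ℤ) : (addl l m).length = max l.length m.length := by
  induction l generalizing m with
  | nil => simp [addl]
  | cons a l ih =>
    cases m with
    | nil => simp [addl]
    | cons b m =>
      simp only [addl, List.length_cons, ih]
      omega

theorem len_hl (l : List ℤ) : (hl l).length = l.length := by
  induction l with
  | nil => rfl
  | cons c l ih => simp [hl, ih]

theorem len_sh (l : List ℤ) : (sh l).length = l.length := by
  induction l with
  | nil => rfl
  | cons c l ih =>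
    simp only [sh, len_addl, List.length_cons, ih]
    omega

theorem rect_add2 {n : ℕ} (p q : List (List ℤ)) (hp : Rect n p) (hq : Rect n q) :
    Rect n (add2 p q) := by
  induction p generalizing q with
  | nil => simpa [add2] using hq
  | cons l p ih =>
    cases q with
    | nil => simpa [add2] using hp
    | cons m q =>
      refine ⟨?_, ih q hp.2 hq.2⟩
      rw [len_addl, hp.1, hq.1]
      simp

theorem rect_hl2 {n : ℕ} (p : List (List ℤ)) (hp : Rect n p) : Rect n (hl2 p) := by
  induction p with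
  | nil => trivial
  | cons l p ih => exact ⟨by rw [len_smul]; exact hp.1, ih hp.2⟩

theorem rect_sh2 {n : ℕ} (p : List (List ℤ)) (hp : Rect n p) : Rect n (sh2 p) := by
  induction p with
  | nil => trivial
  | cons l p ih => exact rect_add2 _ _ ⟨hp.1, ih hp.2⟩ (ih hp.2)

theorem rect_mhl {n : ℕ} (p : List (List ℤ)) (hp : Rect n p) : Rect n (mhl p) := by
  induction p with
  | nil => trivial
  | cons l p ih => exact ⟨by rw [len_hl]; exact hp.1, ih hp.2⟩

theorem rect_msh {n : ℕ} (p : List (List ℤ)) (hp : Rect n p) : Rect n (msh p) := by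
  induction p with
  | nil => trivial
  | cons l p ih => exact ⟨by rw [len_sh]; exact hp.1, ih hp.2⟩

theorem ubl_nonneg (l : List ℤ) : 0 ≤ ubl l := by
  induction l with
  | nil => simp [ubl]
  | cons c l ih =>
    have : 0 ≤ pz c := le_max_right _ _
    simp only [ubl]
    omega

theorem ubs_nonneg (p : List (List ℤ)) : 0 ≤ ubs p := by
  induction p with
  | nil => simp [ubs]
  | cons l p ih =>
    have := ubl_nonneg l
    simp only [ubs]
    omega

theorem ev_le (l : List ℤ) {y : ℝ} (h0 : 0 ≤ y) (h1 : y ≤ 1) : ev l y ≤ ubl l := by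
  induction l with
  | nil => simp [ev, ubl]
  | cons c l ih =>
    have a1 : (0 : ℝ) ≤ ubl l := by exact_mod_cast ubl_nonneg l
    have a2 : (c : ℝ) ≤ pz c := by exact_mod_cast le_max_left c 0
    have a3 := mul_le_mul_of_nonneg_left ih h0
    have a4 := mul_le_mul_of_nonneg_right h1 a1
    simp only [ev, ubl]
    push_cast
    linarith

theorem ev_le0 (l : List ℤ) {y : ℝ} (h0 : 0 ≤ y) (h1 : y ≤ 1) : ev l y ≤ ub0 l := by
  cases l with
  | nil => simp [ev, ub0]
  | cons c l =>
    have a1 : (0 : ℝ) ≤ ubl l := by exact_mod_cast ubl_nonneg l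
    have a3 := mul_le_mul_of_nonneg_left (ev_le l h0 h1) h0
    have a4 := mul_le_mul_of_nonneg_right h1 a1
    simp only [ev, ub0]
    push_cast
    linarith

theorem ev2_le (p : List (List ℤ)) {x y : ℝ} (hx0 : 0 ≤ x) (hx1 : x ≤ 1) (h0 : 0 ≤ y)
    (h1 : y ≤ 1) : ev2 p x y ≤ ubs p := by
  induction p with
  | nil => simp [ev2, ubs]
  | cons l p ih =>
    have a1 : (0 : ℝ) ≤ ubs p := by exact_mod_cast ubs_nonneg p
    have a2 := ev_le l h0 h1
    have a3 := mul_le_mul_of_nonneg_left ih hx0
    have a4 := mul_le_mul_of_nonneg_right hx1 a1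
    simp only [ev2, ubs]
    push_cast
    linarith

theorem ev2_le_ub (p : List (List ℤ)) {x y : ℝ} (hx0 : 0 ≤ x) (hx1 : x ≤ 1) (h0 : 0 ≤ y)
    (h1 : y ≤ 1) : ev2 p x y ≤ ub p := by
  cases p with
  | nil => simp [ev2, ub]
  | cons l p =>
    have a1 : (0 : ℝ) ≤ ubs p := by exact_mod_cast ubs_nonneg p
    have a2 := ev_le0 l h0 h1
    have a3 := mul_le_mul_of_nonneg_left (ev2_le p hx0 hx1 h0 h1) hx0
    have a4 := mul_le_mul_of_nonneg_right hx1 a1
    simp only [ev2, ub]
    push_cast
    linarith

/-- the box is outside of the region -/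
def outB (fn rn N i a j b : ℕ) : Bool :=
  Nat.blt (rn * N * 4 ^ a * 2 ^ b)
    (fn * i * N * 2 ^ a * 2 ^ b + fn ^ 2 * i ^ 2 * 2 ^ b + rn * j * N * 4 ^ a)

/-- the checker -/
def chk (fn rn N : ℕ) : ℕ → List (List ℤ) → ℕ → ℕ → ℕ → ℕ → Bool
  | 0, p, i, a, j, b => decide (ub p ≤ 0) || outB fn rn N i a j b
  | k + 1, p, i, a, j, b => decide (ub p ≤ 0) || (outB fn rn N i a j b ||
      (match k % 2 with
        | 0 => chk fn rn N k (hl2 p) (2 * i) (a + 1) j b &&
            chk fn rn N k (sh2 (hl2 p)) (2 * i + 1) (a + 1) j b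
        | _ => chk fn rn N k (mhl p) i a (2 * j) (b + 1) &&
            chk fn rn N k (msh (mhl p)) i a (2 * j + 1) (b + 1)))

/-- the region -/
def Reg (fn rn N : ℕ) (X Y : ℝ) : Prop :=
  (fn : ℝ) / N * X + ((fn : ℝ) / N * X) ^ 2 + (rn : ℝ) / N * Y ≤ (rn : ℝ) / N

theorem outB_spec {fn rn N i a j b : ℕ} (hN : 0 < N) (h : outB fn rn N i a j b = true) {x y : ℝ}
    (hx : 0 ≤ x) (hy : 0 ≤ y) :
    ¬ Reg fn rn N ((i + x) / 2 ^ a) ((j + y) / 2 ^ b) := by
  intro hR
  unfold outB at h
  rw [Nat.blt_eq] at h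
  have h' : ((rn * N * 4 ^ a * 2 ^ b : ℕ) : ℝ) <
      ((fn * i * N * 2 ^ a * 2 ^ b + fn ^ 2 * i ^ 2 * 2 ^ b + rn * j * N * 4 ^ a : ℕ) : ℝ) := by
    exact_mod_cast h
  push_cast at h'
  unfold Reg at hR
  have hN' : (0 : ℝ) < N := by exact_mod_cast hN
  have e4 : (4 : ℝ) ^ a = 2 ^ a * 2 ^ a := by
    rw [← mul_pow]
    norm_num
  rw [e4] at h'
  set A : ℝ := 2 ^ a with hA
  set B : ℝ := 2 ^ b with hB
  have hA0 : 0 < A := by positivity
  have hB0 : 0 < B := by positivity
  have k1 : (fn : ℝ) / N * ((i : ℝ) / A) ≤ (fn : ℝ) / N * ((i + x) / A) := by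
    apply mul_le_mul_of_nonneg_left _ (by positivity)
    apply div_le_div_of_nonneg_right _ hA0.le
    linarith
  have k2 : ((fn : ℝ) / N * ((i : ℝ) / A)) ^ 2 ≤ ((fn : ℝ) / N * ((i + x) / A)) ^ 2 :=
    pow_le_pow_left₀ (by positivity) k1 2
  have k3 : (rn : ℝ) / N * ((j : ℝ) / B) ≤ (rn : ℝ) / N * ((j + y) / B) := by
    apply mul_le_mul_of_nonneg_left _ (by positivity)
    apply div_le_div_of_nonneg_right _ hB0.le
    linarith
  have k4 : (fn : ℝ) / N * ((i : ℝ) / A) + ((fn : ℝ) / N * ((i : ℝ) / A)) ^ 2 +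
      (rn : ℝ) / N * ((j : ℝ) / B) ≤ (rn : ℝ) / N := by linarith
  have k5 := mul_le_mul_of_nonneg_right k4 (show 0 ≤ (N : ℝ) ^ 2 * (A * A) * B by positivity)
  have e1 : ((fn : ℝ) / N * ((i : ℝ) / A) + ((fn : ℝ) / N * ((i : ℝ) / A)) ^ 2 +
      (rn : ℝ) / N * ((j : ℝ) / B)) * ((N : ℝ) ^ 2 * (A * A) * B) =
      fn * i * N * A * B + fn ^ 2 * i ^ 2 * B + rn * j * N * (A * A) := by
    field_simp
  have e2 : (rn : ℝ) / N * ((N : ℝ) ^ 2 * (A * A) * B) = rn * N * (A * A) * B := by
    field_simp
  rw [e1, e2] at k5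
  linarith

theorem chk_sound {fn rn N : ℕ} (hN : 0 < N) {n : ℕ} (k : ℕ) : ∀ (p : List (List ℤ)) (i a j b : ℕ),
    Rect n p → chk fn rn N k p i a j b = true → ∀ x y : ℝ, 0 ≤ x → x ≤ 1 → 0 ≤ y → y ≤ 1 →
    Reg fn rn N ((i + x) / 2 ^ a) ((j + y) / 2 ^ b) → ev2 p x y ≤ 0 := by
  induction k with
  | zero =>
    intro p i a j b hp h x y hx0 hx1 hy0 hy1 hR
    simp only [chk, Bool.or_eq_true, decide_eq_true_eq] at h
    rcases h with h | h
    · have h1 := ev2_le_ub p hx0 hx1 hy0 hy1
      have h2 : ((ub p : ℤ) : ℝ) ≤ 0 := by exact_mod_cast h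
      linarith
    · exact absurd hR (outB_spec hN h hx0 hy0)
  | succ k ih =>
    intro p i a j b hp h x y hx0 hx1 hy0 hy1 hR
    simp only [chk, Bool.or_eq_true, decide_eq_true_eq] at h
    rcases h with h | h | h
    · have h1 := ev2_le_ub p hx0 hx1 hy0 hy1
      have h2 : ((ub p : ℤ) : ℝ) ≤ 0 := by exact_mod_cast h
      linarith
    · exact absurd hR (outB_spec hN h hx0 hy0)
    · have hx : ∀ q : List (List ℤ), Rect n q →
          (chk fn rn N k (hl2 q) (2 * i) (a + 1) j b &&
            chk fn rn N k (sh2 (hl2 q)) (2 * i + 1) (a + 1) j b) = true → ev2 q x y ≤ 0 := by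
        intro q hq hc
        rw [Bool.and_eq_true] at hc
        have hpos : (0 : ℝ) < 2 ^ q.length := by positivity
        by_cases h2 : x ≤ 1 / 2
        · have h3 := ih (hl2 q) (2 * i) (a + 1) j b (rect_hl2 q hq) hc.1 (2 * x) y (by linarith)
            (by linarith) hy0 hy1 (by
              have : ((2 * i : ℕ) + 2 * x : ℝ) / 2 ^ (a + 1) = (i + x) / 2 ^ a := by
                push_cast
                rw [pow_succ]
                field_simp
              rw [this]
              exact hR)
          have h4 := ev2_hl2 q (2 * x) y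
          rw [show 2 * x / 2 = x by ring] at h4
          by_contra h5
          have := mul_pos hpos (not_le.1 h5)
          linarith
        · have h3 := ih (sh2 (hl2 q)) (2 * i + 1) (a + 1) j b (rect_sh2 _ (rect_hl2 q hq)) hc.2
            (2 * x - 1) y (by linarith) (by linarith) hy0 hy1 (by
              have : ((2 * i + 1 : ℕ) + (2 * x - 1) : ℝ) / 2 ^ (a + 1) = (i + x) / 2 ^ a := by
                push_cast
                rw [pow_succ]
                field_simp
                ring
              rw [this]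
              exact hR)
          rw [ev2_sh2] at h3
          have h4 := ev2_hl2 q (1 + (2 * x - 1)) y
          rw [show (1 + (2 * x - 1)) / 2 = x by ring] at h4
          by_contra h5
          have := mul_pos hpos (not_le.1 h5)
          linarith
      have hy : ∀ q : List (List ℤ), Rect n q →
          (chk fn rn N k (mhl q) i a (2 * j) (b + 1) &&
            chk fn rn N k (msh (mhl q)) i a (2 * j + 1) (b + 1)) = true → ev2 q x y ≤ 0 := by
        intro q hq hc
        rw [Bool.and_eq_true] at hc
        have hpos : (0 : ℝ) < 2 ^ n := by positivity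
        by_cases h2 : y ≤ 1 / 2
        · have h3 := ih (mhl q) i a (2 * j) (b + 1) (rect_mhl q hq) hc.1 x (2 * y) hx0 hx1
            (by linarith) (by linarith) (by
              have : ((2 * j : ℕ) + 2 * y : ℝ) / 2 ^ (b + 1) = (j + y) / 2 ^ b := by
                push_cast
                rw [pow_succ]
                field_simp
              rw [this]
              exact hR)
          have h4 := ev2_mhl q hq x (2 * y)
          rw [show 2 * y / 2 = y by ring] at h4
          by_contra h5
          have := mul_pos hpos (not_le.1 h5)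
          linarith
        · have h3 := ih (msh (mhl q)) i a (2 * j + 1) (b + 1) (rect_msh _ (rect_mhl q hq)) hc.2
            x (2 * y - 1) hx0 hx1 (by linarith) (by linarith) (by
              have : ((2 * j + 1 : ℕ) + (2 * y - 1) : ℝ) / 2 ^ (b + 1) = (j + y) / 2 ^ b := by
                push_cast
                rw [pow_succ]
                field_simp
                ring
              rw [this]
              exact hR)
          rw [ev2_msh] at h3
          have h4 := ev2_mhl q hq x (1 + (2 * y - 1))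
          rw [show (1 + (2 * y - 1)) / 2 = y by ring] at h4
          by_contra h5
          have := mul_pos hpos (not_le.1 h5)
          linarith
      split at h
      · exact hx p hp h
      · exact hy p hp h

/-- the conclusion on the curved triangle -/
theorem tri {fn rn N : ℕ} (hN : 0 < N) {n k : ℕ} {p : List (List ℤ)} (hp : Rect n p)
    (hc : chk fn rn N k p 0 0 0 0 = true) (hf : 0 < fn) (hr : 0 < rn)
    (hfr : (rn : ℝ) / N ≤ (fn : ℝ) / N + ((fn : ℝ) / N) ^ 2) {F Q : ℝ} (hF : 0 ≤ F)
    (hFQ : F ^ 2 ≤ Q) (hQ : F + Q ≤ (rn : ℝ) / N) :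
    ev2 p (F / ((fn : ℝ) / N)) (((rn : ℝ) / N - F - Q) / ((rn : ℝ) / N)) ≤ 0 := by
  have hN' : (0 : ℝ) < N := by exact_mod_cast hN
  have hf' : (0 : ℝ) < (fn : ℝ) / N := by positivity
  have hr' : (0 : ℝ) < (rn : ℝ) / N := by positivity
  have hFf : F ≤ (fn : ℝ) / N := by
    by_contra h
    have h1 := not_le.1 h
    nlinarith
  have hQ0 : 0 ≤ Q := le_trans (sq_nonneg F) hFQ
  apply chk_sound hN k p 0 0 0 0 hp hc
  · positivity
  · rw [div_le_one hf']
    exact hFf
  · apply div_nonneg _ hr'.le
    linarith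
  · rw [div_le_one hr']
    linarith
  · unfold Reg
    have e1 : (fn : ℝ) / N * ((((0 : ℕ) : ℝ) + F / ((fn : ℝ) / N)) / 2 ^ 0) = F := by
      field_simp
      simp
    have e2 : (rn : ℝ) / N * ((((0 : ℕ) : ℝ) + ((rn : ℝ) / N - F - Q) / ((rn : ℝ) / N)) / 2 ^ 0) =
        (rn : ℝ) / N - F - Q := by
      field_simp
      simp
    rw [e1, e2]
    linarith

end Helper80.BX
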