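import Pool.Agent.Helper80.CW.Energy2

namespace Helper80.CW

open Set Metric MeasureTheory
open scoped ContDiff Topology RealInnerProductSpace Real

/-- smooth support function of a body of constant width `c` containing the origin -/
structure SSup (f : E3 → ℝ) (c : ℝ) : Prop where
  sm : Sm f
  hom : Hom 1 f
  zero : f 0 = 0
  sub : ∀ x y, f (x + y) ≤ f x + f y
  nonneg : ∀ x, 0 ≤ f x
  width : ∀ x, f x + f (-x) = c * ‖x‖
  cpos : 0 < c

section
variable {f : E3 → ℝ} {c : ℝ}

theorem SSup.pos_smul (h : SSup f c) {t : ℝ} (ht : 0 ≤ t) (x : E3) : f (t • x) = t * f x := by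
  rcases eq_or_lt_of_le ht with rfl | ht
  · simp [h.zero]
  by_cases hx : x = 0
  · simp [hx, h.zero]
  · have := h.hom t ht x hx
    simpa using this

theorem hasDerivAt_line {g : E3 → ℝ} (hg : Sm g) {x : E3} (hx : x ≠ 0) (v : E3) :
    HasDerivAt (fun t : ℝ => g (x + t • v)) (∑ i, v i * pd i g x) 0 := by
  rw [← fderiv_eq_sum]
  have h1 : HasDerivAt (fun t : ℝ => x + t • v) v 0 := by
    simpa using ((hasDerivAt_id (0 : ℝ)).smul_const v).const_add x
  have h2 : HasFDerivAt g (fderiv ℝ g x) (x + (0 : ℝ) • v) := by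
    simpa using (hg.diffAt hx).hasFDerivAt
  exact h2.comp_hasDerivAt (0 : ℝ) h1

theorem SSup.subgrad (h : SSup f c) {x : E3} (hx : x ≠ 0) (z : E3) :
    ∑ i, z i * pd i f x ≤ f z := by
  have h1 := (hasDerivAt_line h.sm hx z).tendsto_slope_zero_right
  apply le_of_tendsto h1
  filter_upwards [self_mem_nhdsWithin] with t ht
  have ht : 0 < t := ht
  have h2 := h.sub x (t • z)
  rw [h.pos_smul ht.le] at h2
  simp only [zero_add, zero_smul, add_zero, smul_eq_mul]
  rw [inv_mul_le_iff₀ ht]
  linarith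

theorem SSup.euler (h : SSup f c) {x : E3} (hx : x ≠ 0) : ∑ i, x i * pd i f x = f x := by
  have := CW.euler h.hom h.sm hx
  simpa using this

theorem SSup.euler0 (h : SSup f c) {x : E3} (hx : x ≠ 0) (i : Fin 3) :
    ∑ j, x j * pd j (pd i f) x = 0 := by
  have := CW.euler (h.hom.pd h.sm i) (h.sm.pd i) hx
  simpa using this

theorem SSup.psd (h : SSup f c) {x : E3} (hx : x ≠ 0) (v : E3) :
    0 ≤ ∑ i, ∑ j, v i * v j * pd j (pd i f) x := by
  have h1 : HasDerivAt (fun t : ℝ => ∑ i, v i * pd i f (x + t • v))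
      (∑ i, v i * ∑ j, v j * pd j (pd i f) x) 0 := by
    exact HasDerivAt.fun_sum (u := Finset.univ) (A := fun (i : Fin 3) (t : ℝ) => v i * pd i f (x + t • v))
      (A' := fun i => v i * ∑ j, v j * pd j (pd i f) x)
      (fun i _ => (hasDerivAt_line (h.sm.pd i) hx v).const_mul (v i))
  have h2 := h1.tendsto_slope_zero_right
  have e1 : ∑ i, ∑ j, v i * v j * pd j (pd i f) x = ∑ i, v i * ∑ j, v j * pd j (pd i f) x := by
    apply Finset.sum_congr rfl
    intro i _
    rw [Finset.mul_sum]
    apply Finset.sum_congr rfl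
    intro j _
    ring
  rw [e1]
  apply ge_of_tendsto h2
  have hev : ∀ᶠ t : ℝ in 𝓝 0, x + t • v ≠ 0 := by
    have hc : ContinuousAt (fun t : ℝ => x + t • v) 0 := by fun_prop
    apply hc.eventually_ne
    simpa using hx
  filter_upwards [self_mem_nhdsWithin, hev.filter_mono nhdsWithin_le_nhds] with t ht hxt
  have ht : 0 < t := ht
  simp only [zero_add, zero_smul, add_zero, smul_eq_mul]
  apply mul_nonneg (inv_nonneg.2 ht.le)
  have a1 := h.subgrad hx (x + t • v)
  have a2 := h.subgrad hxt x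
  have a3 := h.euler hx
  have a4 := h.euler hxt
  have b1 : ∑ i, (x + t • v) i * pd i f x = ∑ i, x i * pd i f x + t * ∑ i, v i * pd i f x := by
    rw [Finset.mul_sum, ← Finset.sum_add_distrib]
    apply Finset.sum_congr rfl
    intro i _
    simp
    ring
  have b2 : ∑ i, (x + t • v) i * pd i f (x + t • v) =
      ∑ i, x i * pd i f (x + t • v) + t * ∑ i, v i * pd i f (x + t • v) := by
    rw [Finset.mul_sum, ← Finset.sum_add_distrib]
    apply Finset.sum_congr rfl
    intro i _
    simp
    ring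
  have h5 : t * ∑ i, v i * pd i f x ≤ t * ∑ i, v i * pd i f (x + t • v) := by linarith
  have h6 := le_of_mul_le_mul_left h5 ht
  linarith

theorem pd_comp_neg {g : E3 → ℝ} (hg : Sm g) (i : Fin 3) {x : E3} (hx : x ≠ 0) :
    pd i (fun y => g (-y)) x = - pd i g (-x) := by
  unfold pd
  have h1 : HasFDerivAt g (fderiv ℝ g (-x)) (-x) := (hg.diffAt (neg_ne_zero.2 hx)).hasFDerivAt
  have h2 := h1.comp x ((hasFDerivAt_id x).neg)
  have h3 := h2.fderiv
  have h4 : (g ∘ (Neg.neg : E3 → E3)) = fun y => g (-y) := rfl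
  rw [h4] at h3
  rw [h3]
  simp

theorem Sm.comp_neg {g : E3 → ℝ} (hg : Sm g) : Sm (fun y => g (-y)) := by
  intro x hx
  exact (hg (-x) (neg_ne_zero.2 hx)).comp x contDiff_neg.contDiffAt

theorem pd_pd_comp_neg {g : E3 → ℝ} (hg : Sm g) (i j : Fin 3) {x : E3} (hx : x ≠ 0) :
    pd j (pd i (fun y => g (-y))) x = pd j (pd i g) (-x) := by
  rw [pd_congr (g := fun y => - pd i g (-y)) (fun y hy => pd_comp_neg hg i hy) j hx]
  have h1 : pd j (fun y => - pd i g (-y)) x = - pd j (fun y => pd i g (-y)) x := by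
    have := pd_const_mul (-1) (hg.pd i).comp_neg j hx
    simpa using this
  rw [h1, pd_comp_neg (hg.pd i) j hx]
  ring

theorem pd_pd_norm (i j : Fin 3) {x : E3} (hx : x ≠ 0) :
    pd j (pd i (fun y => ‖y‖)) x = ((if i = j then 1 else 0) - x i * x j / ‖x‖ ^ 2) / ‖x‖ := by
  have h1 : pd j (fun y => pd i (fun y => ‖y‖) y * ‖y‖) x =
      pd j (pd i (fun y => ‖y‖)) x * ‖x‖ + pd i (fun y => ‖y‖) x * pd j (fun y => ‖y‖) x :=
    pd_mul (Sm.norm.pd i) Sm.norm j hx
  have h2 : pd j (fun y => pd i (fun y => ‖y‖) y * ‖y‖) x = pd j (fun y => y i) x := by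
    apply pd_congr _ _ hx
    intro y hy
    rw [pd_norm i hy]
    have : ‖y‖ ≠ 0 := by simpa using hy
    field_simp
  rw [h2, pd_coord, pd_norm i hx, pd_norm j hx] at h1
  have hn : ‖x‖ ≠ 0 := by simpa using hx
  have h3 : (if j = i then (1 : ℝ) else 0) = if i = j then 1 else 0 := by
    by_cases hij : i = j
    · simp [hij]
    · simp [hij, Ne.symm hij]
  rw [h3] at h1
  rw [eq_div_iff hn, h1]
  field_simp
  ring

/-- the antipodal Hessian relation -/
theorem SSup.antipodal (h : SSup f c) {x : E3} (hx : ‖x‖ = 1) (i j : Fin 3) :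
    pd j (pd i f) x + pd j (pd i f) (-x) = c * ((if i = j then 1 else 0) - x i * x j) := by
  have hx0 : x ≠ 0 := by
    rintro rfl
    simp at hx
  rw [← pd_pd_comp_neg h.sm i j hx0]
  have h1 : pd j (pd i (fun y => f y + f (-y))) x = pd j (pd i (fun y => c * ‖y‖)) x := by
    have : (fun y => f y + f (-y)) = fun y => c * ‖y‖ := funext h.width
    rw [this]
  have h2 : pd j (pd i (fun y => f y + f (-y))) x =
      pd j (pd i f) x + pd j (pd i (fun y => f (-y))) x := by
    rw [pd_congr (fun y hy => pd_add h.sm h.sm.comp_neg i hy) j hx0,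
      pd_add (h.sm.pd i) (h.sm.comp_neg.pd i) j hx0]
  have h3 : pd j (pd i (fun y => c * ‖y‖)) x = c * pd j (pd i (fun y => ‖y‖)) x := by
    rw [pd_congr (fun y hy => pd_const_mul c Sm.norm i hy) j hx0,
      pd_const_mul c (Sm.norm.pd i) j hx0]
  rw [← h2, h1, h3, pd_pd_norm i j hx0, hx]
  simp

theorem psd_inner {A B : Fin 3 → Fin 3 → ℝ} (hA : ∀ i j, A i j = A j i) (hB : ∀ i j, B i j = B j i)
    (pA : ∀ v : Fin 3 → ℝ, 0 ≤ ∑ i, ∑ j, v i * v j * A i j)
    (pB : ∀ v : Fin 3 → ℝ, 0 ≤ ∑ i, ∑ j, v i * v j * B i j) :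
    0 ≤ ∑ i, ∑ j, A i j * B i j := by
  have key : ∀ {M : Fin 3 → Fin 3 → ℝ}, (∀ i j, M i j = M j i) →
      (∀ v : Fin 3 → ℝ, 0 ≤ ∑ i, ∑ j, v i * v j * M i j) → (Matrix.of M).PosSemidef := by
    intro M hM pM
    apply Matrix.PosSemidef.of_dotProduct_mulVec_nonneg
    · ext i j
      simp [hM i j]
    · intro v
      have := pM v
      have e1 : Star.star v ⬝ᵥ (Matrix.of M).mulVec v = ∑ i, ∑ j, v i * v j * M i j := by
        simp only [dotProduct, Matrix.mulVec, Pi.star_apply, star_trivial, Matrix.of_apply]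
        apply Finset.sum_congr rfl
        intro i _
        rw [Finset.mul_sum]
        apply Finset.sum_congr rfl
        intro j _
        ring
      rw [e1]
      exact this
  have h1 := (key hA pA).hadamard (key hB pB)
  have h2 := h1.dotProduct_mulVec_nonneg (fun _ => 1)
  simpa [dotProduct, Matrix.mulVec] using h2

theorem SSup.symm (h : SSup f c) {x : E3} (hx : x ≠ 0) (i j : Fin 3) :
    pd j (pd i f) x = pd i (pd j f) x := pd_comm h.sm j i hx

/-- the pointwise Hessian inequality `|A|² ≤ c tr A` on the sphere -/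
theorem SSup.hs2_le (h : SSup f c) {x : E3} (hx : ‖x‖ = 1) : hs2 f x ≤ c * lap f x := by
  have hx0 : x ≠ 0 := by
    rintro rfl
    simp at hx
  have hx1 : -x ≠ 0 := neg_ne_zero.2 hx0
  have h1 := psd_inner (A := fun i j => pd j (pd i f) x) (B := fun i j => pd j (pd i f) (-x))
    (fun i j => h.symm hx0 i j) (fun i j => h.symm hx1 i j)
    (fun v => h.psd hx0 (WithLp.toLp 2 v)) (fun v => h.psd hx1 (WithLp.toLp 2 v))
  have h2 : ∀ i j, pd j (pd i f) (-x) =
      c * ((if i = j then 1 else 0) - x i * x j) - pd j (pd i f) x := by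
    intro i j
    have := h.antipodal hx i j
    linarith
  simp only [h2] at h1
  have h3 : ∑ i, ∑ j, pd j (pd i f) x *
      (c * ((if i = j then 1 else 0) - x i * x j) - pd j (pd i f) x) =
      c * lap f x - c * (∑ i, x i * ∑ j, x j * pd j (pd i f) x) - hs2 f x := by
    unfold lap hs2
    simp only [Fin.sum_univ_three]
    simp
    ring
  rw [h3] at h1
  have h4 : ∑ i, x i * ∑ j, x j * pd j (pd i f) x = 0 := by
    apply Finset.sum_eq_zero
    intro i _
    rw [h.euler0 hx0 i, mul_zero]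
  rw [h4] at h1
  linarith

/-- the odd part -/
noncomputable def oddpart (f : E3 → ℝ) (c : ℝ) : E3 → ℝ := fun x => f x - c / 2 * ‖x‖

theorem SSup.oddpart_sm (h : SSup f c) : Sm (oddpart f c) := h.sm.sub ((Sm.const _).mul Sm.norm)

theorem SSup.oddpart_hom (h : SSup f c) : Hom 1 (oddpart f c) :=
  h.hom.sub (Hom.const_mul _ Hom.norm)

theorem SSup.oddpart_odd (h : SSup f c) (x : E3) : oddpart f c (-x) = - oddpart f c x := by
  unfold oddpart
  rw [norm_neg]
  have := h.width x
  linarith

theorem SSup.oddpart_pd2 (h : SSup f c) {x : E3} (hx : ‖x‖ = 1) (i j : Fin 3) :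
    pd j (pd i (oddpart f c)) x =
      pd j (pd i f) x - c / 2 * ((if i = j then 1 else 0) - x i * x j) := by
  have hx0 : x ≠ 0 := by
    rintro rfl
    simp at hx
  have hcn : Sm (fun x => c / 2 * ‖x‖) := (Sm.const _).mul Sm.norm
  unfold oddpart
  rw [pd_congr (fun y hy => pd_sub h.sm hcn i hy) j hx0, pd_sub (h.sm.pd i) (hcn.pd i) j hx0,
    pd_congr (fun y hy => pd_const_mul (c / 2) Sm.norm i hy) j hx0,
    pd_const_mul (c / 2) (Sm.norm.pd i) j hx0, pd_pd_norm i j hx0, hx]
  simp

theorem sum_sq_one {x : E3} (hx : ‖x‖ = 1) : x 0 ^ 2 + x 1 ^ 2 + x 2 ^ 2 = 1 := by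
  have := norm_sq_eq x
  rw [hx, Fin.sum_univ_three] at this
  linarith

theorem SSup.oddpart_lap (h : SSup f c) {x : E3} (hx : ‖x‖ = 1) :
    lap (oddpart f c) x = lap f x - c := by
  have h1 := sum_sq_one hx
  unfold lap
  simp only [h.oddpart_pd2 hx, Fin.sum_univ_three]
  simp
  linear_combination (c / 2) * h1

theorem SSup.oddpart_hs2 (h : SSup f c) {x : E3} (hx : ‖x‖ = 1) :
    hs2 (oddpart f c) x = hs2 f x - c * lap f x + c ^ 2 / 2 := by
  have hx0 : x ≠ 0 := by
    rintro rfl
    simp at hx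
  have h1 := sum_sq_one hx
  have e0 := h.euler0 hx0 0
  have e1 := h.euler0 hx0 1
  have e2 := h.euler0 hx0 2
  rw [Fin.sum_univ_three] at e0 e1 e2
  unfold lap hs2
  simp only [h.oddpart_pd2 hx, Fin.sum_univ_three]
  simp
  linear_combination c * x 0 * e0 + c * x 1 * e1 + c * x 2 * e2 +
    (c ^ 2 / 4) * (x 0 ^ 2 + x 1 ^ 2 + x 2 ^ 2 + 1 - 2) * h1

/-- the main lower bound: `∫ f σ₂(D²f) ≥ 4πc³/11` on the sphere -/
theorem SSup.main (h : SSup f c) :
    8 * π * c ^ 3 / 11 ≤ SI (fun x => f x * (lap f x ^ 2 - hs2 f x)) := by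
  set G := oddpart f c with hG
  have hs := h.oddpart_sm
  have hh := h.oddpart_hom
  have ho := h.oddpart_odd
  have hc := h.cpos
  rw [← hG] at hs hh ho
  have e1 : SI (fun x => f x * (lap f x ^ 2 - hs2 f x)) =
      SI (fun x => (G x * (lap G x ^ 2 - hs2 G x)) + (c * (G x * lap G x) + ((c ^ 2 / 2) * G x +
        ((c / 2) * (lap G x ^ 2 - hs2 G x) + ((c ^ 2 / 2) * lap G x + c ^ 3 / 4))))) := by
    apply SI_congr
    intro x hx
    have a1 := h.oddpart_lap hx
    have a2 := h.oddpart_hs2 hx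
    rw [← hG] at a1 a2
    have a3 : f x = G x + c / 2 := by
      rw [hG]
      unfold oddpart
      rw [hx]
      ring
    have a4 : lap f x = lap G x + c := by linarith
    have a5 : hs2 f x = hs2 G x + c * lap f x - c ^ 2 / 2 := by linarith
    rw [a5, a4, a3]
    ring
  have s1 : Sm (fun x => lap G x ^ 2 - hs2 G x) := (hs.lap.pow 2).sub hs.hs2
  have s2 : Sm (fun x => G x * (lap G x ^ 2 - hs2 G x)) := hs.mul s1
  have s3 : Sm (fun x => c * (G x * lap G x)) := (Sm.const _).mul (hs.mul hs.lap)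
  have s4 : Sm (fun x => (c ^ 2 / 2) * G x) := (Sm.const _).mul hs
  have s5 : Sm (fun x => (c / 2) * (lap G x ^ 2 - hs2 G x)) := (Sm.const _).mul s1
  have s6 : Sm (fun x => (c ^ 2 / 2) * lap G x) := (Sm.const _).mul hs.lap
  have s7 : Sm (fun _ => c ^ 3 / 4) := Sm.const _
  rw [e1, SI_add s2 (s3.add (s4.add (s5.add (s6.add s7)))), SI_add s3 (s4.add (s5.add (s6.add s7))),
    SI_add s4 (s5.add (s6.add s7)), SI_add s5 (s6.add s7), SI_add s6 s7, SI_const_mul, SI_const_mul,
    SI_const_mul, SI_const_mul, SI_const, SI_sub (hs.lap.pow 2) hs.hs2]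
  have odd_pd2 : ∀ (i j : Fin 3) (x : E3), x ≠ 0 → pd j (pd i G) (-x) = - pd j (pd i G) x := by
    intro i j x hx
    rw [← pd_pd_comp_neg hs i j hx]
    have : (fun y => G (-y)) = fun y => (-1) * G y := by
      ext y
      rw [ho y]
      ring
    rw [this, pd_congr (fun y hy => pd_const_mul (-1) hs i hy) j hx,
      pd_const_mul (-1) (hs.pd i) j hx]
    ring
  have odd_pd2' : ∀ (i j : Fin 3) (x : E3), pd j (pd i G) (-x) = - pd j (pd i G) x ∨ x = 0 := by
    intro i j x
    by_cases hx : x = 0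
    · right; exact hx
    · left; exact odd_pd2 i j x hx
  have z1 : SI G = 0 := SI_odd hh ho
  -- the Laplacian and `G * (...)` are odd away from the origin
  have z2 : SI (lap G) = 0 := by
    have hk : Hom (-1) (fun x => if x = 0 then 0 else lap G x) := by
      intro r hr x hx
      simp only [hx, smul_eq_zero, hr.ne', or_self, if_false]
      have := hh.lap hs r hr x hx
      norm_num at this ⊢
      exact this
    have := SI_odd hk (by
      intro x
      by_cases hx : x = 0
      · simp [hx]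
      · simp only [neg_eq_zero, hx, if_false]
        unfold lap
        rw [← Finset.sum_neg_distrib]
        exact Finset.sum_congr rfl (fun i _ => odd_pd2 i i x hx))
    rw [← this]
    apply SI_congr
    intro x hx
    have hx0 : x ≠ 0 := by
      rintro rfl
      simp at hx
    simp [hx0]
  have z3 : SI (fun x => G x * (lap G x ^ 2 - hs2 G x)) = 0 := by
    have h0 : Hom (-1) (fun x => G x * (lap G x ^ 2 - hs2 G x)) := by
      have a := (hh.lap hs).sq
      have b := hh.hs2 hs
      norm_num at a b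
      have := hh.mul (a.sub b)
      norm_num at this
      exact this
    have hk : Hom (-1) (fun x => if x = 0 then 0 else G x * (lap G x ^ 2 - hs2 G x)) := by
      intro r hr x hx
      simp only [hx, smul_eq_zero, hr.ne', or_self, if_false]
      exact h0 r hr x hx
    have := SI_odd hk (by
      intro x
      by_cases hx : x = 0
      · simp [hx]
      · simp only [neg_eq_zero, hx, if_false]
        have b1 : lap G (-x) = - lap G x := by
          unfold lap
          rw [← Finset.sum_neg_distrib]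
          exact Finset.sum_congr rfl (fun i _ => odd_pd2 i i x hx)
        have b2 : hs2 G (-x) = hs2 G x := by
          unfold hs2
          apply Finset.sum_congr rfl
          intro i _
          apply Finset.sum_congr rfl
          intro j _
          rw [odd_pd2 i j x hx]
          ring
        rw [b1, b2, ho x]
        ring)
    rw [← this]
    apply SI_congr
    intro x hx
    have hx0 : x ≠ 0 := by
      rintro rfl
      simp at hx
    simp [hx0]
  rw [z1, z2, z3]
  have en := energy hs hh ho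
  have ei := energy_id hs hh
  have hb : SI (hs2 G) ≤ (c ^ 2 / 2) * (4 * π) := by
    rw [← SI_const]
    apply SI_mono hs.hs2 (Sm.const _)
    intro x hx
    have a2 := h.oddpart_hs2 hx
    rw [← hG] at a2
    have a3 := h.hs2_le hx
    linarith
  rw [← ei]
  have hab : - ((c ^ 2 / 2) * (4 * π)) / 11 ≤ SI (fun x => lap G x ^ 2) - SI (hs2 G) := by
    linarith
  have hfin : c * (- ((c ^ 2 / 2) * (4 * π)) / 11) ≤
      c * (SI (fun x => lap G x ^ 2) - SI (hs2 G)) := mul_le_mul_of_nonneg_left hab hc.le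
  nlinarith [hfin]

end

end Helper80.CW
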