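import Pool.Agent.Helper80.CW.Body1

namespace Helper80.CW

open Set Metric MeasureTheory
open scoped ContDiff Topology RealInnerProductSpace Real

section
variable {f : E3 → ℝ} {c : ℝ}

/-- the parametrisation `x ↦ |x| ∇f(x)` -/
noncomputable def Fm (f : E3 → ℝ) (x : E3) : E3 := WithLp.toLp 2 (fun i => ‖x‖ * pd i f x)

theorem Fm_apply (f : E3 → ℝ) (x : E3) (i : Fin 3) : Fm f x i = ‖x‖ * pd i f x := rfl

theorem Fm_diffAt (hs : Sm f) {x : E3} (hx : x ≠ 0) : DifferentiableAt ℝ (Fm f) x := by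
  rw [differentiableAt_euclidean]
  intro i
  exact (Sm.norm.mul (hs.pd i)).diffAt hx

theorem Fm_fderiv_apply (hs : Sm f) {x : E3} (hx : x ≠ 0) (i j : Fin 3) :
    (fderiv ℝ (Fm f) x (e j)) i = x j / ‖x‖ * pd i f x + ‖x‖ * pd j (pd i f) x := by
  have h1 := (Fm_diffAt hs hx).hasFDerivAt
  have h2 : HasFDerivAt (fun y => Fm f y i)
      ((EuclideanSpace.proj i : E3 →L[ℝ] ℝ) ∘L fderiv ℝ (Fm f) x) x :=
    (EuclideanSpace.proj i : E3 →L[ℝ] ℝ).hasFDerivAt.comp x h1
  have h3 := congrArg (fun L : E3 →L[ℝ] ℝ => L (e j)) h2.fderiv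
  simp only [ContinuousLinearMap.comp_apply] at h3
  have h4 : (fderiv ℝ (Fm f) x (e j)) i = pd j (fun y => ‖y‖ * pd i f y) x := h3.symm
  rw [h4, pd_mul Sm.norm (hs.pd i) j hx, pd_norm j hx]

theorem Fm_fderiv_apply' (hs : Sm f) {x : E3} (hx : x ≠ 0) (i : Fin 3) (v : E3) :
    (fderiv ℝ (Fm f) x v) i =
      (∑ j, v j * x j) / ‖x‖ * pd i f x + ‖x‖ * ∑ j, v j * pd j (pd i f) x := by
  conv_lhs => rw [← sum_smul_e v]
  rw [map_sum]
  simp only [map_smul]
  have h1 : (∑ j, v j • fderiv ℝ (Fm f) x (e j)) i = ∑ j, v j * (fderiv ℝ (Fm f) x (e j)) i := by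
    simp
  rw [h1]
  simp only [Fm_fderiv_apply hs hx]
  rw [Finset.mul_sum, Finset.sum_div, Finset.sum_mul, ← Finset.sum_add_distrib]
  apply Finset.sum_congr rfl
  intro j _
  ring

theorem det_fderiv_eq (hs : Sm f) {x : E3} (hx : x ≠ 0) :
    (fderiv ℝ (Fm f) x).det =
      Matrix.det (Matrix.of fun i j => x j / ‖x‖ * pd i f x + ‖x‖ * pd j (pd i f) x) := by
  have h1 : (fderiv ℝ (Fm f) x).det = LinearMap.det (fderiv ℝ (Fm f) x : E3 →ₗ[ℝ] E3) := rfl
  rw [h1, ← LinearMap.det_toMatrix (EuclideanSpace.basisFun (Fin 3) ℝ).toBasis]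
  congr 1
  ext i j
  rw [LinearMap.toMatrix_apply]
  simp only [OrthonormalBasis.coe_toBasis, EuclideanSpace.basisFun_apply, Matrix.of_apply]
  rw [← Fm_fderiv_apply hs hx i j]
  simp [e]

/-- the determinant formula -/
theorem SSup.det_eq (h : SSup f c) {x : E3} (hx : x ≠ 0) :
    (fderiv ℝ (Fm f) x).det = ‖x‖ * f x * (lap f x ^ 2 - hs2 f x) / 2 := by
  rw [det_fderiv_eq h.sm hx, Matrix.det_fin_three]
  have hn : ‖x‖ ≠ 0 := by simpa using hx
  have e0 := h.euler0 hx 0
  have e1 := h.euler0 hx 1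
  have e2 := h.euler0 hx 2
  have ef := h.euler hx
  have s01 := h.symm hx 0 1
  have s02 := h.symm hx 0 2
  have s12 := h.symm hx 1 2
  unfold lap hs2
  simp only [Fin.sum_univ_three, Matrix.of_apply] at e0 e1 e2 ef ⊢
  rw [s01, s02, s12]
  rw [s01, s02] at e0
  rw [s12] at e1
  set a := pd 0 (pd 0 f) x
  set b := pd 0 (pd 1 f) x
  set d := pd 0 (pd 2 f) x
  set g := pd 1 (pd 1 f) x
  set k := pd 1 (pd 2 f) x
  set m := pd 2 (pd 2 f) x
  set p0 := pd 0 f x
  set p1 := pd 1 f x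
  set p2 := pd 2 f x
  set r := ‖x‖
  -- determinant of the Hessian vanishes
  have hdet : a * (g * m - k * k) - b * (b * m - k * d) + d * (b * k - g * d) = 0 := by
    have t0 : x 0 * (a * (g * m - k * k) - b * (b * m - k * d) + d * (b * k - g * d)) = 0 := by
      linear_combination (g * m - k * k) * e0 - (b * m - k * d) * e1 + (b * k - g * d) * e2
    have t1 : x 1 * (a * (g * m - k * k) - b * (b * m - k * d) + d * (b * k - g * d)) = 0 := by
      linear_combination (-(b * m - d * k)) * e0 + (a * m - d * d) * e1 - (a * k - b * d) * e2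
    have t2 : x 2 * (a * (g * m - k * k) - b * (b * m - k * d) + d * (b * k - g * d)) = 0 := by
      linear_combination (b * k - g * d) * e0 - (a * k - b * d) * e1 + (a * g - b * b) * e2
    by_contra hne
    have z0 : x 0 = 0 := by
      rcases mul_eq_zero.1 t0 with h | h
      · exact h
      · exact absurd h hne
    have z1 : x 1 = 0 := by
      rcases mul_eq_zero.1 t1 with h | h
      · exact h
      · exact absurd h hne
    have z2 : x 2 = 0 := by
      rcases mul_eq_zero.1 t2 with h | h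
      · exact h
      · exact absurd h hne
    apply hx
    ext i
    fin_cases i
    · exact z0
    · exact z1
    · exact z2
  have hrs : r * r⁻¹ = 1 := mul_inv_cancel₀ hn
  have hd : ∀ z : ℝ, z / r = z * r⁻¹ := fun z => div_eq_mul_inv z r
  simp only [hd]
  set s := r⁻¹
  linear_combination r ^ 3 * hdet +
    r ^ 2 * s * (((a - (a + g + m)) * p0 + b * p1 + d * p2) * e0 +
      (b * p0 + (g - (a + g + m)) * p1 + k * p2) * e1 +
      (d * p0 + k * p1 + (m - (a + g + m)) * p2) * e2) +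
    r * ((a * g - b ^ 2) + (a * m - d ^ 2) + (g * m - k ^ 2)) * (x 0 * p0 + x 1 * p1 + x 2 * p2) * hrs +
    r * ((a * g - b ^ 2) + (a * m - d ^ 2) + (g * m - k ^ 2)) * ef

end

end Helper80.CW
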