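import Pool.Agent.Helper80.CW.Body2

namespace Helper80.CW

open Set Metric MeasureTheory
open scoped ContDiff Topology RealInnerProductSpace Real

section
variable {f : E3 → ℝ} {c : ℝ}

theorem SSup.pos_of_det (h : SSup f c) {x : E3} (hx : x ≠ 0)
    (hd : (fderiv ℝ (Fm f) x).det ≠ 0) : 0 < f x := by
  rcases eq_or_lt_of_le (h.nonneg x) with h0 | h0
  · exfalso
    apply hd
    rw [h.det_eq hx, ← h0]
    ring
  · exact h0

theorem SSup.norm_le_of_eq (h : SSup f c) {x y : E3} (hx : x ≠ 0) (hy : y ≠ 0) (fx : 0 < f x)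
    (hxy : Fm f x = Fm f y) : ‖x‖ ≤ ‖y‖ := by
  have key : ∀ i, ‖x‖ * pd i f x = ‖y‖ * pd i f y := by
    intro i
    have := congrArg (fun z : E3 => z i) hxy
    simpa [Fm_apply] using this
  have h1 := h.subgrad hy x
  have h2 := h.euler hx
  have h3 : ‖y‖ * ∑ i, x i * pd i f y = ‖x‖ * f x := by
    rw [← h2, Finset.mul_sum, Finset.mul_sum]
    apply Finset.sum_congr rfl
    intro i _
    have := key i
    calc ‖y‖ * (x i * pd i f y) = x i * (‖y‖ * pd i f y) := by ring
      _ = x i * (‖x‖ * pd i f x) := by rw [this]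
      _ = _ := by ring
  have h4 : ‖x‖ * f x ≤ ‖y‖ * f x := by
    rw [← h3]
    exact mul_le_mul_of_nonneg_left h1 (norm_nonneg _)
  exact le_of_mul_le_mul_right h4 fx

theorem SSup.grad_segment (h : SSup f c) {x y : E3} (hx : x ≠ 0) (hy : y ≠ 0)
    (hp : ∀ i, pd i f x = pd i f y) {t : ℝ} (ht0 : 0 ≤ t) (ht1 : t ≤ 1)
    (hz : x + t • (y - x) ≠ 0) (i : Fin 3) : pd i f (x + t • (y - x)) = pd i f x := by
  set z := x + t • (y - x) with hzdef
  have h1 := h.euler hx
  have h2 := h.euler hy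
  simp only [← hp] at h2
  have hsum : ∑ i, z i * pd i f x = (1 - t) * f x + t * f y := by
    rw [← h1, ← h2, Finset.mul_sum, Finset.mul_sum, ← Finset.sum_add_distrib]
    apply Finset.sum_congr rfl
    intro i _
    simp [hzdef]
    ring
  have hup : f z ≤ (1 - t) * f x + t * f y := by
    have : z = (1 - t) • x + t • y := by
      rw [hzdef, smul_sub, sub_smul, one_smul]
      abel
    rw [this]
    calc _ ≤ _ := h.sub _ _
      _ = _ := by rw [h.pos_smul (by linarith), h.pos_smul ht0]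
  -- the function `q`
  set q : E3 → ℝ := fun w => f w - ∑ j, w j * pd j f x with hq
  have hq0 : ∀ w, 0 ≤ q w := fun w => by
    have := h.subgrad hx w
    simp only [hq]
    linarith
  have hqz : q z = 0 := by
    have := hq0 z
    simp only [hq] at this ⊢
    linarith
  have hmin : IsLocalMin q z := by
    filter_upwards with w
    rw [hqz]
    exact hq0 w
  have h3 := hmin.fderiv_eq_zero
  have hlin : Sm (fun w : E3 => ∑ j, w j * pd j f x) :=
    Sm.sum (fun j _ => (Sm.coord j).mul (Sm.const _))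
  have h4 : pd i q z = 0 := by
    unfold pd
    rw [h3]
    simp
  rw [hq, pd_sub h.sm hlin i hz, pd_sum (fun j _ => (Sm.coord j).mul (Sm.const _)) i hz] at h4
  have h5 : ∀ j, pd i (fun w : E3 => w j * pd j f x) z = if i = j then pd j f x else 0 := by
    intro j
    rw [pd_mul (Sm.coord j) (Sm.const _) i hz, pd_coord]
    have : pd i (fun _ => pd j f x) z = 0 := by
      unfold pd
      simp
    rw [this]
    simp
  simp only [h5] at h4
  simp at h4
  linarith

theorem SSup.inj (h : SSup f c) :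
    InjOn (Fm f) {x | x ≠ 0 ∧ (fderiv ℝ (Fm f) x).det ≠ 0} := by
  rintro x ⟨hx, dx⟩ y ⟨hy, dy⟩ hxy
  have fx := h.pos_of_det hx dx
  have fy := h.pos_of_det hy dy
  have hn : ‖x‖ = ‖y‖ :=
    le_antisymm (h.norm_le_of_eq hx hy fx hxy) (h.norm_le_of_eq hy hx fy hxy.symm)
  have hxn : ‖x‖ ≠ 0 := by simpa using hx
  have hp : ∀ i, pd i f x = pd i f y := by
    intro i
    have := congrArg (fun z : E3 => z i) hxy
    simp only [Fm_apply] at this
    rw [← hn] at this
    exact mul_left_cancel₀ hxn this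
  -- the Hessian kills `y - x`
  have hker : ∀ i, ∑ j, (y - x) j * pd j (pd i f) x = 0 := by
    intro i
    have h1 := (hasDerivAt_line (h.sm.pd i) hx (y - x)).tendsto_slope_zero_right
    have h2 : Filter.Tendsto (fun t : ℝ => t⁻¹ • (pd i f (x + (0 + t) • (y - x)) -
        pd i f (x + (0 : ℝ) • (y - x)))) (𝓝[>] 0) (𝓝 0) := by
      have hev : ∀ᶠ t : ℝ in 𝓝 0, x + t • (y - x) ≠ 0 := by
        have hc : ContinuousAt (fun t : ℝ => x + t • (y - x)) 0 := by fun_prop
        apply hc.eventually_ne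
        simpa using hx
      have hlt : ∀ᶠ t : ℝ in 𝓝 0, t < 1 := eventually_lt_nhds one_pos
      apply tendsto_const_nhds.congr'
      filter_upwards [self_mem_nhdsWithin, hev.filter_mono nhdsWithin_le_nhds,
        hlt.filter_mono nhdsWithin_le_nhds] with t ht hxt ht1
      have ht : 0 < t := ht
      rw [zero_add, zero_smul, add_zero,
        h.grad_segment hx hy hp ht.le ht1.le hxt i, sub_self, smul_zero]
    exact tendsto_nhds_unique h1 h2
  set a := (∑ j, (y - x) j * x j) / ‖x‖ ^ 2 with ha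
  set w : E3 := (y - x) - a • x with hw
  have hsq : ∑ j, x j * x j = ‖x‖ ^ 2 := by
    rw [norm_sq_eq]
    apply Finset.sum_congr rfl
    intro j _
    ring
  have hw1 : ∑ j, w j * x j = 0 := by
    have : ∑ j, w j * x j = ∑ j, (y - x) j * x j - a * ∑ j, x j * x j := by
      rw [Finset.mul_sum, ← Finset.sum_sub_distrib]
      apply Finset.sum_congr rfl
      intro j _
      simp [hw]
      ring
    rw [this, hsq, ha]
    field_simp
    ring
  have hw2 : ∀ i, ∑ j, w j * pd j (pd i f) x = 0 := by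
    intro i
    have : ∑ j, w j * pd j (pd i f) x =
        ∑ j, (y - x) j * pd j (pd i f) x - a * ∑ j, x j * pd j (pd i f) x := by
      rw [Finset.mul_sum, ← Finset.sum_sub_distrib]
      apply Finset.sum_congr rfl
      intro j _
      simp [hw]
      ring
    rw [this, hker i, h.euler0 hx i]
    ring
  have hw3 : fderiv ℝ (Fm f) x w = 0 := by
    ext i
    rw [Fm_fderiv_apply' h.sm hx i w, hw1, hw2 i]
    simp
  have hw4 : w = 0 := by
    have h1 := (fderiv ℝ (Fm f) x).toContinuousLinearEquivOfDetNeZero_apply dx w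
    rw [hw3] at h1
    exact (ContinuousLinearEquiv.map_eq_zero_iff _).1 h1
  have hy2 : y = (1 + a) • x := by
    have h1 : y - x = a • x := sub_eq_zero.1 hw4
    rw [add_smul, one_smul, ← h1]
    abel
  have hna : |1 + a| = 1 := by
    have h1 : ‖y‖ = |1 + a| * ‖x‖ := by rw [hy2, norm_smul]; rfl
    rw [← hn] at h1
    have h2 : |1 + a| * ‖x‖ = 1 * ‖x‖ := by linarith
    exact mul_right_cancel₀ hxn h2
  rcases (abs_eq (by norm_num : (0 : ℝ) ≤ 1)).1 hna with h1 | h1
  · rw [h1, one_smul] at hy2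
    exact hy2.symm
  · exfalso
    rw [h1] at hy2
    have h2 : y = -x := by rw [hy2]; simp
    have h3 := h.euler hy
    simp only [← hp] at h3
    have h4 := h.euler hx
    rw [h2] at h3
    have h5 : ∑ i, (-x) i * pd i f x = - f x := by
      rw [← h4, ← Finset.sum_neg_distrib]
      apply Finset.sum_congr rfl
      intro i _
      simp
    rw [h5] at h3
    have h6 := h.width x
    have h7 : 0 < c * ‖x‖ := mul_pos h.cpos (norm_pos_iff.2 hx)
    linarith

theorem SSup.Fm_mem (h : SSup f c) {x : E3} (hx : x ≠ 0) (hx1 : ‖x‖ ≤ 1) (z : E3) :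
    ⟪Fm f x, z⟫ ≤ f z := by
  have h1 := h.subgrad hx z
  have h2 : ⟪Fm f x, z⟫ = ‖x‖ * ∑ i, z i * pd i f x := by
    rw [PiLp.inner_apply, Finset.mul_sum]
    apply Finset.sum_congr rfl
    intro i _
    simp [Fm_apply]
    ring
  rw [h2]
  calc ‖x‖ * ∑ i, z i * pd i f x ≤ ‖x‖ * f z := mul_le_mul_of_nonneg_left h1 (norm_nonneg _)
    _ ≤ 1 * f z := mul_le_mul_of_nonneg_right hx1 (h.nonneg z)
    _ = f z := one_mul _

theorem contDiffAt_Fm (hs : Sm f) {x : E3} (hx : x ≠ 0) : ContDiffAt ℝ ∞ (Fm f) x := by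
  rw [contDiffAt_euclidean]
  intro i
  exact (Sm.norm.mul (hs.pd i)) x hx

theorem ofReal_integral_le {α : Type*} [MeasurableSpace α] {μ : Measure α} (g : α → ℝ) :
    ENNReal.ofReal (∫ x, g x ∂μ) ≤ ∫⁻ x, ENNReal.ofReal (g x) ∂μ := by
  by_cases hg : Integrable g μ
  · rw [integral_eq_lintegral_pos_part_sub_lintegral_neg_part hg]
    refine le_trans (ENNReal.ofReal_le_ofReal (sub_le_self _ ENNReal.toReal_nonneg)) ?_
    exact ENNReal.ofReal_toReal_le
  · rw [integral_undef hg]
    simp

/-- the volume of the body with support function `f` -/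
theorem SSup.volume_ge (h : SSup f c) :
    ENNReal.ofReal (4 * π * c ^ 3 / 33) ≤ volume {y : E3 | ∀ z, ⟪y, z⟫ ≤ f z} := by
  set D : E3 → ℝ := fun x => (fderiv ℝ (Fm f) x).det with hD
  set U : Set E3 := {x | x ≠ 0} with hU
  have hUo : IsOpen U := isOpen_ne
  have hDc : ContinuousOn D U := by
    intro x hx
    have h1 : ContinuousAt (fderiv ℝ (Fm f)) x :=
      ((contDiffAt_Fm h.sm hx).fderiv_right (m := ∞) (by simp)).continuousAt
    exact (ContinuousLinearMap.continuous_det.continuousAt.comp h1).continuousWithinAt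
  set s : Set E3 := {x | (x ≠ 0 ∧ ‖x‖ < 1) ∧ D x ≠ 0} with hs
  have hso : IsOpen s := by
    have h1 : s = (U ∩ ball 0 1) ∩ (U ∩ D ⁻¹' {0}ᶜ) := by
      ext x
      simp only [hs, hU, mem_ofPred_eq, mem_inter_iff, mem_ball_zero_iff, mem_preimage,
        mem_compl_iff, mem_singleton_iff]
      tauto
    rw [h1]
    exact (hUo.inter isOpen_ball).inter (hDc.isOpen_inter_preimage hUo isOpen_compl_singleton)
  have hinj : InjOn (Fm f) s := by
    apply h.inj.mono
    intro x hx
    exact ⟨hx.1.1, hx.2⟩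
  have harea := lintegral_abs_det_fderiv_eq_addHaar_image volume hso.measurableSet
    (f := Fm f) (f' := fun x => fderiv ℝ (Fm f) x)
    (fun x hx => (Fm_diffAt h.sm hx.1.1).hasFDerivAt.hasFDerivWithinAt) hinj
  have hsub : Fm f '' s ⊆ {y : E3 | ∀ z, ⟪y, z⟫ ≤ f z} := by
    rintro _ ⟨x, hx, rfl⟩ z
    exact h.Fm_mem hx.1.1 hx.1.2.le z
  refine le_trans ?_ (measure_mono hsub)
  rw [← harea]
  -- compute the integral of `D` over the ball
  have hDhom : Hom 0 D := by
    have e1 : ∀ x, x ≠ 0 → D x = ‖x‖ * (f x * (lap f x ^ 2 - hs2 f x)) / 2 := by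
      intro x hx
      rw [hD]
      simp only
      rw [h.det_eq hx]
      ring
    have a := (h.hom.lap h.sm).sq
    have b := h.hom.hs2 h.sm
    norm_num at a b
    have e2 := Hom.norm.mul (h.hom.mul (a.sub b))
    norm_num at e2
    intro r hr x hx
    rw [e1 x hx, e1 _ (smul_ne_zero hr.ne' hx)]
    have := e2 r hr x hx
    norm_num at this ⊢
    linarith
  have hpol := polar hDhom (fun r => if r < 1 then 1 else 0)
  have h13 : ∫ r in Ioi (0 : ℝ), r ^ 2 * ((if r < 1 then (1 : ℝ) else 0) * r ^ (0 : ℤ)) = 1 / 3 := by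
    have e1 : ∫ r in Ioi (0 : ℝ), r ^ 2 * ((if r < 1 then (1 : ℝ) else 0) * r ^ (0 : ℤ)) =
        ∫ r in Ioo (0 : ℝ) 1, r ^ 2 := by
      have e2 : ∫ r in Ioi (0 : ℝ), r ^ 2 * ((if r < 1 then (1 : ℝ) else 0) * r ^ (0 : ℤ)) =
          ∫ r in Ioo (0 : ℝ) 1, r ^ 2 * ((if r < 1 then (1 : ℝ) else 0) * r ^ (0 : ℤ)) := by
        apply setIntegral_eq_of_subset_of_forall_sdiff_eq_zero measurableSet_Ioi
        · intro r hr
          exact hr.1
        · intro r hr
          have : ¬ r < 1 := fun h => hr.2 ⟨hr.1, h⟩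
          simp [this]
      rw [e2]
      apply setIntegral_congr_fun measurableSet_Ioo
      intro r hr
      simp [hr.2]
    rw [e1, ← integral_Ioc_eq_integral_Ioo, ← intervalIntegral.integral_of_le (by norm_num),
      integral_pow]
    norm_num
  rw [h13] at hpol
  have hSI : SI D = (1 / 2) * SI (fun x => f x * (lap f x ^ 2 - hs2 f x)) := by
    rw [← SI_const_mul]
    apply SI_congr
    intro x hx
    have hx0 : x ≠ 0 := by
      rintro rfl
      simp at hx
    rw [hD]
    simp only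
    rw [h.det_eq hx0, hx]
    ring
  have hmain := h.main
  have hlow : 4 * π * c ^ 3 / 33 ≤ ∫ x : E3, (if ‖x‖ < 1 then (1 : ℝ) else 0) * D x := by
    rw [hpol, hSI]
    linarith
  refine le_trans (ENNReal.ofReal_le_ofReal hlow) ?_
  have hpw : ∀ x : E3, x ≠ 0 → ENNReal.ofReal ((if ‖x‖ < 1 then (1 : ℝ) else 0) * D x) ≤
      s.indicator (fun x => ENNReal.ofReal |D x|) x := by
    intro x hx
    by_cases hxs : x ∈ s
    · rw [indicator_of_mem hxs]
      apply ENNReal.ofReal_le_ofReal
      simp only [hxs.1.2, if_true, one_mul]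
      exact le_abs_self _
    · rw [indicator_of_notMem hxs]
      have : (if ‖x‖ < 1 then (1 : ℝ) else 0) * D x = 0 := by
        by_cases h1 : ‖x‖ < 1
        · have : D x = 0 := by
            by_contra h2
            exact hxs ⟨⟨hx, h1⟩, h2⟩
          simp [this]
        · simp [h1]
      rw [this]
      simp
  have hae : ∀ᵐ x : E3, x ≠ 0 := by simp [ae_iff, measure_singleton]
  calc ENNReal.ofReal (∫ x : E3, (if ‖x‖ < 1 then (1 : ℝ) else 0) * D x) ≤
      ∫⁻ x : E3, ENNReal.ofReal ((if ‖x‖ < 1 then (1 : ℝ) else 0) * D x) :=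
        ofReal_integral_le _
    _ ≤ ∫⁻ x : E3, s.indicator (fun x => ENNReal.ofReal |D x|) x := by
        apply lintegral_mono_ae
        filter_upwards [hae] with x hx using hpw x hx
    _ = _ := lintegral_indicator hso.measurableSet _

end

end Helper80.CW
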