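import Mathlib

namespace Helper80.CW

open Set MeasureTheory Complex
open scoped Topology Real

theorem two_pi_pos' : (0 : ℝ) < 2 * π := by positivity

/-- even Fourier coefficients of an antiperiodic function vanish -/
theorem coeff_even {f : ℝ → ℂ} (hf : Continuous f) (ha : ∀ t, f (t + π) = - f t) {n : ℤ}
    (hn : Even n) : fourierCoeffOn two_pi_pos' f n = 0 := by
  rw [fourierCoeffOn_eq_integral]
  set g : ℝ → ℂ := fun x => fourier (-n) (x : AddCircle (2 * π - 0)) • f x with hg
  have hgc : Continuous g := by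
    rw [hg]
    exact Continuous.smul ((fourier (-n)).continuous.comp (AddCircle.continuous_mk' _)) hf
  have hga : ∀ x, g (x + π) = - g x := by
    intro x
    rw [hg]
    simp only
    rw [ha, fourier_coe_apply, fourier_coe_apply]
    obtain ⟨m, rfl⟩ := hn
    have : cexp (2 * π * I * ((-(m + m) : ℤ) : ℂ) * ((x + π : ℝ) : ℂ) / ((2 * π - 0 : ℝ) : ℂ)) =
        cexp (2 * π * I * ((-(m + m) : ℤ) : ℂ) * (x : ℂ) / ((2 * π - 0 : ℝ) : ℂ)) := by
      rw [Complex.exp_eq_exp_iff_exists_int]
      refine ⟨-m, ?_⟩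
      have hpi : (π : ℂ) ≠ 0 := by exact_mod_cast Real.pi_ne_zero
      push_cast
      field_simp
      ring
    rw [this]
    simp
  have h1 : ∫ x in (0 : ℝ)..(2 * π), g x = 0 := by
    rw [← intervalIntegral.integral_add_adjacent_intervals (b := π)
      (hgc.intervalIntegrable _ _) (hgc.intervalIntegrable _ _)]
    have h2 : ∫ x in π..(2 * π), g x = ∫ x in (0 : ℝ)..π, g (x + π) := by
      rw [intervalIntegral.integral_comp_add_right]
      congr 1 <;> ring
    rw [h2]
    simp only [hga]
    simp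
  rw [h1]
  simp

theorem coeff_deriv {f f' : ℝ → ℂ} (hf : ∀ t, HasDerivAt f (f' t) t) (hf' : Continuous f')
    (ha : ∀ t, f (t + π) = - f t) {n : ℤ} (hn : n ≠ 0) :
    fourierCoeffOn two_pi_pos' f' n = I * n * fourierCoeffOn two_pi_pos' f n := by
  have h := fourierCoeffOn_of_hasDerivAt two_pi_pos' (f := f) (f' := f') hn (fun x _ => hf x)
    (hf'.intervalIntegrable _ _)
  have h2 : f (2 * π) = f 0 := by
    have h3 := ha 0
    have h4 := ha (0 + π)
    rw [h3, neg_neg] at h4
    rw [← h4]
    congr 1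
    ring
  rw [h2, sub_self, mul_zero, zero_sub] at h
  have hn' : (n : ℂ) ≠ 0 := by exact_mod_cast hn
  have hpi : (π : ℂ) ≠ 0 := by exact_mod_cast Real.pi_ne_zero
  have hI := I_ne_zero
  rw [h]
  push_cast
  field_simp
  ring

theorem circle_ineq {φ φ' φ'' : ℝ → ℝ} (h1 : ∀ t, HasDerivAt φ (φ' t) t)
    (h2 : ∀ t, HasDerivAt φ' (φ'' t) t) (hc : Continuous φ'') (ha : ∀ t, φ (t + π) = - φ t) :
    0 ≤ ∫ t in (0 : ℝ)..(2 * π), (φ'' t ^ 2 - 10 * φ' t ^ 2 + 9 * φ t ^ 2) := by
  have hcφ : Continuous φ := continuous_iff_continuousAt.2 (fun t => (h1 t).continuousAt)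
  have hcφ' : Continuous φ' := continuous_iff_continuousAt.2 (fun t => (h2 t).continuousAt)
  have ha' : ∀ t, φ' (t + π) = - φ' t := by
    intro t
    have e1 : HasDerivAt (fun s => φ (s + π)) (φ' (t + π)) t := by
      simpa using (h1 (t + π)).comp_add_const t π
    have e2 : HasDerivAt (fun s => φ (s + π)) (- φ' t) t := by
      have : (fun s => φ (s + π)) = fun s => - φ s := funext ha
      rw [this]
      exact (h1 t).neg
    exact e1.unique e2
  have ha'' : ∀ t, φ'' (t + π) = - φ'' t := by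
    intro t
    have e1 : HasDerivAt (fun s => φ' (s + π)) (φ'' (t + π)) t := by
      simpa using (h2 (t + π)).comp_add_const t π
    have e2 : HasDerivAt (fun s => φ' (s + π)) (- φ'' t) t := by
      have : (fun s => φ' (s + π)) = fun s => - φ' s := funext ha'
      rw [this]
      exact (h2 t).neg
    exact e1.unique e2
  set f : ℝ → ℂ := fun t => (φ t : ℂ) with hf
  set f' : ℝ → ℂ := fun t => (φ' t : ℂ) with hf'
  set f'' : ℝ → ℂ := fun t => (φ'' t : ℂ) with hf''
  have cf : Continuous f := Complex.continuous_ofReal.comp hcφ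
  have cf' : Continuous f' := Complex.continuous_ofReal.comp hcφ'
  have cf'' : Continuous f'' := Complex.continuous_ofReal.comp hc
  have d1 : ∀ t, HasDerivAt f (f' t) t := fun t => (h1 t).ofReal_comp
  have d2 : ∀ t, HasDerivAt f' (f'' t) t := fun t => (h2 t).ofReal_comp
  have af : ∀ t, f (t + π) = - f t := by intro t; simp [hf, ha]
  have af' : ∀ t, f' (t + π) = - f' t := by intro t; simp [hf', ha']
  have af'' : ∀ t, f'' (t + π) = - f'' t := by intro t; simp [hf'', ha'']
  have hL : ∀ g : ℝ → ℂ, Continuous g → MemLp g 2 (volume.restrict (Ioc 0 (2 * π))) := by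
    intro g hg
    have : MemLp g 2 (volume.restrict (Icc 0 (2 * π))) := by
      obtain ⟨C, hC⟩ := (isCompact_Icc (a := (0 : ℝ)) (b := 2 * π)).exists_bound_of_continuousOn
        hg.continuousOn
      apply MemLp.of_bound hg.aestronglyMeasurable C
      filter_upwards [ae_restrict_mem measurableSet_Icc] with x hx using hC x hx
    exact this.mono_measure (Measure.restrict_mono Ioc_subset_Icc_self le_rfl)
  have s0 := hasSum_sq_fourierCoeffOn two_pi_pos' (hL f cf)
  have s1 := hasSum_sq_fourierCoeffOn two_pi_pos' (hL f' cf')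
  have s2 := hasSum_sq_fourierCoeffOn two_pi_pos' (hL f'' cf'')
  have s3 := (s2.sub (s1.mul_left 10)).add (s0.mul_left 9)
  have s4 := s3.nonneg (by
    intro n
    rcases Int.even_or_odd n with hn | hn
    · rw [coeff_even cf'' af'' hn, coeff_even cf' af' hn, coeff_even cf af hn]
      simp
    · have hn0 : n ≠ 0 := by
        rintro rfl
        simp at hn
      rw [coeff_deriv d2 cf'' af' hn0, coeff_deriv d1 cf' af hn0]
      have e1 : ∀ z : ℂ, ‖I * n * z‖ ^ 2 = (n : ℝ) ^ 2 * ‖z‖ ^ 2 := by
        intro z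
        rw [norm_mul, norm_mul, Complex.norm_I, one_mul, mul_pow]
        congr 1
        rw [Complex.norm_intCast]
        simp
      rw [e1, e1]
      set y := ‖fourierCoeffOn two_pi_pos' f n‖ ^ 2 with hy
      have hy0 : 0 ≤ y := by positivity
      have e2 : (n : ℝ) ^ 2 * ((n : ℝ) ^ 2 * y) - 10 * ((n : ℝ) ^ 2 * y) + 9 * y =
          (((n ^ 2 - 1) * (n ^ 2 - 9) : ℤ) : ℝ) * y := by
        push_cast
        ring
      rw [e2]
      apply mul_nonneg _ hy0
      have e3 : 0 ≤ (n ^ 2 - 1) * (n ^ 2 - 9) := by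
        obtain ⟨m, rfl⟩ := hn
        have e4 : ((2 * m + 1) ^ 2 - 1) * ((2 * m + 1) ^ 2 - 9) =
          16 * ((m * (m + 1)) * (m * (m + 1) - 2)) := by ring
        rw [e4]
        have e5 : 0 ≤ (m * (m + 1)) * (m * (m + 1) - 2) := by
          rcases lt_trichotomy (m * (m + 1)) 1 with h | h | h
          · have : m * (m + 1) ≤ 0 := by omega
            nlinarith
          · exfalso
            have h6 : Even (m * (m + 1)) := Int.even_mul_succ_self m
            rw [h] at h6
            exact absurd h6 (by decide)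
          · have : 2 ≤ m * (m + 1) := by omega
            nlinarith
        linarith
      exact_mod_cast e3)
  have hnorm : ∀ x : ℝ, ‖(x : ℂ)‖ ^ 2 = x ^ 2 := by intro x; simp
  simp only [hf, hf', hf'', hnorm, smul_eq_mul, sub_zero] at s4
  have i2 : IntervalIntegrable (fun t => φ'' t ^ 2) volume 0 (2 * π) :=
    (hc.pow 2).intervalIntegrable _ _
  have i1 : IntervalIntegrable (fun t => 10 * φ' t ^ 2) volume 0 (2 * π) :=
    (continuous_const.mul (hcφ'.pow 2)).intervalIntegrable _ _
  have i0 : IntervalIntegrable (fun t => 9 * φ t ^ 2) volume 0 (2 * π) :=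
    (continuous_const.mul (hcφ.pow 2)).intervalIntegrable _ _
  rw [intervalIntegral.integral_add (i2.sub i1) i0, intervalIntegral.integral_sub i2 i1,
    intervalIntegral.integral_const_mul, intervalIntegral.integral_const_mul]
  have hp := two_pi_pos'
  have h7 : 0 ≤ (2 * π)⁻¹ * ((∫ x in (0 : ℝ)..(2 * π), φ'' x ^ 2) -
      10 * (∫ x in (0 : ℝ)..(2 * π), φ' x ^ 2) + 9 * ∫ x in (0 : ℝ)..(2 * π), φ x ^ 2) := by
    linarith
  exact nonneg_of_mul_nonneg_right h7 (inv_pos.2 hp)

end Helper80.CW
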