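import Pool.Agent.Helper80.CW.DW

/-!
# Families of multipliers depending on a parameter `θ` of the body (irregular contact points)

`T` = the type of the parameter, `co θ g` = the weight of the group element `g`. The certificate
has to be checked for `u` in the chamber `u0 ≥ u1 ≥ u2 ≥ 0` and all parameters.
-/

set_option linter.all false

namespace Helper80.CW.DL

open Set Metric MeasureTheory Helper82.CW MvPolynomial Helper80.CW Helper37.FX
open scoped ContDiff Topology RealInnerProductSpace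

/-- **volume from a list of weighted, transformed monomials** -/
theorem vol_list {f : E3 → ℝ} (h : SSup f 1) {x0 : E3} (hx0 : x0 ∈ Bd f)
    (B : E3 ≃ₗᵢ[ℝ] E3) (fm : List (ℝ × Ge × Mo)) {V : ℝ}
    (H : ∀ u p : E3, ‖u‖ = 1 → x0 + B (p + (1 / 2 : ℝ) • u) ∈ Bd f →
      x0 + B (p - (1 / 2 : ℝ) • u) ∈ Bd f →
      CertAt ((fm.map fun a => a.1 * vl (d0 a.2.2) (tr a.2.1 (v3 u)) (tr a.2.1 (v3 p))).sum)
        ((fm.map fun a => a.1 * vl (d1 a.2.2) (tr a.2.1 (v3 u)) (tr a.2.1 (v3 p))).sum)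
        ((fm.map fun a => a.1 * vl (d2 a.2.2) (tr a.2.1 (v3 u)) (tr a.2.1 (v3 p))).sum / 2) V) :
    ENNReal.ofReal (Real.pi / 6 - 2 * Real.pi * V) ≤ volume (Bd f) := by
  refine vol_top_mv h hx0 B (ι := Fin fm.length) (fun a => dg fm[a].2.2)
    (fun a => C fm[a].1 * actf (pe fm[a].2.1.1) (se fm[a].2.1) (toPQ fm[a].2.2)) ?_ ?_
  · intro a
    have h1 := (isWeightedHomogeneous_C w fm[a].1).mul
      (actf_hom (pe fm[a].2.1.1) (se fm[a].2.1) fm[a].2.2)
    rwa [zero_add] at h1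
  · intro u p hu h1 h2
    have hg := H u p hu h1 h2
    have vs : ∀ F : Fin fm.length → PQ, val (∑ a, F a) u p = ∑ a, val (F a) u p := fun F => by
      simp [val]
    have e0 : val (E0 (fun a : Fin fm.length => dg fm[a].2.2)
        (fun a => C fm[a].1 * actf (pe fm[a].2.1.1) (se fm[a].2.1) (toPQ fm[a].2.2))) u p =
        (fm.map fun a => a.1 * vl (d0 a.2.2) (tr a.2.1 (v3 u)) (tr a.2.1 (v3 p))).sum := by
      rw [← Fin.sum_univ_fun_getElem]
      unfold E0
      rw [vs]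
      refine Finset.sum_congr rfl fun a _ => ?_
      rw [D0_C, D0_actf _ _ (se_sq _), ← v3_te, ← v3_te]
      simp only [Fin.getElem_fin]
      rw [← val_D0, ← val_g]
      simp only [val, map_mul, eval_C]
    have e1 : val (E1 (fun a : Fin fm.length => dg fm[a].2.2)
        (fun a => C fm[a].1 * actf (pe fm[a].2.1.1) (se fm[a].2.1) (toPQ fm[a].2.2))) u p =
        (fm.map fun a => a.1 * vl (d1 a.2.2) (tr a.2.1 (v3 u)) (tr a.2.1 (v3 p))).sum := by
      rw [← Fin.sum_univ_fun_getElem]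
      unfold E1
      rw [vs]
      refine Finset.sum_congr rfl fun a _ => ?_
      rw [D1_C, D1_actf _ _ (se_sq _), ← v3_te, ← v3_te]
      simp only [Fin.getElem_fin]
      rw [← val_D1, ← val_g]
      simp only [val, map_mul, eval_C]
    have e2 : val (E2
        (fun a : Fin fm.length => C fm[a].1 * actf (pe fm[a].2.1.1) (se fm[a].2.1)
          (toPQ fm[a].2.2))) u p =
        (fm.map fun a => a.1 * vl (d2 a.2.2) (tr a.2.1 (v3 u)) (tr a.2.1 (v3 p))).sum / 2 := by
      rw [← Fin.sum_univ_fun_getElem, Finset.sum_div]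
      unfold E2
      rw [vs]
      refine Finset.sum_congr rfl fun a _ => ?_
      rw [D2_C, D2_actf _ _ (se_sq _), ← v3_te, ← v3_te]
      simp only [Fin.getElem_fin]
      rw [← val_D2, ← val_g]
      simp only [val, map_mul, eval_C]
      ring
    rw [e0, e1, e2]
    exact hg

section
variable {T : Type} (co : T → Ge → ℝ)

/-- the weighted sum over the group -/
def ec (θ : T) (F : V3 → V3 → ℝ) (u p : V3) : ℝ :=
  (G24.map fun g => co θ g * F (tr g u) (tr g p)).sum

/-- the symmetries of the parameter -/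
structure Sy (s01 s12 sfl : T → T) : Prop where
  c1 : ∀ θ g, co (s01 θ) g = co θ (c01 g)
  c2 : ∀ θ g, co (s12 θ) g = co θ (c12 g)
  c3 : ∀ θ g, co (sfl θ) g = co θ (cfl g)

variable {co} {s01 s12 sfl : T → T}

theorem Sy.e01 (hS : Sy co s01 s12 sfl) (θ : T) (F : V3 → V3 → ℝ) (u p : V3) :
    ec co (s01 θ) F (u.2.1, u.1, u.2.2) (p.2.1, p.1, p.2.2) = ec co θ F u p := by
  unfold ec
  simp only [← tr_c01, hS.c1]
  have h := (perm01.map fun g => co θ g * F (tr g u) (tr g p)).sum_eq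
  rw [List.map_map] at h
  exact h

theorem Sy.e12 (hS : Sy co s01 s12 sfl) (θ : T) (F : V3 → V3 → ℝ) (u p : V3) :
    ec co (s12 θ) F (u.1, u.2.2, u.2.1) (p.1, p.2.2, p.2.1) = ec co θ F u p := by
  unfold ec
  simp only [← tr_c12, hS.c2]
  have h := (perm12.map fun g => co θ g * F (tr g u) (tr g p)).sum_eq
  rw [List.map_map] at h
  exact h

theorem Sy.efl (hS : Sy co s01 s12 sfl) (θ : T) (F : V3 → V3 → ℝ) (u p : V3) :
    ec co (sfl θ) F (-u.1, -u.2.1, u.2.2) (-p.1, -p.2.1, p.2.2) = ec co θ F u p := by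
  unfold ec
  simp only [← tr_cfl, hS.c3]
  have h := (permfl.map fun g => co θ g * F (tr g u) (tr g p)).sum_eq
  rw [List.map_map] at h
  exact h

theorem ec_par {l : List Mo} {b : ℕ} (h : ∀ m ∈ l, Pr b m) (θ : T) (u p : V3) :
    ec co θ (vl l) (ng u) (p) = (-1) ^ b * ec co θ (vl l) u p := by
  unfold ec
  simp only [tr_ng, vl_par h]
  rw [← List.sum_map_mul_left]
  congr 1
  apply List.map_congr_left
  intro g _
  ring

/-- the certificate at a point -/
def GoodT (co : T → Ge → ℝ) (sd : List Mo) (N : ℤ) (V : ℝ) (θ : T) (u p : V3) : Prop :=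
  CertAt (ec co θ (vl (sd.flatMap d0)) u p / N) (ec co θ (vl (sd.flatMap d1)) u p / N)
    (ec co θ (vl (sd.flatMap d2)) u p / (2 * N)) V

theorem GoodT.ng {sd : List Mo} {N : ℤ} {V : ℝ} (hev : ∀ m ∈ sd, dg m % 2 = 0) {θ : T} {u p : V3}
    (h : GoodT co sd N V θ (ng u) p) : GoodT co sd N V θ u p := by
  have h0 : ∀ m ∈ sd.flatMap d0, Pr 0 m := by
    intro m hm
    obtain ⟨n, hn, hm⟩ := List.mem_flatMap.1 hm
    exact d0_par (Or.inr (by simpa using hev n hn)) m hm
  have h1 : ∀ m ∈ sd.flatMap d1, Pr 1 m := by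
    intro m hm
    obtain ⟨n, hn, hm⟩ := List.mem_flatMap.1 hm
    exact d1_par (Or.inr (by simpa using hev n hn)) m hm
  have h2 : ∀ m ∈ sd.flatMap d2, Pr 0 m := by
    intro m hm
    obtain ⟨n, hn, hm⟩ := List.mem_flatMap.1 hm
    exact d2_par (Or.inr (by simpa using hev n hn)) m hm
  unfold GoodT at *
  rw [ec_par h0, ec_par h1, ec_par h2] at h
  obtain ⟨a, b, c, d⟩ := h
  simp only [pow_zero, one_mul, pow_one, neg_mul, neg_div] at a b c d
  exact ⟨a, b, by linarith, by linarith⟩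

/-- **reduction to the chamber**, with parameters -/
theorem goodT_all {sd : List Mo} {N : ℤ} {V : ℝ} (hS : Sy co s01 s12 sfl)
    (hev : ∀ m ∈ sd, dg m % 2 = 0) {Dom : T → V3 → V3 → Prop}
    (d01 : ∀ θ u p, Dom θ u p → Dom (s01 θ) (u.2.1, u.1, u.2.2) (p.2.1, p.1, p.2.2))
    (d12 : ∀ θ u p, Dom θ u p → Dom (s12 θ) (u.1, u.2.2, u.2.1) (p.1, p.2.2, p.2.1))
    (dfl : ∀ θ u p, Dom θ u p → Dom (sfl θ) (-u.1, -u.2.1, u.2.2) (-p.1, -p.2.1, p.2.2))
    (dng : ∀ θ u p, Dom θ u p → Dom θ (ng u) p)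
    (H : ∀ θ (u p : V3), u.1 ^ 2 + u.2.1 ^ 2 + u.2.2 ^ 2 = 1 → 0 ≤ u.2.2 → u.2.2 ≤ u.2.1 →
      u.2.1 ≤ u.1 → Dom θ u p → GoodT co sd N V θ u p) (θ : T) (u p : V3)
    (hu : u.1 ^ 2 + u.2.1 ^ 2 + u.2.2 ^ 2 = 1) (hD : Dom θ u p) : GoodT co sd N V θ u p := by
  set P : V3 → V3 → Prop := fun u p => ∀ θ, u.1 ^ 2 + u.2.1 ^ 2 + u.2.2 ^ 2 = 1 → Dom θ u p →
    GoodT co sd N V θ u p with hP
  have e01 : ∀ x y z a b c : ℝ, P (y, x, z) (b, a, c) → P (x, y, z) (a, b, c) := by
    intro x y z a b c h θ h1 h2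
    have h3 := h (s01 θ) (by simp only at h1 ⊢; linarith) (d01 _ _ _ h2)
    unfold GoodT at *
    have q := fun F => hS.e01 θ F (x, y, z) (a, b, c)
    simp only at q
    rwa [q, q, q] at h3
  have e12 : ∀ x y z a b c : ℝ, P (x, z, y) (a, c, b) → P (x, y, z) (a, b, c) := by
    intro x y z a b c h θ h1 h2
    have h3 := h (s12 θ) (by simp only at h1 ⊢; linarith) (d12 _ _ _ h2)
    unfold GoodT at *
    have q := fun F => hS.e12 θ F (x, y, z) (a, b, c)
    simp only at q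
    rwa [q, q, q] at h3
  have efl : ∀ x y z a b c : ℝ, P (-x, -y, z) (-a, -b, c) → P (x, y, z) (a, b, c) := by
    intro x y z a b c h θ h1 h2
    have h3 := h (sfl θ) (by simp only at h1 ⊢; linarith) (dfl _ _ _ h2)
    unfold GoodT at *
    have q := fun F => hS.efl θ F (x, y, z) (a, b, c)
    simp only at q
    rwa [q, q, q] at h3
  have eng : ∀ x y z a b c : ℝ, P (-x, -y, -z) (a, b, c) → P (x, y, z) (a, b, c) := by
    intro x y z a b c h θ h1 h2
    exact GoodT.ng hev (h θ (by simp only at h1 ⊢; linarith) (dng _ _ _ h2))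
  have H' : ∀ x y z a b c : ℝ, 0 ≤ z → z ≤ y → y ≤ x → P (x, y, z) (a, b, c) := by
    intro x y z a b c h1 h2 h3 θ h4 h5
    exact H θ _ _ h4 h1 h2 h3 h5
  have S2 : ∀ x y z a b c : ℝ, 0 ≤ x → 0 ≤ y → 0 ≤ z → P (x, y, z) (a, b, c) := by
    intro x y z a b c hx hy hz
    rcases le_total x y with h1 | h1
    · rcases le_total x z with h2 | h2
      · rcases le_total y z with h3 | h3
        · exact e01 _ _ _ _ _ _ (e12 _ _ _ _ _ _ (e01 _ _ _ _ _ _ (H' _ _ _ _ _ _ hx h1 h3)))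
        · exact e01 _ _ _ _ _ _ (e12 _ _ _ _ _ _ (H' _ _ _ _ _ _ hx h2 h3))
      · exact e01 _ _ _ _ _ _ (H' _ _ _ _ _ _ hz h2 h1)
    · rcases le_total y z with h2 | h2
      · rcases le_total x z with h3 | h3
        · exact e12 _ _ _ _ _ _ (e01 _ _ _ _ _ _ (H' _ _ _ _ _ _ hy h1 h3))
        · exact e12 _ _ _ _ _ _ (H' _ _ _ _ _ _ hy h2 h3)
      · exact H' _ _ _ _ _ _ hz h2 h1
  have S3 : ∀ x y z a b c : ℝ, P (x, y, z) (a, b, c) := by
    intro x y z a b c
    rcases le_total 0 x with hx | hx <;> rcases le_total 0 y with hy | hy <;>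
      rcases le_total 0 z with hz | hz
    · exact S2 _ _ _ _ _ _ hx hy hz
    · exact eng _ _ _ _ _ _ (efl _ _ _ _ _ _ (S2 _ _ _ _ _ _ (by linarith) (by linarith)
        (by linarith)))
    · exact eng _ _ _ _ _ _ (e12 _ _ _ _ _ _ (efl _ _ _ _ _ _ (S2 _ _ _ _ _ _ (by linarith)
        (by linarith) (by linarith))))
    · exact e01 _ _ _ _ _ _ (e12 _ _ _ _ _ _ (efl _ _ _ _ _ _ (S2 _ _ _ _ _ _ (by linarith)
        (by linarith) (by linarith))))
    · exact eng _ _ _ _ _ _ (e01 _ _ _ _ _ _ (e12 _ _ _ _ _ _ (efl _ _ _ _ _ _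
        (S2 _ _ _ _ _ _ (by linarith) (by linarith) (by linarith)))))
    · exact e12 _ _ _ _ _ _ (efl _ _ _ _ _ _ (S2 _ _ _ _ _ _ (by linarith) (by linarith)
        (by linarith)))
    · exact efl _ _ _ _ _ _ (S2 _ _ _ _ _ _ (by linarith) (by linarith) (by linarith))
    · exact eng _ _ _ _ _ _ (S2 _ _ _ _ _ _ (by linarith) (by linarith) (by linarith))
  exact S3 u.1 u.2.1 u.2.2 p.1 p.2.1 p.2.2 θ hu hD

/-- **volume from a certificate on the chamber, with parameters** -/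
theorem vol_conf {f : E3 → ℝ} (h : SSup f 1) {x0 : E3} (hx0 : x0 ∈ Bd f)
    (B : E3 ≃ₗᵢ[ℝ] E3) {sd : List Mo} {N : ℤ} {V : ℝ} (hN : 0 < N)
    (hS : Sy co s01 s12 sfl) (hev : ∀ m ∈ sd, dg m % 2 = 0) {Dom : T → V3 → V3 → Prop}
    (d01 : ∀ θ u p, Dom θ u p → Dom (s01 θ) (u.2.1, u.1, u.2.2) (p.2.1, p.1, p.2.2))
    (d12 : ∀ θ u p, Dom θ u p → Dom (s12 θ) (u.1, u.2.2, u.2.1) (p.1, p.2.2, p.2.1))
    (dfl : ∀ θ u p, Dom θ u p → Dom (sfl θ) (-u.1, -u.2.1, u.2.2) (-p.1, -p.2.1, p.2.2))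
    (dng : ∀ θ u p, Dom θ u p → Dom θ (ng u) p) (θ : T)
    (hD : ∀ u p : E3, ‖u‖ = 1 → x0 + B (p + (1 / 2 : ℝ) • u) ∈ Bd f →
      x0 + B (p - (1 / 2 : ℝ) • u) ∈ Bd f → Dom θ (v3 u) (v3 p))
    (H : ∀ θ (u p : V3), u.1 ^ 2 + u.2.1 ^ 2 + u.2.2 ^ 2 = 1 → 0 ≤ u.2.2 → u.2.2 ≤ u.2.1 →
      u.2.1 ≤ u.1 → Dom θ u p → GoodT co sd N V θ u p) :
    ENNReal.ofReal (Real.pi / 6 - 2 * Real.pi * V) ≤ volume (Bd f) := by
  have hN' : (0 : ℝ) < N := by exact_mod_cast hN
  refine vol_list h hx0 B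
    (G24.flatMap fun g => sd.map fun m => (co θ g / (N : ℝ), g, m)) ?_
  intro u p hu h1 h2
  have hu3 : (v3 u).1 ^ 2 + (v3 u).2.1 ^ 2 + (v3 u).2.2 ^ 2 = 1 := sum_sq_one hu
  have hg := goodT_all hS hev d01 d12 dfl dng H θ (v3 u) (v3 p) hu3 (hD u p hu h1 h2)
  have key : ∀ d : Mo → List Mo, ((G24.flatMap fun g => sd.map fun m =>
      (co θ g / (N : ℝ), g, m)).map fun a => a.1 * vl (d a.2.2) (tr a.2.1 (v3 u))
        (tr a.2.1 (v3 p))).sum = ec co θ (vl (sd.flatMap d)) (v3 u) (v3 p) / N := by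
    intro d
    unfold ec
    induction G24 with
    | nil => simp
    | cons g G ih =>
      rw [List.flatMap_cons, List.map_append, List.sum_append, ih, List.map_cons, List.sum_cons,
        add_div]
      congr 1
      rw [List.map_map]
      have : ∀ l : List Mo, (l.map ((fun a : ℝ × Ge × Mo => a.1 * vl (d a.2.2)
          (tr a.2.1 (v3 u)) (tr a.2.1 (v3 p))) ∘ fun m => (co θ g / (N : ℝ), g, m))).sum =
          co θ g * vl (l.flatMap d) (tr g (v3 u)) (tr g (v3 p)) / N := by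
        intro l
        induction l with
        | nil => simp [vl]
        | cons m l ih2 =>
          rw [List.map_cons, List.sum_cons, ih2, List.flatMap_cons, vl_append]
          simp only [Function.comp]
          ring
      exact this sd
  rw [key, key, key]
  have e : ec co θ (vl (sd.flatMap d2)) (v3 u) (v3 p) / N / 2 =
      ec co θ (vl (sd.flatMap d2)) (v3 u) (v3 p) / (2 * N) := by
    rw [div_div, mul_comm]
  rw [e]
  exact hg

end

/-! ### six states: one short edge, edge = signed axis -/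

/-- the axis of the first coordinate -/
def ax (g : Ge) : Fin 3 × Bool :=
  (match g.1 with
    | 0 => 0
    | 1 => 1
    | 2 => 0
    | 3 => 2
    | 4 => 1
    | 5 => 2, g.2.1)

/-- symmetries of the axes -/
def x01 (a : Fin 3 × Bool) : Fin 3 × Bool :=
  (match a.1 with
    | 0 => 1
    | 1 => 0
    | 2 => 2, a.2)

def x12 (a : Fin 3 × Bool) : Fin 3 × Bool :=
  (match a.1 with
    | 0 => 0
    | 1 => 2
    | 2 => 1, a.2)

def xfl (a : Fin 3 × Bool) : Fin 3 × Bool :=
  (a.1, match a.1 with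
    | 0 => !a.2
    | 1 => !a.2
    | 2 => a.2)

theorem ax_c01 : ∀ g : Ge, ax (c01 g) = x01 (ax g) := by decide
theorem ax_c12 : ∀ g : Ge, ax (c12 g) = x12 (ax g) := by decide
theorem ax_cfl : ∀ g : Ge, ax (cfl g) = xfl (ax g) := by decide

/-- weights given by the axis -/
theorem sy_ax : Sy (fun (θ : Fin 3 × Bool → ℝ) g => θ (ax g)) (fun θ a => θ (x01 a))
    (fun θ a => θ (x12 a)) (fun θ a => θ (xfl a)) where
  c1 := fun θ g => by simp only [ax_c01]
  c2 := fun θ g => by simp only [ax_c12]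
  c3 := fun θ g => by simp only [ax_cfl]

/-- the part of the orbit of one state -/
def orbv (a : Fin 3 × Bool) (l : List Mo) : List Mo :=
  (G24.filter fun g => ax g = a).flatMap fun g => l.map (am g)

/-- the weighted sum as a sum over the states -/
theorem ec_ax (θ : Fin 3 × Bool → ℝ) (l : List Mo) (u p : V3) :
    ec (fun (θ : Fin 3 × Bool → ℝ) g => θ (ax g)) θ (vl l) u p =
      ∑ a, θ a * vl (orbv a l) u p := by
  unfold ec orbv
  induction G24 with
  | nil => simp [vl]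
  | cons g G ih =>
    rw [List.map_cons, List.sum_cons, ih]
    have h1 : ∀ a, vl (((g :: G).filter fun g => ax g = a).flatMap fun g => l.map (am g)) u p =
        (if ax g = a then vl l (tr g u) (tr g p) else 0) +
          vl ((G.filter fun g => ax g = a).flatMap fun g => l.map (am g)) u p := by
      intro a
      by_cases h : ax g = a
      · rw [List.filter_cons_of_pos (by simpa using h), List.flatMap_cons, vl_append, vl_map_am,
          if_pos h]
      · rw [List.filter_cons_of_neg (by simpa using h), if_neg h, zero_add]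
    simp only [h1, mul_add, Finset.sum_add_distrib]
    congr 1
    simp

end Helper80.CW.DL
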