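import Pool.Agent.Helper80.CW.DC

/-!
# Families of multipliers depending on a parameter, with tagged seed lists

`Λ_θ = (1/N) Σ over tagged lists (i, sd), Σ_g co θ i g · sd (g u, g p)`.
-/

set_option linter.all false

namespace Helper80.CW.DL

open Set Metric MeasureTheory Helper82.CW MvPolynomial Helper80.CW Helper37.FX
open scoped ContDiff Topology RealInnerProductSpace

section
variable {T ι : Type} {co : T → ι → Ge → ℝ} {s01 s12 sfl : T → T}

/-- the weighted sum of the lists `d` of all tagged seeds -/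
noncomputable def em (co : T → ι → Ge → ℝ) (sds : List (ι × List Mo)) (d : Mo → List Mo) (θ : T)
    (u p : V3) : ℝ :=
  (sds.map fun s => ec (fun θ g => co θ s.1 g) θ (vl (s.2.flatMap d)) u p).sum

/-- the certificate at a point -/
def GoodM (co : T → ι → Ge → ℝ) (sds : List (ι × List Mo)) (N : ℤ) (V : ℝ) (θ : T) (u p : V3) :
    Prop :=
  CertAt (em co sds d0 θ u p / N) (em co sds d1 θ u p / N) (em co sds d2 θ u p / (2 * N)) V

/-- the symmetries of the parameter -/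
structure SyM (co : T → ι → Ge → ℝ) (s01 s12 sfl : T → T) : Prop where
  c : ∀ i, Sy (fun θ g => co θ i g) s01 s12 sfl

theorem em01 (hS : SyM co s01 s12 sfl) (sds : List (ι × List Mo)) (d : Mo → List Mo) (θ : T)
    (u p : V3) : em co sds d (s01 θ) (u.2.1, u.1, u.2.2) (p.2.1, p.1, p.2.2) =
      em co sds d θ u p := by
  unfold em
  congr 1
  apply List.map_congr_left
  intro s _
  exact (hS.c s.1).e01 θ _ u p

theorem em12 (hS : SyM co s01 s12 sfl) (sds : List (ι × List Mo)) (d : Mo → List Mo) (θ : T)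
    (u p : V3) : em co sds d (s12 θ) (u.1, u.2.2, u.2.1) (p.1, p.2.2, p.2.1) =
      em co sds d θ u p := by
  unfold em
  congr 1
  apply List.map_congr_left
  intro s _
  exact (hS.c s.1).e12 θ _ u p

theorem emfl (hS : SyM co s01 s12 sfl) (sds : List (ι × List Mo)) (d : Mo → List Mo) (θ : T)
    (u p : V3) : em co sds d (sfl θ) (-u.1, -u.2.1, u.2.2) (-p.1, -p.2.1, p.2.2) =
      em co sds d θ u p := by
  unfold em
  congr 1
  apply List.map_congr_left
  intro s _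
  exact (hS.c s.1).efl θ _ u p

theorem em_par {sds : List (ι × List Mo)} {d : Mo → List Mo} {b : ℕ}
    (h : ∀ s ∈ sds, ∀ m ∈ s.2.flatMap d, Pr b m) (θ : T) (u p : V3) :
    em co sds d θ (ng u) p = (-1) ^ b * em co sds d θ u p := by
  unfold em
  rw [← List.sum_map_mul_left]
  congr 1
  apply List.map_congr_left
  intro s hs
  exact ec_par (h s hs) θ u p

theorem GoodM.ng {sds : List (ι × List Mo)} {N : ℤ} {V : ℝ}
    (hev : ∀ s ∈ sds, ∀ m ∈ s.2, dg m % 2 = 0) {θ : T} {u p : V3}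
    (h : GoodM co sds N V θ (ng u) p) : GoodM co sds N V θ u p := by
  have h0 : ∀ s ∈ sds, ∀ m ∈ s.2.flatMap d0, Pr 0 m := by
    intro s hs m hm
    obtain ⟨n, hn, hm⟩ := List.mem_flatMap.1 hm
    exact d0_par (Or.inr (by simpa using hev s hs n hn)) m hm
  have h1 : ∀ s ∈ sds, ∀ m ∈ s.2.flatMap d1, Pr 1 m := by
    intro s hs m hm
    obtain ⟨n, hn, hm⟩ := List.mem_flatMap.1 hm
    exact d1_par (Or.inr (by simpa using hev s hs n hn)) m hm
  have h2 : ∀ s ∈ sds, ∀ m ∈ s.2.flatMap d2, Pr 0 m := by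
    intro s hs m hm
    obtain ⟨n, hn, hm⟩ := List.mem_flatMap.1 hm
    exact d2_par (Or.inr (by simpa using hev s hs n hn)) m hm
  unfold GoodM at *
  rw [em_par h0, em_par h1, em_par h2] at h
  obtain ⟨a, b, c, d⟩ := h
  simp only [pow_zero, one_mul, pow_one, neg_mul, neg_div] at a b c d
  exact ⟨a, b, by linarith, by linarith⟩

/-- **reduction to the chamber**, with parameters -/
theorem goodM_all {sds : List (ι × List Mo)} {N : ℤ} {V : ℝ} (hS : SyM co s01 s12 sfl)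
    (hev : ∀ s ∈ sds, ∀ m ∈ s.2, dg m % 2 = 0) {Dom : T → V3 → V3 → Prop}
    (d01 : ∀ θ u p, Dom θ u p → Dom (s01 θ) (u.2.1, u.1, u.2.2) (p.2.1, p.1, p.2.2))
    (d12 : ∀ θ u p, Dom θ u p → Dom (s12 θ) (u.1, u.2.2, u.2.1) (p.1, p.2.2, p.2.1))
    (dfl : ∀ θ u p, Dom θ u p → Dom (sfl θ) (-u.1, -u.2.1, u.2.2) (-p.1, -p.2.1, p.2.2))
    (dng : ∀ θ u p, Dom θ u p → Dom θ (ng u) p)
    (H : ∀ θ (u p : V3), u.1 ^ 2 + u.2.1 ^ 2 + u.2.2 ^ 2 = 1 → 0 ≤ u.2.2 → u.2.2 ≤ u.2.1 →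
      u.2.1 ≤ u.1 → Dom θ u p → GoodM co sds N V θ u p) (θ : T) (u p : V3)
    (hu : u.1 ^ 2 + u.2.1 ^ 2 + u.2.2 ^ 2 = 1) (hD : Dom θ u p) : GoodM co sds N V θ u p := by
  set P : V3 → V3 → Prop := fun u p => ∀ θ, u.1 ^ 2 + u.2.1 ^ 2 + u.2.2 ^ 2 = 1 → Dom θ u p →
    GoodM co sds N V θ u p with hP
  have e01 : ∀ x y z a b c : ℝ, P (y, x, z) (b, a, c) → P (x, y, z) (a, b, c) := by
    intro x y z a b c h θ h1 h2
    have h3 := h (s01 θ) (by simp only at h1 ⊢; linarith) (d01 _ _ _ h2)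
    unfold GoodM at *
    have q := fun d => em01 hS sds d θ (x, y, z) (a, b, c)
    simp only at q
    rwa [q, q, q] at h3
  have e12 : ∀ x y z a b c : ℝ, P (x, z, y) (a, c, b) → P (x, y, z) (a, b, c) := by
    intro x y z a b c h θ h1 h2
    have h3 := h (s12 θ) (by simp only at h1 ⊢; linarith) (d12 _ _ _ h2)
    unfold GoodM at *
    have q := fun d => em12 hS sds d θ (x, y, z) (a, b, c)
    simp only at q
    rwa [q, q, q] at h3
  have efl : ∀ x y z a b c : ℝ, P (-x, -y, z) (-a, -b, c) → P (x, y, z) (a, b, c) := by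
    intro x y z a b c h θ h1 h2
    have h3 := h (sfl θ) (by simp only at h1 ⊢; linarith) (dfl _ _ _ h2)
    unfold GoodM at *
    have q := fun d => emfl hS sds d θ (x, y, z) (a, b, c)
    simp only at q
    rwa [q, q, q] at h3
  have eng : ∀ x y z a b c : ℝ, P (-x, -y, -z) (a, b, c) → P (x, y, z) (a, b, c) := by
    intro x y z a b c h θ h1 h2
    exact GoodM.ng hev (h θ (by simp only at h1 ⊢; linarith) (dng _ _ _ h2))
  have H' : ∀ x y z a b c : ℝ, 0 ≤ z → z ≤ y → y ≤ x → P (x, y, z) (a, b, c) := by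
    intro x y z a b c h1 h2 h3 θ h4 h5
    exact H θ _ _ h4 h1 h2 h3 h5
  have S2 : ∀ x y z a b c : ℝ, 0 ≤ x → 0 ≤ y → 0 ≤ z → P (x, y, z) (a, b, c) := by
    intro x y z a b c hx hy hz
    rcases le_total x y with h1 | h1
    · rcases le_total x z with h2 | h2
      · rcases le_total y z with h3 | h3
        · exact e01 _ _ _ _ _ _ (e12 _ _ _ _ _ _ (e01 _ _ _ _ _ _ (H' _ _ _ _ _ _ hx h1 h3)))
        · exact e01 _ _ _ _ _ _ (e12 _ _ _ _ _ _ (H' _ _ _ _ _ _ hx h2 h3))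
      · exact e01 _ _ _ _ _ _ (H' _ _ _ _ _ _ hz h2 h1)
    · rcases le_total y z with h2 | h2
      · rcases le_total x z with h3 | h3
        · exact e12 _ _ _ _ _ _ (e01 _ _ _ _ _ _ (H' _ _ _ _ _ _ hy h1 h3))
        · exact e12 _ _ _ _ _ _ (H' _ _ _ _ _ _ hy h2 h3)
      · exact H' _ _ _ _ _ _ hz h2 h1
  have S3 : ∀ x y z a b c : ℝ, P (x, y, z) (a, b, c) := by
    intro x y z a b c
    rcases le_total 0 x with hx | hx <;> rcases le_total 0 y with hy | hy <;>
      rcases le_total 0 z with hz | hz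
    · exact S2 _ _ _ _ _ _ hx hy hz
    · exact eng _ _ _ _ _ _ (efl _ _ _ _ _ _ (S2 _ _ _ _ _ _ (by linarith) (by linarith)
        (by linarith)))
    · exact eng _ _ _ _ _ _ (e12 _ _ _ _ _ _ (efl _ _ _ _ _ _ (S2 _ _ _ _ _ _ (by linarith)
        (by linarith) (by linarith))))
    · exact e01 _ _ _ _ _ _ (e12 _ _ _ _ _ _ (efl _ _ _ _ _ _ (S2 _ _ _ _ _ _ (by linarith)
        (by linarith) (by linarith))))
    · exact eng _ _ _ _ _ _ (e01 _ _ _ _ _ _ (e12 _ _ _ _ _ _ (efl _ _ _ _ _ _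
        (S2 _ _ _ _ _ _ (by linarith) (by linarith) (by linarith)))))
    · exact e12 _ _ _ _ _ _ (efl _ _ _ _ _ _ (S2 _ _ _ _ _ _ (by linarith) (by linarith)
        (by linarith)))
    · exact efl _ _ _ _ _ _ (S2 _ _ _ _ _ _ (by linarith) (by linarith) (by linarith))
    · exact eng _ _ _ _ _ _ (S2 _ _ _ _ _ _ (by linarith) (by linarith) (by linarith))
  exact S3 u.1 u.2.1 u.2.2 p.1 p.2.1 p.2.2 θ hu hD

/-- **volume from a certificate on the chamber, with parameters** -/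
theorem vol_confM {f : E3 → ℝ} (h : SSup f 1) {x0 : E3} (hx0 : x0 ∈ Bd f)
    (B : E3 ≃ₗᵢ[ℝ] E3) {sds : List (ι × List Mo)} {N : ℤ} {V : ℝ} (hN : 0 < N)
    (hS : SyM co s01 s12 sfl) (hev : ∀ s ∈ sds, ∀ m ∈ s.2, dg m % 2 = 0) {Dom : T → V3 → V3 → Prop}
    (d01 : ∀ θ u p, Dom θ u p → Dom (s01 θ) (u.2.1, u.1, u.2.2) (p.2.1, p.1, p.2.2))
    (d12 : ∀ θ u p, Dom θ u p → Dom (s12 θ) (u.1, u.2.2, u.2.1) (p.1, p.2.2, p.2.1))
    (dfl : ∀ θ u p, Dom θ u p → Dom (sfl θ) (-u.1, -u.2.1, u.2.2) (-p.1, -p.2.1, p.2.2))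
    (dng : ∀ θ u p, Dom θ u p → Dom θ (ng u) p) (θ : T)
    (hD : ∀ u p : E3, ‖u‖ = 1 → x0 + B (p + (1 / 2 : ℝ) • u) ∈ Bd f →
      x0 + B (p - (1 / 2 : ℝ) • u) ∈ Bd f → Dom θ (v3 u) (v3 p))
    (H : ∀ θ (u p : V3), u.1 ^ 2 + u.2.1 ^ 2 + u.2.2 ^ 2 = 1 → 0 ≤ u.2.2 → u.2.2 ≤ u.2.1 →
      u.2.1 ≤ u.1 → Dom θ u p → GoodM co sds N V θ u p) :
    ENNReal.ofReal (Real.pi / 6 - 2 * Real.pi * V) ≤ volume (Bd f) := by
  have hN' : (0 : ℝ) < N := by exact_mod_cast hN
  refine vol_list h hx0 B (sds.flatMap fun s =>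
    G24.flatMap fun g => s.2.map fun m => (co θ s.1 g / (N : ℝ), g, m)) ?_
  intro u p hu h1 h2
  have hu3 : (v3 u).1 ^ 2 + (v3 u).2.1 ^ 2 + (v3 u).2.2 ^ 2 = 1 := sum_sq_one hu
  have hg := goodM_all hS hev d01 d12 dfl dng H θ (v3 u) (v3 p) hu3 (hD u p hu h1 h2)
  have key1 : ∀ (s : ι × List Mo) (d : Mo → List Mo), ((G24.flatMap fun g => s.2.map fun m =>
      (co θ s.1 g / (N : ℝ), g, m)).map fun a => a.1 * vl (d a.2.2) (tr a.2.1 (v3 u))
        (tr a.2.1 (v3 p))).sum =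
        ec (fun θ g => co θ s.1 g) θ (vl (s.2.flatMap d)) (v3 u) (v3 p) / N := by
    intro s d
    unfold ec
    induction G24 with
    | nil => simp
    | cons g G ih =>
      rw [List.flatMap_cons, List.map_append, List.sum_append, ih, List.map_cons, List.sum_cons,
        add_div]
      congr 1
      rw [List.map_map]
      have : ∀ l : List Mo, (l.map ((fun a : ℝ × Ge × Mo => a.1 * vl (d a.2.2)
          (tr a.2.1 (v3 u)) (tr a.2.1 (v3 p))) ∘ fun m => (co θ s.1 g / (N : ℝ), g, m))).sum =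
          co θ s.1 g * vl (l.flatMap d) (tr g (v3 u)) (tr g (v3 p)) / N := by
        intro l
        induction l with
        | nil => simp [vl]
        | cons m l ih2 =>
          rw [List.map_cons, List.sum_cons, ih2, List.flatMap_cons, vl_append]
          simp only [Function.comp]
          ring
      exact this s.2
  have key : ∀ d : Mo → List Mo, ((sds.flatMap fun s => G24.flatMap fun g => s.2.map fun m =>
      (co θ s.1 g / (N : ℝ), g, m)).map fun a => a.1 * vl (d a.2.2) (tr a.2.1 (v3 u))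
        (tr a.2.1 (v3 p))).sum = em co sds d θ (v3 u) (v3 p) / N := by
    intro d
    unfold em
    clear hg H hev
    induction sds with
    | nil => simp
    | cons s l ih =>
      rw [List.flatMap_cons, List.map_append, List.sum_append, ih, List.map_cons, List.sum_cons,
        add_div, key1]
  rw [key, key, key]
  have e : em co sds d2 θ (v3 u) (v3 p) / N / 2 = em co sds d2 θ (v3 u) (v3 p) / (2 * N) := by
    rw [div_div, mul_comm]
  rw [e]
  exact hg

end

end Helper80.CW.DL
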