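import Pool.Agent.Helper80.CW.DA

/-!
# Twelve vertices: the volume bound from affine families of integer polynomials
-/

set_option linter.all false

namespace Helper80.CW.DL

open Set Metric MeasureTheory Helper82.CW MvPolynomial Helper80.CW Helper37.FX
open scoped ContDiff Topology RealInnerProductSpace

/-- integer data of a certificate: seeds `sd0`, `sd1`, scale `N`, target `M / (4 N)`, defects
`T ∈ [t1 / K, t2 / K]`, `r = rn / rd`, slacks `k1 + l1 τ, k2 + l2 τ` in units `1 / (16 K rd)`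
at `T = τ / K` -/
structure Ct where
  sd0 : List Mo
  sd1 : List Mo
  N : ℤ
  M : ℤ
  K : ℤ
  t1 : ℤ
  t2 : ℤ
  rn : ℤ
  rd : ℤ
  k1 : ℤ
  k2 : ℤ
  l1 : ℤ
  l2 : ℤ
  k3 : ℤ

namespace Ct
variable (c : Ct)

def tau (b : Bool) : ℤ := if b then c.t2 else c.t1

/-- `K` times the symmetrised list at the vertex `(a, τ)` -/
def Lv (a : St) (τ : ℤ) (d : Mo → List Mo) : List Mo :=
  (orb (c.sd0.flatMap d)).map (sc c.K) ++ (orbv a (c.sd1.flatMap d)).map (sc τ)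

/-- the four polynomials at a vertex -/
def Qv (a : St) (τ : ℤ) : Fin 4 → List Mo
  | 0 => cst (c.K * (c.M - c.N)) :: ((c.Lv a τ d0).map (sc (-4)) ++ c.Lv a τ d2)
  | 1 => cst (c.K * c.N) :: (c.Lv a τ d2).map (sc (-1))
  | 2 => cst (c.K * (c.M + c.N)) :: ((c.Lv a τ d0).map (sc (-4)) ++
      ((c.Lv a τ d1).map (sc (-4)) ++ (c.Lv a τ d2).map (sc (-1))))
  | 3 => cst (c.K * (c.M + c.N)) :: ((c.Lv a τ d0).map (sc (-4)) ++
      ((c.Lv a τ d1).map (sc 4) ++ (c.Lv a τ d2).map (sc (-1))))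

def den : ℤ := 16 * c.K * c.rd

def sgn (b : Bool) : ℤ := if b then -1 else 1

/-- unit vector in the parameter space -/
def dl (a : St) : St → ℤ := fun b => if a = b then 1 else 0

/-- the ten constraints at a vertex (value `≤ 0` on the domain), for `|u| = 1` -/
def cL (i : Option (Fin 4)) (b : Bool) (a : St) (τ : ℤ) : List Mo :=
  let D := c.den
  let σ := sgn b
  [(D, (0, 0, 0), (2, 0, 0)), (D, (0, 0, 0), (0, 2, 0)), (D, (0, 0, 0), (0, 0, 2)),
    (σ * D, (1, 0, 0), (1, 0, 0)), (σ * D, (0, 1, 0), (0, 1, 0)), (σ * D, (0, 0, 1), (0, 0, 1))] ++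
  match i with
  | none => [cst (4 * c.K * c.rd - c.rd * (6 * c.K - τ) - (c.k1 + c.l1 * τ))]
  | some j =>
    let s := cgz j
    let G := Eg s (dl a)
    let G0 := c.rn * (4 * c.K * s.1 + τ * G.1)
    let G1 := c.rn * (4 * c.K * s.2.1 + τ * G.2.1)
    let G2 := c.rn * (4 * c.K * s.2.2 + τ * G.2.2)
    [(-4 * G0, (0, 0, 0), (1, 0, 0)), (-4 * G1, (0, 0, 0), (0, 1, 0)),
      (-4 * G2, (0, 0, 0), (0, 0, 1)), (-2 * σ * G0, (1, 0, 0), (0, 0, 0)),
      (-2 * σ * G1, (0, 1, 0), (0, 0, 0)), (-2 * σ * G2, (0, 0, 1), (0, 0, 0)),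
      cst (-12 * c.K * c.rd + c.rd * (6 * c.K - τ) - (c.k2 + c.l2 * τ))]

/-- the constraint `|q|² ≤ k3 / (16 K rd)`, for `|u| = 1` -/
def capL (b : Bool) : List Mo :=
  let D := c.den
  let σ := sgn b
  [(D, (0, 0, 0), (2, 0, 0)), (D, (0, 0, 0), (0, 2, 0)), (D, (0, 0, 0), (0, 0, 2)),
    (σ * D, (1, 0, 0), (1, 0, 0)), (σ * D, (0, 1, 0), (0, 1, 0)), (σ * D, (0, 0, 1), (0, 0, 1)),
    cst (4 * c.K * c.rd - c.k3)]

/-- the statement at a point: all four, for all convex combinations of the twelve vertices -/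
def Aff (j : Fin 4) (u p : V3) : Prop :=
  ∀ θ : St × Bool → ℝ, (∀ v, 0 ≤ θ v) → ∑ v, θ v = 1 →
    (∀ i b, ∑ v, θ v * vl (c.cL i b v.1 (c.tau v.2)) u p ≤ 0) →
    0 ≤ ∑ v, θ v * vl (c.Qv v.1 (c.tau v.2) j) u p

def ok : Bool :=
  decide (0 < c.N) && decide (0 < c.K) && decide (0 < c.rd) && decide (0 ≤ c.t1) &&
    decide (c.t1 < c.t2) && c.sd0.all (fun m => dg m % 2 == 0) &&
    c.sd1.all (fun m => dg m % 2 == 0)

end Ct

/-- leaves: common multipliers at all vertices -/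
theorem aff_leaf {Q : St × Bool → ℝ} {C : Option (Fin 4) → Bool → St × Bool → ℝ} {κ : ℝ}
    {lam : Option (Fin 4) → Bool → ℝ} (hκ : 0 < κ) (hl : ∀ i b, 0 ≤ lam i b)
    (h : ∀ v, 0 ≤ κ * Q v + ∑ i, ∑ b, lam i b * C i b v) {θ : St × Bool → ℝ}
    (h0 : ∀ v, 0 ≤ θ v) (hC : ∀ i b, ∑ v, θ v * C i b v ≤ 0) : 0 ≤ ∑ v, θ v * Q v := by
  have e : 0 ≤ ∑ v, θ v * (κ * Q v + ∑ i, ∑ b, lam i b * C i b v) :=
    Finset.sum_nonneg fun v _ => mul_nonneg (h0 v) (h v)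
  have e2 : ∑ v, θ v * (κ * Q v + ∑ i, ∑ b, lam i b * C i b v) =
      κ * ∑ v, θ v * Q v + ∑ i, ∑ b, lam i b * ∑ v, θ v * C i b v := by
    simp only [mul_add, Finset.sum_add_distrib, Finset.mul_sum]
    congr 1
    · exact Finset.sum_congr rfl fun v _ => by ring
    · rw [Finset.sum_comm]
      refine Finset.sum_congr rfl fun i _ => ?_
      rw [Finset.sum_comm]
      refine Finset.sum_congr rfl fun b _ => ?_
      exact Finset.sum_congr rfl fun v _ => by ring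
  have e3 : ∑ i, ∑ b, lam i b * ∑ v, θ v * C i b v ≤ 0 :=
    Finset.sum_nonpos fun i _ => Finset.sum_nonpos fun b _ =>
      mul_nonpos_of_nonneg_of_nonpos (hl i b) (hC i b)
  have e4 : 0 ≤ κ * ∑ v, θ v * Q v := by linarith
  exact nonneg_of_mul_nonneg_right e4 hκ

theorem aff_out {C : Option (Fin 4) → Bool → St × Bool → ℝ}
    {lam : Option (Fin 4) → Bool → ℝ} (hl : ∀ i b, 0 ≤ lam i b)
    (h : ∀ v, 0 < ∑ i, ∑ b, lam i b * C i b v) {θ : St × Bool → ℝ}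
    (h0 : ∀ v, 0 ≤ θ v) (h1 : ∑ v, θ v = 1) (hC : ∀ i b, ∑ v, θ v * C i b v ≤ 0) : False := by
  have e2 : ∑ v, θ v * (∑ i, ∑ b, lam i b * C i b v) =
      ∑ i, ∑ b, lam i b * ∑ v, θ v * C i b v := by
    simp only [Finset.mul_sum]
    rw [Finset.sum_comm]
    refine Finset.sum_congr rfl fun i _ => ?_
    rw [Finset.sum_comm]
    refine Finset.sum_congr rfl fun b _ => ?_
    exact Finset.sum_congr rfl fun v _ => by ring
  have e3 : ∑ i, ∑ b, lam i b * ∑ v, θ v * C i b v ≤ 0 :=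
    Finset.sum_nonpos fun i _ => Finset.sum_nonpos fun b _ =>
      mul_nonpos_of_nonneg_of_nonpos (hl i b) (hC i b)
  obtain ⟨v, _, hv⟩ : ∃ v ∈ Finset.univ, 0 < θ v := by
    by_contra hh
    push Not at hh
    have : ∑ v, θ v ≤ 0 := Finset.sum_nonpos hh
    linarith
  have e5 : 0 < ∑ v, θ v * (∑ i, ∑ b, lam i b * C i b v) :=
    Finset.sum_pos' (fun v _ => mul_nonneg (h0 v) (h v).le) ⟨v, Finset.mem_univ _, mul_pos hv (h v)⟩
  linarith

end Helper80.CW.DL
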