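import Pool.Agent.Helper80.CW.DE

/-!
# The volume bound from the twelve vertices
-/

set_option linter.all false

namespace Helper80.CW.DL

open Set Metric MeasureTheory Helper82.CW MvPolynomial Helper80.CW Helper37.FX
open scoped ContDiff Topology RealInnerProductSpace

theorem Tt_sum (t : St → ℝ) : ∑ a, t a = Tt t := by
  simp only [Fintype.sum_prod_type, Fin.sum_univ_three, Fintype.sum_bool, Tt]
  ring

/-- unit vector -/
def el (a : St) : St → ℝ := fun b => if a = b then 1 else 0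

theorem Lf_lin (s : V3) (t : St → ℝ) (q : V3) :
    Lf s t q = Lf s 0 q + ∑ a, t a * (Lf s (el a) q - Lf s 0 q) := by
  simp only [Fintype.sum_prod_type, Fin.sum_univ_three, Fintype.sum_bool, Lf, Eg, el,
    Pi.zero_apply]
  simp
  ring

namespace Ct
variable (c : Ct)

/-- the real constraints -/
noncomputable def cf (i : Option (Fin 4)) (b : Bool) (t : St → ℝ) (u p : V3) : ℝ :=
  match i with
  | none => (c.den : ℝ) * (n2 (qe b u p) - (6 - Tt t) / 16) - (c.k1 + c.l1 * c.K * Tt t)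
  | some j => (c.den : ℝ) * (n2 (qe b u p) + (6 - Tt t) / 16 - 1 -
      (c.rn : ℝ) / c.rd * Lf (cg j) t (qe b u p)) - (c.k2 + c.l2 * c.K * Tt t)

theorem cf_lin (i : Option (Fin 4)) (b : Bool) (t : St → ℝ) (u p : V3) :
    c.cf i b t u p = c.cf i b 0 u p + ∑ a, t a * (c.cf i b (el a) u p - c.cf i b 0 u p) := by
  cases i with
  | none =>
    simp only [cf]
    simp only [Fintype.sum_prod_type, Fin.sum_univ_three, Fintype.sum_bool, Tt, el, Pi.zero_apply]
    simp
    ring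
  | some j =>
    simp only [cf]
    rw [Lf_lin (cg j) t]
    have e1 : Tt (0 : St → ℝ) = 0 := by simp [Tt]
    have e2 : ∀ a, Tt (el a) = 1 := by
      intro a
      rw [← Tt_sum]
      simp [el]
    simp only [e1, e2, ← Tt_sum t]
    have : ∀ a, t a * ((c.den : ℝ) * (n2 (qe b u p) + (6 - 1) / 16 - 1 -
        (c.rn : ℝ) / c.rd * Lf (cg j) (el a) (qe b u p)) - (c.k2 + c.l2 * c.K * 1) -
        ((c.den : ℝ) * (n2 (qe b u p) + (6 - 0) / 16 - 1 -
        (c.rn : ℝ) / c.rd * Lf (cg j) 0 (qe b u p)) - (c.k2 + c.l2 * c.K * 0))) =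
        t a * (-(c.den : ℝ) / 16 - c.l2 * c.K) + (-(c.den : ℝ) * ((c.rn : ℝ) / c.rd)) *
          (t a * (Lf (cg j) (el a) (qe b u p) - Lf (cg j) 0 (qe b u p))) := by
      intro a; ring
    simp only [this, Finset.sum_add_distrib, ← Finset.sum_mul, ← Finset.mul_sum]
    ring

theorem cast_Eg (s : ℤ × ℤ × ℤ) (a : St) :
    (((Eg s (dl a)).1 : ℤ) : ℝ) = (Eg ((s.1 : ℝ), (s.2.1 : ℝ), (s.2.2 : ℝ)) (el a)).1 ∧
    (((Eg s (dl a)).2.1 : ℤ) : ℝ) = (Eg ((s.1 : ℝ), (s.2.1 : ℝ), (s.2.2 : ℝ)) (el a)).2.1 ∧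
    (((Eg s (dl a)).2.2 : ℤ) : ℝ) = (Eg ((s.1 : ℝ), (s.2.1 : ℝ), (s.2.2 : ℝ)) (el a)).2.2 := by
  simp only [Eg, dl, el]
  push_cast
  exact ⟨rfl, rfl, rfl⟩

theorem vl_cL (hK : (c.K : ℝ) ≠ 0) (hr : (c.rd : ℝ) ≠ 0) (i : Option (Fin 4)) (b : Bool) (a : St)
    (τ : ℤ) {u : V3} (hu : n2 u = 1) (p : V3) :
    vl (c.cL i b a τ) u p = c.cf i b 0 u p + (τ / c.K : ℝ) *
      (c.cf i b (el a) u p - c.cf i b 0 u p) := by
  have e1 : Tt (0 : St → ℝ) = 0 := by simp [Tt]
  have e2 : Tt (el a) = 1 := by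
    rw [← Tt_sum]
    simp [el]
  unfold n2 at hu
  cases i with
  | none =>
    cases b <;>
    · simp only [cL, cf, vl, vm, cst, den, sgn, qe, n2, e1, e2, List.cons_append, List.nil_append,
        List.map_cons, List.map_nil, List.sum_cons, List.sum_nil]
      push_cast
      try simp only [Bool.false_eq_true, if_false, if_true]
      try push_cast
      field_simp
      linear_combination (-16 * (c.K : ℝ) ^ 2 * c.rd) * hu
  | some j =>
    obtain ⟨g1, g2, g3⟩ := cast_Eg (cgz j) a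
    have z : Eg (cg j) (0 : St → ℝ) = (0, 0, 0) := by simp [Eg]
    cases b <;>
    · simp only [cL, cf, vl, vm, cst, den, sgn, qe, n2, e1, e2, List.cons_append, List.nil_append,
        List.map_cons, List.map_nil, List.sum_cons, List.sum_nil, Lf, z]
      push_cast
      rw [g1, g2, g3]
      simp only [Bool.false_eq_true, if_false, if_true, cg]
      push_cast
      field_simp
      linear_combination (-64 * (c.K : ℝ) ^ 2 * c.rd) * hu

theorem vl_capL (b : Bool) {u : V3} (hu : n2 u = 1) (p : V3) :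
    vl (c.capL b) u p = (c.den : ℝ) * n2 (qe b u p) - c.k3 := by
  unfold n2 at hu
  cases b <;>
  · simp only [capL, vl, vm, cst, den, sgn, qe, n2, List.map_cons, List.map_nil, List.sum_cons,
      List.sum_nil]
    push_cast
    try simp only [Bool.false_eq_true, if_false, if_true]
    try push_cast
    linear_combination (-4 * (c.K : ℝ) * c.rd) * hu

/-- the configuration of a convex combination of vertices -/
noncomputable def tof (θ : St × Bool → ℝ) : St → ℝ :=
  fun a => ∑ b, θ (a, b) * ((c.tau b : ℝ) / c.K)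

theorem sum_aff {θ : St × Bool → ℝ} (h1 : ∑ v, θ v = 1) (A : ℝ) (Bf : St → ℝ) :
    ∑ v : St × Bool, θ v * (A + ((c.tau v.2 : ℝ) / c.K) * Bf v.1) = A + ∑ a, c.tof θ a * Bf a := by
  have : ∀ v : St × Bool, θ v * (A + ((c.tau v.2 : ℝ) / c.K) * Bf v.1) =
      θ v * A + θ v * ((c.tau v.2 : ℝ) / c.K) * Bf v.1 := by intro v; ring
  simp only [this, Finset.sum_add_distrib, ← Finset.sum_mul, h1, one_mul]
  rw [Fintype.sum_prod_type]
  simp only [tof, Finset.sum_mul]

theorem sum_cL (hK : (c.K : ℝ) ≠ 0) (hr : (c.rd : ℝ) ≠ 0) (i : Option (Fin 4)) (b : Bool)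
    {u : V3} (hu : n2 u = 1) (p : V3) {θ : St × Bool → ℝ} (h1 : ∑ v, θ v = 1) :
    ∑ v, θ v * vl (c.cL i b v.1 (c.tau v.2)) u p = c.cf i b (c.tof θ) u p := by
  simp only [c.vl_cL hK hr i b _ _ hu p]
  rw [c.sum_aff h1 (c.cf i b 0 u p) (fun a => c.cf i b (el a) u p - c.cf i b 0 u p),
    c.cf_lin i b (c.tof θ)]

theorem vl_Lv (a : St) (τ : ℤ) (d : Mo → List Mo) (u p : V3) :
    vl (c.Lv a τ d) u p = c.K * es (vl (c.sd0.flatMap d)) u p +
      τ * vl (orbv a (c.sd1.flatMap d)) u p := by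
  unfold Lv
  rw [vl_append, vl_sc, vl_sc, vl_orb]

/-- the value of the symmetrised family -/
noncomputable def F (t : St → ℝ) (d : Mo → List Mo) (u p : V3) : ℝ :=
  es (vl (c.sd0.flatMap d)) u p + ∑ a, t a * vl (orbv a (c.sd1.flatMap d)) u p

/-- the real polynomials -/
noncomputable def Qr (t : St → ℝ) (u p : V3) : Fin 4 → ℝ
  | 0 => c.M - c.N - 4 * c.F t d0 u p + c.F t d2 u p
  | 1 => c.N - c.F t d2 u p
  | 2 => c.M + c.N - 4 * c.F t d0 u p - 4 * c.F t d1 u p - c.F t d2 u p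
  | 3 => c.M + c.N - 4 * c.F t d0 u p + 4 * c.F t d1 u p - c.F t d2 u p

theorem sum_Qv (hK : (c.K : ℝ) ≠ 0) (j : Fin 4) (u p : V3) {θ : St × Bool → ℝ}
    (h1 : ∑ v, θ v = 1) :
    ∑ v, θ v * vl (c.Qv v.1 (c.tau v.2) j) u p = c.K * c.Qr (c.tof θ) u p j := by
  have key : ∀ d : Mo → List Mo, ∑ v, θ v * vl (c.Lv v.1 (c.tau v.2) d) u p =
      c.K * c.F (c.tof θ) d u p := by
    intro d
    have h := c.sum_aff h1 (c.K * es (vl (c.sd0.flatMap d)) u p)
      (fun a => c.K * vl (orbv a (c.sd1.flatMap d)) u p)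
    have e : ∀ v : St × Bool, θ v * vl (c.Lv v.1 (c.tau v.2) d) u p =
        θ v * (c.K * es (vl (c.sd0.flatMap d)) u p + ((c.tau v.2 : ℝ) / c.K) *
          (c.K * vl (orbv v.1 (c.sd1.flatMap d)) u p)) := by
      intro v
      rw [vl_Lv]
      field_simp
    simp only [e]
    rw [h, F, mul_add, Finset.mul_sum]
    congr 1
    exact Finset.sum_congr rfl fun a _ => by ring
  have k0 := key d0
  have k1 := key d1
  have k2 := key d2
  fin_cases j
  · simp only [Qv, Qr, vl_cons, vm_cst, vl_append, vl_sc]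
    have : ∀ v : St × Bool, θ v * (((c.K * (c.M - c.N) : ℤ) : ℝ) +
        (((-4 : ℤ) : ℝ) * vl (c.Lv v.1 (c.tau v.2) d0) u p + vl (c.Lv v.1 (c.tau v.2) d2) u p)) =
        θ v * (c.K * (c.M - c.N)) + -4 * (θ v * vl (c.Lv v.1 (c.tau v.2) d0) u p) +
          θ v * vl (c.Lv v.1 (c.tau v.2) d2) u p := by
      intro v; push_cast; ring
    simp only [this, Finset.sum_add_distrib, ← Finset.sum_mul, ← Finset.mul_sum, h1, k0, k2]
    ring
  · simp only [Qv, Qr, vl_cons, vm_cst, vl_append, vl_sc]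
    have : ∀ v : St × Bool, θ v * (((c.K * c.N : ℤ) : ℝ) +
        (((-1 : ℤ) : ℝ) * vl (c.Lv v.1 (c.tau v.2) d2) u p)) =
        θ v * (c.K * c.N) + -1 * (θ v * vl (c.Lv v.1 (c.tau v.2) d2) u p) := by
      intro v; push_cast; ring
    simp only [this, Finset.sum_add_distrib, ← Finset.sum_mul, ← Finset.mul_sum, h1, k2]
    ring
  · simp only [Qv, Qr, vl_cons, vm_cst, vl_append, vl_sc]
    have : ∀ v : St × Bool, θ v * (((c.K * (c.M + c.N) : ℤ) : ℝ) +
        (((-4 : ℤ) : ℝ) * vl (c.Lv v.1 (c.tau v.2) d0) u p +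
        (((-4 : ℤ) : ℝ) * vl (c.Lv v.1 (c.tau v.2) d1) u p +
          ((-1 : ℤ) : ℝ) * vl (c.Lv v.1 (c.tau v.2) d2) u p))) =
        θ v * (c.K * (c.M + c.N)) + -4 * (θ v * vl (c.Lv v.1 (c.tau v.2) d0) u p) +
          -4 * (θ v * vl (c.Lv v.1 (c.tau v.2) d1) u p) +
          -1 * (θ v * vl (c.Lv v.1 (c.tau v.2) d2) u p) := by
      intro v; push_cast; ring
    simp only [this, Finset.sum_add_distrib, ← Finset.sum_mul, ← Finset.mul_sum, h1, k0, k1, k2]
    ring
  · simp only [Qv, Qr, vl_cons, vm_cst, vl_append, vl_sc]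
    have : ∀ v : St × Bool, θ v * (((c.K * (c.M + c.N) : ℤ) : ℝ) +
        (((-4 : ℤ) : ℝ) * vl (c.Lv v.1 (c.tau v.2) d0) u p +
        (((4 : ℤ) : ℝ) * vl (c.Lv v.1 (c.tau v.2) d1) u p +
          ((-1 : ℤ) : ℝ) * vl (c.Lv v.1 (c.tau v.2) d2) u p))) =
        θ v * (c.K * (c.M + c.N)) + -4 * (θ v * vl (c.Lv v.1 (c.tau v.2) d0) u p) +
          4 * (θ v * vl (c.Lv v.1 (c.tau v.2) d1) u p) +
          -1 * (θ v * vl (c.Lv v.1 (c.tau v.2) d2) u p) := by
      intro v; push_cast; ring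
    simp only [this, Finset.sum_add_distrib, ← Finset.sum_mul, ← Finset.mul_sum, h1, k0, k1, k2]
    ring

theorem exists_tof (hK : (0 : ℝ) < c.K) (ht1 : (0 : ℝ) ≤ c.t1) (ht2 : (c.t1 : ℝ) < c.t2)
    {t : St → ℝ} (h0 : ∀ a, 0 ≤ t a) (lo : (c.t1 : ℝ) / c.K ≤ Tt t) (hi : Tt t ≤ (c.t2 : ℝ) / c.K) :
    ∃ θ : St × Bool → ℝ, (∀ v, 0 ≤ θ v) ∧ ∑ v, θ v = 1 ∧ c.tof θ = t := by
  have hs : ∑ a, t a = Tt t := Tt_sum t
  rcases (Finset.sum_nonneg fun a _ => h0 a : 0 ≤ ∑ a, t a).eq_or_lt with hz | hp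
  · have ha : ∀ a, t a = 0 := fun a =>
      (Finset.sum_eq_zero_iff_of_nonneg (fun a _ => h0 a)).1 hz.symm a (Finset.mem_univ _)
    have hT : Tt t = 0 := by rw [← hs, ← hz]
    rw [hT] at lo
    have h1 : (c.t1 : ℝ) = 0 := by
      have := (div_le_iff₀ hK).1 lo
      linarith
    refine ⟨fun v => if v = ((0, false), false) then 1 else 0, fun v => ?_, ?_, ?_⟩
    · dsimp only
      split_ifs <;> norm_num
    · simp
    · funext a
      rw [ha a]
      unfold tof
      simp only [Fintype.sum_bool, tau, Prod.mk.injEq, Bool.true_eq_false, and_false, if_false,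
        and_true, zero_mul, zero_add, Bool.false_eq_true, h1, zero_div, mul_zero]
  · have hT : 0 < Tt t := by rw [← hs]; exact hp
    set l : ℝ := (c.K * Tt t - c.t1) / (c.t2 - c.t1) with hl
    have hd : (0 : ℝ) < c.t2 - c.t1 := by linarith
    have l0 : 0 ≤ l := by
      apply div_nonneg _ hd.le
      have := (div_le_iff₀ hK).1 lo
      linarith
    have l1 : l ≤ 1 := by
      rw [hl, div_le_one hd]
      have := (le_div_iff₀ hK).1 hi
      linarith
    refine ⟨fun v => t v.1 / Tt t * (if v.2 then l else 1 - l), fun v => ?_, ?_, ?_⟩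
    · apply mul_nonneg (div_nonneg (h0 _) hT.le)
      split_ifs
      · exact l0
      · linarith
    · rw [Fintype.sum_prod_type]
      simp only [Fintype.sum_bool, Bool.false_eq_true, if_false, if_true]
      have : ∀ a, t a / Tt t * l + t a / Tt t * (1 - l) = t a / Tt t := by intro a; ring
      simp only [this]
      rw [← Finset.sum_div, hs]
      exact div_self hT.ne'
    · funext a
      unfold tof
      simp only [Fintype.sum_bool, tau, Bool.false_eq_true, if_false, if_true]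
      have e : l * (c.t2 - c.t1) = c.K * Tt t - c.t1 := by
        rw [hl]; field_simp
      have hK' := hK.ne'
      have hT' := hT.ne'
      field_simp
      linear_combination t a * e

end Ct

/-- weights of the two seed lists -/
def co2 (t : St → ℝ) (i : Bool) (g : Ge) : ℝ := if i then t (ax g) else 1

theorem sy2 : SyM co2 (fun θ a => θ (x01 a)) (fun θ a => θ (x12 a)) (fun θ a => θ (xfl a)) where
  c := fun i => by
    cases i
    · exact ⟨fun _ _ => rfl, fun _ _ => rfl, fun _ _ => rfl⟩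
    · exact sy_ax

theorem em_eq (c : Ct) (d : Mo → List Mo) (t : St → ℝ) (u p : V3) :
    em co2 [(false, c.sd0), (true, c.sd1)] d t u p = c.F t d u p := by
  unfold em Ct.F
  simp only [List.map_cons, List.map_nil, List.sum_cons, List.sum_nil, add_zero]
  congr 1
  · unfold ec es co2
    simp
  · exact ec_ax t _ u p

/-- **the volume bound from twelve vertices** -/
theorem vol_aff {f : E3 → ℝ} (h : SSup f 1) {x0 : E3} (hx0 : x0 ∈ Bd f)
    (B : E3 ≃ₗᵢ[ℝ] E3) {c : Ct} (hok : c.ok = true) (t : St → ℝ)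
    (hD : ∀ u p : E3, ‖u‖ = 1 → x0 + B (p + (1 / 2 : ℝ) • u) ∈ Bd f →
      x0 + B (p - (1 / 2 : ℝ) • u) ∈ Bd f → DomA (c.t1 / c.K) (c.t2 / c.K) (c.rn / c.rd)
        (c.k1 / c.den) (c.l1 * c.K / c.den) (c.k2 / c.den) (c.l2 * c.K / c.den) (c.k3 / c.den) t
        (v3 u) (v3 p))
    (H : ∀ j (u p : V3), u.1 ^ 2 + u.2.1 ^ 2 + u.2.2 ^ 2 = 1 → 0 ≤ u.2.2 → u.2.2 ≤ u.2.1 →
      u.2.1 ≤ u.1 → c.Aff j u p) :
    ENNReal.ofReal (Real.pi / 6 - 2 * Real.pi * (c.M / (4 * c.N))) ≤ volume (Bd f) := by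
  simp only [Ct.ok, Bool.and_eq_true, decide_eq_true_eq, List.all_eq_true, beq_iff_eq] at hok
  obtain ⟨⟨⟨⟨⟨⟨hN, hK⟩, hr⟩, ht1⟩, ht2⟩, hev0⟩, hev1⟩ := hok
  have hN' : (0 : ℝ) < c.N := by exact_mod_cast hN
  have hK' : (0 : ℝ) < c.K := by exact_mod_cast hK
  have hr' : (0 : ℝ) < c.rd := by exact_mod_cast hr
  have ht1' : (0 : ℝ) ≤ c.t1 := by exact_mod_cast ht1
  have ht2' : (c.t1 : ℝ) < c.t2 := by exact_mod_cast ht2
  have hden : (0 : ℝ) < c.den := by
    unfold Ct.den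
    push_cast
    positivity
  refine vol_confM h hx0 B (co := co2) (sds := [(false, c.sd0), (true, c.sd1)]) hN sy2 ?_
    (Dom := DomA (c.t1 / c.K) (c.t2 / c.K) (c.rn / c.rd) (c.k1 / c.den) (c.l1 * c.K / c.den)
      (c.k2 / c.den) (c.l2 * c.K / c.den) (c.k3 / c.den))
    (fun θ u p h => h.s01) (fun θ u p h => h.s12) (fun θ u p h => h.fl) (fun θ u p h => h.ng) t
    hD ?_
  · intro s hs m hm
    simp only [List.mem_cons, List.not_mem_nil, or_false] at hs
    rcases hs with rfl | rfl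
    · exact hev0 m hm
    · exact hev1 m hm
  · intro t u p hu h3 h2 h1 hd
    obtain ⟨θ, th0, th1, rfl⟩ := c.exists_tof hK' ht1' ht2' hd.pos hd.lo hd.hi
    have hC : ∀ i b, ∑ v, θ v * vl (c.cL i b v.1 (c.tau v.2)) u p ≤ 0 := by
      intro i b
      rw [c.sum_cL hK'.ne' hr'.ne' i b (by exact hu) p th1]
      cases i with
      | none =>
        have hb := hd.ball b
        simp only [Ct.cf]
        have e : (c.den : ℝ) * (c.k1 / c.den + c.l1 * c.K / c.den * Tt (c.tof θ)) =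
            c.k1 + c.l1 * c.K * Tt (c.tof θ) := by field_simp
        have := mul_le_mul_of_nonneg_left hb hden.le
        linarith
      | some j =>
        have hb := hd.con b j
        simp only [Ct.cf]
        have e : (c.den : ℝ) * (c.k2 / c.den + c.l2 * c.K / c.den * Tt (c.tof θ)) =
            c.k2 + c.l2 * c.K * Tt (c.tof θ) := by field_simp
        have := mul_le_mul_of_nonneg_left hb hden.le
        linarith
    have hQ : ∀ j, 0 ≤ c.Qr (c.tof θ) u p j := by
      intro j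
      have := H j u p hu h3 h2 h1 θ th0 th1 hC
      rw [c.sum_Qv hK'.ne' j u p th1] at this
      exact nonneg_of_mul_nonneg_right this hK'
    have q0 := hQ 0
    have q1 := hQ 1
    have q2 := hQ 2
    have q3 := hQ 3
    simp only [Ct.Qr] at q0 q1 q2 q3
    unfold GoodM
    rw [em_eq, em_eq, em_eq]
    set F0 := c.F (c.tof θ) d0 u p
    set F1 := c.F (c.tof θ) d1 u p
    set F2 := c.F (c.tof θ) d2 u p
    refine ⟨?_, ?_, ?_, ?_⟩
    · rw [div_le_div_iff₀ (by positivity) (by norm_num)]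
      linarith
    · rw [← sub_nonneg]
      have : (c.M : ℝ) / (4 * c.N) - (1 / 4 + F0 / c.N - F2 / (2 * c.N) / 2) =
          (c.M - c.N - 4 * F0 + F2) / (4 * c.N) := by field_simp; ring
      rw [this]
      positivity
    · rw [← sub_nonneg]
      have : (c.M : ℝ) / (4 * c.N) - (-(1 / 4) + F0 / c.N + F1 / c.N + F2 / (2 * c.N) / 2) =
          (c.M + c.N - 4 * F0 - 4 * F1 - F2) / (4 * c.N) := by field_simp; ring
      rw [this]
      positivity
    · rw [← sub_nonneg]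
      have : (c.M : ℝ) / (4 * c.N) - (-(1 / 4) + F0 / c.N - F1 / c.N + F2 / (2 * c.N) / 2) =
          (c.M + c.N - 4 * F0 + 4 * F1 - F2) / (4 * c.N) := by field_simp; ring
      rw [this]
      positivity

end Helper80.CW.DL
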