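import Pool.Agent.Helper80.CW.JG

/-!
# Divergence identities for general polynomials `L(u, p)`

For a `1`-homogeneous function `f`, smooth off the origin, `p = ∇f(u)`, `t = Δf`,
`σ = (Δf)² - |D²f|²` and a polynomial `L(u, p)` in six variables, homogeneous of degree `k` in `u`:
`∫ D0 + t D1 + σ D2 = 0` over the unit sphere with
`D0 = Σ ∂_{u i}² L - k (k + 1) L`, `D1 = Σ ∂_{u i} ∂_{p i} L - (k + 1) u · ∂_p L`,
`D2 = (Σ ∂_{p j}² L - Σ u_j u_l ∂_{p j} ∂_{p l} L) / 2`.
-/

set_option linter.all false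

namespace Helper80.CW.DL

open Set Metric MeasureTheory Helper82.CW MvPolynomial Helper80.CW
open scoped ContDiff Topology RealInnerProductSpace Real

/-- polynomials in `u` (`inl`) and `p` (`inr`) -/
abbrev PQ := MvPolynomial (Fin 3 ⊕ Fin 3) ℝ

/-- the values of the variables -/
noncomputable def pt (f : E3 → ℝ) (x : E3) : Fin 3 ⊕ Fin 3 → ℝ :=
  Sum.elim (fun i => x i) (fun i => pd i f x)

/-- the value of the polynomial -/
noncomputable def ev (L : PQ) (f : E3 → ℝ) (x : E3) : ℝ := eval (pt f x) L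

theorem ev_add (L M : PQ) (f : E3 → ℝ) (x : E3) : ev (L + M) f x = ev L f x + ev M f x := by
  simp [ev]

theorem ev_sub (L M : PQ) (f : E3 → ℝ) (x : E3) : ev (L - M) f x = ev L f x - ev M f x := by
  simp [ev]

theorem ev_mul (L M : PQ) (f : E3 → ℝ) (x : E3) : ev (L * M) f x = ev L f x * ev M f x := by
  simp [ev]

theorem ev_C (a : ℝ) (f : E3 → ℝ) (x : E3) : ev (C a) f x = a := by
  simp [ev]

theorem ev_u (i : Fin 3) (f : E3 → ℝ) (x : E3) : ev (X (Sum.inl i)) f x = x i := by
  simp [ev, pt]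

theorem ev_p (i : Fin 3) (f : E3 → ℝ) (x : E3) : ev (X (Sum.inr i)) f x = pd i f x := by
  simp [ev, pt]

theorem ev_sum {ι : Type*} (s : Finset ι) (L : ι → PQ) (f : E3 → ℝ) (x : E3) :
    ev (∑ i ∈ s, L i) f x = ∑ i ∈ s, ev (L i) f x := by
  simp [ev]

theorem ev_sm {f : E3 → ℝ} (hs : Sm f) (L : PQ) : Sm (ev L f) := by
  induction L using MvPolynomial.induction_on with
  | C a =>
    have : ev (C a) f = fun _ => a := by funext x; exact ev_C a f x
    rw [this]; exact Sm.const a
  | add p q hp hq =>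
    have : ev (p + q) f = fun x => ev p f x + ev q f x := by funext x; exact ev_add _ _ _ _
    rw [this]; exact hp.add hq
  | mul_X p n hp =>
    rcases n with i | i
    · have : ev (p * X (Sum.inl i)) f = fun x => ev p f x * x i := by
        funext x; rw [ev_mul, ev_u]
      rw [this]; exact hp.mul (Sm.coord i)
    · have : ev (p * X (Sum.inr i)) f = fun x => ev p f x * pd i f x := by
        funext x; rw [ev_mul, ev_p]
      rw [this]; exact hp.mul (hs.pd i)

theorem pd_ev {f : E3 → ℝ} (hs : Sm f) (L : PQ) (i : Fin 3) {x : E3} (hx : x ≠ 0) :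
    pd i (ev L f) x = ev (pderiv (Sum.inl i) L) f x +
      ∑ l, ev (pderiv (Sum.inr l) L) f x * pd i (pd l f) x := by
  induction L using MvPolynomial.induction_on with
  | C a =>
    have : ev (C a) f = fun x => a * 1 := by funext x; rw [ev_C, mul_one]
    rw [this, pd_const_mul a (Sm.const 1) i hx]
    have h1 : pd i (fun _ : E3 => (1 : ℝ)) x = 0 := by
      unfold pd
      simp
    rw [h1]
    simp [ev]
  | add p q hp hq =>
    have : ev (p + q) f = fun x => ev p f x + ev q f x := by funext x; exact ev_add _ _ _ _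
    rw [this, pd_add (ev_sm hs p) (ev_sm hs q) i hx, hp, hq]
    simp only [map_add, ev_add, add_mul, Finset.sum_add_distrib]
    ring
  | mul_X p n hp =>
    rcases n with j | j
    · have : ev (p * X (Sum.inl j)) f = fun x => ev p f x * x j := by
        funext x; rw [ev_mul, ev_u]
      rw [this, pd_mul (ev_sm hs p) (Sm.coord j) i hx, hp, pd_coord]
      simp only [pderiv_mul, ev_add, ev_mul, ev_u]
      have h2 : ∀ l, ev (pderiv (Sum.inr l) (X (Sum.inl j) : PQ)) f x = 0 := by
        intro l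
        rw [pderiv_X_of_ne (by simp)]
        simp [ev]
      have h3 : ev (pderiv (Sum.inl i) (X (Sum.inl j) : PQ)) f x = if i = j then 1 else 0 := by
        by_cases hij : i = j
        · subst hij
          rw [pderiv_X_self]
          simp [ev]
        · rw [pderiv_X_of_ne (by simpa using fun h => hij h.symm), if_neg hij]
          simp [ev]
      simp only [h2, h3, mul_zero, add_zero]
      rw [add_mul, Finset.sum_mul]
      have h4 : ∀ l, ev (pderiv (Sum.inr l) p) f x * pd i (pd l f) x * x j =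
          ev (pderiv (Sum.inr l) p) f x * x j * pd i (pd l f) x := fun l => by ring
      simp only [h4]
      ring
    · have : ev (p * X (Sum.inr j)) f = fun x => ev p f x * pd j f x := by
        funext x; rw [ev_mul, ev_p]
      rw [this, pd_mul (ev_sm hs p) (hs.pd j) i hx, hp]
      simp only [pderiv_mul, ev_add, ev_mul, ev_p]
      have h2 : ev (pderiv (Sum.inl i) (X (Sum.inr j) : PQ)) f x = 0 := by
        rw [pderiv_X_of_ne (by simp)]
        simp [ev]
      have h3 : ∀ l, ev (pderiv (Sum.inr l) (X (Sum.inr j) : PQ)) f x =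
          if l = j then 1 else 0 := by
        intro l
        by_cases hij : l = j
        · subst hij
          rw [pderiv_X_self]
          simp [ev]
        · rw [pderiv_X_of_ne (by simpa using fun h => hij h.symm), if_neg hij]
          simp [ev]
      simp only [h2, h3, mul_zero, add_zero, add_mul, Finset.sum_add_distrib, Finset.sum_mul,
        mul_ite, ite_mul, mul_one, zero_mul, Finset.sum_ite_eq', Finset.mem_univ, if_true]
      have h4 : ∀ l, ev (pderiv (Sum.inr l) p) f x * pd i (pd l f) x * pd j f x =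
          ev (pderiv (Sum.inr l) p) f x * pd j f x * pd i (pd l f) x := fun l => by ring
      simp only [h4]
      ring

/-- the weight: degree in `u` -/
def w : Fin 3 ⊕ Fin 3 → ℕ := Sum.elim (fun _ => 1) (fun _ => 0)

theorem ev_hom {f : E3 → ℝ} (hs : Sm f) (hk : Hom 1 f) {L : PQ} {k : ℕ}
    (h : IsWeightedHomogeneous w L k) : Hom k (ev L f) := by
  intro r hr x hx
  unfold ev
  rw [eval_eq', eval_eq', Finset.mul_sum]
  apply Finset.sum_congr rfl
  intro d hd
  have h1 : ∀ n, pt f (r • x) n = r ^ w n * pt f x n := by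
    intro n
    rcases n with i | i
    · simp [pt, w]
    · have := hk.pd hs i r hr x hx
      simpa [pt, w] using this
  have h2 : Finsupp.weight w d = k := h (mem_support_iff.1 hd)
  rw [Finsupp.weight_apply, Finsupp.sum_fintype _ _ (by simp)] at h2
  simp only [h1, mul_pow]
  rw [Finset.prod_mul_distrib]
  have h3 : ∏ n, (r ^ w n) ^ d n = r ^ k := by
    rw [← h2, ← Finset.prod_pow_eq_pow_sum]
    apply Finset.prod_congr rfl
    intro n _
    rw [← pow_mul, smul_eq_mul, mul_comm]
  rw [h3, zpow_natCast]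
  ring

theorem ev_euler {L : PQ} {k : ℕ} (h : IsWeightedHomogeneous w L k) (f : E3 → ℝ) (x : E3) :
    ∑ i, x i * ev (pderiv (Sum.inl i) L) f x = k * ev L f x := by
  have h1 := congrArg (eval (pt f x)) h.sum_weight_X_mul_pderiv
  rw [Fintype.sum_sum_type] at h1
  simp only [w, Sum.elim_inl, Sum.elim_inr, one_smul, zero_smul, Finset.sum_const_zero, add_zero,
    map_sum, map_mul, eval_X, nsmul_eq_mul, map_natCast] at h1
  simpa [ev, pt] using h1

/-- Cayley-Hamilton for the Hessian of a `1`-homogeneous function at a unit vector, all entries -/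
theorem cayley_mat {f : E3 → ℝ} (hs : Sm f) (hk : Hom 1 f) {x : E3} (hx : ‖x‖ = 1)
    (M : Fin 3 → Fin 3 → ℝ) :
    ∑ j, ∑ l, M j l * (lap f x * pd j (pd l f) x - ∑ i, pd i (pd j f) x * pd i (pd l f) x) =
      (lap f x ^ 2 - hs2 f x) * ((∑ j, M j j - ∑ j, ∑ l, x j * x l * M j l) / 2) := by
  have hx0 : x ≠ 0 := by
    rintro rfl
    simp at hx
  have hn := sum_sq_one hx
  have e : ∀ i, ∑ j, x j * pd j (pd i f) x = 0 := by
    intro i
    have := Helper80.CW.euler (hk.pd hs i) (hs.pd i) hx0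
    simpa using this
  have e0 := e 0
  have e1 := e 1
  have e2 := e 2
  have s01 := pd_comm hs 1 0 hx0
  have s02 := pd_comm hs 2 0 hx0
  have s12 := pd_comm hs 2 1 hx0
  unfold lap hs2
  simp only [Fin.sum_univ_three] at e0 e1 e2 ⊢
  rw [s01, s02] at e0
  rw [s12] at e1
  rw [s01, s02, s12]
  generalize pd 0 (pd 0 f) x = a at *
  generalize pd 0 (pd 1 f) x = b at *
  generalize pd 0 (pd 2 f) x = d at *
  generalize pd 1 (pd 1 f) x = g at *
  generalize pd 1 (pd 2 f) x = k at *
  generalize pd 2 (pd 2 f) x = m at *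
  have c00 := adj_diag e0 e1 e2 hn
  have c11 := adj_diag (a := g) (b := b) (d := k) (g := a) (k := d) (m := m) (x0 := x 1) (x1 := x 0)
    (x2 := x 2) (by linarith) (by linarith) (by linarith) (by linarith)
  have c22 := adj_diag (a := m) (b := k) (d := d) (g := g) (k := b) (m := a) (x0 := x 2) (x1 := x 1)
    (x2 := x 0) (by linarith) (by linarith) (by linarith) (by linarith)
  have c01 := adj_off e0 e1 e2 hn
  have c02 := adj_off (a := a) (b := d) (d := b) (g := m) (k := k) (m := g) (x0 := x 0) (x1 := x 2)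
    (x2 := x 1) (by linarith) (by linarith) (by linarith) (by linarith)
  have c12 := adj_off (a := g) (b := k) (d := b) (g := m) (k := d) (m := a) (x0 := x 1) (x1 := x 2)
    (x2 := x 0) (by linarith) (by linarith) (by linarith) (by linarith)
  linear_combination (-M 0 0) * c00 - M 1 1 * c11 - M 2 2 * c22 + (-(M 0 1 + M 1 0)) * c01
    - (M 0 2 + M 2 0) * c02 - (M 1 2 + M 2 1) * c12

theorem pderiv_comm' (a b : Fin 3 ⊕ Fin 3) (L : PQ) :
    pderiv a (pderiv b L) = pderiv b (pderiv a L) := by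
  have h : ⁅pderiv (R := ℝ) a, pderiv (R := ℝ) b⁆ = 0 := by
    apply MvPolynomial.derivation_ext
    intro i
    rw [Derivation.commutator_apply]
    by_cases h1 : i = a
    · subst h1
      by_cases h2 : i = b
      · subst h2
        simp
      · rw [pderiv_X_of_ne h2]
        simp
    · by_cases h2 : i = b
      · subst h2
        rw [pderiv_X_of_ne h1]
        simp
      · rw [pderiv_X_of_ne h1, pderiv_X_of_ne h2]
        simp
  have h2 := congrArg (fun D => D L) h
  simp only [Derivation.commutator_apply, Derivation.coe_zero, Pi.zero_apply] at h2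
  exact sub_eq_zero.1 h2

/-- the field -/
noncomputable def W (L : PQ) (f : E3 → ℝ) (i : Fin 3) : E3 → ℝ := fun x =>
  lap f x * ev (pderiv (Sum.inr i) L) f x -
    ∑ j, pd i (pd j f) x * ev (pderiv (Sum.inr j) L) f x + ev (pderiv (Sum.inl i) L) f x

theorem W_sm {f : E3 → ℝ} (hs : Sm f) (L : PQ) (i : Fin 3) : Sm (W L f i) :=
  ((hs.lap.mul (ev_sm hs _)).sub (Sm.sum fun j _ => ((hs.pd j).pd i).mul (ev_sm hs _))).add
    (ev_sm hs _)

theorem W_hom {f : E3 → ℝ} (hs : Sm f) (hk : Hom 1 f) {L : PQ} {k : ℕ}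
    (h : IsWeightedHomogeneous w L k) (i : Fin 3) : Hom ((k : ℤ) - 1) (W L f i) := by
  have g : ∀ j, Hom k (ev (pderiv (Sum.inr j) L) f) := fun j =>
    ev_hom hs hk (h.pderiv (by simp [w]))
  have hl : Hom (1 - 2) (lap f) := hk.lap hs
  have h1 : Hom ((k : ℤ) - 1) (fun x => lap f x * ev (pderiv (Sum.inr i) L) f x) := by
    have := hl.mul (g i)
    rwa [show (1 - 2 + (k : ℤ)) = (k : ℤ) - 1 by ring] at this
  have h2 : Hom ((k : ℤ) - 1) (fun x => ∑ j, pd i (pd j f) x * ev (pderiv (Sum.inr j) L) f x) := by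
    refine Hom.sum fun j _ => ?_
    have := ((hk.pd hs j).pd (hs.pd j) i).mul (g j)
    rwa [show (1 - 1 - 1 + (k : ℤ)) = (k : ℤ) - 1 by ring] at this
  have h3 : Hom ((k : ℤ) - 1) (ev (pderiv (Sum.inl i) L) f) := by
    rcases k with _ | k
    · have e : ∀ x, ev (pderiv (Sum.inl i) L) f x = 0 := by
        intro x
        have : pderiv (Sum.inl i) L = 0 := by
          apply pderiv_eq_zero_of_notMem_vars
          intro hv
          rw [mem_vars] at hv
          obtain ⟨d, hd, hd2⟩ := hv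
          have h4 : Finsupp.weight w d = 0 := h (mem_support_iff.1 hd)
          rw [Finsupp.weight_apply, Finsupp.sum_fintype _ _ (by simp)] at h4
          have h5 := (Finset.sum_eq_zero_iff.1 h4) (Sum.inl i) (Finset.mem_univ _)
          simp [w] at h5
          exact (Finsupp.mem_support_iff.1 hd2) h5
        rw [this]
        simp [ev]
      intro r hr x hx
      rw [e, e, mul_zero]
    · have := ev_hom hs hk (h.pderiv (n' := k) (i := Sum.inl i) (by simp [w]))
      have e : ((k + 1 : ℕ) : ℤ) - 1 = k := by push_cast; ring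
      rw [e]
      exact this
  exact (h1.sub h2).add h3

/-- the coefficient of `1` -/
noncomputable def D0 (k : ℕ) (L : PQ) : PQ :=
  ∑ i, pderiv (Sum.inl i) (pderiv (Sum.inl i) L) - C ((k : ℝ) * (k + 1)) * L

/-- the coefficient of `t` -/
noncomputable def D1 (k : ℕ) (L : PQ) : PQ :=
  ∑ i, pderiv (Sum.inl i) (pderiv (Sum.inr i) L) -
    C ((k : ℝ) + 1) * ∑ i, X (Sum.inl i) * pderiv (Sum.inr i) L

/-- the coefficient of `σ` -/
noncomputable def D2 (L : PQ) : PQ :=
  C (1 / 2) * (∑ j, pderiv (Sum.inr j) (pderiv (Sum.inr j) L) -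
    ∑ j, ∑ l, X (Sum.inl j) * X (Sum.inl l) * pderiv (Sum.inr l) (pderiv (Sum.inr j) L))

theorem W_div {f : E3 → ℝ} (hs : Sm f) (hk : Hom 1 f) (L : PQ) {x : E3} (hx : ‖x‖ = 1) :
    ∑ i, pd i (W L f i) x = ∑ i, ev (pderiv (Sum.inl i) (pderiv (Sum.inl i) L)) f x +
      lap f x * ∑ i, ev (pderiv (Sum.inl i) (pderiv (Sum.inr i) L)) f x +
      (lap f x ^ 2 - hs2 f x) * ev (D2 L) f x := by
  have hx0 : x ≠ 0 := by
    rintro rfl
    simp at hx
  have a1 : ∀ i, pd i (W L f i) x =
      (pd i (lap f) x * ev (pderiv (Sum.inr i) L) f x +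
        lap f x * pd i (ev (pderiv (Sum.inr i) L) f) x) -
      ∑ j, (pd i (pd i (pd j f)) x * ev (pderiv (Sum.inr j) L) f x +
        pd i (pd j f) x * pd i (ev (pderiv (Sum.inr j) L) f) x) +
      pd i (ev (pderiv (Sum.inl i) L) f) x := by
    intro i
    unfold W
    have s1 : Sm (fun x => lap f x * ev (pderiv (Sum.inr i) L) f x) := hs.lap.mul (ev_sm hs _)
    have s2 : Sm (fun x => ∑ j, pd i (pd j f) x * ev (pderiv (Sum.inr j) L) f x) :=
      Sm.sum fun j _ => ((hs.pd j).pd i).mul (ev_sm hs _)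
    rw [pd_add (s1.sub s2) (ev_sm hs _) i hx0, pd_sub s1 s2 i hx0, pd_mul hs.lap (ev_sm hs _) i hx0,
      pd_sum (fun j _ => ((hs.pd j).pd i).mul (ev_sm hs _)) i hx0]
    congr 2
    apply Finset.sum_congr rfl
    intro j _
    rw [pd_mul ((hs.pd j).pd i) (ev_sm hs _) i hx0]
  simp only [a1]
  rw [Finset.sum_add_distrib, Finset.sum_sub_distrib]
  have b1 : ∑ i, ∑ j, pd i (pd i (pd j f)) x * ev (pderiv (Sum.inr j) L) f x =
      ∑ i, pd i (lap f) x * ev (pderiv (Sum.inr i) L) f x := by
    rw [Finset.sum_comm]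
    apply Finset.sum_congr rfl
    intro j _
    rw [← Finset.sum_mul, pd_lap hs j hx0]
  simp only [Finset.sum_add_distrib]
  rw [b1]
  simp only [pd_ev hs _ _ hx0]
  simp only [mul_add, Finset.sum_add_distrib, Finset.mul_sum]
  have b2 : ∑ i, ∑ j, pd i (pd j f) x * ev (pderiv (Sum.inl i) (pderiv (Sum.inr j) L)) f x =
      ∑ i, ∑ l, ev (pderiv (Sum.inr l) (pderiv (Sum.inl i) L)) f x * pd i (pd l f) x := by
    apply Finset.sum_congr rfl
    intro i _
    apply Finset.sum_congr rfl
    intro j _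
    rw [pderiv_comm' (Sum.inl i) (Sum.inr j)]
    ring
  have b3 := cayley_mat hs hk hx (fun j l => ev (pderiv (Sum.inr l) (pderiv (Sum.inr j) L)) f x)
  have b4 : ev (D2 L) f x = (∑ j, ev (pderiv (Sum.inr j) (pderiv (Sum.inr j) L)) f x -
      ∑ j, ∑ l, x j * x l * ev (pderiv (Sum.inr l) (pderiv (Sum.inr j) L)) f x) / 2 := by
    unfold D2
    simp only [ev_mul, ev_C, ev_sub, ev_sum, ev_u]
    ring
  rw [b4, ← b3]
  have b5 : ∑ i, ∑ l, lap f x * (ev (pderiv (Sum.inr l) (pderiv (Sum.inr i) L)) f x *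
      pd i (pd l f) x) - ∑ i, ∑ j, ∑ l, pd i (pd j f) x *
        (ev (pderiv (Sum.inr l) (pderiv (Sum.inr j) L)) f x * pd i (pd l f) x) =
      ∑ j, ∑ l, ev (pderiv (Sum.inr l) (pderiv (Sum.inr j) L)) f x *
        (lap f x * pd j (pd l f) x - ∑ i, pd i (pd j f) x * pd i (pd l f) x) := by
    simp only [mul_sub, Finset.sum_sub_distrib, Finset.mul_sum]
    congr 1
    · apply Finset.sum_congr rfl
      intro j _
      apply Finset.sum_congr rfl
      intro l _
      ring
    · rw [Finset.sum_comm]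
      apply Finset.sum_congr rfl
      intro j _
      rw [Finset.sum_comm]
      apply Finset.sum_congr rfl
      intro l _
      apply Finset.sum_congr rfl
      intro i _
      ring
  rw [← b5, b2]
  ring

theorem W_normal {f : E3 → ℝ} (hs : Sm f) (hk : Hom 1 f) {L : PQ} {k : ℕ}
    (h : IsWeightedHomogeneous w L k) {x : E3} (hx : ‖x‖ = 1) :
    ∑ i, x i * W L f i x = lap f x * ∑ i, x i * ev (pderiv (Sum.inr i) L) f x + k * ev L f x := by
  have hx0 : x ≠ 0 := by
    rintro rfl
    simp at hx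
  have b2 : ∀ j, ∑ i, x i * pd i (pd j f) x = 0 := by
    intro j
    have := Helper80.CW.euler (hk.pd hs j) (hs.pd j) hx0
    simpa using this
  have b4 : ∑ i, x i * ∑ j, pd i (pd j f) x * ev (pderiv (Sum.inr j) L) f x = 0 := by
    have b5 : ∑ i, x i * ∑ j, pd i (pd j f) x * ev (pderiv (Sum.inr j) L) f x =
        ∑ j, (∑ i, x i * pd i (pd j f) x) * ev (pderiv (Sum.inr j) L) f x := by
      simp only [Finset.mul_sum, Finset.sum_mul]
      rw [Finset.sum_comm]
      apply Finset.sum_congr rfl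
      intro i _
      apply Finset.sum_congr rfl
      intro j _
      ring
    rw [b5]
    simp only [b2]
    simp
  unfold W
  simp only [mul_add, mul_sub, Finset.sum_add_distrib, Finset.sum_sub_distrib]
  rw [b4, ev_euler h, Finset.mul_sum]
  rw [sub_zero]
  congr 1
  apply Finset.sum_congr rfl
  intro i _
  ring

/-- the integrand -/
noncomputable def DI (k : ℕ) (L : PQ) (f : E3 → ℝ) : E3 → ℝ := fun x =>
  ev (D0 k L) f x + lap f x * ev (D1 k L) f x + (lap f x ^ 2 - hs2 f x) * ev (D2 L) f x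

theorem DI_sm {f : E3 → ℝ} (hs : Sm f) (k : ℕ) (L : PQ) : Sm (DI k L f) :=
  ((ev_sm hs _).add (hs.lap.mul (ev_sm hs _))).add (((hs.lap.pow 2).sub hs.hs2).mul (ev_sm hs _))

/-- **the identities** -/
theorem SI_DI {f : E3 → ℝ} (hs : Sm f) (hk : Hom 1 f) {L : PQ} {k : ℕ}
    (h : IsWeightedHomogeneous w L k) : SI (DI k L f) = 0 := by
  have h0 := div_lemma (m := (k : ℤ) - 1) (W L f) (W_sm hs L) (W_hom hs hk h)
  have sD : Sm (fun x => ∑ i, ev (pderiv (Sum.inl i) (pderiv (Sum.inl i) L)) f x +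
      lap f x * ∑ i, ev (pderiv (Sum.inl i) (pderiv (Sum.inr i) L)) f x +
      (lap f x ^ 2 - hs2 f x) * ev (D2 L) f x) :=
    ((Sm.sum fun i _ => ev_sm hs _).add (hs.lap.mul (Sm.sum fun i _ => ev_sm hs _))).add
      (((hs.lap.pow 2).sub hs.hs2).mul (ev_sm hs _))
  have sN : Sm (fun x => ((k : ℝ) + 1) * (lap f x * ∑ i, x i * ev (pderiv (Sum.inr i) L) f x +
      k * ev L f x)) :=
    (Sm.const _).mul ((hs.lap.mul (Sm.sum fun i _ => (Sm.coord i).mul (ev_sm hs _))).add
      ((Sm.const _).mul (ev_sm hs _)))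
  rw [SI_congr (fun x hx => W_div hs hk L hx), SI_congr (fun x hx => W_normal hs hk h hx)] at h0
  have e : DI k L f = fun x => (∑ i, ev (pderiv (Sum.inl i) (pderiv (Sum.inl i) L)) f x +
      lap f x * ∑ i, ev (pderiv (Sum.inl i) (pderiv (Sum.inr i) L)) f x +
      (lap f x ^ 2 - hs2 f x) * ev (D2 L) f x) -
      ((k : ℝ) + 1) * (lap f x * ∑ i, x i * ev (pderiv (Sum.inr i) L) f x + k * ev L f x) := by
    funext x
    unfold DI D0 D1
    simp only [ev_sub, ev_sum, ev_mul, ev_C, ev_u]
    ring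
  rw [e, SI_sub sD sN, h0, SI_const_mul]
  push_cast
  ring

end Helper80.CW.DL
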