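import Pool.Agent.Helper80.CW.DZ

/-!
# Orbits of seeds and covariance
-/

set_option linter.all false

namespace Helper80.CW.DL

open Set Metric MeasureTheory Helper82.CW MvPolynomial Helper80.CW Helper37.FX
open scoped ContDiff Topology RealInnerProductSpace Real

/-- index of the permuted coordinate -/
def pj (k : Fin 6) (i : Fin 3) : Fin 3 :=
  match i with
  | 0 => (pf k ((0 : Fin 3), (1 : Fin 3), (2 : Fin 3))).1
  | 1 => (pf k ((0 : Fin 3), (1 : Fin 3), (2 : Fin 3))).2.1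
  | 2 => (pf k ((0 : Fin 3), (1 : Fin 3), (2 : Fin 3))).2.2

def sz (g : Ge) (i : Fin 3) : ℤ :=
  match i with
  | 0 => sp g.2.1 1
  | 1 => sp g.2.2 1
  | 2 => sp (xor g.2.1 g.2.2) 1

def sr (g : Ge) (i : Fin 3) : ℝ :=
  match i with
  | 0 => sg g.2.1
  | 1 => sg g.2.2
  | 2 => sg (xor g.2.1 g.2.2)

theorem sz_cast (g : Ge) (i : Fin 3) : ((sz g i : ℤ) : ℝ) = sr g i := by
  fin_cases i <;> simp [sz, sr, sp_cast]

theorem sg_sq (a : Bool) : sg a * sg a = 1 := by cases a <;> simp [sg]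

theorem sr_sq (g : Ge) (i : Fin 3) : sr g i * sr g i = 1 := by
  fin_cases i <;> simp [sr, sg_sq]

/-- coordinates -/
def cv (i : Fin 3) (v : V3) : ℝ :=
  match i with
  | 0 => v.1
  | 1 => v.2.1
  | 2 => v.2.2

theorem cv_tr (g : Ge) (i : Fin 3) (v : V3) : cv i (tr g v) = sr g i * cv (pj g.1 i) v := by
  obtain ⟨k, a, b⟩ := g
  obtain ⟨x, y, z⟩ := v
  fin_cases k <;> fin_cases i <;> rfl

theorem vm_mu3 (i : Fin 3) (m : Mo) (u p : V3) : vm (mu i m) u p = cv i u * vm m u p := by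
  obtain ⟨c, ⟨a0, a1, a2⟩, ⟨b0, b1, b2⟩⟩ := m
  fin_cases i <;>
  · simp only [vm, mu, cv]
    ring

theorem dg_am (g : Ge) (m : Mo) : dg (am g m) = dg m := by
  obtain ⟨k, a, b⟩ := g
  obtain ⟨c, ⟨a0, a1, a2⟩, ⟨b0, b1, b2⟩⟩ := m
  fin_cases k <;> simp [dg, am, qf] <;> omega

theorem dg_sc (c : ℤ) (m : Mo) : dg (sc c m) = dg m := rfl

theorem vm_du_sc (i : Fin 3) (c : ℤ) (m : Mo) (u p : V3) :
    vm (du i (sc c m)) u p = c * vm (du i m) u p := by
  obtain ⟨d, ⟨a0, a1, a2⟩, ⟨b0, b1, b2⟩⟩ := m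
  fin_cases i <;>
  · simp only [vm, du, sc]
    push_cast
    ring

theorem vm_dp_sc (i : Fin 3) (c : ℤ) (m : Mo) (u p : V3) :
    vm (dp i (sc c m)) u p = c * vm (dp i m) u p := by
  obtain ⟨d, ⟨a0, a1, a2⟩, ⟨b0, b1, b2⟩⟩ := m
  fin_cases i <;>
  · simp only [vm, dp, sc]
    push_cast
    ring

theorem vm_du_am (g : Ge) (i : Fin 3) (m : Mo) (u p : V3) :
    vm (du (pj g.1 i) (am g m)) u p = sr g i * vm (du i m) (tr g u) (tr g p) := by
  obtain ⟨k, a, b⟩ := g
  obtain ⟨c, ⟨a0, a1, a2⟩, ⟨b0, b1, b2⟩⟩ := m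
  obtain ⟨u0, u1, u2⟩ := u
  obtain ⟨p0, p1, p2⟩ := p
  fin_cases i
  · rcases a0 with _ | n
    · fin_cases k <;> simp [vm, am, tr, du, pj, sr, pf, qf]
    · fin_cases k <;>
      · simp only [vm, am, tr, du, pj, sr, pf, qf, Nat.add_sub_cancel]
        push_cast
        simp only [sp_cast]
        simp only [mul_pow, pow_add, pow_one]
        ring
  · rcases a1 with _ | n
    · fin_cases k <;> simp [vm, am, tr, du, pj, sr, pf, qf]
    · fin_cases k <;>
      · simp only [vm, am, tr, du, pj, sr, pf, qf, Nat.add_sub_cancel]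
        push_cast
        simp only [sp_cast]
        simp only [mul_pow, pow_add, pow_one]
        ring
  · rcases a2 with _ | n
    · fin_cases k <;> simp [vm, am, tr, du, pj, sr, pf, qf]
    · fin_cases k <;>
      · simp only [vm, am, tr, du, pj, sr, pf, qf, Nat.add_sub_cancel]
        push_cast
        simp only [sp_cast]
        simp only [mul_pow, pow_add, pow_one]
        ring

theorem vm_dp_am (g : Ge) (i : Fin 3) (m : Mo) (u p : V3) :
    vm (dp (pj g.1 i) (am g m)) u p = sr g i * vm (dp i m) (tr g u) (tr g p) := by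
  obtain ⟨k, a, b⟩ := g
  obtain ⟨c, ⟨a0, a1, a2⟩, ⟨b0, b1, b2⟩⟩ := m
  obtain ⟨u0, u1, u2⟩ := u
  obtain ⟨p0, p1, p2⟩ := p
  fin_cases i
  · rcases b0 with _ | n
    · fin_cases k <;> simp [vm, am, tr, dp, pj, sr, pf, qf]
    · fin_cases k <;>
      · simp only [vm, am, tr, dp, pj, sr, pf, qf, Nat.add_sub_cancel]
        push_cast
        simp only [sp_cast]
        simp only [mul_pow, pow_add, pow_one]
        ring
  · rcases b1 with _ | n
    · fin_cases k <;> simp [vm, am, tr, dp, pj, sr, pf, qf]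
    · fin_cases k <;>
      · simp only [vm, am, tr, dp, pj, sr, pf, qf, Nat.add_sub_cancel]
        push_cast
        simp only [sp_cast]
        simp only [mul_pow, pow_add, pow_one]
        ring
  · rcases b2 with _ | n
    · fin_cases k <;> simp [vm, am, tr, dp, pj, sr, pf, qf]
    · fin_cases k <;>
      · simp only [vm, am, tr, dp, pj, sr, pf, qf, Nat.add_sub_cancel]
        push_cast
        simp only [sp_cast]
        simp only [mul_pow, pow_add, pow_one]
        ring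

end Helper80.CW.DL
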