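import Pool.Agent.Helper80.CW.DO

/-!
# Orbit sums: covariance and reduction to the chamber
-/

set_option linter.all false

namespace Helper80.CW.DL

open Set Metric MeasureTheory Helper82.CW MvPolynomial Helper80.CW Helper37.FX
open scoped ContDiff Topology RealInnerProductSpace Real

/-- the transformed seed -/
def sa (g : Ge) (s : Sd) : Sd := (s.1, pj g.1 s.2.1, sc (sz g s.2.1) (am g s.2.2))

theorem vl_g0_sa (g : Ge) (s : Sd) (u p : V3) :
    vl (g0 (sa g s)) u p = vl (g0 s) (tr g u) (tr g p) := by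
  obtain ⟨ty, i, m⟩ := s
  cases ty
  · simp only [g0, sa, Bool.false_eq_true, if_false, vl_cons, vl_nil, vm_du_sc, vm_sc, vm_mu3,
      vm_du_am, dg_sc, dg_am, vm_am, cv_tr, sz_cast]
    linear_combination (vm (du i m) (tr g u) (tr g p)) * (sr_sq g i)
  · simp only [g0, sa, if_true, vl_nil]

theorem vl_g1_sa (g : Ge) (s : Sd) (u p : V3) :
    vl (g1 (sa g s)) u p = vl (g1 s) (tr g u) (tr g p) := by
  obtain ⟨ty, i, m⟩ := s
  cases ty
  · simp only [g1, sa, Bool.false_eq_true, if_false, vl_nil]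
  · simp only [g1, sa, if_true, vl_cons, vl_nil, vm_du_sc, vm_sc, vm_mu3,
      vm_du_am, dg_sc, dg_am, vm_am, cv_tr, sz_cast]
    linear_combination (vm (du i m) (tr g u) (tr g p)) * (sr_sq g i)

theorem sum_pj (k : Fin 6) (G : Fin 3 → ℝ) : ∑ l, G (pj k l) = ∑ l, G l := by
  fin_cases k <;> simp [Fin.sum_univ_three, pj, pf] <;> ring

theorem dot_dp (g : Ge) (m : Mo) (u p w : V3) :
    ∑ l, cv l w * vm (dp l (am g m)) u p = ∑ l, cv l (tr g w) * vm (dp l m) (tr g u) (tr g p) := by
  rw [← sum_pj g.1]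
  refine Finset.sum_congr rfl fun l _ => ?_
  rw [vm_dp_am, cv_tr]
  ring

theorem dot_du (g : Ge) (m : Mo) (u p w : V3) :
    ∑ l, cv l w * vm (du l (am g m)) u p = ∑ l, cv l (tr g w) * vm (du l m) (tr g u) (tr g p) := by
  rw [← sum_pj g.1]
  refine Finset.sum_congr rfl fun l _ => ?_
  rw [vm_du_am, cv_tr]
  ring

theorem vl_g2_sa (g : Ge) (s : Sd) (u p : V3) :
    vl (g2 (sa g s)) u p = vl (g2 s) (tr g u) (tr g p) := by
  obtain ⟨ty, i, m⟩ := s
  cases ty
  · simp only [g2, sa, Bool.false_eq_true, if_false, vl_nil]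
  · have h := dot_dp g m u p u
    simp only [Fin.sum_univ_three] at h
    simp only [g2, sa, if_true, vl_cons, vl_nil, vm_dp_sc, vm_sc, vm_mu3,
      vm_dp_am, vm_am, sz_cast]
    rw [cv_tr g i u]
    linear_combination (vm (dp i m) (tr g u) (tr g p)) * (sr_sq g i) -
      (sr g i * cv (pj g.1 i) u) * h

/-- trace functional -/
def LT (u p : V3) (s : Sd) : ℝ := ∑ j, vl (gN j j s) u p

/-- bilinear functional -/
def LN (u p v w : V3) (s : Sd) : ℝ := ∑ j, ∑ l, cv j v * cv l w * vl (gN j l s) u p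

theorem LT_eq (u p : V3) (ty : Bool) (i : Fin 3) (m : Mo) :
    LT u p (ty, i, m) = if ty then -vm (du i m) u p else vm (dp i m) u p := by
  unfold LT
  rw [Finset.sum_eq_single i]
  · cases ty <;> simp [gN, vl, vm_sc]
  · intro j _ hj
    simp [gN, vl, hj]
  · simp

theorem LN_eq (u p v w : V3) (ty : Bool) (i : Fin 3) (m : Mo) :
    LN u p v w (ty, i, m) = cv i v * if ty then -∑ l, cv l w * vm (du l m) u p
      else ∑ l, cv l w * vm (dp l m) u p := by
  unfold LN
  rw [Finset.sum_eq_single i]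
  · cases ty
    · simp [gN, vl, Finset.mul_sum, mul_assoc]
    · simp [gN, vl, vm_sc, Finset.mul_sum, mul_assoc]
  · intro j _ hj
    simp [gN, vl, hj]
  · simp

theorem LT_sa (g : Ge) (s : Sd) (u p : V3) : LT u p (sa g s) = LT (tr g u) (tr g p) s := by
  obtain ⟨ty, i, m⟩ := s
  unfold sa
  rw [LT_eq, LT_eq]
  cases ty
  · simp only [Bool.false_eq_true, if_false, vm_dp_sc, vm_dp_am, sz_cast]
    linear_combination (vm (dp i m) (tr g u) (tr g p)) * (sr_sq g i)
  · simp only [if_true, vm_du_sc, vm_du_am, sz_cast]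
    linear_combination (-vm (du i m) (tr g u) (tr g p)) * (sr_sq g i)

theorem LN_sa (g : Ge) (s : Sd) (u p v w : V3) :
    LN u p v w (sa g s) = LN (tr g u) (tr g p) (tr g v) (tr g w) s := by
  obtain ⟨ty, i, m⟩ := s
  unfold sa
  rw [LN_eq, LN_eq]
  cases ty
  · simp only [Bool.false_eq_true, if_false]
    rw [← dot_dp, cv_tr]
    simp only [vm_dp_sc, sz_cast]
    have : ∀ l, cv l w * (sr g i * vm (dp l (am g m)) u p) =
        sr g i * (cv l w * vm (dp l (am g m)) u p) := fun l => by ring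
    simp only [this, ← Finset.mul_sum]
    ring
  · simp only [if_true]
    rw [← dot_du, cv_tr]
    simp only [vm_du_sc, sz_cast]
    have : ∀ l, cv l w * (sr g i * vm (du l (am g m)) u p) =
        sr g i * (cv l w * vm (du l (am g m)) u p) := fun l => by ring
    simp only [this, ← Finset.mul_sum]
    ring

/-- orbits of seeds -/
def orbS (S : List Sd) : List Sd := G24.flatMap fun g => S.map (sa g)

def orbSa (a : St) (S : List Sd) : List Sd :=
  (G24.filter fun g => ax g = a).flatMap fun g => S.map (sa g)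

/-- the orbit sum of a functional -/
def AA (S0 S1 : List Sd) (t : St → ℝ) (L : Sd → ℝ) : ℝ :=
  ((orbS S0).map L).sum + ∑ a, t a * ((orbSa a S1).map L).sum

theorem map_flat (G : List Ge) (S : List Sd) (L : Sd → ℝ) :
    ((G.flatMap fun g => S.map (sa g)).map L).sum =
      (G.map fun g => (S.map fun s => L (sa g s)).sum).sum := by
  induction G with
  | nil => rfl
  | cons g G ih =>
    rw [List.flatMap_cons, List.map_append, List.sum_append, ih, List.map_cons, List.sum_cons,
      List.map_map]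
    rfl

theorem AA_eq (S0 S1 : List Sd) (t : St → ℝ) (L : Sd → ℝ) :
    AA S0 S1 t L = (G24.map fun g => (S0.map fun s => L (sa g s)).sum +
      t (ax g) * (S1.map fun s => L (sa g s)).sum).sum := by
  unfold AA orbS orbSa
  rw [map_flat, List.sum_map_add]
  congr 1
  simp only [map_flat]
  induction G24 with
  | nil => simp
  | cons g G ih =>
    rw [List.map_cons, List.sum_cons, ← ih, ← Finset.sum_erase_add _ _ (Finset.mem_univ (ax g)),
      ← Finset.sum_erase_add (a := ax g) _ _ (Finset.mem_univ (ax g))]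
    have h1 : ((g :: G).filter fun h => ax h = ax g) = g :: (G.filter fun h => ax h = ax g) := by
      simp
    rw [h1, List.map_cons, List.sum_cons]
    have h2 : ∀ a ∈ Finset.univ.erase (ax g), ((g :: G).filter fun h => ax h = a) =
        (G.filter fun h => ax h = a) := by
      intro a ha
      have : ax g ≠ a := fun h => (Finset.ne_of_mem_erase ha) h.symm
      simp [this]
    have h3 : ∑ x ∈ Finset.univ.erase (ax g), t x *
        (((g :: G).filter fun h => ax h = x).map fun g => (S1.map fun s => L (sa g s)).sum).sum =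
        ∑ x ∈ Finset.univ.erase (ax g), t x *
        ((G.filter fun h => ax h = x).map fun g => (S1.map fun s => L (sa g s)).sum).sum :=
      Finset.sum_congr rfl fun a ha => by rw [h2 a ha]
    rw [h3]
    ring

theorem AA_lin (S0 S1 : List Sd) (t : St → ℝ) {ι : Type*} (s : Finset ι) (c : ι → ℝ)
    (L : ι → Sd → ℝ) :
    AA S0 S1 t (fun x => ∑ i ∈ s, c i * L i x) = ∑ i ∈ s, c i * AA S0 S1 t (L i) := by
  have key : ∀ l : List Sd, (l.map fun x => ∑ i ∈ s, c i * L i x).sum =
      ∑ i ∈ s, c i * (l.map (L i)).sum := by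
    intro l
    induction l with
    | nil => simp
    | cons x l ih =>
      rw [List.map_cons, List.sum_cons, ih, ← Finset.sum_add_distrib]
      refine Finset.sum_congr rfl fun i _ => ?_
      rw [List.map_cons, List.sum_cons]
      ring
  unfold AA
  simp only [key, mul_add, Finset.sum_add_distrib, Finset.mul_sum]
  congr 1
  rw [Finset.sum_comm]
  refine Finset.sum_congr rfl fun i _ => Finset.sum_congr rfl fun a _ => ?_
  ring

section
variable {S0 S1 : List Sd} {L : V3 → V3 → V3 → V3 → Sd → ℝ}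

theorem sum_c (pi1 : Ge → Ge) (h : (G24.map pi1).Perm G24) (Φ : Ge → ℝ) :
    (G24.map fun g => Φ (pi1 g)).sum = (G24.map Φ).sum := by
  have := (h.map Φ).sum_eq
  rw [List.map_map] at this
  exact this

theorem AA_01 (hL : ∀ g s u p v w, L u p v w (sa g s) = L (tr g u) (tr g p) (tr g v) (tr g w) s)
    (t : St → ℝ) (u p v w : V3) :
    AA S0 S1 (fun a => t (x01 a)) (L (u.2.1, u.1, u.2.2) (p.2.1, p.1, p.2.2) (v.2.1, v.1, v.2.2)
      (w.2.1, w.1, w.2.2)) = AA S0 S1 t (L u p v w) := by
  rw [AA_eq, AA_eq]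
  simp only [hL, ← tr_c01, ← ax_c01]
  exact sum_c c01 perm01 (fun g => (S0.map fun s => L (tr g u) (tr g p) (tr g v) (tr g w) s).sum +
      t (ax g) * (S1.map fun s => L (tr g u) (tr g p) (tr g v) (tr g w) s).sum)

theorem AA_12 (hL : ∀ g s u p v w, L u p v w (sa g s) = L (tr g u) (tr g p) (tr g v) (tr g w) s)
    (t : St → ℝ) (u p v w : V3) :
    AA S0 S1 (fun a => t (x12 a)) (L (u.1, u.2.2, u.2.1) (p.1, p.2.2, p.2.1) (v.1, v.2.2, v.2.1)
      (w.1, w.2.2, w.2.1)) = AA S0 S1 t (L u p v w) := by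
  rw [AA_eq, AA_eq]
  simp only [hL, ← tr_c12, ← ax_c12]
  exact sum_c c12 perm12 (fun g => (S0.map fun s => L (tr g u) (tr g p) (tr g v) (tr g w) s).sum +
      t (ax g) * (S1.map fun s => L (tr g u) (tr g p) (tr g v) (tr g w) s).sum)

theorem AA_fl (hL : ∀ g s u p v w, L u p v w (sa g s) = L (tr g u) (tr g p) (tr g v) (tr g w) s)
    (t : St → ℝ) (u p v w : V3) :
    AA S0 S1 (fun a => t (xfl a)) (L (-u.1, -u.2.1, u.2.2) (-p.1, -p.2.1, p.2.2)
      (-v.1, -v.2.1, v.2.2) (-w.1, -w.2.1, w.2.2)) = AA S0 S1 t (L u p v w) := by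
  rw [AA_eq, AA_eq]
  simp only [hL, ← tr_cfl, ← ax_cfl]
  exact sum_c cfl permfl (fun g => (S0.map fun s => L (tr g u) (tr g p) (tr g v) (tr g w) s).sum +
      t (ax g) * (S1.map fun s => L (tr g u) (tr g p) (tr g v) (tr g w) s).sum)

end

end Helper80.CW.DL
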