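import Pool.Agent.Helper80.CW.DQ

/-!
# Invariance of the certificate, parity, chamber
-/

set_option linter.all false

namespace Helper80.CW.DL

open Set Metric MeasureTheory Helper82.CW MvPolynomial Helper80.CW Helper37.FX
open scoped ContDiff Topology RealInnerProductSpace Real

/-- scalar product -/
def dt (x y : V3) : ℝ := ∑ i, cv i x * cv i y

section
variable (S0 S1 : List Sd) (N V : ℝ)

/-- the matrix of the mixed terms -/
noncomputable def NN (t : St → ℝ) (u p : V3) : Fin 3 → Fin 3 → ℝ := fun j l =>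
  AA S0 S1 t (fun s => vl (gN j l s) u p) / N

/-- the certificate of the family -/
def GoodW (t : St → ℝ) (u p : V3) : Prop :=
  CertX (fun i => cv i u) (AA S0 S1 t (fun s => vl (g0 s) u p) / N)
    (AA S0 S1 t (fun s => vl (g1 s) u p) / N) (AA S0 S1 t (fun s => vl (g2 s) u p) / (2 * N))
    (NN S0 S1 N t u p) V

variable {S0 S1 N V}

theorem bil_NN (t : St → ℝ) (u p v w : V3) :
    bil (NN S0 S1 N t u p) (fun i => cv i v) (fun i => cv i w) = AA S0 S1 t (LN u p v w) / N := by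
  have h1 : LN u p v w = fun s => ∑ x : Fin 3 × Fin 3, (cv x.1 v * cv x.2 w) *
      vl (gN x.1 x.2 s) u p := by
    funext s
    unfold LN
    rw [Fintype.sum_prod_type]
  rw [h1, AA_lin, Finset.sum_div, Fintype.sum_prod_type]
  unfold bil NN
  refine Finset.sum_congr rfl fun j _ => Finset.sum_congr rfl fun l _ => ?_
  ring

theorem trace_NN (t : St → ℝ) (u p : V3) :
    ∑ j, NN S0 S1 N t u p j j = AA S0 S1 t (LT u p) / N := by
  have h1 : LT u p = fun s => ∑ j : Fin 3, 1 * vl (gN j j s) u p := by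
    funext s
    unfold LT
    simp
  rw [h1, AA_lin, Finset.sum_div]
  unfold NN
  refine Finset.sum_congr rfl fun j _ => ?_
  ring

theorem trT_NN (t : St → ℝ) (u p : V3) :
    trT (NN S0 S1 N t u p) (fun i => cv i u) = AA S0 S1 t (LT u p) / N -
      AA S0 S1 t (LN u p u u) / N := by
  unfold trT
  rw [trace_NN, bil_NN]

/-- covariance of a functional -/
def Cov (L : V3 → V3 → V3 → V3 → Sd → ℝ) : Prop :=
  ∀ g s u p v w, L u p v w (sa g s) = L (tr g u) (tr g p) (tr g v) (tr g w) s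

theorem GoodW.of {τ : V3 → V3} {t t' : St → ℝ}
    (hA : ∀ L : V3 → V3 → V3 → V3 → Sd → ℝ, Cov L → ∀ u p v w,
      AA S0 S1 t' (L (τ u) (τ p) (τ v) (τ w)) = AA S0 S1 t (L u p v w))
    (hB : ∀ x y, dt (τ x) (τ y) = dt x y) {u p : V3} (h : GoodW S0 S1 N V t' (τ u) (τ p)) :
    GoodW S0 S1 N V t u p := by
  have a0 := hA (fun u p _ _ s => vl (g0 s) u p) (fun g s u p _ _ => vl_g0_sa g s u p) u p u u
  have a1 := hA (fun u p _ _ s => vl (g1 s) u p) (fun g s u p _ _ => vl_g1_sa g s u p) u p u u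
  have a2 := hA (fun u p _ _ s => vl (g2 s) u p) (fun g s u p _ _ => vl_g2_sa g s u p) u p u u
  have a3 := hA (fun u p _ _ s => LT u p s) (fun g s u p _ _ => LT_sa g s u p) u p u u
  have a4 := hA LN (fun g s u p v w => LN_sa g s u p v w) u p
  have t1 : trT (NN S0 S1 N t' (τ u) (τ p)) (fun i => cv i (τ u)) =
      trT (NN S0 S1 N t u p) (fun i => cv i u) := by
    rw [trT_NN, trT_NN, a4]
    exact congrArg (fun x => x / N - AA S0 S1 t (LN u p u u) / N) a3
  obtain ⟨hp, hm, hz⟩ := h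
  rw [t1] at hp hm
  rw [a0, a1, a2] at hp hm
  refine ⟨hp, hm, ?_⟩
  intro e he hue
  set ev : V3 := (e 0, e 1, e 2) with hev
  have ec : ∀ i, cv i ev = e i := by intro i; fin_cases i <;> rfl
  have ef : (fun i => cv i ev) = e := funext ec
  have h1 : ∑ i, cv i (τ ev) ^ 2 = 1 := by
    have := hB ev ev
    unfold dt at this
    simp only [ec] at this
    rw [← he]
    calc ∑ i, cv i (τ ev) ^ 2 = ∑ i, cv i (τ ev) * cv i (τ ev) :=
          Finset.sum_congr rfl fun i _ => by ring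
      _ = ∑ i, e i * e i := this
      _ = _ := Finset.sum_congr rfl fun i _ => by ring
  have h2 : ∑ i, cv i (τ u) * cv i (τ ev) = 0 := by
    have := hB u ev
    unfold dt at this
    rw [this, ← hue]
    exact Finset.sum_congr rfl fun i _ => by rw [ec]
  have h3 := hz (fun i => cv i (τ ev)) h1 h2
  rw [t1, a0, a2, bil_NN, a4, ← bil_NN, ef] at h3
  exact h3

theorem GoodW.s01 {t : St → ℝ} {u p : V3}
    (h : GoodW S0 S1 N V (fun a => t (x01 a)) (u.2.1, u.1, u.2.2) (p.2.1, p.1, p.2.2)) :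
    GoodW S0 S1 N V t u p :=
  GoodW.of (τ := fun v => (v.2.1, v.1, v.2.2)) (fun L hL u p v w => AA_01 hL t u p v w)
    (fun x y => by simp only [dt, Fin.sum_univ_three, cv]; ring) h

theorem GoodW.s12 {t : St → ℝ} {u p : V3}
    (h : GoodW S0 S1 N V (fun a => t (x12 a)) (u.1, u.2.2, u.2.1) (p.1, p.2.2, p.2.1)) :
    GoodW S0 S1 N V t u p :=
  GoodW.of (τ := fun v => (v.1, v.2.2, v.2.1)) (fun L hL u p v w => AA_12 hL t u p v w)
    (fun x y => by simp only [dt, Fin.sum_univ_three, cv]; ring) h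

theorem GoodW.fl {t : St → ℝ} {u p : V3}
    (h : GoodW S0 S1 N V (fun a => t (xfl a)) (-u.1, -u.2.1, u.2.2) (-p.1, -p.2.1, p.2.2)) :
    GoodW S0 S1 N V t u p :=
  GoodW.of (τ := fun v => (-v.1, -v.2.1, v.2.2)) (fun L hL u p v w => AA_fl hL t u p v w)
    (fun x y => by simp only [dt, Fin.sum_univ_three, cv]; ring) h

end

/-- parity of the seeds: `cof(A)` fields even, others odd -/
def okS (S : List Sd) : Bool :=
  S.all fun s => if s.1 then dg s.2.2 % 2 == 0 else dg s.2.2 % 2 == 1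

/-- parity of a seed -/
def Ps (s : Sd) : Prop := Pr (if s.1 then 0 else 1) s.2.2

theorem okS_mem {S : List Sd} (h : okS S = true) : ∀ s ∈ S, Ps s := by
  intro s hs
  have := (List.all_eq_true.1 h) s hs
  obtain ⟨ty, i, m⟩ := s
  unfold Ps Pr
  right
  cases ty
  · simpa using this
  · simpa using this

theorem Ps.sa {s : Sd} (h : Ps s) (g : Ge) : Ps (sa g s) := by
  obtain ⟨ty, i, m⟩ := s
  unfold Ps DL.sa at *
  simp only at *
  apply Pr.sc
  unfold Pr at *
  rw [dg_am]
  rcases h with h | h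
  · left
    unfold am
    rw [h]
    simp
  · right; exact h

theorem par_g0 {s : Sd} (h : Ps s) (u p : V3) : vl (g0 s) (ng u) p = vl (g0 s) u p := by
  obtain ⟨ty, i, m⟩ := s
  unfold Ps at h
  cases ty
  · simp only [Bool.false_eq_true, if_false] at h
    have : ∀ n ∈ g0 (false, i, m), Pr 0 n := by
      intro n hn
      simp only [g0, Bool.false_eq_true, if_false, List.mem_cons, List.not_mem_nil, or_false] at hn
      rcases hn with rfl | rfl
      · exact (h.du i).add2
      · exact ((h.mu i).sc _).add2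
    rw [vl_par this]
    simp
  · simp [g0, vl]

theorem par_g1 {s : Sd} (h : Ps s) (u p : V3) : vl (g1 s) (ng u) p = -vl (g1 s) u p := by
  obtain ⟨ty, i, m⟩ := s
  unfold Ps at h
  cases ty
  · simp [g1, vl]
  · simp only [if_true] at h
    have : ∀ n ∈ g1 (true, i, m), Pr 1 n := by
      intro n hn
      simp only [g1, if_true, List.mem_cons, List.not_mem_nil, or_false] at hn
      rcases hn with rfl | rfl
      · exact h.du i
      · exact (h.mu i).sc _
    rw [vl_par this]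
    simp

theorem par_g2 {s : Sd} (h : Ps s) (u p : V3) : vl (g2 s) (ng u) p = vl (g2 s) u p := by
  obtain ⟨ty, i, m⟩ := s
  unfold Ps at h
  cases ty
  · simp [g2, vl]
  · simp only [if_true] at h
    have : ∀ n ∈ g2 (true, i, m), Pr 0 n := by
      intro n hn
      simp only [g2, if_true, List.mem_cons, List.not_mem_nil, or_false] at hn
      rcases hn with rfl | rfl | rfl | rfl
      · exact h.dp i
      · exact ((((h.dp 0).mu 0).mu i).sc _).add2
      · exact ((((h.dp 1).mu 1).mu i).sc _).add2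
      · exact ((((h.dp 2).mu 2).mu i).sc _).add2
    rw [vl_par this]
    simp

theorem par_gN {s : Sd} (h : Ps s) (j l : Fin 3) (u p : V3) :
    vl (gN j l s) (ng u) p = -vl (gN j l s) u p := by
  obtain ⟨ty, i, m⟩ := s
  unfold Ps at h
  by_cases hj : j = i
  · cases ty
    · simp only [Bool.false_eq_true, if_false] at h
      have : ∀ n ∈ gN j l (false, i, m), Pr 1 n := by
        intro n hn
        simp only [gN, hj, if_true, Bool.false_eq_true, if_false, List.mem_cons,
          List.not_mem_nil, or_false] at hn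
        rw [hn]
        exact h.dp l
      rw [vl_par this]
      simp
    · simp only [if_true] at h
      have : ∀ n ∈ gN j l (true, i, m), Pr 1 n := by
        intro n hn
        simp only [gN, hj, if_true, List.mem_cons, List.not_mem_nil, or_false] at hn
        rw [hn]
        exact (h.du l).sc _
      rw [vl_par this]
      simp
  · simp [gN, hj, vl]

section
variable {S0 S1 : List Sd} {N V : ℝ}

theorem AA_par (h0 : okS S0 = true) (h1 : okS S1 = true) (t : St → ℝ) {L L' : Sd → ℝ} {c : ℝ}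
    (h : ∀ s, Ps s → L s = c * L' s) : AA S0 S1 t L = c * AA S0 S1 t L' := by
  rw [AA_eq, AA_eq, ← List.sum_map_mul_left]
  congr 1
  apply List.map_congr_left
  intro g _
  have e : ∀ S : List Sd, okS S = true → (S.map fun s => L (sa g s)).sum =
      c * (S.map fun s => L' (sa g s)).sum := by
    intro S hS
    rw [← List.sum_map_mul_left]
    congr 1
    apply List.map_congr_left
    intro s hs
    exact h _ ((okS_mem hS s hs).sa g)
  rw [e S0 h0, e S1 h1]
  ring

theorem trace_frame {u a b : Fin 3 → ℝ} (hu : ∑ i, u i ^ 2 = 1) (ha : ∑ i, a i ^ 2 = 1)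
    (hb : ∑ i, b i ^ 2 = 1) (hab : ∑ i, a i * b i = 0) (hua : ∑ i, u i * a i = 0)
    (hub : ∑ i, u i * b i = 0) (M : Fin 3 → Fin 3 → ℝ) :
    ∑ i, M i i = bil M u u + bil M a a + bil M b b := by
  have h1 := frame_pair hu ha hb hab hua hub M (fun i j => if i = j then 1 else 0)
  have h2 : ∑ j, ∑ l, M j l * (if j = l then (1 : ℝ) else 0) = ∑ i, M i i := by simp
  have idb : ∀ v w : Fin 3 → ℝ, bil (fun i j => if i = j then 1 else 0) v w = ∑ i, v i * w i := by
    intro v w
    unfold bil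
    simp
  have sq' : ∀ v : Fin 3 → ℝ, ∑ i, v i * v i = ∑ i, v i ^ 2 := fun v =>
    Finset.sum_congr rfl fun i _ => by ring
  have ba0 : ∑ i, b i * a i = 0 := by
    rw [← hab]; exact Finset.sum_congr rfl fun i _ => by ring
  have h3 : ∑ i, a i * u i = 0 := by
    rw [← hua]; exact Finset.sum_congr rfl fun i _ => by ring
  have h4 : ∑ i, b i * u i = 0 := by
    rw [← hub]; exact Finset.sum_congr rfl fun i _ => by ring
  rw [h2] at h1
  rw [h1]
  simp only [idb, sq', hu, ha, hb, hab, hua, hub, ba0, h3, h4]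
  ring

theorem GoodW.ng (h0 : okS S0 = true) (h1 : okS S1 = true) {t : St → ℝ} {u p : V3}
    (hu : ∑ i, cv i u ^ 2 = 1) (h : GoodW S0 S1 N V t (ng u) p) : GoodW S0 S1 N V t u p := by
  have a0 : AA S0 S1 t (fun s => vl (g0 s) (DL.ng u) p) = 1 * AA S0 S1 t (fun s => vl (g0 s) u p) :=
    AA_par h0 h1 t fun s hs => by rw [par_g0 hs, one_mul]
  have a1 : AA S0 S1 t (fun s => vl (g1 s) (DL.ng u) p) = (-1) * AA S0 S1 t (fun s => vl (g1 s) u p) :=
    AA_par h0 h1 t fun s hs => by rw [par_g1 hs]; ring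
  have a2 : AA S0 S1 t (fun s => vl (g2 s) (DL.ng u) p) = 1 * AA S0 S1 t (fun s => vl (g2 s) u p) :=
    AA_par h0 h1 t fun s hs => by rw [par_g2 hs, one_mul]
  have aN : NN S0 S1 N t (DL.ng u) p = fun j l => -NN S0 S1 N t u p j l := by
    funext j l
    unfold NN
    rw [AA_par (L' := fun s => vl (gN j l s) u p) (c := -1) h0 h1 t
      fun s hs => by rw [par_gN hs]; ring]
    ring
  have bn : ∀ (M : Fin 3 → Fin 3 → ℝ) (v w : Fin 3 → ℝ), bil (fun j l => -M j l) v w = -bil M v w := by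
    intro M v w
    unfold bil
    simp [Finset.sum_neg_distrib]
  have cn : (fun i => cv i (DL.ng u)) = fun i => -cv i u := by
    funext i
    fin_cases i <;> rfl
  have bu : ∀ M : Fin 3 → Fin 3 → ℝ, bil M (fun i => -cv i u) (fun i => -cv i u) =
      bil M (fun i => cv i u) (fun i => cv i u) := by
    intro M
    unfold bil
    simp
  have tn : trT (NN S0 S1 N t (DL.ng u) p) (fun i => cv i (DL.ng u)) =
      -trT (NN S0 S1 N t u p) (fun i => cv i u) := by
    unfold trT
    rw [aN, bn, cn, bu, Finset.sum_neg_distrib]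
    ring
  obtain ⟨hp, hm, hz⟩ := h
  rw [tn, a0, a1, a2] at hp hm
  refine ⟨?_, ?_, ?_⟩
  · refine le_trans (le_of_eq ?_) hm
    ring
  · refine le_trans (le_of_eq ?_) hp
    ring
  · intro e he hue
    simp only [Fin.sum_univ_three] at he hue hu
    set c : Fin 3 → ℝ := ![cv 1 u * e 2 - cv 2 u * e 1, cv 2 u * e 0 - cv 0 u * e 2,
      cv 0 u * e 1 - cv 1 u * e 0] with hc
    have c0 : c 0 = cv 1 u * e 2 - cv 2 u * e 1 := rfl
    have c1 : c 1 = cv 2 u * e 0 - cv 0 u * e 2 := rfl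
    have c2 : c 2 = cv 0 u * e 1 - cv 1 u * e 0 := rfl
    have cc : ∑ i, c i ^ 2 = 1 := by
      simp only [Fin.sum_univ_three, c0, c1, c2]
      have : (cv 1 u * e 2 - cv 2 u * e 1) ^ 2 + (cv 2 u * e 0 - cv 0 u * e 2) ^ 2 +
          (cv 0 u * e 1 - cv 1 u * e 0) ^ 2 = (cv 0 u ^ 2 + cv 1 u ^ 2 + cv 2 u ^ 2) *
          (e 0 ^ 2 + e 1 ^ 2 + e 2 ^ 2) - (cv 0 u * e 0 + cv 1 u * e 1 + cv 2 u * e 2) ^ 2 := by
        ring
      rw [this, hu, he, hue]
      ring
    have uc : ∑ i, cv i u * c i = 0 := by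
      simp only [Fin.sum_univ_three, c0, c1, c2]
      ring
    have ec : ∑ i, e i * c i = 0 := by
      simp only [Fin.sum_univ_three, c0, c1, c2]
      ring
    have he' : ∑ i, e i ^ 2 = 1 := by simpa only [Fin.sum_univ_three] using he
    have hue' : ∑ i, cv i u * e i = 0 := by simpa only [Fin.sum_univ_three] using hue
    have hu' : ∑ i, cv i u ^ 2 = 1 := by simpa only [Fin.sum_univ_three] using hu
    have tf := trace_frame hu' he' cc ec hue' uc (NN S0 S1 N t u p)
    have h3 := hz c cc (by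
      have : ∀ i, (fun i => cv i (DL.ng u)) i * c i = -(cv i u * c i) := by
        intro i
        rw [cn]
        ring
      simp only [this, Finset.sum_neg_distrib, uc, neg_zero])
    rw [tn, a0, a2, aN, bn] at h3
    have ht : trT (NN S0 S1 N t u p) (fun i => cv i u) = bil (NN S0 S1 N t u p) e e +
        bil (NN S0 S1 N t u p) c c := by
      unfold trT
      rw [tf]
      ring
    rw [ht] at h3 ⊢
    refine le_trans (le_of_eq ?_) h3
    ring

/-- **reduction to the chamber** -/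
theorem goodW_all (h0 : okS S0 = true) (h1 : okS S1 = true) {Dom : (St → ℝ) → V3 → V3 → Prop}
    (d01 : ∀ t u p, Dom t u p → Dom (fun a => t (x01 a)) (u.2.1, u.1, u.2.2) (p.2.1, p.1, p.2.2))
    (d12 : ∀ t u p, Dom t u p → Dom (fun a => t (x12 a)) (u.1, u.2.2, u.2.1) (p.1, p.2.2, p.2.1))
    (dfl : ∀ t u p, Dom t u p → Dom (fun a => t (xfl a)) (-u.1, -u.2.1, u.2.2)
      (-p.1, -p.2.1, p.2.2))
    (dng : ∀ t u p, Dom t u p → Dom t (ng u) p)
    (H : ∀ t (u p : V3), u.1 ^ 2 + u.2.1 ^ 2 + u.2.2 ^ 2 = 1 → 0 ≤ u.2.2 → u.2.2 ≤ u.2.1 →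
      u.2.1 ≤ u.1 → Dom t u p → GoodW S0 S1 N V t u p) (t : St → ℝ) (u p : V3)
    (hu : u.1 ^ 2 + u.2.1 ^ 2 + u.2.2 ^ 2 = 1) (hD : Dom t u p) : GoodW S0 S1 N V t u p := by
  set P : V3 → V3 → Prop := fun u p => ∀ t, u.1 ^ 2 + u.2.1 ^ 2 + u.2.2 ^ 2 = 1 → Dom t u p →
    GoodW S0 S1 N V t u p with hP
  have e01 : ∀ x y z a b c : ℝ, P (y, x, z) (b, a, c) → P (x, y, z) (a, b, c) := by
    intro x y z a b c h t h1 h2
    exact GoodW.s01 (h _ (by simp only at h1 ⊢; linarith) (d01 _ _ _ h2))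
  have e12 : ∀ x y z a b c : ℝ, P (x, z, y) (a, c, b) → P (x, y, z) (a, b, c) := by
    intro x y z a b c h t h1 h2
    exact GoodW.s12 (h _ (by simp only at h1 ⊢; linarith) (d12 _ _ _ h2))
  have efl : ∀ x y z a b c : ℝ, P (-x, -y, z) (-a, -b, c) → P (x, y, z) (a, b, c) := by
    intro x y z a b c h t h1 h2
    exact GoodW.fl (h _ (by simp only at h1 ⊢; linarith) (dfl _ _ _ h2))
  have eng : ∀ x y z a b c : ℝ, P (-x, -y, -z) (a, b, c) → P (x, y, z) (a, b, c) := by
    intro x y z a b c h t h2 h3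
    exact GoodW.ng h0 h1 (by simp only [Fin.sum_univ_three, cv]; exact h2)
      (h _ (by simp only at h2 ⊢; linarith) (dng _ _ _ h3))
  have H' : ∀ x y z a b c : ℝ, 0 ≤ z → z ≤ y → y ≤ x → P (x, y, z) (a, b, c) := by
    intro x y z a b c h1 h2 h3 t h4 h5
    exact H _ _ _ h4 h1 h2 h3 h5
  have S2 : ∀ x y z a b c : ℝ, 0 ≤ x → 0 ≤ y → 0 ≤ z → P (x, y, z) (a, b, c) := by
    intro x y z a b c hx hy hz
    rcases le_total x y with h1 | h1
    · rcases le_total x z with h2 | h2
      · rcases le_total y z with h3 | h3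
        · exact e01 _ _ _ _ _ _ (e12 _ _ _ _ _ _ (e01 _ _ _ _ _ _ (H' _ _ _ _ _ _ hx h1 h3)))
        · exact e01 _ _ _ _ _ _ (e12 _ _ _ _ _ _ (H' _ _ _ _ _ _ hx h2 h3))
      · exact e01 _ _ _ _ _ _ (H' _ _ _ _ _ _ hz h2 h1)
    · rcases le_total y z with h2 | h2
      · rcases le_total x z with h3 | h3
        · exact e12 _ _ _ _ _ _ (e01 _ _ _ _ _ _ (H' _ _ _ _ _ _ hy h1 h3))
        · exact e12 _ _ _ _ _ _ (H' _ _ _ _ _ _ hy h2 h3)
      · exact H' _ _ _ _ _ _ hz h2 h1
  have S3 : ∀ x y z a b c : ℝ, P (x, y, z) (a, b, c) := by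
    intro x y z a b c
    rcases le_total 0 x with hx | hx <;> rcases le_total 0 y with hy | hy <;>
      rcases le_total 0 z with hz | hz
    · exact S2 _ _ _ _ _ _ hx hy hz
    · exact eng _ _ _ _ _ _ (efl _ _ _ _ _ _ (S2 _ _ _ _ _ _ (by linarith) (by linarith)
        (by linarith)))
    · exact eng _ _ _ _ _ _ (e12 _ _ _ _ _ _ (efl _ _ _ _ _ _ (S2 _ _ _ _ _ _ (by linarith)
        (by linarith) (by linarith))))
    · exact e01 _ _ _ _ _ _ (e12 _ _ _ _ _ _ (efl _ _ _ _ _ _ (S2 _ _ _ _ _ _ (by linarith)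
        (by linarith) (by linarith))))
    · exact eng _ _ _ _ _ _ (e01 _ _ _ _ _ _ (e12 _ _ _ _ _ _ (efl _ _ _ _ _ _
        (S2 _ _ _ _ _ _ (by linarith) (by linarith) (by linarith)))))
    · exact e12 _ _ _ _ _ _ (efl _ _ _ _ _ _ (S2 _ _ _ _ _ _ (by linarith) (by linarith)
        (by linarith)))
    · exact efl _ _ _ _ _ _ (S2 _ _ _ _ _ _ (by linarith) (by linarith) (by linarith))
    · exact eng _ _ _ _ _ _ (S2 _ _ _ _ _ _ (by linarith) (by linarith) (by linarith))
  exact S3 u.1 u.2.1 u.2.2 p.1 p.2.1 p.2.2 t hu hD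

end

end Helper80.CW.DL
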