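import Pool.Agent.Helper80.CW.DM

/-!
# Symmetrisation over the group of the tetrahedron
-/

set_option linter.all false

namespace Helper80.CW.DL

open Set Metric MeasureTheory Helper82.CW MvPolynomial Helper80.CW Helper37.FX
open scoped ContDiff Topology RealInnerProductSpace

/-- signed permutation of the coordinates, acting on `u` and `p` at the same time -/
noncomputable def actf (τ : Equiv.Perm (Fin 3)) (s : Fin 3 → ℝ) : PQ →ₐ[ℝ] PQ :=
  aeval (Sum.elim (fun i => C (s i) * X (Sum.inl (τ i))) (fun i => C (s i) * X (Sum.inr (τ i))))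

theorem actf_inl (τ : Equiv.Perm (Fin 3)) (s : Fin 3 → ℝ) (i : Fin 3) :
    actf τ s (X (Sum.inl i)) = C (s i) * X (Sum.inl (τ i)) := by
  simp [actf]

theorem actf_inr (τ : Equiv.Perm (Fin 3)) (s : Fin 3 → ℝ) (i : Fin 3) :
    actf τ s (X (Sum.inr i)) = C (s i) * X (Sum.inr (τ i)) := by
  simp [actf]

theorem actf_C (τ : Equiv.Perm (Fin 3)) (s : Fin 3 → ℝ) (a : ℝ) :
    actf τ s (C a) = C a := by
  simp [actf, algebraMap_eq]

theorem pderiv_inl_actf (τ : Equiv.Perm (Fin 3)) (s : Fin 3 → ℝ) (i : Fin 3) (L : PQ) :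
    pderiv (Sum.inl (τ i)) (actf τ s L) = C (s i) * actf τ s (pderiv (Sum.inl i) L) := by
  induction L using MvPolynomial.induction_on with
  | C a => simp [actf_C]
  | add p q hp hq => simp only [map_add, hp, hq, mul_add]
  | mul_X p n hp =>
    rcases n with j | j
    · by_cases hij : i = j
      · subst hij
        simp only [map_mul, actf_inl, pderiv_mul, hp, pderiv_C, zero_mul, zero_add, pderiv_X_self, map_add,
          map_one]
        ring
      · have h1 : pderiv (Sum.inl i) (X (Sum.inl j) : PQ) = 0 :=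
          pderiv_X_of_ne (by simpa using fun h => hij h.symm)
        have h2 : pderiv (Sum.inl (τ i)) (X (Sum.inl (τ j)) : PQ) = 0 :=
          pderiv_X_of_ne (by simpa using fun h => hij h.symm)
        simp only [map_mul, actf_inl, pderiv_mul, hp, pderiv_C, zero_mul, zero_add, h1, h2, map_add, map_zero,
          mul_zero, add_zero]
        ring
    · have h1 : pderiv (Sum.inl i) (X (Sum.inr j) : PQ) = 0 := pderiv_X_of_ne (by simp)
      have h2 : pderiv (Sum.inl (τ i)) (X (Sum.inr (τ j)) : PQ) = 0 := pderiv_X_of_ne (by simp)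
      simp only [map_mul, actf_inr, pderiv_mul, hp, pderiv_C, zero_mul, zero_add, h1, h2, map_add, map_zero,
        mul_zero, add_zero]
      ring

theorem pderiv_inr_actf (τ : Equiv.Perm (Fin 3)) (s : Fin 3 → ℝ) (i : Fin 3) (L : PQ) :
    pderiv (Sum.inr (τ i)) (actf τ s L) = C (s i) * actf τ s (pderiv (Sum.inr i) L) := by
  induction L using MvPolynomial.induction_on with
  | C a => simp [actf_C]
  | add p q hp hq => simp only [map_add, hp, hq, mul_add]
  | mul_X p n hp =>
    rcases n with j | j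
    · have h1 : pderiv (Sum.inr i) (X (Sum.inl j) : PQ) = 0 := pderiv_X_of_ne (by simp)
      have h2 : pderiv (Sum.inr (τ i)) (X (Sum.inl (τ j)) : PQ) = 0 := pderiv_X_of_ne (by simp)
      simp only [map_mul, actf_inl, pderiv_mul, hp, pderiv_C, zero_mul, zero_add, h1, h2, map_add, map_zero,
        mul_zero, add_zero]
      ring
    · by_cases hij : i = j
      · subst hij
        simp only [map_mul, actf_inr, pderiv_mul, hp, pderiv_C, zero_mul, zero_add, pderiv_X_self, map_add,
          map_one]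
        ring
      · have h1 : pderiv (Sum.inr i) (X (Sum.inr j) : PQ) = 0 :=
          pderiv_X_of_ne (by simpa using fun h => hij h.symm)
        have h2 : pderiv (Sum.inr (τ i)) (X (Sum.inr (τ j)) : PQ) = 0 :=
          pderiv_X_of_ne (by simpa using fun h => hij h.symm)
        simp only [map_mul, actf_inr, pderiv_mul, hp, pderiv_C, zero_mul, zero_add, h1, h2, map_add, map_zero,
          mul_zero, add_zero]
        ring

section
variable (τ : Equiv.Perm (Fin 3)) (s : Fin 3 → ℝ) (hs : ∀ i, s i * s i = 1)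
include hs

theorem CC (i : Fin 3) (L : PQ) : C (s i) * (C (s i) * L) = L := by
  rw [← mul_assoc, ← C_mul, hs, C_1, one_mul]

theorem D0_actf (k : ℕ) (L : PQ) : D0 k (actf τ s L) = actf τ s (D0 k L) := by
  unfold D0
  rw [← Equiv.sum_comp τ]
  simp only [pderiv_inl_actf, pderiv_C_mul, CC s hs, map_sub, map_sum, map_mul, actf_C]

theorem D1_actf (k : ℕ) (L : PQ) : D1 k (actf τ s L) = actf τ s (D1 k L) := by
  unfold D1
  rw [← Equiv.sum_comp τ, ← Equiv.sum_comp τ (fun i => X (Sum.inl i) * pderiv (Sum.inr i) _)]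
  simp only [pderiv_inr_actf, pderiv_inl_actf, pderiv_C_mul, CC s hs, map_sub, map_sum, map_mul,
    actf_C, actf_inl]
  congr 2
  apply Finset.sum_congr rfl
  intro i _
  ring

theorem D2_actf (L : PQ) : D2 (actf τ s L) = actf τ s (D2 L) := by
  have e1 : ∑ j, pderiv (Sum.inr j) (pderiv (Sum.inr j) (actf τ s L)) =
      actf τ s (∑ j, pderiv (Sum.inr j) (pderiv (Sum.inr j) L)) := by
    rw [← Equiv.sum_comp τ, map_sum]
    apply Finset.sum_congr rfl
    intro j _
    rw [pderiv_inr_actf, pderiv_C_mul, pderiv_inr_actf, CC s hs]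
  have e : ∑ j, ∑ l, X (Sum.inl j) * X (Sum.inl l) *
      pderiv (Sum.inr l) (pderiv (Sum.inr j) (actf τ s L)) =
      actf τ s (∑ j, ∑ l, X (Sum.inl j) * X (Sum.inl l) *
        pderiv (Sum.inr l) (pderiv (Sum.inr j) L)) := by
    rw [← Equiv.sum_comp τ, map_sum]
    apply Finset.sum_congr rfl
    intro j _
    rw [← Equiv.sum_comp τ, map_sum]
    apply Finset.sum_congr rfl
    intro l _
    rw [pderiv_inr_actf, pderiv_C_mul, pderiv_inr_actf, map_mul, map_mul, actf_inl, actf_inl]
    ring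
  unfold D2
  rw [e1, e, ← map_sub, map_mul, actf_C]

end

theorem val_actf (τ : Equiv.Perm (Fin 3)) (s : Fin 3 → ℝ) (L : PQ) (u p u' p' : E3)
    (hu : ∀ i, u' i = s i * u (τ i)) (hp : ∀ i, p' i = s i * p (τ i)) :
    val (actf τ s L) u p = val L u' p' := by
  unfold val
  induction L using MvPolynomial.induction_on with
  | C a => simp [actf_C]
  | add p q hp hq => simp only [map_add, hp, hq]
  | mul_X p n hp' =>
    rcases n with j | j
    · simp only [map_mul, actf_inl, hp', eval_C, eval_X, Sum.elim_inl, hu]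
    · simp only [map_mul, actf_inr, hp', eval_C, eval_X, Sum.elim_inr, hp]

theorem actf_hom (τ : Equiv.Perm (Fin 3)) (s : Fin 3 → ℝ) (m : Mo) :
    IsWeightedHomogeneous w (actf τ s (toPQ m)) (dg m) := by
  obtain ⟨c, ⟨a0, a1, a2⟩, ⟨b0, b1, b2⟩⟩ := m
  have hX : ∀ i, IsWeightedHomogeneous w (actf τ s (X (Sum.inl i))) 1 := fun i => by
    rw [actf_inl]
    have := (isWeightedHomogeneous_C w (s i)).mul (isWeightedHomogeneous_X ℝ w (Sum.inl (τ i)))
    simpa [w] using this
  have hY : ∀ i, IsWeightedHomogeneous w (actf τ s (X (Sum.inr i))) 0 := fun i => by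
    rw [actf_inr]
    have := (isWeightedHomogeneous_C w (s i)).mul (isWeightedHomogeneous_X ℝ w (Sum.inr (τ i)))
    simpa [w] using this
  have h1 := (((isWeightedHomogeneous_C w (c : ℝ)).mul
    ((((hX 0).pow a0).mul ((hX 1).pow a1)).mul ((hX 2).pow a2))).mul
    ((((hY 0).pow b0).mul ((hY 1).pow b1)).mul ((hY 2).pow b2)))
  have e : dg (c, (a0, a1, a2), (b0, b1, b2)) =
      0 + (a0 • 1 + a1 • 1 + a2 • 1) + (b0 • 0 + b1 • 0 + b2 • 0) := by
    simp [dg]
  rw [e]
  simpa only [toPQ, map_mul, map_pow, actf_C] using h1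

/-- group elements: a permutation and two signs -/
abbrev Ge := Fin 6 × Bool × Bool

/-- permutations of a triple -/
def pf {α : Type} (k : Fin 6) (v : α × α × α) : α × α × α :=
  match k with
  | 0 => (v.1, v.2.1, v.2.2)
  | 1 => (v.2.1, v.1, v.2.2)
  | 2 => (v.1, v.2.2, v.2.1)
  | 3 => (v.2.2, v.2.1, v.1)
  | 4 => (v.2.1, v.2.2, v.1)
  | 5 => (v.2.2, v.1, v.2.1)

/-- the inverse permutations -/
def qf {α : Type} (k : Fin 6) (v : α × α × α) : α × α × α :=
  match k with
  | 0 => (v.1, v.2.1, v.2.2)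
  | 1 => (v.2.1, v.1, v.2.2)
  | 2 => (v.1, v.2.2, v.2.1)
  | 3 => (v.2.2, v.2.1, v.1)
  | 4 => (v.2.2, v.1, v.2.1)
  | 5 => (v.2.1, v.2.2, v.1)

/-- the sign -/
def sg (a : Bool) : ℝ := if a then -1 else 1

/-- the action on vectors -/
def tr (g : Ge) (v : V3) : V3 :=
  (sg g.2.1 * (pf g.1 v).1, sg g.2.2 * (pf g.1 v).2.1, sg (xor g.2.1 g.2.2) * (pf g.1 v).2.2)

/-- the sign of a power -/
def sp (a : Bool) (n : ℕ) : ℤ := if a && (n % 2 == 1) then -1 else 1

theorem sp_cast (a : Bool) (n : ℕ) : ((sp a n : ℤ) : ℝ) = sg a ^ n := by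
  unfold sp sg
  cases a
  · simp
  · rcases Nat.even_or_odd n with h | h
    · have : n % 2 = 0 := Nat.even_iff.1 h
      simp [this, h.neg_one_pow]
    · have : n % 2 = 1 := Nat.odd_iff.1 h
      simp [this, h.neg_one_pow]

/-- the action on monomials -/
def am (g : Ge) (m : Mo) : Mo :=
  (m.1 * (sp g.2.1 (m.2.1.1 + m.2.2.1) * sp g.2.2 (m.2.1.2.1 + m.2.2.2.1) *
    sp (xor g.2.1 g.2.2) (m.2.1.2.2 + m.2.2.2.2)), qf g.1 m.2.1, qf g.1 m.2.2)

theorem vm_am (g : Ge) (m : Mo) (u p : V3) : vm (am g m) u p = vm m (tr g u) (tr g p) := by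
  obtain ⟨k, a, b⟩ := g
  obtain ⟨c, ⟨a0, a1, a2⟩, ⟨b0, b1, b2⟩⟩ := m
  obtain ⟨u0, u1, u2⟩ := u
  obtain ⟨p0, p1, p2⟩ := p
  simp only [vm, am, tr]
  push_cast
  rw [sp_cast, sp_cast, sp_cast]
  simp only [mul_pow, pow_add]
  fin_cases k <;> simp only [pf, qf] <;> ring

theorem vl_map_am (g : Ge) (l : List Mo) (u p : V3) :
    vl (l.map (am g)) u p = vl l (tr g u) (tr g p) := by
  induction l with
  | nil => rfl
  | cons m l ih => rw [List.map_cons, vl_cons, vl_cons, vm_am, ih]

/-- the group -/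
def G24 : List Ge := [(0, false, false), (0, true, false), (0, false, true), (0, true, true),
  (1, false, false), (1, true, false), (1, false, true), (1, true, true),
  (2, false, false), (2, true, false), (2, false, true), (2, true, true),
  (3, false, false), (3, true, false), (3, false, true), (3, true, true),
  (4, false, false), (4, true, false), (4, false, true), (4, true, true),
  (5, false, false), (5, true, false), (5, false, true), (5, true, true)]

/-- composition with the swap of the first two coordinates -/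
def c01 (g : Ge) : Ge :=
  (match g.1 with
    | 0 => 1
    | 1 => 0
    | 2 => 4
    | 3 => 5
    | 4 => 2
    | 5 => 3, g.2.1, g.2.2)

/-- composition with the swap of the last two coordinates -/
def c12 (g : Ge) : Ge :=
  (match g.1 with
    | 0 => 2
    | 1 => 5
    | 2 => 0
    | 3 => 4
    | 4 => 3
    | 5 => 1, g.2.1, g.2.2)

/-- composition with the change of the first two signs -/
def cfl (g : Ge) : Ge :=
  (g.1, xor g.2.1 (pf g.1 (true, true, false)).1, xor g.2.2 (pf g.1 (true, true, false)).2.1)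

theorem tr_c01 (g : Ge) (v : V3) : tr (c01 g) v = tr g (v.2.1, v.1, v.2.2) := by
  obtain ⟨k, a, b⟩ := g
  obtain ⟨x, y, z⟩ := v
  fin_cases k <;> rfl

theorem tr_c12 (g : Ge) (v : V3) : tr (c12 g) v = tr g (v.1, v.2.2, v.2.1) := by
  obtain ⟨k, a, b⟩ := g
  obtain ⟨x, y, z⟩ := v
  fin_cases k <;> rfl

theorem tr_cfl (g : Ge) (v : V3) : tr (cfl g) v = tr g (-v.1, -v.2.1, v.2.2) := by
  obtain ⟨k, a, b⟩ := g
  obtain ⟨x, y, z⟩ := v
  fin_cases k <;> cases a <;> cases b <;> simp [tr, cfl, pf, sg]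

theorem perm01 : (G24.map c01).Perm G24 := by decide
theorem perm12 : (G24.map c12).Perm G24 := by decide
theorem permfl : (G24.map cfl).Perm G24 := by decide

/-- the sum over the group -/
def es (F : V3 → V3 → ℝ) (u p : V3) : ℝ := (G24.map fun g => F (tr g u) (tr g p)).sum

theorem es_01 (F : V3 → V3 → ℝ) (u p : V3) :
    es F (u.2.1, u.1, u.2.2) (p.2.1, p.1, p.2.2) = es F u p := by
  unfold es
  simp only [← tr_c01]
  have h := (perm01.map fun g => F (tr g u) (tr g p)).sum_eq
  rw [List.map_map] at h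
  exact h

theorem es_12 (F : V3 → V3 → ℝ) (u p : V3) :
    es F (u.1, u.2.2, u.2.1) (p.1, p.2.2, p.2.1) = es F u p := by
  unfold es
  simp only [← tr_c12]
  have h := (perm12.map fun g => F (tr g u) (tr g p)).sum_eq
  rw [List.map_map] at h
  exact h

theorem es_fl (F : V3 → V3 → ℝ) (u p : V3) :
    es F (-u.1, -u.2.1, u.2.2) (-p.1, -p.2.1, p.2.2) = es F u p := by
  unfold es
  simp only [← tr_cfl]
  have h := (permfl.map fun g => F (tr g u) (tr g p)).sum_eq
  rw [List.map_map] at h
  exact h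

end Helper80.CW.DL
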