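import Pool.Agent.Helper80.CW.DS

/-!
# Volume from four integer polynomials on the chamber `u0 ≥ u1 ≥ u2 ≥ 0`
-/

set_option linter.all false

namespace Helper80.CW.DL

open Set Metric MeasureTheory Helper82.CW MvPolynomial Helper80.CW Helper37.FX
open scoped ContDiff Topology RealInnerProductSpace

/-- parity of the degree in `u`, up to zero coefficient -/
def Pr (b : ℕ) (m : Mo) : Prop := m.1 = 0 ∨ dg m % 2 = b % 2

/-- the opposite vector -/
def ng (v : V3) : V3 := (-v.1, -v.2.1, -v.2.2)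

theorem Pr.vm {b : ℕ} {m : Mo} (h : Pr b m) (u p : V3) :
    vm m (ng u) p = (-1) ^ b * vm m u p := by
  obtain ⟨c, ⟨a0, a1, a2⟩, ⟨b0, b1, b2⟩⟩ := m
  rcases h with h | h
  · simp only at h
    subst h
    simp [DL.vm]
  · have e : ((-1 : ℝ)) ^ b = (-1) ^ (a0 + a1 + a2) := by
      rw [neg_one_pow_eq_pow_mod_two, neg_one_pow_eq_pow_mod_two (n := a0 + a1 + a2)]
      congr 1
      exact h.symm
    rw [e]
    simp only [DL.vm, ng]
    rw [neg_pow u.1, neg_pow u.2.1, neg_pow u.2.2]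
    ring

theorem Pr.du {b : ℕ} {m : Mo} (h : Pr b m) (i : Fin 3) : Pr (b + 1) (du i m) := by
  obtain ⟨c, ⟨a0, a1, a2⟩, ⟨b0, b1, b2⟩⟩ := m
  unfold Pr at *
  fin_cases i
  · simp only [DL.du, dg] at *
    rcases h with h | h
    · left; simp [h]
    · rcases a0 with _ | a0
      · left; simp
      · right; simp only [Nat.add_sub_cancel] at *; omega
  · simp only [DL.du, dg] at *
    rcases h with h | h
    · left; simp [h]
    · rcases a1 with _ | a1
      · left; simp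
      · right; simp only [Nat.add_sub_cancel] at *; omega
  · simp only [DL.du, dg] at *
    rcases h with h | h
    · left; simp [h]
    · rcases a2 with _ | a2
      · left; simp
      · right; simp only [Nat.add_sub_cancel] at *; omega

theorem Pr.dp {b : ℕ} {m : Mo} (h : Pr b m) (i : Fin 3) : Pr b (dp i m) := by
  obtain ⟨c, ⟨a0, a1, a2⟩, ⟨b0, b1, b2⟩⟩ := m
  unfold Pr at *
  fin_cases i <;>
  · simp only [DL.dp, dg] at *
    rcases h with h | h
    · left; simp [h]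
    · right; exact h

theorem Pr.mu {b : ℕ} {m : Mo} (h : Pr b m) (i : Fin 3) : Pr (b + 1) (mu i m) := by
  obtain ⟨c, ⟨a0, a1, a2⟩, ⟨b0, b1, b2⟩⟩ := m
  unfold Pr at *
  fin_cases i <;>
  · simp only [DL.mu, dg] at *
    rcases h with h | h
    · left; exact h
    · right; omega

theorem Pr.sc {b : ℕ} {m : Mo} (h : Pr b m) (c : ℤ) : Pr b (sc c m) := by
  unfold Pr at *
  rcases h with h | h
  · left; simp [DL.sc, h]
  · right; exact h

theorem Pr.add2 {b : ℕ} {m : Mo} (h : Pr (b + 1 + 1) m) : Pr b m := by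
  unfold Pr at *
  rcases h with h | h
  · left; exact h
  · right; omega

theorem vl_par {l : List Mo} {b : ℕ} (h : ∀ m ∈ l, Pr b m) (u p : V3) :
    vl l (ng u) p = (-1) ^ b * vl l u p := by
  induction l with
  | nil => simp [vl]
  | cons m l ih =>
    rw [vl_cons, vl_cons, (h m (by simp)).vm, ih (fun m hm => h m (by simp [hm]))]
    ring

theorem d0_par {m : Mo} (h : Pr 0 m) : ∀ n ∈ d0 m, Pr 0 n := by
  intro n hn
  simp only [d0, List.mem_cons, List.not_mem_nil, or_false] at hn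
  rcases hn with rfl | rfl | rfl | rfl
  · exact ((h.du 0).du 0).add2
  · exact ((h.du 1).du 1).add2
  · exact ((h.du 2).du 2).add2
  · exact h.sc _

theorem d1_par {m : Mo} (h : Pr 0 m) : ∀ n ∈ d1 m, Pr 1 n := by
  intro n hn
  simp only [d1, List.mem_cons, List.not_mem_nil, or_false] at hn
  rcases hn with rfl | rfl | rfl | rfl | rfl | rfl
  · exact (h.dp 0).du 0
  · exact (h.dp 1).du 1
  · exact (h.dp 2).du 2
  · exact ((h.dp 0).mu 0).sc _
  · exact ((h.dp 1).mu 1).sc _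
  · exact ((h.dp 2).mu 2).sc _

theorem d2_par {m : Mo} (h : Pr 0 m) : ∀ n ∈ d2 m, Pr 0 n := by
  intro n hn
  simp only [d2, List.mem_cons, List.not_mem_nil, or_false] at hn
  rcases hn with rfl | rfl | rfl | rfl | rfl | rfl | rfl | rfl | rfl
  · exact (h.dp 0).dp 0
  · exact (h.dp 1).dp 1
  · exact (h.dp 2).dp 2
  · exact (((((h.dp 0).dp 0).mu 0).mu 0).sc _).add2
  · exact (((((h.dp 1).dp 1).mu 1).mu 1).sc _).add2
  · exact (((((h.dp 2).dp 2).mu 2).mu 2).sc _).add2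
  · exact (((((h.dp 0).dp 1).mu 1).mu 0).sc _).add2
  · exact (((((h.dp 0).dp 2).mu 2).mu 0).sc _).add2
  · exact (((((h.dp 1).dp 2).mu 2).mu 1).sc _).add2

/-- the orbit list -/
def orb (l : List Mo) : List Mo := G24.flatMap fun g => l.map (am g)

theorem vl_orb (l : List Mo) (u p : V3) : vl (orb l) u p = es (vl l) u p := by
  unfold orb es
  induction G24 with
  | nil => rfl
  | cons g G ih => rw [List.flatMap_cons, vl_append, vl_map_am, ih, List.map_cons, List.sum_cons]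

theorem tr_ng (g : Ge) (v : V3) : tr g (ng v) = ng (tr g v) := by
  obtain ⟨k, a, b⟩ := g
  obtain ⟨x, y, z⟩ := v
  fin_cases k <;> simp [tr, ng, pf]

theorem orb_par {l : List Mo} {b : ℕ} (h : ∀ m ∈ l, Pr b m) (u p : V3) :
    es (vl l) (ng u) (p) = (-1) ^ b * es (vl l) u p := by
  unfold es
  simp only [tr_ng, vl_par h]
  rw [List.sum_map_mul_left]

def L0 (sd : List Mo) : List Mo := orb (sd.flatMap d0)
def L1 (sd : List Mo) : List Mo := orb (sd.flatMap d1)
def L2 (sd : List Mo) : List Mo := orb (sd.flatMap d2)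

/-- constant -/
def cst (c : ℤ) : Mo := (c, (0, 0, 0), (0, 0, 0))

/-- the four integer polynomials -/
def Qz (sd : List Mo) (N M : ℤ) : List Mo := cst (M - N) :: ((L0 sd).map (sc (-4)) ++ L2 sd)
def Qk (sd : List Mo) (N : ℤ) : List Mo := cst N :: (L2 sd).map (sc (-1))
def Qp (sd : List Mo) (N M : ℤ) : List Mo :=
  cst (M + N) :: ((L0 sd).map (sc (-4)) ++ ((L1 sd).map (sc (-4)) ++ (L2 sd).map (sc (-1))))
def Qm (sd : List Mo) (N M : ℤ) : List Mo :=
  cst (M + N) :: ((L0 sd).map (sc (-4)) ++ ((L1 sd).map (sc 4) ++ (L2 sd).map (sc (-1))))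

theorem vm_cst (c : ℤ) (u p : V3) : vm (cst c) u p = c := by simp [vm, cst]

theorem vl_sc (c : ℤ) (l : List Mo) (u p : V3) : vl (l.map (sc c)) u p = c * vl l u p := by
  induction l with
  | nil => simp [vl]
  | cons m l ih =>
    rw [List.map_cons, vl_cons, vl_cons, ih]
    have : vm (sc c m) u p = c * vm m u p := by
      simp [vm, sc]
      ring
    rw [this]
    ring

/-- the values of the symmetrised lists -/
noncomputable def f0 (sd : List Mo) (u p : V3) : ℝ := es (vl (sd.flatMap d0)) u p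
noncomputable def f1 (sd : List Mo) (u p : V3) : ℝ := es (vl (sd.flatMap d1)) u p
noncomputable def f2 (sd : List Mo) (u p : V3) : ℝ := es (vl (sd.flatMap d2)) u p

theorem vl_Qz (sd : List Mo) (N M : ℤ) (u p : V3) :
    vl (Qz sd N M) u p = M - N - 4 * f0 sd u p + f2 sd u p := by
  unfold Qz L0 L2 f0 f2
  rw [vl_cons, vm_cst, vl_append, vl_sc, vl_orb, vl_orb]
  push_cast
  ring

theorem vl_Qk (sd : List Mo) (N : ℤ) (u p : V3) :
    vl (Qk sd N) u p = N - f2 sd u p := by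
  unfold Qk L2 f2
  rw [vl_cons, vm_cst, vl_sc, vl_orb]
  push_cast
  ring

theorem vl_Qp (sd : List Mo) (N M : ℤ) (u p : V3) :
    vl (Qp sd N M) u p = M + N - 4 * f0 sd u p - 4 * f1 sd u p - f2 sd u p := by
  unfold Qp L0 L1 L2 f0 f1 f2
  rw [vl_cons, vm_cst, vl_append, vl_append, vl_sc, vl_sc, vl_sc, vl_orb, vl_orb, vl_orb]
  push_cast
  ring

theorem vl_Qm (sd : List Mo) (N M : ℤ) (u p : V3) :
    vl (Qm sd N M) u p = M + N - 4 * f0 sd u p + 4 * f1 sd u p - f2 sd u p := by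
  unfold Qm L0 L1 L2 f0 f1 f2
  rw [vl_cons, vm_cst, vl_append, vl_append, vl_sc, vl_sc, vl_sc, vl_orb, vl_orb, vl_orb]
  push_cast
  ring

/-- all four are nonnegative -/
def Good (sd : List Mo) (N M : ℤ) (u p : V3) : Prop :=
  0 ≤ vl (Qz sd N M) u p ∧ 0 ≤ vl (Qk sd N) u p ∧ 0 ≤ vl (Qp sd N M) u p ∧
    0 ≤ vl (Qm sd N M) u p

section
variable {sd : List Mo} {N M : ℤ}

theorem Good.s01 {u p : V3} (h : Good sd N M (u.2.1, u.1, u.2.2) (p.2.1, p.1, p.2.2)) :
    Good sd N M u p := by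
  unfold Good at *
  simp only [vl_Qz, vl_Qk, vl_Qp, vl_Qm, f0, f1, f2] at *
  rw [es_01, es_01, es_01] at h
  exact h

theorem Good.s12 {u p : V3} (h : Good sd N M (u.1, u.2.2, u.2.1) (p.1, p.2.2, p.2.1)) :
    Good sd N M u p := by
  unfold Good at *
  simp only [vl_Qz, vl_Qk, vl_Qp, vl_Qm, f0, f1, f2] at *
  rw [es_12, es_12, es_12] at h
  exact h

theorem Good.fl {u p : V3} (h : Good sd N M (-u.1, -u.2.1, u.2.2) (-p.1, -p.2.1, p.2.2)) :
    Good sd N M u p := by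
  unfold Good at *
  simp only [vl_Qz, vl_Qk, vl_Qp, vl_Qm, f0, f1, f2] at *
  rw [es_fl, es_fl, es_fl] at h
  exact h

theorem Good.ng (hev : ∀ m ∈ sd, dg m % 2 = 0) {u p : V3} (h : Good sd N M (ng u) p) :
    Good sd N M u p := by
  have h0 : ∀ m ∈ sd.flatMap d0, Pr 0 m := by
    intro m hm
    obtain ⟨n, hn, hm⟩ := List.mem_flatMap.1 hm
    exact d0_par (Or.inr (by simpa using hev n hn)) m hm
  have h1 : ∀ m ∈ sd.flatMap d1, Pr 1 m := by
    intro m hm
    obtain ⟨n, hn, hm⟩ := List.mem_flatMap.1 hm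
    exact d1_par (Or.inr (by simpa using hev n hn)) m hm
  have h2 : ∀ m ∈ sd.flatMap d2, Pr 0 m := by
    intro m hm
    obtain ⟨n, hn, hm⟩ := List.mem_flatMap.1 hm
    exact d2_par (Or.inr (by simpa using hev n hn)) m hm
  unfold Good at *
  simp only [vl_Qz, vl_Qk, vl_Qp, vl_Qm, f0, f1, f2] at *
  rw [orb_par h0, orb_par h1, orb_par h2] at h
  obtain ⟨a, b, c, d⟩ := h
  refine ⟨by linarith, by linarith, by linarith, by linarith⟩

/-- **reduction to the chamber** -/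
theorem good_all (hev : ∀ m ∈ sd, dg m % 2 = 0) {Dom : V3 → V3 → Prop}
    (d01 : ∀ u p, Dom u p → Dom (u.2.1, u.1, u.2.2) (p.2.1, p.1, p.2.2))
    (d12 : ∀ u p, Dom u p → Dom (u.1, u.2.2, u.2.1) (p.1, p.2.2, p.2.1))
    (dfl : ∀ u p, Dom u p → Dom (-u.1, -u.2.1, u.2.2) (-p.1, -p.2.1, p.2.2))
    (dng : ∀ u p, Dom u p → Dom (ng u) p)
    (H : ∀ u p : V3, u.1 ^ 2 + u.2.1 ^ 2 + u.2.2 ^ 2 = 1 → 0 ≤ u.2.2 → u.2.2 ≤ u.2.1 →
      u.2.1 ≤ u.1 → Dom u p → Good sd N M u p) (u p : V3)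
    (hu : u.1 ^ 2 + u.2.1 ^ 2 + u.2.2 ^ 2 = 1) (hD : Dom u p) : Good sd N M u p := by
  set P : V3 → V3 → Prop := fun u p => u.1 ^ 2 + u.2.1 ^ 2 + u.2.2 ^ 2 = 1 → Dom u p →
    Good sd N M u p with hP
  have e01 : ∀ x y z a b c : ℝ, P (y, x, z) (b, a, c) → P (x, y, z) (a, b, c) := by
    intro x y z a b c h h1 h2
    exact Good.s01 (h (by simp only at h1 ⊢; linarith) (d01 _ _ h2))
  have e12 : ∀ x y z a b c : ℝ, P (x, z, y) (a, c, b) → P (x, y, z) (a, b, c) := by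
    intro x y z a b c h h1 h2
    exact Good.s12 (h (by simp only at h1 ⊢; linarith) (d12 _ _ h2))
  have efl : ∀ x y z a b c : ℝ, P (-x, -y, z) (-a, -b, c) → P (x, y, z) (a, b, c) := by
    intro x y z a b c h h1 h2
    exact Good.fl (h (by simp only at h1 ⊢; linarith) (dfl _ _ h2))
  have eng : ∀ x y z a b c : ℝ, P (-x, -y, -z) (a, b, c) → P (x, y, z) (a, b, c) := by
    intro x y z a b c h h1 h2
    exact Good.ng hev (h (by simp only at h1 ⊢; linarith) (dng _ _ h2))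
  have H' : ∀ x y z a b c : ℝ, 0 ≤ z → z ≤ y → y ≤ x → P (x, y, z) (a, b, c) := by
    intro x y z a b c h1 h2 h3 h4 h5
    exact H _ _ h4 h1 h2 h3 h5
  have S2 : ∀ x y z a b c : ℝ, 0 ≤ x → 0 ≤ y → 0 ≤ z → P (x, y, z) (a, b, c) := by
    intro x y z a b c hx hy hz
    rcases le_total x y with h1 | h1
    · rcases le_total x z with h2 | h2
      · rcases le_total y z with h3 | h3
        · exact e01 _ _ _ _ _ _ (e12 _ _ _ _ _ _ (e01 _ _ _ _ _ _ (H' _ _ _ _ _ _ hx h1 h3)))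
        · exact e01 _ _ _ _ _ _ (e12 _ _ _ _ _ _ (H' _ _ _ _ _ _ hx h2 h3))
      · exact e01 _ _ _ _ _ _ (H' _ _ _ _ _ _ hz h2 h1)
    · rcases le_total y z with h2 | h2
      · rcases le_total x z with h3 | h3
        · exact e12 _ _ _ _ _ _ (e01 _ _ _ _ _ _ (H' _ _ _ _ _ _ hy h1 h3))
        · exact e12 _ _ _ _ _ _ (H' _ _ _ _ _ _ hy h2 h3)
      · exact H' _ _ _ _ _ _ hz h2 h1
  have S3 : ∀ x y z a b c : ℝ, P (x, y, z) (a, b, c) := by
    intro x y z a b c
    rcases le_total 0 x with hx | hx <;> rcases le_total 0 y with hy | hy <;>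
      rcases le_total 0 z with hz | hz
    · exact S2 _ _ _ _ _ _ hx hy hz
    · exact eng _ _ _ _ _ _ (efl _ _ _ _ _ _ (S2 _ _ _ _ _ _ (by linarith) (by linarith)
        (by linarith)))
    · exact eng _ _ _ _ _ _ (e12 _ _ _ _ _ _ (efl _ _ _ _ _ _ (S2 _ _ _ _ _ _ (by linarith)
        (by linarith) (by linarith))))
    · exact e01 _ _ _ _ _ _ (e12 _ _ _ _ _ _ (efl _ _ _ _ _ _ (S2 _ _ _ _ _ _ (by linarith)
        (by linarith) (by linarith))))
    · exact eng _ _ _ _ _ _ (e01 _ _ _ _ _ _ (e12 _ _ _ _ _ _ (efl _ _ _ _ _ _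
        (S2 _ _ _ _ _ _ (by linarith) (by linarith) (by linarith)))))
    · exact e12 _ _ _ _ _ _ (efl _ _ _ _ _ _ (S2 _ _ _ _ _ _ (by linarith) (by linarith)
        (by linarith)))
    · exact efl _ _ _ _ _ _ (S2 _ _ _ _ _ _ (by linarith) (by linarith) (by linarith))
    · exact eng _ _ _ _ _ _ (S2 _ _ _ _ _ _ (by linarith) (by linarith) (by linarith))
  exact S3 u.1 u.2.1 u.2.2 p.1 p.2.1 p.2.2 hu hD

end

end Helper80.CW.DL
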