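import Pool.Agent.Helper80.CW.DR

/-!
# Volume from seeds with weights depending on the configuration
-/

set_option linter.all false

namespace Helper80.CW.DL

open Set Metric MeasureTheory Helper82.CW MvPolynomial Helper80.CW Helper37.FX
open scoped ContDiff Topology RealInnerProductSpace Real

/-- the weighted sum over the list -/
noncomputable def FW (fm : List (ℝ × Sd)) (f : E3 → ℝ) : E3 → ℝ := fun x =>
  (fm.map fun a => a.1 * FS a.2 f x).sum

theorem FW_sm {f : E3 → ℝ} (hs : Sm f) (fm : List (ℝ × Sd)) : Sm (FW fm f) := by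
  induction fm with
  | nil =>
    have : FW [] f = fun _ => 0 := by funext x; simp [FW]
    rw [this]; exact Sm.const 0
  | cons s S ih =>
    have : FW (s :: S) f = fun x => s.1 * FS s.2 f x + FW S f x := by funext x; simp [FW]
    rw [this]; exact ((Sm.const _).mul (FS_sm hs s.2)).add ih

theorem SI_FW {f : E3 → ℝ} (hs : Sm f) (hk : Hom 1 f) (fm : List (ℝ × Sd)) : SI (FW fm f) = 0 := by
  induction fm with
  | nil =>
    have : FW [] f = fun _ => 0 := by funext x; simp [FW]
    rw [this]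
    simp [SI]
  | cons s S ih =>
    have : FW (s :: S) f = fun x => s.1 * FS s.2 f x + FW S f x := by funext x; simp [FW]
    rw [this, SI_add ((Sm.const _).mul (FS_sm hs s.2)) (FW_sm hs S), SI_const_mul,
      SI_FS hs hk, ih, mul_zero, add_zero]

/-- weighted sum of a functional -/
def wS (fm : List (ℝ × Sd)) (L : Sd → ℝ) : ℝ := (fm.map fun a => a.1 * L a.2).sum

theorem FW_eq (fm : List (ℝ × Sd)) (f : E3 → ℝ) (x : E3) :
    FW fm f x = wS fm (fun s => vl (g0 s) (v3 x) (v3 (gr f x))) +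
      lap f x * wS fm (fun s => vl (g1 s) (v3 x) (v3 (gr f x))) +
      (lap f x ^ 2 - hs2 f x) * (wS fm (fun s => vl (g2 s) (v3 x) (v3 (gr f x))) / 2) +
      ∑ j, ∑ l, pd j (pd l f) x * wS fm (fun s => vl (gN j l s) (v3 x) (v3 (gr f x))) := by
  induction fm with
  | nil => simp [FW, wS]
  | cons s S ih =>
    have : FW (s :: S) f x = s.1 * FS s.2 f x + FW S f x := by simp [FW]
    have e : ∀ L : Sd → ℝ, wS (s :: S) L = s.1 * L s.2 + wS S L := fun L => by simp [wS]
    rw [this, ih, FS_eq]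
    simp only [e, mul_add, Finset.sum_add_distrib]
    have h1 : ∑ j, ∑ l, pd j (pd l f) x * (s.1 * vl (gN j l s.2) (v3 x) (v3 (gr f x))) =
        s.1 * ∑ j, ∑ l, pd j (pd l f) x * vl (gN j l s.2) (v3 x) (v3 (gr f x)) := by
      rw [Finset.mul_sum]
      refine Finset.sum_congr rfl fun i _ => ?_
      rw [Finset.mul_sum]
      exact Finset.sum_congr rfl fun j _ => by ring
    rw [h1]
    ring

/-- **volume from a weighted list of seeds** -/
theorem volW {f : E3 → ℝ} (h : SSup f 1) (fm : List (ℝ × Sd)) {V : ℝ}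
    (H : ∀ u p : E3, ‖u‖ = 1 → p + (1 / 2 : ℝ) • u ∈ Bd f → p - (1 / 2 : ℝ) • u ∈ Bd f →
      CertX (fun i => u i) (wS fm (fun s => vl (g0 s) (v3 u) (v3 p)))
        (wS fm (fun s => vl (g1 s) (v3 u) (v3 p))) (wS fm (fun s => vl (g2 s) (v3 u) (v3 p)) / 2)
        (fun j l => wS fm (fun s => vl (gN j l s) (v3 u) (v3 p))) V) :
    ENNReal.ofReal (π / 6 - 2 * π * V) ≤ volume (Bd f) := by
  set g := oddpart f 1 with hg
  have gs : Sm g := h.oddpart_sm
  have gh : Hom 1 g := h.oddpart_hom
  have key : SI (fun x => (-(1 / 2)) * (lap g x ^ 2 - hs2 g x) + FW fm g x) ≤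
      SI (fun _ => V) := by
    apply SI_mono
    · exact ((Sm.const _).mul ((gs.lap.pow 2).sub gs.hs2)).add (FW_sm gs fm)
    · exact Sm.const _
    · intro x hx
      have hx0 : x ≠ 0 := by
        rintro rfl
        simp at hx
      have e1 : gr g x + (1 / 2 : ℝ) • x = gr f x := by
        ext i
        simp only [PiLp.add_apply, PiLp.smul_apply, gr_apply, smul_eq_mul]
        rw [hg, DL.oddpart_pd h i hx]
        ring
      have e2 : gr g x - (1 / 2 : ℝ) • x = gr f x - x := by
        rw [← e1]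
        module
      have hc := H x (gr g x) hx (by rw [e1]; exact gr_mem h hx0) (by rw [e2]; exact opp_mem h hx)
      have hu : ∑ i, x i ^ 2 = 1 := by
        have := sum_sq_one hx
        simpa [Fin.sum_univ_three] using this
      have sy : ∀ i j, pd i (pd j g) x = pd j (pd i g) x := fun i j => pd_comm gs i j hx0
      have h0 : ∀ i, ∑ j, x j * pd j (pd i g) x = 0 := by
        intro i
        have := Helper80.CW.euler (gh.pd gs i) (gs.pd i) hx0
        simpa using this
      have pt := hc.point hu (H := fun i j => pd i (pd j g) x) sy h0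
        (fun v hv hxv => hess_odd h hx v hv hxv)
      have l1 : ∑ i, pd i (pd i g) x = lap g x := rfl
      have l2 : ∑ i, ∑ j, pd i (pd j g) x ^ 2 = hs2 g x := by
        unfold hs2
        exact Finset.sum_congr rfl fun i _ => Finset.sum_congr rfl fun j _ => by rw [sy]
      rw [l1, l2] at pt
      rw [FW_eq]
      refine le_trans (le_of_eq ?_) pt
      ring
  rw [SI_const, SI_add ((Sm.const _).mul ((gs.lap.pow 2).sub gs.hs2))
    (FW_sm gs fm), SI_const_mul, SI_FW gs gh, add_zero] at key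
  apply volume_ge h
  rw [vol_id h, ← hg]
  linarith

/-- list of states -/
def Sts : List St := [(0, false), (0, true), (1, false), (1, true), (2, false), (2, true)]

theorem sum_Sts (F : St → ℝ) : ∑ a, F a = (Sts.map F).sum := by
  simp only [Fintype.sum_prod_type, Fin.sum_univ_three, Fintype.sum_bool, Sts, List.map_cons,
    List.map_nil, List.sum_cons, List.sum_nil]
  ring

/-- the weighted list of the family -/
noncomputable def fmF (S0 S1 : List Sd) (N : ℝ) (t : St → ℝ) : List (ℝ × Sd) :=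
  ((orbS S0).map fun s => (1 / N, s)) ++
    Sts.flatMap fun a => (orbSa a S1).map fun s => (t a / N, s)

theorem wS_fmF (S0 S1 : List Sd) (N : ℝ) (t : St → ℝ) (L : Sd → ℝ) :
    wS (fmF S0 S1 N t) L = AA S0 S1 t L / N := by
  have k : ∀ (c : ℝ) (l : List Sd), ((l.map fun s => (c, s)).map fun a : ℝ × Sd => a.1 * L a.2).sum =
      c * (l.map L).sum := by
    intro c l
    induction l with
    | nil => simp
    | cons s l ih => rw [List.map_cons, List.map_cons, List.sum_cons, ih, List.map_cons,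
        List.sum_cons]; ring
  unfold wS fmF AA
  rw [List.map_append, List.sum_append, k, sum_Sts]
  have e : ((Sts.flatMap fun a => (orbSa a S1).map fun s => (t a / N, s)).map
      fun a : ℝ × Sd => a.1 * L a.2).sum =
      (Sts.map fun a => t a * ((orbSa a S1).map L).sum).sum / N := by
    induction Sts with
    | nil => simp
    | cons a l ih =>
      rw [List.flatMap_cons, List.map_append, List.sum_append, k, ih, List.map_cons, List.sum_cons]
      ring
  rw [e]
  ring

theorem cv_v3 (u : E3) : (fun i => cv i (v3 u)) = fun i => u i := by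
  funext i
  fin_cases i <;> rfl

/-- **volume from the family, on the chamber** -/
theorem volF {f : E3 → ℝ} (h : SSup f 1) {x0 : E3} (hx0 : x0 ∈ Bd f) (B : E3 ≃ₗᵢ[ℝ] E3)
    {S0 S1 : List Sd} {N V : ℝ} (h0 : okS S0 = true) (h1 : okS S1 = true)
    {Dom : (St → ℝ) → V3 → V3 → Prop}
    (d01 : ∀ t u p, Dom t u p → Dom (fun a => t (x01 a)) (u.2.1, u.1, u.2.2) (p.2.1, p.1, p.2.2))
    (d12 : ∀ t u p, Dom t u p → Dom (fun a => t (x12 a)) (u.1, u.2.2, u.2.1) (p.1, p.2.2, p.2.1))
    (dfl : ∀ t u p, Dom t u p → Dom (fun a => t (xfl a)) (-u.1, -u.2.1, u.2.2)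
      (-p.1, -p.2.1, p.2.2))
    (dng : ∀ t u p, Dom t u p → Dom t (ng u) p) (t : St → ℝ)
    (hD : ∀ u p : E3, ‖u‖ = 1 → x0 + B (p + (1 / 2 : ℝ) • u) ∈ Bd f →
      x0 + B (p - (1 / 2 : ℝ) • u) ∈ Bd f → Dom t (v3 u) (v3 p))
    (H : ∀ t (u p : V3), u.1 ^ 2 + u.2.1 ^ 2 + u.2.2 ^ 2 = 1 → 0 ≤ u.2.2 → u.2.2 ≤ u.2.1 →
      u.2.1 ≤ u.1 → Dom t u p → GoodW S0 S1 N V t u p) :
    ENNReal.ofReal (π / 6 - 2 * π * V) ≤ volume (Bd f) := by
  rw [← vol_mv (f := f) (x0 := x0) B]
  apply volW (mv_ssup h hx0 B) (fmF S0 S1 N t)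
  intro u p hu hp1 hp2
  have hd := hD u p hu (mem_mv.1 hp1) (mem_mv.1 hp2)
  have hg := goodW_all h0 h1 d01 d12 dfl dng H t (v3 u) (v3 p)
    (by have := sum_sq_one hu; simpa [v3] using this) hd
  unfold GoodW NN at hg
  rw [cv_v3] at hg
  simp only [wS_fmF]
  have e : AA S0 S1 t (fun s => vl (g2 s) (v3 u) (v3 p)) / N / 2 =
      AA S0 S1 t (fun s => vl (g2 s) (v3 u) (v3 p)) / (2 * N) := by
    rw [div_div, mul_comm]
  rw [e]
  exact hg

end Helper80.CW.DL
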