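import Pool.Agent.Helper80.CW.DL
import Pool.Agent.Helper37.FX.Sigma

/-!
# Volume of a smooth body of constant width one from a pointwise certificate in `(u, p)`
-/

set_option linter.all false

namespace Helper80.CW.DL

open Set Metric MeasureTheory Helper82.CW MvPolynomial Helper80.CW Helper37.FX
open scoped ContDiff Topology RealInnerProductSpace Real

/-- the value at arbitrary `(u, p)` -/
noncomputable def val (L : PQ) (u p : E3) : ℝ := eval (Sum.elim (fun i => u i) (fun i => p i)) L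

theorem ev_val (L : PQ) (f : E3 → ℝ) (x : E3) : ev L f x = val L x (gr f x) := rfl

/-- the pointwise certificate -/
structure CertAt (e0 e1 e2 V : ℝ) : Prop where
  k : e2 ≤ 1 / 2
  z : 1 / 4 + e0 - e2 / 2 ≤ V
  p : -(1 / 4) + e0 + e1 + e2 / 2 ≤ V
  m : -(1 / 4) + e0 - e1 + e2 / 2 ≤ V

theorem CertAt.point {e0 e1 e2 V : ℝ} (hC : CertAt e0 e1 e2 V) {t D : ℝ} (ht : |t| ≤ 1)
    (hD : |t| - 1 / 2 ≤ D) : -(D / 2) + (e0 + t * e1 + D * e2) ≤ V := by
  have k := hC.k
  have e0' := hC.z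
  have ep := hC.p
  have em := hC.m
  have g := mul_le_mul_of_nonneg_right hD (sub_nonneg.2 k)
  rcases abs_cases t with ⟨h3, h4⟩ | ⟨h3, h4⟩
  · rw [h3] at ht hD g
    have g1 := mul_le_mul_of_nonneg_left ep h4
    have g2 := mul_le_mul_of_nonneg_left e0' (sub_nonneg.2 ht)
    nlinarith
  · rw [h3] at ht hD g
    have g1 := mul_le_mul_of_nonneg_left em (neg_nonneg.2 h4.le)
    have g2 := mul_le_mul_of_nonneg_left e0' (sub_nonneg.2 ht)
    nlinarith

section
variable {ι : Type*} [Fintype ι]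

/-- the sums over a family of multipliers -/
noncomputable def E0 (k : ι → ℕ) (L : ι → PQ) : PQ := ∑ a, D0 (k a) (L a)

noncomputable def E1 (k : ι → ℕ) (L : ι → PQ) : PQ := ∑ a, D1 (k a) (L a)

noncomputable def E2 (L : ι → PQ) : PQ := ∑ a, D2 (L a)

theorem SI_fin (F : ι → E3 → ℝ) (hF : ∀ p, Sm (F p)) :
    SI (fun x => ∑ p, F p x) = ∑ p, SI (F p) := by
  unfold SI
  exact integral_finsetSum Finset.univ (fun p _ => (hF p).integrable_sphere)

theorem sum_DI (k : ι → ℕ) (L : ι → PQ) (f : E3 → ℝ) (x : E3) :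
    ∑ a, DI (k a) (L a) f x = ev (E0 k L) f x + lap f x * ev (E1 k L) f x +
      (lap f x ^ 2 - hs2 f x) * ev (E2 L) f x := by
  unfold DI E0 E1 E2
  simp only [ev_sum, Finset.sum_add_distrib, Finset.mul_sum]

theorem oddpart_pd {f : E3 → ℝ} {c : ℝ} (h : SSup f c) (i : Fin 3) {x : E3} (hx : ‖x‖ = 1) :
    pd i (oddpart f c) x = pd i f x - c / 2 * x i := by
  have hx0 : x ≠ 0 := by
    rintro rfl
    simp at hx
  unfold oddpart
  rw [pd_sub h.sm ((Sm.const _).mul Sm.norm) i hx0, pd_const_mul _ Sm.norm i hx0, pd_norm i hx0, hx]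
  ring

/-- **volume from a pointwise certificate**, smooth body of constant width one -/
theorem vol_top {f : E3 → ℝ} (h : SSup f 1) (k : ι → ℕ) (L : ι → PQ)
    (hL : ∀ a, IsWeightedHomogeneous w (L a) (k a)) {V : ℝ}
    (H : ∀ u p : E3, ‖u‖ = 1 → p + (1 / 2 : ℝ) • u ∈ Bd f → p - (1 / 2 : ℝ) • u ∈ Bd f →
      CertAt (val (E0 k L) u p) (val (E1 k L) u p) (val (E2 L) u p) V) :
    ENNReal.ofReal (π / 6 - 2 * π * V) ≤ volume (Bd f) := by
  set g := oddpart f 1 with hg
  have gs : Sm g := h.oddpart_sm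
  have gh : Hom 1 g := h.oddpart_hom
  have key : SI (fun x => (-(1 / 2)) * (lap g x ^ 2 - hs2 g x) +
      ∑ a, DI (k a) (L a) g x) ≤ SI (fun _ => V) := by
    apply SI_mono
    · exact ((Sm.const _).mul ((gs.lap.pow 2).sub gs.hs2)).add
        (Sm.sum (fun p _ => DI_sm gs _ _))
    · exact Sm.const _
    · intro x hx
      have hx0 : x ≠ 0 := by
        rintro rfl
        simp at hx
      obtain ⟨b1, b2⟩ := hess_bounds h hx
      rw [← hg] at b1 b2
      have e1 : gr g x + (1 / 2 : ℝ) • x = gr f x := by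
        ext i
        simp only [PiLp.add_apply, PiLp.smul_apply, gr_apply, smul_eq_mul]
        rw [hg, oddpart_pd h i hx]
        ring
      have e2 : gr g x - (1 / 2 : ℝ) • x = gr f x - x := by
        rw [← e1]
        module
      have hc := H x (gr g x) hx (by rw [e1]; exact gr_mem h hx0) (by rw [e2]; exact opp_mem h hx)
      have := hc.point (t := lap g x) (D := lap g x ^ 2 - hs2 g x) b1 (by linarith)
      rw [sum_DI, ev_val, ev_val, ev_val]
      linarith
  rw [SI_const, SI_add ((Sm.const _).mul ((gs.lap.pow 2).sub gs.hs2))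
    (Sm.sum (fun p _ => DI_sm gs _ _)), SI_fin _ (fun a => DI_sm gs _ _), SI_const_mul] at key
  simp only [SI_DI gs gh (hL _), Finset.sum_const_zero, add_zero] at key
  apply volume_ge h
  rw [vol_id h, ← hg]
  linarith

/-- the body seen from `x0` in the frame `B` -/
noncomputable def mv (f : E3 → ℝ) (x0 : E3) (B : E3 ≃ₗᵢ[ℝ] E3) : E3 → ℝ :=
  fun x => f (B x) - ⟪x0, B x⟫

theorem mv_ssup {f : E3 → ℝ} (h : SSup f 1) {x0 : E3} (hx0 : x0 ∈ Bd f) (B : E3 ≃ₗᵢ[ℝ] E3) :
    SSup (mv f x0 B) 1 where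
  sm := by
    intro x hx
    have hB : B x ≠ 0 := by
      intro h0
      apply hx
      have := congrArg B.symm h0
      simpa using this
    have h1 : ContDiffAt ℝ ∞ (fun x => f (B x)) x :=
      ContDiffAt.comp x (h.sm (B x) hB) B.contDiff.contDiffAt
    have h2 : ContDiffAt ℝ ∞ (fun x => ⟪x0, B x⟫) x :=
      (contDiffAt_const).inner ℝ B.contDiff.contDiffAt
    exact h1.sub h2
  hom := by
    intro r hr x hx
    have hB : B x ≠ 0 := by
      intro h0
      apply hx
      have := congrArg B.symm h0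
      simpa using this
    have h1 := h.hom r hr (B x) hB
    unfold mv
    rw [map_smul, h1, inner_smul_right]
    simp only [zpow_one]
    ring
  zero := by
    unfold mv
    simp [h.zero]
  sub := by
    intro x y
    unfold mv
    rw [map_add, inner_add_right]
    have := h.sub (B x) (B y)
    linarith
  nonneg := by
    intro x
    unfold mv
    have := hx0 (B x)
    linarith
  width := by
    intro x
    unfold mv
    rw [map_neg, inner_neg_right]
    have := h.width (B x)
    rw [B.norm_map] at this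
    linarith
  cpos := one_pos

theorem mem_mv {f : E3 → ℝ} {x0 : E3} {B : E3 ≃ₗᵢ[ℝ] E3} {y : E3} :
    y ∈ Bd (mv f x0 B) ↔ x0 + B y ∈ Bd f := by
  constructor
  · intro hy z
    have h1 := hy (B.symm z)
    unfold mv at h1
    rw [B.apply_symm_apply] at h1
    have h2 : ⟪B y, z⟫ = ⟪y, B.symm z⟫ := by
      rw [← B.inner_map_map y (B.symm z), B.apply_symm_apply]
    rw [inner_add_left, h2]
    linarith
  · intro hy z
    have h1 := hy (B z)
    rw [inner_add_left, B.inner_map_map] at h1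
    unfold mv
    linarith

theorem vol_mv {f : E3 → ℝ} {x0 : E3} (B : E3 ≃ₗᵢ[ℝ] E3) :
    volume (Bd (mv f x0 B)) = volume (Bd f) := by
  have h1 : Bd (mv f x0 B) = B ⁻¹' ((fun y => x0 + y) ⁻¹' (Bd f)) := by
    ext y
    exact mem_mv
  have h2 : volume (B ⁻¹' ((fun y => x0 + y) ⁻¹' (Bd f))) =
      volume ((fun y => x0 + y) ⁻¹' (Bd f)) :=
    (B.measurePreserving).measure_preimage_emb B.toHomeomorph.measurableEmbedding _
  rw [h1, h2, measure_preimage_add]

/-- **volume from a pointwise certificate**, seen from `x0` in the frame `B` -/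
theorem vol_top_mv {f : E3 → ℝ} (h : SSup f 1) {x0 : E3} (hx0 : x0 ∈ Bd f) (B : E3 ≃ₗᵢ[ℝ] E3)
    (k : ι → ℕ) (L : ι → PQ) (hL : ∀ a, IsWeightedHomogeneous w (L a) (k a)) {V : ℝ}
    (H : ∀ u p : E3, ‖u‖ = 1 → x0 + B (p + (1 / 2 : ℝ) • u) ∈ Bd f →
      x0 + B (p - (1 / 2 : ℝ) • u) ∈ Bd f →
      CertAt (val (E0 k L) u p) (val (E1 k L) u p) (val (E2 L) u p) V) :
    ENNReal.ofReal (π / 6 - 2 * π * V) ≤ volume (Bd f) := by
  rw [← vol_mv (f := f) (x0 := x0) B]
  apply vol_top (mv_ssup h hx0 B) k L hL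
  intro u p hu h1 h2
  exact H u p hu (mem_mv.1 h1) (mem_mv.1 h2)

end

end Helper80.CW.DL
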