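import Pool.Agent.Helper80.CW.DT

/-!
# Volume of a smooth body of constant width one from integer polynomials on the chamber
-/

set_option linter.all false

namespace Helper80.CW.DL

open Set Metric MeasureTheory Helper82.CW MvPolynomial Helper80.CW Helper37.FX
open scoped ContDiff Topology RealInnerProductSpace

/-- the permutations -/
def pe (k : Fin 6) : Equiv.Perm (Fin 3) :=
  match k with
  | 0 => 1
  | 1 => ⟨![1, 0, 2], ![1, 0, 2], by decide, by decide⟩
  | 2 => ⟨![0, 2, 1], ![0, 2, 1], by decide, by decide⟩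
  | 3 => ⟨![2, 1, 0], ![2, 1, 0], by decide, by decide⟩
  | 4 => ⟨![1, 2, 0], ![2, 0, 1], by decide, by decide⟩
  | 5 => ⟨![2, 0, 1], ![1, 2, 0], by decide, by decide⟩

/-- the signs -/
noncomputable def se (g : Ge) : Fin 3 → ℝ := ![sg g.2.1, sg g.2.2, sg (xor g.2.1 g.2.2)]

theorem se_sq (g : Ge) (i : Fin 3) : se g i * se g i = 1 := by
  obtain ⟨k, a, b⟩ := g
  fin_cases i <;> cases a <;> cases b <;> simp [se, sg]

/-- the transformed vector -/
noncomputable def te (g : Ge) (x : E3) : E3 := WithLp.toLp 2 fun i => se g i * x (pe g.1 i)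

theorem te_apply (g : Ge) (x : E3) (i : Fin 3) : te g x i = se g i * x (pe g.1 i) := rfl

theorem v3_te (g : Ge) (x : E3) : v3 (te g x) = tr g (v3 x) := by
  obtain ⟨k, a, b⟩ := g
  unfold v3 tr
  simp only [te_apply]
  fin_cases k <;> rfl

theorem val_g (g : Ge) (L : PQ) (u p : E3) :
    val (actf (pe g.1) (se g) L) u p = val L (te g u) (te g p) :=
  val_actf _ _ _ _ _ _ _ (fun i => rfl) (fun i => rfl)

theorem D0_C (a : ℝ) (k : ℕ) (L : PQ) : D0 k (C a * L) = C a * D0 k L := by
  unfold D0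
  simp only [pderiv_C_mul, ← Finset.mul_sum]
  ring

theorem D1_C (a : ℝ) (k : ℕ) (L : PQ) : D1 k (C a * L) = C a * D1 k L := by
  unfold D1
  simp only [pderiv_C_mul, ← Finset.mul_sum]
  have : ∑ i, X (Sum.inl i) * (C a * pderiv (Sum.inr i) L) =
      C a * ∑ i, X (Sum.inl i) * pderiv (Sum.inr i) L := by
    rw [Finset.mul_sum]
    apply Finset.sum_congr rfl
    intro i _
    ring
  rw [this]
  ring

theorem D2_C (a : ℝ) (L : PQ) : D2 (C a * L) = C a * D2 L := by
  unfold D2
  simp only [pderiv_C_mul, ← Finset.mul_sum]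
  have : ∑ j, ∑ l, X (Sum.inl j) * X (Sum.inl l) * (C a * pderiv (Sum.inr l)
      (pderiv (Sum.inr j) L)) =
      C a * ∑ j, ∑ l, X (Sum.inl j) * X (Sum.inl l) * pderiv (Sum.inr l)
        (pderiv (Sum.inr j) L) := by
    rw [Finset.mul_sum]
    apply Finset.sum_congr rfl
    intro i _
    rw [Finset.mul_sum]
    apply Finset.sum_congr rfl
    intro j _
    ring
  rw [this]
  ring

theorem sum_two {α β : Type*} (l : List α) (l' : List β) (F : α → β → ℝ) :
    ∑ i : Fin l.length × Fin l'.length, F l[i.1] l'[i.2] =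
      (l.map fun a => (l'.map fun b => F a b).sum).sum := by
  rw [Fintype.sum_prod_type]
  calc ∑ x : Fin l.length, ∑ y : Fin l'.length, F l[x] l'[y] =
      ∑ x : Fin l.length, (l'.map fun b => F l[x] b).sum :=
        Finset.sum_congr rfl fun x _ => Fin.sum_univ_fun_getElem l' (F l[x])
    _ = _ := Fin.sum_univ_fun_getElem l (fun a => (l'.map fun b => F a b).sum)

theorem es_flat (sd : List Mo) (d : Mo → List Mo) (u p : V3) :
    es (vl (sd.flatMap d)) u p =
      (G24.map fun g => (sd.map fun m => vl (d m) (tr g u) (tr g p)).sum).sum := by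
  unfold es
  congr 1
  apply List.map_congr_left
  intro g _
  induction sd with
  | nil => rfl
  | cons m l ih => rw [List.flatMap_cons, vl_append, ih, List.map_cons, List.sum_cons]

/-- **volume from four integer polynomials on the chamber** -/
theorem vol_chamber {f : E3 → ℝ} (h : SSup f 1) {x0 : E3} (hx0 : x0 ∈ Bd f)
    (B : E3 ≃ₗᵢ[ℝ] E3) {sd : List Mo} {N M : ℤ} (hN : 0 < N) (hev : ∀ m ∈ sd, dg m % 2 = 0)
    {Dom : V3 → V3 → Prop}
    (d01 : ∀ u p, Dom u p → Dom (u.2.1, u.1, u.2.2) (p.2.1, p.1, p.2.2))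
    (d12 : ∀ u p, Dom u p → Dom (u.1, u.2.2, u.2.1) (p.1, p.2.2, p.2.1))
    (dfl : ∀ u p, Dom u p → Dom (-u.1, -u.2.1, u.2.2) (-p.1, -p.2.1, p.2.2))
    (dng : ∀ u p, Dom u p → Dom (ng u) p)
    (hD : ∀ u p : E3, ‖u‖ = 1 → x0 + B (p + (1 / 2 : ℝ) • u) ∈ Bd f →
      x0 + B (p - (1 / 2 : ℝ) • u) ∈ Bd f → Dom (v3 u) (v3 p))
    (H : ∀ u p : V3, u.1 ^ 2 + u.2.1 ^ 2 + u.2.2 ^ 2 = 1 → 0 ≤ u.2.2 → u.2.2 ≤ u.2.1 →
      u.2.1 ≤ u.1 → Dom u p → Good sd N M u p) :
    ENNReal.ofReal (Real.pi / 6 - 2 * Real.pi * (M / (4 * N))) ≤ volume (Bd f) := by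
  have hN' : (0 : ℝ) < N := by exact_mod_cast hN
  refine vol_top_mv h hx0 B (ι := Fin G24.length × Fin sd.length) (fun a => dg sd[a.2])
    (fun a => C (1 / (N : ℝ)) * actf (pe (G24[a.1]).1) (se G24[a.1]) (toPQ sd[a.2])) ?_ ?_
  · intro a
    have h1 := (isWeightedHomogeneous_C w (1 / (N : ℝ))).mul
      (actf_hom (pe (G24[a.1]).1) (se G24[a.1]) sd[a.2])
    rwa [zero_add] at h1
  · intro u p hu h1 h2
    have hu3 : (v3 u).1 ^ 2 + (v3 u).2.1 ^ 2 + (v3 u).2.2 ^ 2 = 1 := sum_sq_one hu
    have hg := good_all hev d01 d12 dfl dng H (v3 u) (v3 p) hu3 (hD u p hu h1 h2)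
    have e0 : val (E0 (fun a : Fin G24.length × Fin sd.length => dg sd[a.2])
        (fun a : Fin G24.length × Fin sd.length => C (1 / (N : ℝ)) *
          actf (pe (G24[a.1]).1) (se G24[a.1]) (toPQ sd[a.2]))) u p =
        f0 sd (v3 u) (v3 p) / (N : ℝ) := by
      have key : ∀ g m, val (D0 (dg m) (C (1 / (N : ℝ)) * actf (pe g.1) (se g) (toPQ m))) u p = vl (d0 m) (tr g (v3 u)) (tr g (v3 p)) / (N : ℝ) := by
        intro g m
        rw [D0_C, D0_actf _ _ (se_sq g), ← v3_te, ← v3_te, ← val_D0, ← val_g]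
        simp only [val, map_mul, eval_C]
        ring
      calc _ = ∑ a : Fin G24.length × Fin sd.length,
            vl (d0 sd[a.2]) (tr G24[a.1] (v3 u)) (tr G24[a.1] (v3 p)) / (N : ℝ) := by
            unfold E0
            rw [show ∀ F : Fin G24.length × Fin sd.length → PQ, val (∑ a, F a) u p =
              ∑ a, val (F a) u p from fun F => by simp [val]]
            exact Finset.sum_congr rfl fun a _ => key _ _
        _ = _ := by
            rw [← Finset.sum_div, sum_two G24 sd
              (fun g m => vl (d0 m) (tr g (v3 u)) (tr g (v3 p))), ← es_flat]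
            rfl
    have e1 : val (E1 (fun a : Fin G24.length × Fin sd.length => dg sd[a.2])
        (fun a : Fin G24.length × Fin sd.length => C (1 / (N : ℝ)) *
          actf (pe (G24[a.1]).1) (se G24[a.1]) (toPQ sd[a.2]))) u p =
        f1 sd (v3 u) (v3 p) / (N : ℝ) := by
      have key : ∀ g m, val (D1 (dg m) (C (1 / (N : ℝ)) * actf (pe g.1) (se g) (toPQ m))) u p = vl (d1 m) (tr g (v3 u)) (tr g (v3 p)) / (N : ℝ) := by
        intro g m
        rw [D1_C, D1_actf _ _ (se_sq g), ← v3_te, ← v3_te, ← val_D1, ← val_g]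
        simp only [val, map_mul, eval_C]
        ring
      calc _ = ∑ a : Fin G24.length × Fin sd.length,
            vl (d1 sd[a.2]) (tr G24[a.1] (v3 u)) (tr G24[a.1] (v3 p)) / (N : ℝ) := by
            unfold E1
            rw [show ∀ F : Fin G24.length × Fin sd.length → PQ, val (∑ a, F a) u p =
              ∑ a, val (F a) u p from fun F => by simp [val]]
            exact Finset.sum_congr rfl fun a _ => key _ _
        _ = _ := by
            rw [← Finset.sum_div, sum_two G24 sd
              (fun g m => vl (d1 m) (tr g (v3 u)) (tr g (v3 p))), ← es_flat]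
            rfl
    have e2 : val (E2 (fun a : Fin G24.length × Fin sd.length => C (1 / (N : ℝ)) *
          actf (pe (G24[a.1]).1) (se G24[a.1]) (toPQ sd[a.2]))) u p =
        f2 sd (v3 u) (v3 p) / (2 * (N : ℝ)) := by
      have key : ∀ g m, val (D2 (C (1 / (N : ℝ)) * actf (pe g.1) (se g) (toPQ m))) u p = vl (d2 m) (tr g (v3 u)) (tr g (v3 p)) / (2 * (N : ℝ)) := by
        intro g m
        rw [D2_C, D2_actf _ _ (se_sq g), ← v3_te, ← v3_te, ← val_D2, ← val_g]
        simp only [val, map_mul, eval_C]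
        ring
      calc _ = ∑ a : Fin G24.length × Fin sd.length,
            vl (d2 sd[a.2]) (tr G24[a.1] (v3 u)) (tr G24[a.1] (v3 p)) / (2 * (N : ℝ)) := by
            unfold E2
            rw [show ∀ F : Fin G24.length × Fin sd.length → PQ, val (∑ a, F a) u p =
              ∑ a, val (F a) u p from fun F => by simp [val]]
            exact Finset.sum_congr rfl fun a _ => key _ _
        _ = _ := by
            rw [← Finset.sum_div, sum_two G24 sd
              (fun g m => vl (d2 m) (tr g (v3 u)) (tr g (v3 p))), ← es_flat]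
            rfl
    rw [e0, e1, e2]
    obtain ⟨a, b, c, d⟩ := hg
    rw [vl_Qz] at a
    rw [vl_Qk] at b
    rw [vl_Qp] at c
    rw [vl_Qm] at d
    constructor
    · rw [div_le_iff₀ (by positivity)]
      linarith
    · rw [← sub_nonneg]
      have : (M : ℝ) / (4 * N) - (1 / 4 + f0 sd (v3 u) (v3 p) / N -
          f2 sd (v3 u) (v3 p) / (2 * N) / 2) =
          (M - N - 4 * f0 sd (v3 u) (v3 p) + f2 sd (v3 u) (v3 p)) / (4 * N) := by
        field_simp
        ring
      rw [this]
      positivity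
    · rw [← sub_nonneg]
      have : (M : ℝ) / (4 * N) - (-(1 / 4) + f0 sd (v3 u) (v3 p) / N + f1 sd (v3 u) (v3 p) / N +
          f2 sd (v3 u) (v3 p) / (2 * N) / 2) =
          (M + N - 4 * f0 sd (v3 u) (v3 p) - 4 * f1 sd (v3 u) (v3 p) -
            f2 sd (v3 u) (v3 p)) / (4 * N) := by
        field_simp
        ring
      rw [this]
      positivity
    · rw [← sub_nonneg]
      have : (M : ℝ) / (4 * N) - (-(1 / 4) + f0 sd (v3 u) (v3 p) / N - f1 sd (v3 u) (v3 p) / N +
          f2 sd (v3 u) (v3 p) / (2 * N) / 2) =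
          (M + N - 4 * f0 sd (v3 u) (v3 p) + 4 * f1 sd (v3 u) (v3 p) -
            f2 sd (v3 u) (v3 p)) / (4 * N) := by
        field_simp
        ring
      rw [this]
      positivity

end Helper80.CW.DL
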