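import Pool.Agent.Helper80.CW.DF

/-!
# Divergence identities for fields with mixed terms

`Y`-fields `m(u, p) e_i` and `X`-fields `cof(A) m(u, p) e_i`.
-/

set_option linter.all false

namespace Helper80.CW.DL

open Set Metric MeasureTheory Helper82.CW MvPolynomial Helper80.CW Helper37.FX
open scoped ContDiff Topology RealInnerProductSpace

/-- the integrand of a `Y`-field -/
noncomputable def FY (i : Fin 3) (k : ℕ) (m : PQ) (f : E3 → ℝ) : E3 → ℝ := fun x =>
  ev (pderiv (Sum.inl i) m) f x - ((k : ℝ) + 2) * (x i * ev m f x) +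
    ∑ l, pd i (pd l f) x * ev (pderiv (Sum.inr l) m) f x

/-- the integrand of an `X`-field -/
noncomputable def FX (i : Fin 3) (k : ℕ) (m : PQ) (f : E3 → ℝ) : E3 → ℝ := fun x =>
  lap f x * (ev (pderiv (Sum.inl i) m) f x - ((k : ℝ) + 1) * (x i * ev m f x)) +
    (lap f x ^ 2 - hs2 f x) * ((ev (pderiv (Sum.inr i) m) f x -
      x i * ∑ l, x l * ev (pderiv (Sum.inr l) m) f x) / 2) -
    ∑ l, pd i (pd l f) x * ev (pderiv (Sum.inl l) m) f x

theorem FY_sm {f : E3 → ℝ} (hs : Sm f) (i : Fin 3) (k : ℕ) (m : PQ) : Sm (FY i k m f) :=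
  ((ev_sm hs _).sub ((Sm.const _).mul ((Sm.coord i).mul (ev_sm hs _)))).add
    (Sm.sum fun l _ => ((hs.pd l).pd i).mul (ev_sm hs _))

theorem FX_sm {f : E3 → ℝ} (hs : Sm f) (i : Fin 3) (k : ℕ) (m : PQ) : Sm (FX i k m f) := by
  refine ((hs.lap.mul ((ev_sm hs _).sub ((Sm.const _).mul ((Sm.coord i).mul (ev_sm hs _))))).add
    (((hs.lap.pow 2).sub hs.hs2).mul ?_)).sub
    (Sm.sum fun l _ => ((hs.pd l).pd i).mul (ev_sm hs _))
  have : Sm (fun x => (ev (pderiv (Sum.inr i) m) f x -
      x i * ∑ l, x l * ev (pderiv (Sum.inr l) m) f x) * (1 / 2)) :=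
    (((ev_sm hs _).sub ((Sm.coord i).mul (Sm.sum fun l _ => (Sm.coord l).mul (ev_sm hs _))))).mul
      (Sm.const _)
  have e : (fun x => (ev (pderiv (Sum.inr i) m) f x -
      x i * ∑ l, x l * ev (pderiv (Sum.inr l) m) f x) / 2) = fun x => (ev (pderiv (Sum.inr i) m) f x -
      x i * ∑ l, x l * ev (pderiv (Sum.inr l) m) f x) * (1 / 2) := by
    funext x; ring
  rw [e]
  exact this

theorem SI_FY {f : E3 → ℝ} (hs : Sm f) (hk : Hom 1 f) {m : PQ} {k : ℕ} (i : Fin 3)
    (h : IsWeightedHomogeneous w m k) : SI (FY i k m f) = 0 := by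
  have zs : Sm (fun _ : E3 => (0 : ℝ)) := Sm.const 0
  have h0 := div_lemma (m := (k : ℤ)) (fun j => if j = i then ev m f else fun _ => 0)
    (fun j => by
      by_cases hj : j = i
      · simp only [hj, if_true]; exact ev_sm hs _
      · simp only [hj, if_false]; exact zs)
    (fun j => by
      by_cases hj : j = i
      · simp only [hj, if_true]; exact ev_hom hs hk h
      · simp only [hj, if_false]
        intro r hr x hx
        simp)
  have e1 : ∀ x : E3, ∑ j, pd j ((fun j => if j = i then ev m f else fun _ => (0 : ℝ)) j) x =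
      pd i (ev m f) x := by
    intro x
    rw [Finset.sum_eq_single i]
    · simp
    · intro j _ hj
      simp only [hj, if_false]
      unfold pd
      simp
    · simp
  have e2 : ∀ x : E3, ∑ j, x j * (fun j => if j = i then ev m f else fun _ => (0 : ℝ)) j x =
      x i * ev m f x := by
    intro x
    rw [Finset.sum_eq_single i]
    · simp
    · intro j _ hj
      simp [hj]
    · simp
  simp only [e1, e2] at h0
  have sD : Sm (fun x => ev (pderiv (Sum.inl i) m) f x +
      ∑ l, pd i (pd l f) x * ev (pderiv (Sum.inr l) m) f x) :=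
    (ev_sm hs _).add (Sm.sum fun l _ => ((hs.pd l).pd i).mul (ev_sm hs _))
  have sN : Sm (fun x => ((k : ℝ) + 2) * (x i * ev m f x)) :=
    (Sm.const _).mul ((Sm.coord i).mul (ev_sm hs _))
  have e3 : SI (fun x => pd i (ev m f) x) = SI (fun x => ev (pderiv (Sum.inl i) m) f x +
      ∑ l, pd i (pd l f) x * ev (pderiv (Sum.inr l) m) f x) := by
    apply SI_congr
    intro x hx
    have hx0 : x ≠ 0 := by
      rintro rfl
      simp at hx
    rw [pd_ev hs m i hx0]
    congr 1
    exact Finset.sum_congr rfl fun l _ => mul_comm _ _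
  have e : FY i k m f = fun x => (ev (pderiv (Sum.inl i) m) f x +
      ∑ l, pd i (pd l f) x * ev (pderiv (Sum.inr l) m) f x) -
      ((k : ℝ) + 2) * (x i * ev m f x) := by
    funext x
    unfold FY
    ring
  rw [e, SI_sub sD sN, ← e3, h0, SI_const_mul]
  push_cast
  ring

theorem SI_FX {f : E3 → ℝ} (hs : Sm f) (hk : Hom 1 f) {m : PQ} {k : ℕ} (i : Fin 3)
    (h : IsWeightedHomogeneous w m k) : SI (FX i k m f) = 0 := by
  have sH : ∀ j, Sm (fun x => pd j (pd i f) x * ev m f x) := fun j => ((hs.pd i).pd j).mul (ev_sm hs _)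
  have sL : Sm (fun x => lap f x * ev m f x) := hs.lap.mul (ev_sm hs _)
  have zs : Sm (fun _ : E3 => (0 : ℝ)) := Sm.const 0
  have hm := ev_hom hs hk h
  have hl : Hom (1 - 2) (lap f) := hk.lap hs
  have hLm : Hom ((k : ℤ) - 1) (fun x => lap f x * ev m f x) := by
    have := hl.mul hm
    rwa [show (1 - 2 + (k : ℤ)) = (k : ℤ) - 1 by ring] at this
  have hHm : ∀ j, Hom ((k : ℤ) - 1) (fun x => pd j (pd i f) x * ev m f x) := fun j => by
    have := ((hk.pd hs i).pd (hs.pd i) j).mul hm
    rwa [show (1 - 1 - 1 + (k : ℤ)) = (k : ℤ) - 1 by ring] at this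
  have h0 := div_lemma (m := (k : ℤ) - 1) (fun j => fun x => (if j = i then lap f x * ev m f x else 0) -
      pd j (pd i f) x * ev m f x)
    (fun j => by
      refine Sm.sub ?_ (sH j)
      by_cases hj : j = i
      · simp only [hj, if_true]; exact sL
      · simp only [hj, if_false]; exact zs)
    (fun j => by
      refine Hom.sub ?_ (hHm j)
      by_cases hj : j = i
      · simp only [hj, if_true]; exact hLm
      · simp only [hj, if_false]
        intro r hr x hx
        simp)
  have sum1 : ∀ x : E3, x ≠ 0 → ∑ j, pd j (fun x => (if j = i then lap f x * ev m f x else 0) -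
      pd j (pd i f) x * ev m f x) x =
      pd i (fun x => lap f x * ev m f x) x - ∑ j, pd j (fun x => pd j (pd i f) x * ev m f x) x := by
    intro x hx0
    have a : ∀ j, pd j (fun x => (if j = i then lap f x * ev m f x else 0) -
        pd j (pd i f) x * ev m f x) x =
        (if j = i then pd i (fun x => lap f x * ev m f x) x else 0) -
          pd j (fun x => pd j (pd i f) x * ev m f x) x := by
      intro j
      by_cases hj : j = i
      · subst hj
        simp only [if_true]
        rw [pd_sub sL (sH j) j hx0]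
      · simp only [hj, if_false]
        rw [pd_sub zs (sH j) j hx0]
        congr 1
        unfold pd
        simp
    simp only [a, Finset.sum_sub_distrib, Finset.sum_ite_eq', Finset.mem_univ, if_true]
  have sum2 : ∀ x : E3, ‖x‖ = 1 → ∑ j, x j * ((if j = i then lap f x * ev m f x else 0) -
      pd j (pd i f) x * ev m f x) = lap f x * (x i * ev m f x) := by
    intro x hx
    have hx0 : x ≠ 0 := by
      rintro rfl
      simp at hx
    have b2 : ∑ j, x j * pd j (pd i f) x = 0 := by
      have := Helper80.CW.euler (hk.pd hs i) (hs.pd i) hx0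
      simpa using this
    have : ∀ j, x j * ((if j = i then lap f x * ev m f x else 0) - pd j (pd i f) x * ev m f x) =
        (if j = i then x i * (lap f x * ev m f x) else 0) - x j * pd j (pd i f) x * ev m f x := by
      intro j
      by_cases hj : j = i
      · subst hj
        simp only [if_true]
        ring
      · simp only [hj, if_false]
        ring
    simp only [this, Finset.sum_sub_distrib, Finset.sum_ite_eq', Finset.mem_univ, if_true,
      ← Finset.sum_mul, b2]
    ring
  have e1 : ∀ x : E3, ‖x‖ = 1 → ∑ j, pd j (fun x => (if j = i then lap f x * ev m f x else 0) -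
      pd j (pd i f) x * ev m f x) x = lap f x * ev (pderiv (Sum.inl i) m) f x +
      (lap f x ^ 2 - hs2 f x) * ((ev (pderiv (Sum.inr i) m) f x -
      x i * ∑ l, x l * ev (pderiv (Sum.inr l) m) f x) / 2) -
      ∑ l, pd i (pd l f) x * ev (pderiv (Sum.inl l) m) f x := by
    intro x hx
    have hx0 : x ≠ 0 := by
      rintro rfl
      simp at hx
    rw [sum1 x hx0, pd_mul hs.lap (ev_sm hs _) i hx0]
    have a2 : ∀ j, pd j (fun x => pd j (pd i f) x * ev m f x) x =
        pd j (pd j (pd i f)) x * ev m f x + pd j (pd i f) x * pd j (ev m f) x := fun j =>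
      pd_mul ((hs.pd i).pd j) (ev_sm hs _) j hx0
    simp only [a2, Finset.sum_add_distrib, ← Finset.sum_mul]
    rw [← pd_lap hs i hx0]
    have sy : ∀ j, pd j (pd i f) x = pd i (pd j f) x := fun j => pd_comm hs j i hx0
    have cm := cayley_mat hs hk hx (fun j l => if j = i then ev (pderiv (Sum.inr l) m) f x else 0)
    have c1 : ∑ j, ∑ l, (if j = i then ev (pderiv (Sum.inr l) m) f x else 0) *
        (lap f x * pd j (pd l f) x - ∑ i, pd i (pd j f) x * pd i (pd l f) x) =
        ∑ l, ev (pderiv (Sum.inr l) m) f x *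
          (lap f x * pd i (pd l f) x - ∑ i', pd i' (pd i f) x * pd i' (pd l f) x) := by
      rw [Finset.sum_eq_single i]
      · simp
      · intro j _ hj
        simp [hj]
      · simp
    have c2 : ∑ j, (if j = i then ev (pderiv (Sum.inr j) m) f x else 0) =
        ev (pderiv (Sum.inr i) m) f x := by
      rw [Finset.sum_ite_eq']
      simp
    have c3 : ∑ j, ∑ l, x j * x l * (if j = i then ev (pderiv (Sum.inr l) m) f x else 0) =
        x i * ∑ l, x l * ev (pderiv (Sum.inr l) m) f x := by
      rw [Finset.sum_eq_single i]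
      · simp only [if_true, Finset.mul_sum]
        exact Finset.sum_congr rfl fun l _ => by ring
      · intro j _ hj
        simp [hj]
      · simp
    rw [c1, c2, c3] at cm
    rw [← cm]
    simp only [pd_ev hs m _ hx0]
    have d1 : lap f x * (ev (pderiv (Sum.inl i) m) f x +
        ∑ l, ev (pderiv (Sum.inr l) m) f x * pd i (pd l f) x) =
        lap f x * ev (pderiv (Sum.inl i) m) f x +
        ∑ l, ev (pderiv (Sum.inr l) m) f x * (lap f x * pd i (pd l f) x) := by
      rw [mul_add, Finset.mul_sum]
      congr 1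
      exact Finset.sum_congr rfl fun l _ => by ring
    have d2 : ∑ j, pd j (pd i f) x * (ev (pderiv (Sum.inl j) m) f x +
        ∑ l, ev (pderiv (Sum.inr l) m) f x * pd j (pd l f) x) =
        ∑ j, pd i (pd j f) x * ev (pderiv (Sum.inl j) m) f x +
        ∑ l, ev (pderiv (Sum.inr l) m) f x * ∑ i', pd i' (pd i f) x * pd i' (pd l f) x := by
      simp only [mul_add, Finset.sum_add_distrib, Finset.mul_sum]
      congr 1
      · exact Finset.sum_congr rfl fun j _ => by rw [sy]
      · rw [Finset.sum_comm]
        refine Finset.sum_congr rfl fun l _ => Finset.sum_congr rfl fun j _ => ?_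
        ring
    rw [d1, d2]
    simp only [mul_sub, Finset.sum_sub_distrib]
    ring
  rw [SI_congr e1, SI_congr sum2] at h0
  have sD : Sm (fun x => lap f x * ev (pderiv (Sum.inl i) m) f x +
      (lap f x ^ 2 - hs2 f x) * ((ev (pderiv (Sum.inr i) m) f x -
      x i * ∑ l, x l * ev (pderiv (Sum.inr l) m) f x) / 2) -
      ∑ l, pd i (pd l f) x * ev (pderiv (Sum.inl l) m) f x) := by
    have s1 := FX_sm hs i 0 m
    have s2 : Sm (fun x => lap f x * (((0 : ℕ) : ℝ) + 1) * (x i * ev m f x)) :=
      (hs.lap.mul (Sm.const _)).mul ((Sm.coord i).mul (ev_sm hs _))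
    have := s1.add s2
    have e : (fun x => lap f x * ev (pderiv (Sum.inl i) m) f x +
      (lap f x ^ 2 - hs2 f x) * ((ev (pderiv (Sum.inr i) m) f x -
      x i * ∑ l, x l * ev (pderiv (Sum.inr l) m) f x) / 2) -
      ∑ l, pd i (pd l f) x * ev (pderiv (Sum.inl l) m) f x) = fun x => FX i 0 m f x +
        lap f x * (((0 : ℕ) : ℝ) + 1) * (x i * ev m f x) := by
      funext x
      unfold FX
      ring
    rw [e]
    exact this
  have sN : Sm (fun x => ((k : ℝ) + 1) * (lap f x * (x i * ev m f x))) :=
    (Sm.const _).mul (hs.lap.mul ((Sm.coord i).mul (ev_sm hs _)))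
  have e : FX i k m f = fun x => (lap f x * ev (pderiv (Sum.inl i) m) f x +
      (lap f x ^ 2 - hs2 f x) * ((ev (pderiv (Sum.inr i) m) f x -
      x i * ∑ l, x l * ev (pderiv (Sum.inr l) m) f x) / 2) -
      ∑ l, pd i (pd l f) x * ev (pderiv (Sum.inl l) m) f x) -
      ((k : ℝ) + 1) * (lap f x * (x i * ev m f x)) := by
    funext x
    unfold FX
    ring
  rw [e, SI_sub sD sN, h0, SI_const_mul]
  push_cast
  ring

end Helper80.CW.DL
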