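import Pool.Agent.Helper80.CW.DX

/-!
# The pointwise certificate with mixed terms
-/

set_option linter.all false

namespace Helper80.CW.DL

open Set Metric MeasureTheory Helper82.CW MvPolynomial Helper80.CW Helper37.FX
open scoped ContDiff Topology RealInnerProductSpace Matrix

/-- bilinear form of a matrix -/
def bil (M : Fin 3 → Fin 3 → ℝ) (v w : Fin 3 → ℝ) : ℝ := ∑ j, ∑ l, v j * w l * M j l

/-- tangential trace -/
def trT (M : Fin 3 → Fin 3 → ℝ) (u : Fin 3 → ℝ) : ℝ := ∑ j, M j j - bil M u u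

theorem exists_frame (u : Fin 3 → ℝ) (hu : ∑ i, u i ^ 2 = 1) : ∃ a b : Fin 3 → ℝ,
    (∑ i, a i ^ 2 = 1) ∧ (∑ i, b i ^ 2 = 1) ∧ (∑ i, a i * b i = 0) ∧ (∑ i, u i * a i = 0) ∧
      (∑ i, u i * b i = 0) := by
  simp only [Fin.sum_univ_three] at hu ⊢
  by_cases h : u 0 ^ 2 + u 1 ^ 2 = 0
  · have h0 : u 0 = 0 := by nlinarith [sq_nonneg (u 0), sq_nonneg (u 1)]
    have h1 : u 1 = 0 := by nlinarith [sq_nonneg (u 0), sq_nonneg (u 1)]
    refine ⟨![1, 0, 0], ![0, 1, 0], ?_⟩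
    simp [h0, h1]
  · have hp : 0 < u 0 ^ 2 + u 1 ^ 2 := lt_of_le_of_ne (by positivity) (Ne.symm h)
    set r := Real.sqrt (u 0 ^ 2 + u 1 ^ 2) with hr
    have hr0 : 0 < r := Real.sqrt_pos.2 hp
    have hr2 : r ^ 2 = u 0 ^ 2 + u 1 ^ 2 := Real.sq_sqrt hp.le
    have hr' := hr0.ne'
    refine ⟨![-(u 1) / r, u 0 / r, 0], ![-(u 0 * u 2) / r, -(u 1 * u 2) / r, r], ?_⟩
    simp only [Matrix.cons_val_zero, Matrix.cons_val_one, Matrix.cons_val]
    refine ⟨?_, ?_, ?_, ?_, ?_⟩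
    · field_simp
      linarith
    · field_simp
      have : u 2 ^ 2 = 1 - r ^ 2 := by linarith
      nlinarith
    · field_simp
      ring
    · field_simp
      ring
    · field_simp
      rw [hr2]
      ring

theorem frame_pair {u a b : Fin 3 → ℝ} (hu : ∑ i, u i ^ 2 = 1) (ha : ∑ i, a i ^ 2 = 1)
    (hb : ∑ i, b i ^ 2 = 1) (hab : ∑ i, a i * b i = 0) (hua : ∑ i, u i * a i = 0)
    (hub : ∑ i, u i * b i = 0) (M N : Fin 3 → Fin 3 → ℝ) :
    ∑ j, ∑ l, M j l * N j l = bil M u u * bil N u u + bil M u a * bil N u a +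
      bil M u b * bil N u b + bil M a u * bil N a u + bil M a a * bil N a a +
      bil M a b * bil N a b + bil M b u * bil N b u + bil M b a * bil N b a +
      bil M b b * bil N b b := by
  set Q : Matrix (Fin 3) (Fin 3) ℝ := Matrix.of ![u, a, b] with hQ
  have h1 : Q * Qᵀ = 1 := by
    ext i j
    rw [Matrix.mul_apply]
    simp only [Fin.sum_univ_three] at hu ha hb hab hua hub ⊢
    fin_cases i <;> fin_cases j <;> simp [hQ, Matrix.transpose_apply, Matrix.of_apply] <;> linarith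
  have h2 : Qᵀ * Q = 1 := mul_eq_one_comm.1 h1
  have h3 : Matrix.trace ((Q * Matrix.of M * Qᵀ) * (Q * Matrix.of N * Qᵀ)ᵀ) =
      Matrix.trace (Matrix.of M * (Matrix.of N)ᵀ) := by
    have e : (Q * Matrix.of M * Qᵀ) * (Q * Matrix.of N * Qᵀ)ᵀ =
        Q * (Matrix.of M * (Matrix.of N)ᵀ * Qᵀ) := by
      rw [Matrix.transpose_mul, Matrix.transpose_mul, Matrix.transpose_transpose]
      calc Q * Matrix.of M * Qᵀ * (Q * ((Matrix.of N)ᵀ * Qᵀ)) =
          Q * (Matrix.of M * (Qᵀ * Q) * ((Matrix.of N)ᵀ * Qᵀ)) := by simp only [Matrix.mul_assoc]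
        _ = _ := by rw [h2, Matrix.mul_one]; simp only [Matrix.mul_assoc]
    rw [e, Matrix.trace_mul_comm, Matrix.mul_assoc, h2, Matrix.mul_one]
  have h4 : ∀ M : Fin 3 → Fin 3 → ℝ, ∀ i j, (Q * Matrix.of M * Qᵀ) i j =
      bil M (![u, a, b] i) (![u, a, b] j) := by
    intro M i j
    rw [Matrix.mul_apply]
    simp only [Matrix.mul_apply, Matrix.transpose_apply, hQ, Matrix.of_apply, bil, Finset.sum_mul]
    rw [Finset.sum_comm]
    refine Finset.sum_congr rfl fun k _ => Finset.sum_congr rfl fun l _ => ?_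
    ring
  have h5 : Matrix.trace (Matrix.of M * (Matrix.of N)ᵀ) = ∑ j, ∑ l, M j l * N j l := by
    simp [Matrix.trace, Matrix.mul_apply]
  have h6 : Matrix.trace ((Q * Matrix.of M * Qᵀ) * (Q * Matrix.of N * Qᵀ)ᵀ) =
      ∑ i, ∑ j, bil M (![u, a, b] i) (![u, a, b] j) * bil N (![u, a, b] i) (![u, a, b] j) := by
    unfold Matrix.trace
    refine Finset.sum_congr rfl fun i _ => ?_
    rw [Matrix.diag_apply, Matrix.mul_apply]
    refine Finset.sum_congr rfl fun j _ => ?_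
    rw [Matrix.transpose_apply, h4, h4]
  rw [← h5, ← h3, h6]
  simp only [Fin.sum_univ_three, Matrix.cons_val_zero, Matrix.cons_val_one, Matrix.cons_val]
  ring

/-- **the pointwise certificate** -/
structure CertX (u : Fin 3 → ℝ) (e0 e1 e2 : ℝ) (N : Fin 3 → Fin 3 → ℝ) (V : ℝ) : Prop where
  p : -(1 / 4) + e0 + e1 + e2 / 2 + trT N u / 2 ≤ V
  m : -(1 / 4) + e0 - e1 + e2 / 2 - trT N u / 2 ≤ V
  z : ∀ e : Fin 3 → ℝ, ∑ i, e i ^ 2 = 1 → ∑ i, u i * e i = 0 →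
    1 / 4 + e0 - e2 / 2 + bil N e e - trT N u / 2 ≤ V

theorem pt_alg {al be ga Na Nb Nc Nd e0 e1 e2 V c s r : ℝ} (cs : c ^ 2 + s ^ 2 = 1) (r0 : 0 ≤ r)
    (r1 : r * (c ^ 2 - s ^ 2) = al - ga) (r2 : r * (2 * s * c) = 2 * be)
    (hp : -(1 / 4) + e0 + e1 + e2 / 2 + (Na + Nb) / 2 ≤ V)
    (hm : -(1 / 4) + e0 - e1 + e2 / 2 - (Na + Nb) / 2 ≤ V)
    (z1 : 1 / 4 + e0 - e2 / 2 + (c ^ 2 * Na + c * s * (Nc + Nd) + s ^ 2 * Nb) -
      (Na + Nb) / 2 ≤ V)
    (z2 : 1 / 4 + e0 - e2 / 2 + ((-s) ^ 2 * Na + -s * c * (Nc + Nd) + c ^ 2 * Nb) -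
      (Na + Nb) / 2 ≤ V)
    (b1 : |c ^ 2 * al + c * s * (be + be) + s ^ 2 * ga| ≤ 1 / 2)
    (b2 : |(-s) ^ 2 * al + -s * c * (be + be) + c ^ 2 * ga| ≤ 1 / 2) :
    -(((al + ga) ^ 2 - (al ^ 2 + 2 * be ^ 2 + ga ^ 2)) / 2) + e0 + (al + ga) * e1 +
      ((al + ga) ^ 2 - (al ^ 2 + 2 * be ^ 2 + ga ^ 2)) * e2 +
      (al * Na + be * Nc + be * Nd + ga * Nb) ≤ V := by
  have t1 : c ^ 2 * al + c * s * (be + be) + s ^ 2 * ga = (al + ga + r) / 2 := by
    linear_combination ((al + ga) / 2 + r * (c ^ 2 + s ^ 2 + 1) / 2) * cs -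
      ((c ^ 2 - s ^ 2) / 2) * r1 - (c * s) * r2
  have t2 : (-s) ^ 2 * al + -s * c * (be + be) + c ^ 2 * ga = (al + ga - r) / 2 := by
    linear_combination (al + ga) * cs - t1
  rw [t1] at b1
  rw [t2] at b2
  obtain ⟨b1a, b1b⟩ := abs_le.1 b1
  obtain ⟨b2a, b2b⟩ := abs_le.1 b2
  set n := c ^ 2 * Na + c * s * (Nc + Nd) + s ^ 2 * Nb - (Na + Nb) / 2 with hn
  have z1' : 1 / 4 + e0 - e2 / 2 + n ≤ V := by rw [hn]; linarith
  have z2' : 1 / 4 + e0 - e2 / 2 - n ≤ V := by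
    have : (-s) ^ 2 * Na + -s * c * (Nc + Nd) + c ^ 2 * Nb - (Na + Nb) / 2 = -n := by
      rw [hn]
      linear_combination (Na + Nb) * cs
    linarith
  have hdet : (al + ga) ^ 2 - (al ^ 2 + 2 * be ^ 2 + ga ^ 2) = ((al + ga) ^ 2 - r ^ 2) / 2 := by
    have h1 : r ^ 2 = (al - ga) ^ 2 + (2 * be) ^ 2 := by
      rw [← r1, ← r2]
      linear_combination (-(r ^ 2) * (c ^ 2 + s ^ 2 + 1)) * cs
    rw [h1]
    ring
  have hpair : al * Na + be * Nc + be * Nd + ga * Nb = (al + ga) * ((Na + Nb) / 2) + r * n := by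
    rw [hn]
    linear_combination (-(Na - Nb) / 2) * r1 - ((Nc + Nd) / 2) * r2 + (-(r * (Na + Nb) / 2)) * cs
  rw [hdet, hpair]
  set t := al + ga
  have w1 := mul_nonneg (mul_nonneg (by linarith : (0 : ℝ) ≤ 1 / 2 + (t + r) / 2)
    (by linarith : (0 : ℝ) ≤ 1 / 2 + (t - r) / 2)) (sub_nonneg.2 hp)
  have w2 := mul_nonneg (mul_nonneg (by linarith : (0 : ℝ) ≤ 1 / 2 - (t + r) / 2)
    (by linarith : (0 : ℝ) ≤ 1 / 2 - (t - r) / 2)) (sub_nonneg.2 hm)
  have w3 := mul_nonneg (mul_nonneg (by linarith : (0 : ℝ) ≤ 1 / 2 + (t + r) / 2)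
    (by linarith : (0 : ℝ) ≤ 1 / 2 - (t - r) / 2)) (sub_nonneg.2 z1')
  have w4 := mul_nonneg (mul_nonneg (by linarith : (0 : ℝ) ≤ 1 / 2 - (t + r) / 2)
    (by linarith : (0 : ℝ) ≤ 1 / 2 + (t - r) / 2)) (sub_nonneg.2 z2')
  linarith [w1, w2, w3, w4]

theorem CertX.point {u : Fin 3 → ℝ} (hu : ∑ i, u i ^ 2 = 1) {e0 e1 e2 : ℝ}
    {N : Fin 3 → Fin 3 → ℝ} {V : ℝ} (hC : CertX u e0 e1 e2 N V) {H : Fin 3 → Fin 3 → ℝ}
    (sy : ∀ i j, H i j = H j i) (h0 : ∀ i, ∑ j, u j * H j i = 0)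
    (hb : ∀ v : Fin 3 → ℝ, ∑ i, v i ^ 2 = 1 → ∑ i, u i * v i = 0 → |bil H v v| ≤ 1 / 2) :
    -((((∑ i, H i i) ^ 2 - ∑ i, ∑ j, H i j ^ 2)) / 2) + e0 + (∑ i, H i i) * e1 +
      ((∑ i, H i i) ^ 2 - ∑ i, ∑ j, H i j ^ 2) * e2 + ∑ i, ∑ j, H i j * N i j ≤ V := by
  obtain ⟨a, b, ha, hbb, hab, hua, hub⟩ := exists_frame u hu
  have fp := frame_pair hu ha hbb hab hua hub
  have u1 : ∀ v, bil H u v = 0 := by
    intro v
    unfold bil
    rw [Finset.sum_comm]
    have : ∀ l, ∑ j, u j * v l * H j l = v l * ∑ j, u j * H j l := by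
      intro l
      rw [Finset.mul_sum]
      exact Finset.sum_congr rfl fun j _ => by ring
    simp only [this, h0, mul_zero, Finset.sum_const_zero]
  have bsy : ∀ v w, bil H v w = bil H w v := by
    intro v w
    unfold bil
    rw [Finset.sum_comm]
    refine Finset.sum_congr rfl fun j _ => Finset.sum_congr rfl fun l _ => ?_
    rw [sy]
    ring
  have u2 : ∀ v, bil H v u = 0 := fun v => by rw [bsy, u1]
  set al := bil H a a with hal
  set be := bil H a b with hbe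
  set ga := bil H b b with hga
  have hba : bil H b a = be := bsy b a
  -- pairing with N
  have pN : ∑ i, ∑ j, H i j * N i j = al * bil N a a + be * bil N a b + be * bil N b a +
      ga * bil N b b := by
    rw [fp H N, u1, u1, u1, u2, u2, hba]
    ring
  -- trace
  have idb : ∀ v w : Fin 3 → ℝ, bil (fun i j => if i = j then 1 else 0) v w = ∑ i, v i * w i := by
    intro v w
    unfold bil
    simp
  have sq' : ∀ v : Fin 3 → ℝ, ∑ i, v i * v i = ∑ i, v i ^ 2 := fun v =>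
    Finset.sum_congr rfl fun i _ => by ring
  have ba0 : ∑ i, b i * a i = 0 := by
    rw [← hab]; exact Finset.sum_congr rfl fun i _ => by ring
  have trf : ∀ M : Fin 3 → Fin 3 → ℝ, ∑ i, M i i = bil M u u + bil M a a + bil M b b := by
    intro M
    have h1 := fp M (fun i j => if i = j then 1 else 0)
    have h2 : ∑ j, ∑ l, M j l * (if j = l then (1 : ℝ) else 0) = ∑ i, M i i := by simp
    rw [h2] at h1
    rw [h1]
    simp only [idb, sq', hu, ha, hbb, hab, hua, hub, ba0]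
    have h3 : ∑ i, a i * u i = 0 := by
      rw [← hua]; exact Finset.sum_congr rfl fun i _ => by ring
    have h4 : ∑ i, b i * u i = 0 := by
      rw [← hub]; exact Finset.sum_congr rfl fun i _ => by ring
    rw [h3, h4]
    ring
  have tH : ∑ i, H i i = al + ga := by rw [trf, u1]; ring
  have hsH : ∑ i, ∑ j, H i j ^ 2 = al ^ 2 + 2 * be ^ 2 + ga ^ 2 := by
    have h1 := fp H H
    have h2 : ∑ j, ∑ l, H j l * H j l = ∑ i, ∑ j, H i j ^ 2 :=
      Finset.sum_congr rfl fun i _ => Finset.sum_congr rfl fun j _ => by ring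
    rw [h2] at h1
    rw [h1, u1, u1, u1, u2, u2, hba]
    ring
  have tN : trT N u = bil N a a + bil N b b := by
    unfold trT
    rw [trf]
    ring
  -- the angle
  set zc : ℂ := ⟨al - ga, 2 * be⟩ with hz
  set r := ‖zc‖ with hr
  set ph := Complex.arg zc with hph
  have r1 : r * Real.cos ph = al - ga := Complex.norm_mul_cos_arg zc
  have r2 : r * Real.sin ph = 2 * be := Complex.norm_mul_sin_arg zc
  have r0 : 0 ≤ r := norm_nonneg _
  set c := Real.cos (ph / 2) with hc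
  set s := Real.sin (ph / 2) with hs
  have cs : c ^ 2 + s ^ 2 = 1 := by rw [hc, hs]; exact Real.cos_sq_add_sin_sq _
  have c2 : Real.cos ph = c ^ 2 - s ^ 2 := by
    have := Real.cos_two_mul (ph / 2)
    rw [show 2 * (ph / 2) = ph by ring] at this
    rw [this, ← hc]
    linarith
  have s2 : Real.sin ph = 2 * s * c := by
    have := Real.sin_two_mul (ph / 2)
    rw [show 2 * (ph / 2) = ph by ring] at this
    rw [this]
  rw [c2] at r1
  rw [s2] at r2
  -- the eigenvectors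
  have bilin : ∀ (M : Fin 3 → Fin 3 → ℝ) (x y : ℝ), bil M (fun i => x * a i + y * b i)
      (fun i => x * a i + y * b i) = x ^ 2 * bil M a a + x * y * (bil M a b + bil M b a) +
        y ^ 2 * bil M b b := by
    intro M x y
    unfold bil
    simp only [Fin.sum_univ_three]
    ring
  have nrm : ∀ x y : ℝ, x ^ 2 + y ^ 2 = 1 → ∑ i, (fun i => x * a i + y * b i) i ^ 2 = 1 := by
    intro x y hxy
    simp only [Fin.sum_univ_three] at ha hbb hab ⊢
    linear_combination x ^ 2 * ha + y ^ 2 * hbb + 2 * x * y * hab + hxy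
  have orth : ∀ x y : ℝ, ∑ i, u i * (fun i => x * a i + y * b i) i = 0 := by
    intro x y
    simp only [Fin.sum_univ_three] at hua hub ⊢
    linear_combination x * hua + y * hub
  have z1 := hC.z _ (nrm c s cs) (orth c s)
  have z2 := hC.z _ (nrm (-s) c (by linarith)) (orth (-s) c)
  have b1 := hb _ (nrm c s cs) (orth c s)
  have b2 := hb _ (nrm (-s) c (by linarith)) (orth (-s) c)
  rw [bilin] at z1 z2 b1 b2
  have hp := hC.p
  have hm := hC.m
  rw [tN] at z1 z2 hp hm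
  rw [hba] at b1 b2
  rw [pN, tH, hsH]
  set Na := bil N a a
  set Nb := bil N b b
  set Nc := bil N a b
  set Nd := bil N b a
  exact pt_alg cs r0 r1 r2 hp hm z1 z2 b1 b2

end Helper80.CW.DL
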