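import Pool.Agent.Helper80.CW.DY

/-!
# Volume from a list of seeds of fields with mixed terms
-/

set_option linter.all false

namespace Helper80.CW.DL

open Set Metric MeasureTheory Helper82.CW MvPolynomial Helper80.CW Helper37.FX
open scoped ContDiff Topology RealInnerProductSpace Real

/-- a seed: type (`true`: `cof(A) m e_i`, `false`: `m e_i`), component, monomial -/
abbrev Sd := Bool × Fin 3 × Mo

def g0 (s : Sd) : List Mo :=
  if s.1 then [] else [du s.2.1 s.2.2, sc (-((dg s.2.2 : ℤ) + 2)) (mu s.2.1 s.2.2)]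

def g1 (s : Sd) : List Mo :=
  if s.1 then [du s.2.1 s.2.2, sc (-((dg s.2.2 : ℤ) + 1)) (mu s.2.1 s.2.2)] else []

def g2 (s : Sd) : List Mo :=
  if s.1 then [dp s.2.1 s.2.2, sc (-1) (mu s.2.1 (mu 0 (dp 0 s.2.2))),
    sc (-1) (mu s.2.1 (mu 1 (dp 1 s.2.2))), sc (-1) (mu s.2.1 (mu 2 (dp 2 s.2.2)))] else []

def gN (j l : Fin 3) (s : Sd) : List Mo :=
  if j = s.2.1 then (if s.1 then [sc (-1) (du l s.2.2)] else [dp l s.2.2]) else []

/-- the integrand of a seed -/
noncomputable def FS (s : Sd) (f : E3 → ℝ) : E3 → ℝ :=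
  if s.1 then FX s.2.1 (dg s.2.2) (toPQ s.2.2) f else FY s.2.1 (dg s.2.2) (toPQ s.2.2) f

theorem FS_sm {f : E3 → ℝ} (hs : Sm f) (s : Sd) : Sm (FS s f) := by
  unfold FS
  split_ifs
  · exact FX_sm hs _ _ _
  · exact FY_sm hs _ _ _

theorem SI_FS {f : E3 → ℝ} (hs : Sm f) (hk : Hom 1 f) (s : Sd) : SI (FS s f) = 0 := by
  unfold FS
  split_ifs
  · exact SI_FX hs hk _ (toPQ_hom _)
  · exact SI_FY hs hk _ (toPQ_hom _)

theorem ev_toPQ (m : Mo) (f : E3 → ℝ) (x : E3) :
    ev (toPQ m) f x = vm m (v3 x) (v3 (gr f x)) := by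
  rw [ev_val, val_toPQ]

theorem vm_sc (c : ℤ) (m : Mo) (u p : V3) : vm (sc c m) u p = c * vm m u p := by
  simp [vm, sc]
  ring

theorem vm_mu (i : Fin 3) (m : Mo) (x : E3) (p : V3) : vm (mu i m) (v3 x) p = x i * vm m (v3 x) p := by
  obtain ⟨c, ⟨a0, a1, a2⟩, ⟨b0, b1, b2⟩⟩ := m
  fin_cases i <;>
  · simp only [vm, mu, v3]
    simp
    ring

theorem FS_eq (s : Sd) (f : E3 → ℝ) (x : E3) :
    FS s f x = vl (g0 s) (v3 x) (v3 (gr f x)) + lap f x * vl (g1 s) (v3 x) (v3 (gr f x)) +
      (lap f x ^ 2 - hs2 f x) * (vl (g2 s) (v3 x) (v3 (gr f x)) / 2) +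
      ∑ j, ∑ l, pd j (pd l f) x * vl (gN j l s) (v3 x) (v3 (gr f x)) := by
  obtain ⟨ty, i, m⟩ := s
  cases ty
  · have e : ∑ j, ∑ l, pd j (pd l f) x * vl (gN j l (false, i, m)) (v3 x) (v3 (gr f x)) =
        ∑ l, pd i (pd l f) x * vm (dp l m) (v3 x) (v3 (gr f x)) := by
      rw [Finset.sum_eq_single i]
      · simp [gN, vl]
      · intro j _ hj
        simp [gN, vl, hj]
      · simp
    rw [e]
    simp only [FS, FY, g0, g1, g2, Bool.false_eq_true, if_false, vl_cons, vl_nil, vm_sc, vm_mu,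
      ← toPQ_du, ← toPQ_dp, ev_toPQ]
    push_cast
    ring
  · have e : ∑ j, ∑ l, pd j (pd l f) x * vl (gN j l (true, i, m)) (v3 x) (v3 (gr f x)) =
        -∑ l, pd i (pd l f) x * vm (du l m) (v3 x) (v3 (gr f x)) := by
      rw [Finset.sum_eq_single i]
      · simp [gN, vl, vm_sc]
      · intro j _ hj
        simp [gN, vl, hj]
      · simp
    rw [e]
    simp only [FS, FX, g0, g1, g2, if_true, vl_cons, vl_nil, vm_sc, vm_mu,
      ← toPQ_du, ← toPQ_dp, ev_toPQ, Fin.sum_univ_three]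
    push_cast
    ring

/-- the sum over the list -/
noncomputable def FL (S : List Sd) (f : E3 → ℝ) : E3 → ℝ := fun x => (S.map fun s => FS s f x).sum

theorem FL_sm {f : E3 → ℝ} (hs : Sm f) (S : List Sd) : Sm (FL S f) := by
  induction S with
  | nil =>
    have : FL [] f = fun _ => 0 := by funext x; simp [FL]
    rw [this]; exact Sm.const 0
  | cons s S ih =>
    have : FL (s :: S) f = fun x => FS s f x + FL S f x := by funext x; simp [FL]
    rw [this]; exact (FS_sm hs s).add ih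

theorem SI_FL {f : E3 → ℝ} (hs : Sm f) (hk : Hom 1 f) (S : List Sd) : SI (FL S f) = 0 := by
  induction S with
  | nil =>
    have : FL [] f = fun _ => 0 := by funext x; simp [FL]
    rw [this]
    simp [SI]
  | cons s S ih =>
    have : FL (s :: S) f = fun x => FS s f x + FL S f x := by funext x; simp [FL]
    rw [this, SI_add (FS_sm hs s) (FL_sm hs S), SI_FS hs hk, ih, add_zero]

theorem FL_eq (S : List Sd) (f : E3 → ℝ) (x : E3) :
    FL S f x = vl (S.flatMap g0) (v3 x) (v3 (gr f x)) +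
      lap f x * vl (S.flatMap g1) (v3 x) (v3 (gr f x)) +
      (lap f x ^ 2 - hs2 f x) * (vl (S.flatMap g2) (v3 x) (v3 (gr f x)) / 2) +
      ∑ j, ∑ l, pd j (pd l f) x * vl (S.flatMap (gN j l)) (v3 x) (v3 (gr f x)) := by
  induction S with
  | nil => simp [FL, vl]
  | cons s S ih =>
    have : FL (s :: S) f x = FS s f x + FL S f x := by simp [FL]
    rw [this, ih, FS_eq]
    simp only [List.flatMap_cons, vl_append, mul_add, Finset.sum_add_distrib]
    ring

/-- Hessian of the odd part: bounds -/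
theorem hess_odd {f : E3 → ℝ} (h : SSup f 1) {x : E3} (hx : ‖x‖ = 1) (v : Fin 3 → ℝ)
    (hv : ∑ i, v i ^ 2 = 1) (hxv : ∑ i, x i * v i = 0) :
    |bil (fun i j => pd i (pd j (oddpart f 1)) x) v v| ≤ 1 / 2 := by
  have hx0 : x ≠ 0 := by
    rintro rfl
    simp at hx
  have e1 : ∀ i j, pd i (pd j (oddpart f 1)) x =
      pd i (pd j f) x - 1 / 2 * ((if j = i then 1 else 0) - x j * x i) := by
    intro i j
    unfold oddpart
    rw [pd_congr (fun y hy => pd_sub h.sm ((Sm.const _).mul Sm.norm) j hy) i hx0,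
      pd_sub (h.sm.pd j) (((Sm.const _).mul Sm.norm).pd j) i hx0,
      pd_congr (fun y hy => pd_const_mul _ Sm.norm j hy) i hx0,
      pd_const_mul _ (Sm.norm.pd j) i hx0, pd_pd_norm j i hx0, hx]
    simp
  set w' : E3 := WithLp.toLp 2 v with hw
  have p1 := h.psd hx0 w'
  have p2 := h.psd (neg_ne_zero.2 hx0) w'
  have w1 : ∀ i, w' i = v i := fun i => rfl
  have an : ∀ i j, pd j (pd i f) (-x) = 1 * ((if i = j then 1 else 0) - x i * x j) -
      pd j (pd i f) x := fun i j => by
    have := h.antipodal hx i j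
    linarith
  simp only [an, w1] at p1 p2
  have q : ∑ i, ∑ j, v i * v j * ((if i = j then (1 : ℝ) else 0) - x i * x j) = 1 := by
    have a1 : ∀ i, ∑ j, v i * v j * ((if i = j then (1 : ℝ) else 0) - x i * x j) =
        v i ^ 2 - (x i * v i) * ∑ j, x j * v j := by
      intro i
      simp only [mul_sub, Finset.sum_sub_distrib, mul_ite, mul_one, mul_zero,
        Finset.sum_ite_eq, Finset.mem_univ, if_true, Finset.mul_sum]
      congr 1
      · ring
      · exact Finset.sum_congr rfl fun j _ => by ring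
    simp only [a1, hxv, mul_zero, sub_zero, hv]
  have b0 : bil (fun i j => pd i (pd j (oddpart f 1)) x) v v =
      ∑ i, ∑ j, v i * v j * pd j (pd i f) x - 1 / 2 := by
    unfold bil
    simp only [e1]
    have : ∀ i j, v i * v j * (pd i (pd j f) x - 1 / 2 * ((if j = i then 1 else 0) - x j * x i)) =
        v j * v i * pd i (pd j f) x - 1 / 2 * (v j * v i * ((if j = i then (1 : ℝ) else 0) - x j * x i)) := by
      intro i j; ring
    simp only [this, Finset.sum_sub_distrib, ← Finset.mul_sum]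
    rw [Finset.sum_comm, Finset.sum_comm (f := fun i j => v j * v i *
      ((if j = i then (1 : ℝ) else 0) - x j * x i)), q]
    ring
  have b1 : ∑ i, ∑ j, v i * v j * (1 * ((if i = j then (1 : ℝ) else 0) - x i * x j) -
      pd j (pd i f) x) = 1 - ∑ i, ∑ j, v i * v j * pd j (pd i f) x := by
    have : ∀ i j, v i * v j * (1 * ((if i = j then (1 : ℝ) else 0) - x i * x j) -
        pd j (pd i f) x) = v i * v j * ((if i = j then (1 : ℝ) else 0) - x i * x j) -
        v i * v j * pd j (pd i f) x := by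
      intro i j; ring
    simp only [this, Finset.sum_sub_distrib, q]
  rw [b1] at p2
  rw [b0, abs_le]
  constructor <;> linarith

/-- **volume from a list of seeds** -/
theorem volS {f : E3 → ℝ} (h : SSup f 1) (S : List Sd) {N V : ℝ}
    (H : ∀ u p : E3, ‖u‖ = 1 → p + (1 / 2 : ℝ) • u ∈ Bd f → p - (1 / 2 : ℝ) • u ∈ Bd f →
      CertX (fun i => u i) (vl (S.flatMap g0) (v3 u) (v3 p) / N)
        (vl (S.flatMap g1) (v3 u) (v3 p) / N) (vl (S.flatMap g2) (v3 u) (v3 p) / (2 * N))
        (fun j l => vl (S.flatMap (gN j l)) (v3 u) (v3 p) / N) V) :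
    ENNReal.ofReal (π / 6 - 2 * π * V) ≤ volume (Bd f) := by
  set g := oddpart f 1 with hg
  have gs : Sm g := h.oddpart_sm
  have gh : Hom 1 g := h.oddpart_hom
  have key : SI (fun x => (-(1 / 2)) * (lap g x ^ 2 - hs2 g x) + 1 / N * FL S g x) ≤
      SI (fun _ => V) := by
    apply SI_mono
    · exact ((Sm.const _).mul ((gs.lap.pow 2).sub gs.hs2)).add ((Sm.const _).mul (FL_sm gs S))
    · exact Sm.const _
    · intro x hx
      have hx0 : x ≠ 0 := by
        rintro rfl
        simp at hx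
      have e1 : gr g x + (1 / 2 : ℝ) • x = gr f x := by
        ext i
        simp only [PiLp.add_apply, PiLp.smul_apply, gr_apply, smul_eq_mul]
        rw [hg, DL.oddpart_pd h i hx]
        ring
      have e2 : gr g x - (1 / 2 : ℝ) • x = gr f x - x := by
        rw [← e1]
        module
      have hc := H x (gr g x) hx (by rw [e1]; exact gr_mem h hx0) (by rw [e2]; exact opp_mem h hx)
      have hu : ∑ i, x i ^ 2 = 1 := by
        have := sum_sq_one hx
        simpa [Fin.sum_univ_three] using this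
      have sy : ∀ i j, pd i (pd j g) x = pd j (pd i g) x := fun i j => pd_comm gs i j hx0
      have h0 : ∀ i, ∑ j, x j * pd j (pd i g) x = 0 := by
        intro i
        have := Helper80.CW.euler (gh.pd gs i) (gs.pd i) hx0
        simpa using this
      have pt := hc.point hu (H := fun i j => pd i (pd j g) x) sy h0
        (fun v hv hxv => hess_odd h hx v hv hxv)
      have l1 : ∑ i, pd i (pd i g) x = lap g x := rfl
      have l2 : ∑ i, ∑ j, pd i (pd j g) x ^ 2 = hs2 g x := by
        unfold hs2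
        exact Finset.sum_congr rfl fun i _ => Finset.sum_congr rfl fun j _ => by rw [sy]
      rw [l1, l2] at pt
      rw [FL_eq]
      have l3 : ∑ i, ∑ j, pd i (pd j g) x * (vl (S.flatMap (gN i j)) (v3 x) (v3 (gr g x)) / N) =
          1 / N * ∑ i, ∑ j, pd i (pd j g) x * vl (S.flatMap (gN i j)) (v3 x) (v3 (gr g x)) := by
        rw [Finset.mul_sum]
        refine Finset.sum_congr rfl fun i _ => ?_
        rw [Finset.mul_sum]
        exact Finset.sum_congr rfl fun j _ => by ring
      rw [l3] at pt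
      refine le_trans (le_of_eq ?_) pt
      ring
  rw [SI_const, SI_add ((Sm.const _).mul ((gs.lap.pow 2).sub gs.hs2))
    ((Sm.const _).mul (FL_sm gs S)), SI_const_mul, SI_const_mul, SI_FL gs gh, mul_zero,
    add_zero] at key
  apply volume_ge h
  rw [vol_id h, ← hg]
  linarith

/-- the same, seen from `x0` in the frame `B` -/
theorem volS_mv {f : E3 → ℝ} (h : SSup f 1) {x0 : E3} (hx0 : x0 ∈ Bd f) (B : E3 ≃ₗᵢ[ℝ] E3)
    (S : List Sd) {N V : ℝ}
    (H : ∀ u p : E3, ‖u‖ = 1 → x0 + B (p + (1 / 2 : ℝ) • u) ∈ Bd f →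
      x0 + B (p - (1 / 2 : ℝ) • u) ∈ Bd f →
      CertX (fun i => u i) (vl (S.flatMap g0) (v3 u) (v3 p) / N)
        (vl (S.flatMap g1) (v3 u) (v3 p) / N) (vl (S.flatMap g2) (v3 u) (v3 p) / (2 * N))
        (fun j l => vl (S.flatMap (gN j l)) (v3 u) (v3 p) / N) V) :
    ENNReal.ofReal (π / 6 - 2 * π * V) ≤ volume (Bd f) := by
  rw [← vol_mv (f := f) (x0 := x0) B]
  apply volS (mv_ssup h hx0 B) S
  intro u p hu h1 h2
  exact H u p hu (mem_mv.1 h1) (mem_mv.1 h2)

end Helper80.CW.DL
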