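import Pool.Agent.Helper80.CW.Polar

namespace Helper80.CW

open Set Metric MeasureTheory
open scoped ContDiff Topology

/-- one-dimensional bump supported in `(1,3)` -/
noncomputable def bmp : ContDiffBump (2 : ℝ) := ⟨1/2, 1, by norm_num, by norm_num⟩

noncomputable def psi (r : ℝ) : ℝ := bmp r

theorem psi_smooth : ContDiff ℝ ∞ psi := bmp.contDiff

theorem psi_nonneg (r : ℝ) : 0 ≤ psi r := bmp.nonneg

theorem psi_zero {r : ℝ} (h : r ≤ 1 ∨ 3 ≤ r) : psi r = 0 := by
  apply bmp.zero_of_le_dist
  show (1 : ℝ) ≤ dist r 2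
  rw [Real.dist_eq]
  rcases h with h | h
  · rw [abs_of_nonpos (by linarith)]; linarith
  · rw [abs_of_nonneg (by linarith)]; linarith

theorem psi_two : psi 2 = 1 := by
  apply bmp.one_of_mem_closedBall
  simp [bmp]

/-- spherical cutoff -/
noncomputable def cut (x : E3) : ℝ := psi ‖x‖

theorem cut_zero_of {x : E3} (h : ‖x‖ ≤ 1 ∨ 3 ≤ ‖x‖) : cut x = 0 := psi_zero h

theorem zero_notMem_tsupport_cut : (0 : E3) ∉ tsupport cut := by
  rw [notMem_tsupport_iff_eventuallyEq]
  filter_upwards [isOpen_ball.mem_nhds (mem_ball_self (x := (0 : E3)) one_pos)] with x hx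
  have : ‖x‖ < 1 := by simpa using hx
  exact cut_zero_of (Or.inl this.le)

theorem cut_contDiff : ContDiff ℝ ∞ cut := by
  rw [contDiff_iff_contDiffAt]
  intro x
  by_cases hx : x = 0
  · subst hx
    have h := notMem_tsupport_iff_eventuallyEq.1 zero_notMem_tsupport_cut
    exact (contDiffAt_const (c := (0 : ℝ))).congr_of_eventuallyEq h
  · exact psi_smooth.contDiffAt.comp x (contDiffAt_norm ℝ hx)

theorem cut_compact : HasCompactSupport cut := by
  apply HasCompactSupport.intro (isCompact_closedBall (0 : E3) 3)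
  intro x hx
  apply cut_zero_of
  right
  simp at hx
  exact hx.le

theorem integrable_cut_mul {χ : E3 → ℝ} (hχ : Continuous χ) (hc : HasCompactSupport χ)
    (h0 : (0 : E3) ∉ tsupport χ) {f : E3 → ℝ} (hf : Sm f) :
    Integrable (fun x => χ x * f x) := by
  have hcont : Continuous (fun x => χ x * f x) := by
    rw [continuous_iff_continuousAt]
    intro x
    by_cases hx : x = 0
    · subst hx
      have h := notMem_tsupport_iff_eventuallyEq.1 h0
      have h2 : (fun x => χ x * f x) =ᶠ[𝓝 0] fun _ => (0 : ℝ) := by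
        filter_upwards [h] with y hy
        simp [hy]
      exact (continuousAt_const (y := (0 : ℝ))).congr h2.symm
    · exact hχ.continuousAt.mul (hf x hx).continuousAt
  exact hcont.integrable_of_hasCompactSupport hc.mul_right

theorem pd_cut (i : Fin 3) {x : E3} (hx : x ≠ 0) : pd i cut x = deriv psi ‖x‖ * (x i / ‖x‖) := by
  have h1 : HasFDerivAt (fun y : E3 => ‖y‖) (fderiv ℝ (fun y : E3 => ‖y‖) x) x :=
    (Sm.norm.diffAt hx).hasFDerivAt
  have h2 : HasDerivAt psi (deriv psi ‖x‖) ‖x‖ :=
    ((psi_smooth.differentiable (by simp)) _).hasDerivAt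
  have h3 := h2.comp_hasFDerivAt x h1
  have h4 : fderiv ℝ cut x = deriv psi ‖x‖ • fderiv ℝ (fun y : E3 => ‖y‖) x := h3.fderiv
  unfold pd
  rw [h4]
  have h5 := pd_norm i hx
  unfold pd at h5
  simp [h5]

theorem ibp {f : E3 → ℝ} (hf : Sm f) (i : Fin 3) :
    ∫ x, cut x * pd i f x = - ∫ x, pd i cut x * f x := by
  apply integral_mul_fderiv_eq_neg_fderiv_mul_of_integrable (v := e i)
  · apply integrable_cut_mul (χ := fun x => fderiv ℝ cut x (e i)) _ _ _ hf
    · exact (cut_contDiff.continuous_fderiv (by simp)).clm_apply continuous_const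
    · exact cut_compact.fderiv_apply (𝕜 := ℝ) (e i)
    · intro h
      exact zero_notMem_tsupport_cut (tsupport_fderiv_apply_subset ℝ (e i) h)
  · exact integrable_cut_mul cut_contDiff.continuous cut_compact zero_notMem_tsupport_cut (hf.pd i)
  · exact integrable_cut_mul cut_contDiff.continuous cut_compact zero_notMem_tsupport_cut hf
  · intro x _
    exact cut_contDiff.differentiable (by simp) x
  · intro x hx
    apply hf.diffAt
    rintro rfl
    exact zero_notMem_tsupport_cut hx

theorem setIntegral_Ioi_eq {g : ℝ → ℝ} (hg : ∀ r, r ≤ 1 ∨ 3 ≤ r → g r = 0) :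
    ∫ r in Ioi (0 : ℝ), g r = ∫ r in (1 : ℝ)..3, g r := by
  rw [intervalIntegral.integral_of_le (by norm_num)]
  apply setIntegral_eq_of_subset_of_forall_sdiff_eq_zero measurableSet_Ioi
  · intro r hr
    simp only [mem_Ioc, mem_Ioi] at hr ⊢
    linarith
  · intro r hr
    apply hg
    simp only [mem_sdiff, mem_Ioi, mem_Ioc, not_and, not_le] at hr
    by_cases h : 1 < r
    · right; exact (hr.2 h).le
    · left; linarith

theorem deriv_psi_zero {r : ℝ} (h : r ≤ 1 ∨ 3 ≤ r) : deriv psi r = 0 := by
  have h1 : IsLocalMin psi r := by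
    filter_upwards with s
    rw [psi_zero h]
    exact psi_nonneg s
  exact h1.deriv_eq_zero

theorem psi_ibp (m : ℤ) :
    ∫ r in Ioi (0 : ℝ), r ^ 2 * ((deriv psi r / r) * r ^ (m + 1)) =
      - ((m + 2) * ∫ r in Ioi (0 : ℝ), r ^ 2 * (psi r * r ^ (m - 1))) := by
  have hcp : Continuous (deriv psi) := psi_smooth.continuous_deriv (by simp)
  have hcq : Continuous psi := psi_smooth.continuous
  rw [setIntegral_Ioi_eq (g := fun r => r ^ 2 * ((deriv psi r / r) * r ^ (m + 1)))
      (by intro r hr; simp [deriv_psi_zero hr]),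
    setIntegral_Ioi_eq (g := fun r => r ^ 2 * (psi r * r ^ (m - 1)))
      (by intro r hr; simp [psi_zero hr])]
  have hz : ∀ n : ℤ, ContinuousOn (fun r : ℝ => r ^ n) (Icc 1 3) := by
    intro n r hr
    exact (continuousAt_zpow₀ r n (Or.inl (by linarith [hr.1]))).continuousWithinAt
  have h1 : ∫ r in (1 : ℝ)..3, (deriv psi r * r ^ (m + 2) + psi r * ((m + 2) * r ^ (m + 1))) = 0 := by
    have h2 := intervalIntegral.integral_eq_sub_of_hasDerivAt
      (a := (1 : ℝ)) (b := 3) (f := fun r => psi r * r ^ (m + 2))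
      (f' := fun r => deriv psi r * r ^ (m + 2) + psi r * ((m + 2) * r ^ (m + 1))) ?_ ?_
    · rw [h2, psi_zero (Or.inr le_rfl), psi_zero (Or.inl le_rfl)]
      ring
    · intro r hr
      rw [uIcc_of_le (by norm_num)] at hr
      have hr0 : r ≠ 0 := by linarith [hr.1]
      have h3 := hasDerivAt_zpow (m + 2) r (Or.inl hr0)
      have h4 : HasDerivAt psi (deriv psi r) r :=
        ((psi_smooth.differentiable (by simp)) _).hasDerivAt
      have h5 := h4.mul h3
      have e3 : ((m + 2 : ℤ) : ℝ) * r ^ (m + 2 - 1) = (m + 2) * r ^ (m + 1) := by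
        push_cast
        rw [show m + 2 - 1 = m + 1 by ring]
      rw [e3] at h5
      exact h5
    · apply ContinuousOn.intervalIntegrable
      rw [uIcc_of_le (by norm_num)]
      exact (hcp.continuousOn.mul (hz _)).add (hcq.continuousOn.mul (continuousOn_const.mul (hz _)))
  have hi1 : IntervalIntegrable (fun r => deriv psi r * r ^ (m + 2)) volume 1 3 := by
    apply ContinuousOn.intervalIntegrable
    rw [uIcc_of_le (by norm_num)]
    exact (hcp.continuousOn.mul (hz _))
  have hi2 : IntervalIntegrable (fun r => psi r * ((m + 2) * r ^ (m + 1))) volume 1 3 := by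
    apply ContinuousOn.intervalIntegrable
    rw [uIcc_of_le (by norm_num)]
    exact (hcq.continuousOn.mul (continuousOn_const.mul (hz _)))
  rw [intervalIntegral.integral_add hi1 hi2] at h1
  have e1 : ∫ r in (1 : ℝ)..3, r ^ 2 * ((deriv psi r / r) * r ^ (m + 1)) =
      ∫ r in (1 : ℝ)..3, deriv psi r * r ^ (m + 2) := by
    apply intervalIntegral.integral_congr
    intro r hr
    rw [uIcc_of_le (by norm_num)] at hr
    have hr0 : r ≠ 0 := by linarith [hr.1]
    simp only
    rw [show m + 2 = (m + 1) + 1 by ring, zpow_add_one₀ hr0 (m + 1)]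
    field_simp
  have e2 : ∫ r in (1 : ℝ)..3, psi r * ((m + 2) * r ^ (m + 1)) =
      (m + 2) * ∫ r in (1 : ℝ)..3, r ^ 2 * (psi r * r ^ (m - 1)) := by
    rw [← intervalIntegral.integral_const_mul]
    apply intervalIntegral.integral_congr
    intro r hr
    rw [uIcc_of_le (by norm_num)] at hr
    have hr0 : r ≠ 0 := by linarith [hr.1]
    simp only
    rw [show m + 1 = (m - 1) + 1 + 1 by ring, zpow_add_one₀ hr0, zpow_add_one₀ hr0]
    ring
  rw [e1]
  rw [e2] at h1
  linarith

theorem psi_pos_int (m : ℤ) : 0 < ∫ r in Ioi (0 : ℝ), r ^ 2 * (psi r * r ^ (m - 1)) := by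
  rw [setIntegral_Ioi_eq (g := fun r => r ^ 2 * (psi r * r ^ (m - 1)))
      (by intro r hr; simp [psi_zero hr])]
  have hz : ∀ n : ℤ, ContinuousOn (fun r : ℝ => r ^ n) (Icc 1 3) := by
    intro n r hr
    exact (continuousAt_zpow₀ r n (Or.inl (by linarith [hr.1]))).continuousWithinAt
  apply intervalIntegral.integral_pos (by norm_num)
  · exact (continuous_pow 2).continuousOn.mul (psi_smooth.continuous.continuousOn.mul (hz _))
  · intro r hr
    have : 0 < r := by linarith [hr.1]
    have := psi_nonneg r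
    positivity
  · refine ⟨2, ⟨by norm_num, by norm_num⟩, ?_⟩
    rw [psi_two]
    positivity

/-- divergence lemma on the sphere for homogeneous vector fields -/
theorem div_lemma {m : ℤ} (W : Fin 3 → E3 → ℝ) (hs : ∀ i, Sm (W i)) (hh : ∀ i, Hom m (W i)) :
    SI (fun x => ∑ i, pd i (W i) x) = (m + 2) * SI (fun x => ∑ i, x i * W i x) := by
  have h1 : ∫ x, cut x * (∑ i, pd i (W i) x) =
      - ∫ x, (deriv psi ‖x‖ / ‖x‖) * (∑ i, x i * W i x) := by
    have a1 : ∫ x, cut x * (∑ i, pd i (W i) x) = ∑ i, ∫ x, cut x * pd i (W i) x := by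
      rw [← integral_finsetSum]
      · congr 1
        ext x
        rw [Finset.mul_sum]
      · intro i _
        exact integrable_cut_mul cut_contDiff.continuous cut_compact zero_notMem_tsupport_cut
          ((hs i).pd i)
    have a2 : ∫ x, (deriv psi ‖x‖ / ‖x‖) * (∑ i, x i * W i x) = ∑ i, ∫ x, pd i cut x * W i x := by
      rw [← integral_finsetSum]
      · apply integral_congr_ae
        have : ∀ᵐ x : E3, x ≠ 0 := by
          simp [ae_iff, measure_singleton]
        filter_upwards [this] with x hx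
        rw [Finset.mul_sum]
        apply Finset.sum_congr rfl
        intro i _
        rw [pd_cut i hx]
        ring
      · intro i _
        apply integrable_cut_mul (χ := fun x => fderiv ℝ cut x (e i)) _ _ _ (hs i)
        · exact (cut_contDiff.continuous_fderiv (by simp)).clm_apply continuous_const
        · exact cut_compact.fderiv_apply (𝕜 := ℝ) (e i)
        · intro h
          exact zero_notMem_tsupport_cut (tsupport_fderiv_apply_subset ℝ (e i) h)
    rw [a1, a2, ← Finset.sum_neg_distrib]
    exact Finset.sum_congr rfl (fun i _ => ibp (hs i) i)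
  have hL : Hom (m - 1) (fun x => ∑ i, pd i (W i) x) := Hom.sum (fun i _ => (hh i).pd (hs i) i)
  have hR : Hom (m + 1) (fun x => ∑ i, x i * W i x) := by
    apply Hom.sum
    intro i _
    have := (Hom.coord i).mul (hh i)
    rwa [add_comm] at this
  have h2 := polar hL psi
  have h3 := polar hR (fun r => deriv psi r / r)
  rw [psi_ibp] at h3
  have h4 : ∫ x, cut x * (∑ i, pd i (W i) x) = ∫ x : E3, psi ‖x‖ * (∑ i, pd i (W i) x) := rfl
  rw [h4, h2, h3] at h1
  have hp := psi_pos_int m
  have : (∫ r in Ioi (0 : ℝ), r ^ 2 * (psi r * r ^ (m - 1))) *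
      (SI (fun x => ∑ i, pd i (W i) x) - (m + 2) * SI (fun x => ∑ i, x i * W i x)) = 0 := by
    linarith
  rcases mul_eq_zero.1 this with h | h
  · exact absurd h hp.ne'
  · linarith

end Helper80.CW
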