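import Pool.Agent.Helper80.CW.Star

namespace Helper80.CW

open Set Metric MeasureTheory ProbabilityTheory
open scoped ContDiff Topology RealInnerProductSpace Real

/-- Laplacian -/
noncomputable def lap (f : E3 → ℝ) : E3 → ℝ := fun x => ∑ i, pd i (pd i f) x

/-- squared norm of Hessian -/
noncomputable def hs2 (f : E3 → ℝ) : E3 → ℝ := fun x => ∑ i, ∑ j, pd j (pd i f) x ^ 2

/-- squared norm of gradient -/
noncomputable def gr2 (f : E3 → ℝ) : E3 → ℝ := fun x => ∑ i, pd i f x ^ 2

theorem Sm.lap {f : E3 → ℝ} (hf : Sm f) : Sm (lap f) := Sm.sum (fun i _ => (hf.pd i).pd i)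

theorem Sm.hs2 {f : E3 → ℝ} (hf : Sm f) : Sm (hs2 f) :=
  Sm.sum (fun i _ => Sm.sum (fun j _ => ((hf.pd i).pd j).pow 2))

theorem Sm.gr2 {f : E3 → ℝ} (hf : Sm f) : Sm (gr2 f) := Sm.sum (fun i _ => (hf.pd i).pow 2)

theorem Hom.lap {k : ℤ} {f : E3 → ℝ} (hk : Hom k f) (hf : Sm f) : Hom (k - 2) (lap f) := by
  apply Hom.sum
  intro i _
  have := (hk.pd hf i).pd (hf.pd i) i
  rwa [show k - 1 - 1 = k - 2 by ring] at this

theorem Hom.hs2 {k : ℤ} {f : E3 → ℝ} (hk : Hom k f) (hf : Sm f) : Hom (2 * k - 4) (hs2 f) := by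
  apply Hom.sum
  intro i _
  apply Hom.sum
  intro j _
  have := ((hk.pd hf i).pd (hf.pd i) j).sq
  rwa [show 2 * (k - 1 - 1) = 2 * k - 4 by ring] at this

theorem Hom.gr2 {k : ℤ} {f : E3 → ℝ} (hk : Hom k f) (hf : Sm f) : Hom (2 * k - 2) (gr2 f) := by
  apply Hom.sum
  intro i _
  have := (hk.pd hf i).sq
  rwa [show 2 * (k - 1) = 2 * k - 2 by ring] at this

section
variable {P : E3 → ℝ}

theorem int_Fs (_h : Good P) (x : E3) :
    ∫ y, Fs P (x, y) ∂(stdGaussian E3) =
      lap P x ^ 2 + (∑ i, ∑ j, (pd j (pd i P) x ^ 2 + pd j (pd i P) x * pd i (pd j P) x)) -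
        6 * (P x * lap P x) + 18 * P x ^ 2 - 10 * gr2 P x := by
  have i1 : Integrable (fun y : E3 => (Qf P x y) ^ 2) (stdGaussian E3) := by
    have hc : Continuous (fun y : E3 => Qf P x y) := by
      unfold Qf
      exact continuous_finsetSum _ (fun i _ => continuous_finsetSum _ (fun j _ => by fun_prop))
    apply integrable_of_bound (hc.pow 2) (C := (∑ i, ∑ j, |pd j (pd i P) x|) ^ 2) (n := 4)
    intro y
    have hb : |Qf P x y| ≤ (∑ i, ∑ j, |pd j (pd i P) x|) * ‖y‖ ^ 2 := by
      unfold Qf
      rw [Finset.sum_mul]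
      apply (Finset.abs_sum_le_sum_abs _ _).trans
      apply Finset.sum_le_sum
      intro i _
      rw [Finset.sum_mul]
      apply (Finset.abs_sum_le_sum_abs _ _).trans
      apply Finset.sum_le_sum
      intro j _
      rw [abs_mul, abs_mul, sq]
      gcongr <;> exact coord_le _ _
    show |Qf P x y ^ 2| ≤ _
    rw [abs_pow]
    calc |Qf P x y| ^ 2 ≤ ((∑ i, ∑ j, |pd j (pd i P) x|) * ‖y‖ ^ 2) ^ 2 :=
          pow_le_pow_left₀ (abs_nonneg _) hb 2
      _ = (∑ i, ∑ j, |pd j (pd i P) x|) ^ 2 * ‖y‖ ^ 4 := by ring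
      _ ≤ _ := by
        apply mul_le_mul_of_nonneg_left _ (by positivity)
        linarith
  have i2 : Integrable (fun y : E3 => Qf P x y) (stdGaussian E3) := by
    unfold Qf
    exact integrable_finsetSum _ (fun i _ => integrable_finsetSum _ (fun j _ =>
      (integrable2 i j).const_mul _))
  have i3 : Integrable (fun y : E3 => (Df P x y) ^ 2) (stdGaussian E3) := by
    have : (fun y : E3 => (Df P x y) ^ 2) =
        fun y => ∑ i, ∑ j, (pd i P x * pd j P x) * (y i * y j) := by
      ext y
      unfold Df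
      rw [sq, Finset.sum_mul]
      apply Finset.sum_congr rfl
      intro i _
      rw [Finset.mul_sum]
      apply Finset.sum_congr rfl
      intro j _
      ring
    rw [this]
    exact integrable_finsetSum _ (fun i _ => integrable_finsetSum _ (fun j _ =>
      (integrable2 i j).const_mul _))
  have e1 : ∀ y, Fs P (x, y) = (Qf P x y) ^ 2 + (- (6 * P x)) * Qf P x y + 18 * P x ^ 2 -
      10 * (Df P x y) ^ 2 := by
    intro y
    unfold Fs
    ring
  simp only [e1]
  rw [integral_sub, integral_add, integral_add, integral_const, integral_const_mul,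
    integral_const_mul]
  · have q1 := int_quad_sq (fun i j => pd j (pd i P) x)
    have q2 := int_quad (fun i j => pd j (pd i P) x)
    have q3 := int_quad (fun i j => pd i P x * pd j P x)
    have q4 : ∫ y : E3, (Df P x y) ^ 2 ∂(stdGaussian E3) = gr2 P x := by
      rw [← q3.trans (show ∑ i, pd i P x * pd i P x = gr2 P x by
        unfold gr2
        apply Finset.sum_congr rfl
        intro i _
        ring)]
      congr 1
      ext y
      unfold Df
      rw [sq, Finset.sum_mul]
      apply Finset.sum_congr rfl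
      intro i _
      rw [Finset.mul_sum]
      apply Finset.sum_congr rfl
      intro j _
      ring
    rw [q4]
    unfold Qf
    rw [q1, q2]
    simp only [probReal_univ, one_smul]
    unfold lap
    ring
  · exact i1
  · exact i2.const_mul _
  · exact i1.add (i2.const_mul _)
  · exact integrable_const _
  · exact (i1.add (i2.const_mul _)).add (integrable_const _)
  · exact i3.const_mul _

theorem Fs_integrable (h : Good P) :
    Integrable (Fs P) ((stdGaussian E3).prod (stdGaussian E3)) := by
  obtain ⟨C, hC0, hC⟩ := h.Fs_bound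
  have hint6 : Integrable (fun p : E3 × E3 => ‖p‖ ^ 6) ((stdGaussian E3).prod (stdGaussian E3)) :=
    (IsGaussian.memLp_id ((stdGaussian E3).prod (stdGaussian E3)) 6 (by simp)).integrable_norm_pow'
  apply (hint6.const_mul C).mono' h.Fs_cont.aestronglyMeasurable
  filter_upwards with p
  exact hC p _ (norm_fst_le _) (norm_snd_le _)

/-- the sphere form of the star inequality -/
theorem star_sphere (h : Good P) :
    0 ≤ SI (fun x => lap P x ^ 2) + 2 * SI (hs2 P) - 30 * SI (fun x => P x * lap P x)
      + 630 * SI (fun x => P x ^ 2) - 50 * SI (gr2 P) := by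
  have h1 := star h
  rw [integral_prod _ (Fs_integrable h)] at h1
  simp only [int_Fs h] at h1
  -- integrate each homogeneous piece
  have s0 := h.sm
  have hl : Sm (lap P) := s0.lap
  have k1 : Hom 2 (fun x => lap P x ^ 2) := by
    have := (h.hom.lap s0).sq
    norm_num at this
    exact this
  have k2 : Hom 2 (hs2 P) := by
    have := h.hom.hs2 s0
    norm_num at this
    exact this
  have k3 : Hom 4 (fun x => P x * lap P x) := by
    have := h.hom.mul (h.hom.lap s0)
    norm_num at this
    exact this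
  have k4 : Hom 6 (fun x => P x ^ 2) := by
    have := h.hom.sq
    norm_num at this
    exact this
  have k5 : Hom 4 (gr2 P) := by
    have := h.hom.gr2 s0
    norm_num at this
    exact this
  have lcont : Continuous (lap P) := continuous_finsetSum _ (fun i _ => h.cont2 i i)
  have lb : ∃ C, 0 ≤ C ∧ ∀ x, |lap P x| ≤ C * ‖x‖ ^ 1 := by
    apply hom_bound hl
    · have := h.hom.lap s0
      norm_num at this
      exact_mod_cast this
    · unfold lap
      exact Finset.sum_eq_zero (fun i _ => (h.pd2 i i).2.2)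
  have hcont : Continuous (hs2 P) := continuous_finsetSum _ (fun i _ =>
    continuous_finsetSum _ (fun j _ => (h.cont2 i j).pow 2))
  have gcont : Continuous (gr2 P) := continuous_finsetSum _ (fun i _ => (h.cont1 i).pow 2)
  have z0 : ∀ {f : E3 → ℝ} {k : ℕ}, Sm f → Hom k f → f 0 = 0 → Continuous f →
      Integrable f (stdGaussian E3) := by
    intro f k a1 a2 a3 a4
    obtain ⟨C, hC0, hC⟩ := hom_bound a1 a2 a3
    apply integrable_of_bound a4 (C := C) (n := k)
    intro y
    exact (hC y).trans (mul_le_mul_of_nonneg_left (by linarith) hC0)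
  have i1 : Integrable (fun x => lap P x ^ 2) (stdGaussian E3) := by
    refine z0 (k := 2) (hl.pow 2) (by exact_mod_cast k1) ?_ (lcont.pow 2)
    simp only [lap, (h.pd2 _ _).2.2]
    simp
  have i2 : Integrable (hs2 P) (stdGaussian E3) := by
    refine z0 (k := 2) s0.hs2 (by exact_mod_cast k2) ?_ hcont
    simp only [hs2, (h.pd2 _ _).2.2]
    simp
  have i3 : Integrable (fun x => P x * lap P x) (stdGaussian E3) := by
    refine z0 (k := 4) (s0.mul hl) (by exact_mod_cast k3) ?_ (h.cont.mul lcont)
    simp [h.zero]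
  have i4 : Integrable (fun x => P x ^ 2) (stdGaussian E3) := by
    refine z0 (k := 6) (s0.pow 2) (by exact_mod_cast k4) ?_ (h.cont.pow 2)
    simp [h.zero]
  have i5 : Integrable (gr2 P) (stdGaussian E3) := by
    refine z0 (k := 4) s0.gr2 (by exact_mod_cast k5) ?_ gcont
    simp only [gr2, (h.pd1 _).2.2]
    simp
  have e2 : ∀ x : E3, x ≠ 0 → (∑ i, ∑ j, (pd j (pd i P) x ^ 2 + pd j (pd i P) x * pd i (pd j P) x)) =
      2 * hs2 P x := by
    intro x hx
    unfold hs2
    rw [Finset.mul_sum]
    apply Finset.sum_congr rfl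
    intro i _
    rw [Finset.mul_sum]
    apply Finset.sum_congr rfl
    intro j _
    rw [pd_comm s0 i j hx]
    ring
  have hae : ∀ᵐ x ∂(stdGaussian E3), x ≠ 0 := by
    have h0 : ∀ᵐ x : E3, x ≠ 0 := by simp [ae_iff, measure_singleton]
    rw [stdGaussian_eq]
    exact (withDensity_absolutelyContinuous _ _).ae_le h0
  have e3 : ∫ x, (lap P x ^ 2 + (∑ i, ∑ j, (pd j (pd i P) x ^ 2 + pd j (pd i P) x * pd i (pd j P) x)) -
        6 * (P x * lap P x) + 18 * P x ^ 2 - 10 * gr2 P x) ∂(stdGaussian E3) =
      ∫ x, (lap P x ^ 2 + 2 * hs2 P x -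
        6 * (P x * lap P x) + 18 * P x ^ 2 - 10 * gr2 P x) ∂(stdGaussian E3) := by
    apply integral_congr_ae
    filter_upwards [hae] with x hx
    rw [e2 x hx]
  rw [e3, integral_sub, integral_add, integral_sub, integral_add, integral_const_mul,
    integral_const_mul, integral_const_mul, integral_const_mul, gauss_hom k1, gauss_hom k2,
    gauss_hom k3, gauss_hom k4, gauss_hom k5, JJ_four, JJ_six] at h1
  · have hj : 0 < JJ 2 := by exact_mod_cast JJ_two_pos
    have hz := gz_pos
    have h2 : 0 ≤ (gz⁻¹ * JJ 2) * (SI (fun x => lap P x ^ 2) + 2 * SI (hs2 P) -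
        30 * SI (fun x => P x * lap P x)
      + 630 * SI (fun x => P x ^ 2) - 50 * SI (gr2 P)) := by
      calc 0 ≤ _ := h1
        _ = _ := by ring
    have h3 : 0 < gz⁻¹ * JJ 2 := by positivity
    exact nonneg_of_mul_nonneg_right h2 h3
  · exact i1
  · exact i2.const_mul _
  · exact i1.add (i2.const_mul _)
  · exact i3.const_mul _
  · exact (i1.add (i2.const_mul _)).sub (i3.const_mul _)
  · exact i4.const_mul _
  · exact ((i1.add (i2.const_mul _)).sub (i3.const_mul _)).add (i4.const_mul _)
  · exact i5.const_mul _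

end

end Helper80.CW
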