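import Pool.Agent.Helper80.CW.Energy

namespace Helper80.CW

open Set Metric MeasureTheory ProbabilityTheory
open scoped ContDiff Topology RealInnerProductSpace Real

theorem J1 {k : ℤ} {f : E3 → ℝ} (hs : Sm f) (hk : Hom k f) :
    SI (gr2 f) + SI (fun x => f x * lap f x) = (2 * k + 1) * k * SI (fun x => f x ^ 2) := by
  have h := div_lemma (m := 2 * k - 1) (fun i x => f x * pd i f x) (fun i => hs.mul (hs.pd i))
    (fun i => by
      have := hk.mul (hk.pd hs i)
      rwa [show k + (k - 1) = 2 * k - 1 by ring] at this)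
  have e1 : SI (fun x => ∑ i, pd i (fun x => f x * pd i f x) x) =
      SI (fun x => gr2 f x + f x * lap f x) := by
    apply SI_congr
    intro x hx
    have hx0 : x ≠ 0 := by
      rintro rfl
      simp at hx
    unfold gr2 lap
    rw [Finset.mul_sum, ← Finset.sum_add_distrib]
    apply Finset.sum_congr rfl
    intro i _
    rw [pd_mul hs (hs.pd i) i hx0]
    ring
  have e2 : SI (fun x => ∑ i, x i * (f x * pd i f x)) = SI (fun x => k * f x ^ 2) := by
    apply SI_congr
    intro x hx
    have hx0 : x ≠ 0 := by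
      rintro rfl
      simp at hx
    have := euler hk hs hx0
    calc ∑ i, x i * (f x * pd i f x) = f x * ∑ i, x i * pd i f x := by
          rw [Finset.mul_sum]
          apply Finset.sum_congr rfl
          intro i _
          ring
      _ = _ := by rw [this]; ring
  rw [e1, e2, SI_add hs.gr2 (hs.mul hs.lap), SI_const_mul] at h
  rw [h]
  push_cast
  ring

theorem pd_lap {f : E3 → ℝ} (hs : Sm f) (j : Fin 3) {x : E3} (hx : x ≠ 0) :
    ∑ i, pd i (pd i (pd j f)) x = pd j (lap f) x := by
  unfold lap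
  rw [pd_sum (fun i _ => (hs.pd i).pd i) j hx]
  apply Finset.sum_congr rfl
  intro i _
  rw [pd_congr (fun y hy => pd_comm hs i j hy) i hx, pd_comm (hs.pd i) i j hx]

theorem J2 {k : ℤ} {f : E3 → ℝ} (hs : Sm f) (hk : Hom k f) :
    SI (fun x => lap f x ^ 2) - SI (hs2 f) =
      (2 * k - 1) * (k * SI (fun x => f x * lap f x) - (k - 1) * SI (gr2 f)) := by
  have hsW : ∀ i, Sm (fun x => lap f x * pd i f x - ∑ j, pd i (pd j f) x * pd j f x) := fun i =>
    (hs.lap.mul (hs.pd i)).sub (Sm.sum (fun j _ => ((hs.pd j).pd i).mul (hs.pd j)))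
  have h := div_lemma (m := 2 * k - 3)
    (fun i x => lap f x * pd i f x - ∑ j, pd i (pd j f) x * pd j f x) hsW
    (fun i => by
      apply Hom.sub
      · have := (hk.lap hs).mul (hk.pd hs i)
        rwa [show k - 2 + (k - 1) = 2 * k - 3 by ring] at this
      · apply Hom.sum
        intro j _
        have := ((hk.pd hs j).pd (hs.pd j) i).mul (hk.pd hs j)
        rwa [show k - 1 - 1 + (k - 1) = 2 * k - 3 by ring] at this)
  have e1 : SI (fun x => ∑ i, pd i (fun x => lap f x * pd i f x - ∑ j, pd i (pd j f) x * pd j f x) x) =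
      SI (fun x => lap f x ^ 2 - hs2 f x) := by
    apply SI_congr
    intro x hx
    have hx0 : x ≠ 0 := by
      rintro rfl
      simp at hx
    have a1 : ∀ i, pd i (fun x => lap f x * pd i f x - ∑ j, pd i (pd j f) x * pd j f x) x =
        pd i (lap f) x * pd i f x + lap f x * pd i (pd i f) x -
        ∑ j, (pd i (pd i (pd j f)) x * pd j f x + pd i (pd j f) x * pd i (pd j f) x) := by
      intro i
      rw [pd_sub (hs.lap.mul (hs.pd i)) (Sm.sum (fun j _ => ((hs.pd j).pd i).mul (hs.pd j))) i hx0,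
        pd_mul hs.lap (hs.pd i) i hx0, pd_sum (fun j _ => ((hs.pd j).pd i).mul (hs.pd j)) i hx0]
      congr 1
      apply Finset.sum_congr rfl
      intro j _
      rw [pd_mul ((hs.pd j).pd i) (hs.pd j) i hx0]
    simp only [a1]
    rw [Finset.sum_sub_distrib, Finset.sum_add_distrib, ← Finset.mul_sum]
    have a2 : ∑ i, ∑ j, (pd i (pd i (pd j f)) x * pd j f x + pd i (pd j f) x * pd i (pd j f) x) =
        ∑ j, pd j (lap f) x * pd j f x + hs2 f x := by
      have a3 : ∑ i, ∑ j, (pd i (pd i (pd j f)) x * pd j f x + pd i (pd j f) x * pd i (pd j f) x) =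
        ∑ j, ∑ i, (pd i (pd i (pd j f)) x * pd j f x) +
          ∑ i, ∑ j, pd i (pd j f) x * pd i (pd j f) x := by
        rw [Finset.sum_comm (s := Finset.univ) (t := Finset.univ)
          (f := fun j i => pd i (pd i (pd j f)) x * pd j f x), ← Finset.sum_add_distrib]
        apply Finset.sum_congr rfl
        intro i _
        rw [Finset.sum_add_distrib]
      rw [a3]
      congr 1
      · apply Finset.sum_congr rfl
        intro j _
        rw [← pd_lap hs j hx0, Finset.sum_mul]
      · unfold hs2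
        apply Finset.sum_congr rfl
        intro i _
        apply Finset.sum_congr rfl
        intro j _
        rw [pd_comm hs i j hx0]
        ring
    rw [a2]
    unfold lap
    ring
  have e2 : SI (fun x => ∑ i, x i * (lap f x * pd i f x - ∑ j, pd i (pd j f) x * pd j f x)) =
      SI (fun x => k * (f x * lap f x) - (k - 1) * gr2 f x) := by
    apply SI_congr
    intro x hx
    have hx0 : x ≠ 0 := by
      rintro rfl
      simp at hx
    have b1 := euler hk hs hx0
    have b2 : ∀ j, ∑ i, x i * pd i (pd j f) x = (k - 1) * pd j f x := by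
      intro j
      have := euler (hk.pd hs j) (hs.pd j) hx0
      push_cast at this
      exact this
    have b3 : ∑ i, x i * (lap f x * pd i f x - ∑ j, pd i (pd j f) x * pd j f x) =
        lap f x * (∑ i, x i * pd i f x) - ∑ j, (∑ i, x i * pd i (pd j f) x) * pd j f x := by
      have b4 : ∑ j, (∑ i, x i * pd i (pd j f) x) * pd j f x =
          ∑ i, ∑ j, x i * pd i (pd j f) x * pd j f x := by
        rw [Finset.sum_comm]
        apply Finset.sum_congr rfl
        intro j _
        rw [Finset.sum_mul]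
      rw [b4, Finset.mul_sum, ← Finset.sum_sub_distrib]
      apply Finset.sum_congr rfl
      intro i _
      rw [mul_sub, Finset.mul_sum]
      congr 1
      · ring
      · apply Finset.sum_congr rfl
        intro j _
        ring
    rw [b3, b1]
    simp only [b2]
    unfold gr2
    rw [Finset.mul_sum]
    congr 1
    · ring
    · apply Finset.sum_congr rfl
      intro j _
      ring
  rw [e1, e2, SI_sub (hs.lap.pow 2) hs.hs2] at h
  have h3 : SI (fun x => (k : ℝ) * (f x * lap f x) - (k - 1) * gr2 f x) =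
      SI (fun x => (k : ℝ) * (f x * lap f x)) - SI (fun x => ((k : ℝ) - 1) * gr2 f x) :=
    SI_sub ((Sm.const _).mul (hs.mul hs.lap)) ((Sm.const _).mul hs.gr2)
  rw [h3, SI_const_mul, SI_const_mul] at h
  rw [h]
  push_cast
  ring

theorem good_ineq {P : E3 → ℝ} (h : Good P) :
    0 ≤ SI (fun x => lap P x ^ 2) - 10 * SI (fun x => P x * lap P x) := by
  have h1 := star_sphere h
  have h2 := J1 h.sm h.hom
  have h3 := J2 h.sm h.hom
  push_cast at h2 h3
  linarith

/-- the extension of degree three -/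
noncomputable def ext3 (G : E3 → ℝ) : E3 → ℝ := fun x => ‖x‖ ^ 2 * G x

theorem ext3_good {G : E3 → ℝ} (hs : Sm G) (hk : Hom 1 G) (hodd : ∀ x, G (-x) = - G x) :
    Good (ext3 G) := by
  refine ⟨(Sm.norm.pow 2).mul hs, ?_, by simp [ext3], ?_⟩
  · have := (Hom.norm.sq).mul hk
    norm_num at this
    exact this
  · intro x
    simp [ext3, hodd]

theorem lap_ext3 {G : E3 → ℝ} (hs : Sm G) (hk : Hom 1 G) {x : E3} (hx : x ≠ 0) :
    lap (ext3 G) x = ‖x‖ ^ 2 * lap G x + 10 * G x := by
  have hn : Sm (fun x : E3 => ‖x‖ ^ 2) := Sm.norm.pow 2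
  have h1 : ∀ (i : Fin 3) (y : E3), y ≠ 0 → pd i (fun x : E3 => ‖x‖ ^ 2) y = 2 * y i := by
    intro i y hy
    have h2 : pd i (fun x : E3 => ‖x‖ ^ 2) y = pd i (fun x : E3 => ‖x‖ * ‖x‖) y := by
      apply pd_congr _ _ hy
      intro z _
      ring
    rw [h2, pd_mul Sm.norm Sm.norm i hy, pd_norm i hy]
    have : ‖y‖ ≠ 0 := by simpa using hy
    field_simp
    ring
  have h3 : ∀ (i : Fin 3) (y : E3), y ≠ 0 → pd i (ext3 G) y = 2 * y i * G y + ‖y‖ ^ 2 * pd i G y := by
    intro i y hy
    unfold ext3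
    rw [pd_mul hn hs i hy, h1 i y hy]
  have h4 : ∀ i : Fin 3, pd i (pd i (ext3 G)) x =
      2 * G x + 4 * (x i * pd i G x) + ‖x‖ ^ 2 * pd i (pd i G) x := by
    intro i
    rw [pd_congr (h3 i) i hx]
    have a1 : Sm (fun y : E3 => 2 * y i * G y) := ((Sm.const 2).mul (Sm.coord i)).mul hs
    have a2 : Sm (fun y : E3 => ‖y‖ ^ 2 * pd i G y) := hn.mul (hs.pd i)
    rw [pd_add a1 a2 i hx, pd_mul ((Sm.const 2).mul (Sm.coord i)) hs i hx,
      pd_mul hn (hs.pd i) i hx, h1 i x hx, pd_const_mul 2 (Sm.coord i) i hx, pd_coord]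
    simp
    ring
  unfold lap
  simp only [h4]
  rw [Finset.sum_add_distrib, Finset.sum_add_distrib, ← Finset.mul_sum, ← Finset.mul_sum,
    ← Finset.mul_sum]
  have h5 := euler hk hs hx
  push_cast at h5
  rw [h5]
  simp
  ring

/-- **Energy inequality**: for an odd `1`-homogeneous function smooth off the origin,
`10 ∫ |D²G|² ≤ 11 ∫ (ΔG)²` on the unit sphere. -/
theorem energy {G : E3 → ℝ} (hs : Sm G) (hk : Hom 1 G) (hodd : ∀ x, G (-x) = - G x) :
    10 * SI (hs2 G) ≤ 11 * SI (fun x => lap G x ^ 2) := by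
  have h1 := good_ineq (ext3_good hs hk hodd)
  have e1 : SI (fun x => lap (ext3 G) x ^ 2) =
      SI (fun x => lap G x ^ 2 + (20 * (G x * lap G x) + 100 * G x ^ 2)) := by
    apply SI_congr
    intro x hx
    have hx0 : x ≠ 0 := by
      rintro rfl
      simp at hx
    rw [lap_ext3 hs hk hx0, hx]
    ring
  have e2 : SI (fun x => ext3 G x * lap (ext3 G) x) =
      SI (fun x => G x * lap G x + 10 * G x ^ 2) := by
    apply SI_congr
    intro x hx
    have hx0 : x ≠ 0 := by
      rintro rfl
      simp at hx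
    rw [lap_ext3 hs hk hx0]
    unfold ext3
    rw [hx]
    ring
  have s1 : Sm (fun x => 20 * (G x * lap G x)) := (Sm.const _).mul (hs.mul hs.lap)
  have s2 : Sm (fun x => 100 * G x ^ 2) := (Sm.const _).mul (hs.pow 2)
  rw [e1, e2, SI_add (hs.lap.pow 2) (s1.add s2), SI_add s1 s2,
    SI_add (hs.mul hs.lap) ((Sm.const _).mul (hs.pow 2)), SI_const_mul, SI_const_mul,
    SI_const_mul] at h1
  have h3 := J2 hs hk
  push_cast at h3
  linarith

/-- the determinant energy identity: `∫ G ΔG = ∫ ((ΔG)² - |D²G|²)` -/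
theorem energy_id {G : E3 → ℝ} (hs : Sm G) (hk : Hom 1 G) :
    SI (fun x => lap G x ^ 2) - SI (hs2 G) = SI (fun x => G x * lap G x) := by
  have h3 := J2 hs hk
  push_cast at h3
  linarith

end Helper80.CW
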