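import Pool.Agent.Helper80.CW.Odd

namespace Helper80.CW

open Set Metric MeasureTheory ProbabilityTheory
open scoped ContDiff Topology RealInnerProductSpace

noncomputable def gz : ℝ := ∫ x : E3, Real.exp (-(1/2) * ‖x‖ ^ 2)

theorem gexp_integrable : Integrable (fun x : E3 => Real.exp (-(1/2) * ‖x‖ ^ 2)) := by
  have h := GaussianFourier.integrable_cexp_neg_mul_sq_norm_add (b := (1/2 : ℂ)) (V := E3)
    (by norm_num) 0 0
  have h2 := h.norm
  convert h2 using 1
  ext x
  rw [Complex.norm_exp]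
  congr 1
  simp
  norm_cast

theorem gz_pos : 0 < gz := by
  unfold gz
  rw [integral_pos_iff_support_of_nonneg (fun x => (Real.exp_pos _).le) gexp_integrable]
  have : Function.support (fun x : E3 => Real.exp (-(1/2) * ‖x‖ ^ 2)) = univ := by
    ext x
    simp [Real.exp_ne_zero]
  rw [this]
  simp

theorem gz_complex : ∫ x : E3, Complex.exp (-(1/2 : ℂ) * ‖x‖ ^ 2) = (gz : ℂ) := by
  unfold gz
  rw [← integral_complex_ofReal]
  congr 1
  ext x
  push_cast
  rfl

/-- Gaussian density -/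
noncomputable def gd (x : E3) : ℝ := gz⁻¹ * Real.exp (-(1/2) * ‖x‖ ^ 2)

theorem gd_nonneg (x : E3) : 0 ≤ gd x := by
  have := gz_pos
  unfold gd
  positivity

theorem gd_integrable : Integrable gd := gexp_integrable.const_mul _

theorem gd_continuous : Continuous gd := by
  unfold gd
  fun_prop

theorem stdGaussian_eq :
    stdGaussian E3 = (volume : Measure E3).withDensity (fun x => ENNReal.ofReal (gd x)) := by
  have hfin : IsFiniteMeasure ((volume : Measure E3).withDensity (fun x => ENNReal.ofReal (gd x))) :=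
    isFiniteMeasure_withDensity_ofReal gd_integrable.2
  apply Measure.ext_of_charFun
  ext t
  rw [charFun_stdGaussian, charFun_apply]
  rw [integral_withDensity_eq_integral_toReal_smul]
  · have h1 : ∀ x : E3, (ENNReal.ofReal (gd x)).toReal • Complex.exp (⟪x, t⟫ * Complex.I) =
        (gz : ℂ)⁻¹ * Complex.exp (-(1/2 : ℂ) * ‖x‖ ^ 2 + Complex.I * ⟪t, x⟫) := by
      intro x
      rw [ENNReal.toReal_ofReal (gd_nonneg x), Complex.exp_add, real_inner_comm]
      unfold gd
      rw [Complex.real_smul]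
      push_cast
      rw [mul_comm Complex.I]
      ring_nf
    simp only [h1]
    rw [integral_const_mul, GaussianFourier.integral_cexp_neg_mul_sq_norm_add (by norm_num),
      ← GaussianFourier.integral_cexp_neg_mul_sq_norm (V := E3) (by norm_num), gz_complex]
    have : (gz : ℂ) ≠ 0 := by exact_mod_cast gz_pos.ne'
    rw [inv_mul_cancel_left₀ this]
    congr 1
    rw [Complex.I_sq]
    ring
  · exact gd_continuous.measurable.ennreal_ofReal
  · filter_upwards with x using ENNReal.ofReal_lt_top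

theorem integral_stdGaussian (f : E3 → ℝ) :
    ∫ x, f x ∂(stdGaussian E3) = ∫ x, gd x * f x := by
  rw [stdGaussian_eq, integral_withDensity_eq_integral_toReal_smul]
  · congr 1
    ext x
    rw [ENNReal.toReal_ofReal (gd_nonneg x)]
    rfl
  · exact gd_continuous.measurable.ennreal_ofReal
  · filter_upwards with x using ENNReal.ofReal_lt_top

/-- radial moments -/
noncomputable def JJ (k : ℤ) : ℝ :=
  ∫ r in Ioi (0 : ℝ), r ^ 2 * (Real.exp (-(1/2) * r ^ 2) * r ^ k)

theorem JJ_eq (n : ℕ) : JJ n =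
    (1/2 : ℝ) ^ (-(((n : ℝ) + 2) + 1) / 2) * (1 / 2) * Real.Gamma ((((n : ℝ) + 2) + 1) / 2) := by
  rw [← integral_rpow_mul_exp_neg_mul_rpow (p := 2) (q := (n : ℝ) + 2) (b := 1/2) (by norm_num)
    (by have : (0 : ℝ) ≤ n := n.cast_nonneg
        linarith) (by norm_num)]
  unfold JJ
  apply setIntegral_congr_fun measurableSet_Ioi
  intro r hr
  simp only
  rw [Real.rpow_add hr, Real.rpow_natCast, Real.rpow_two, zpow_natCast]
  ring

theorem JJ_step (n : ℕ) : JJ ((n + 2 : ℕ) : ℤ) = (n + 3) * JJ (n : ℤ) := by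
  rw [JJ_eq, JJ_eq]
  have hn : (0 : ℝ) ≤ n := n.cast_nonneg
  have e1 : ((((n + 2 : ℕ) : ℝ) + 2) + 1) / 2 = (((n : ℝ) + 2) + 1) / 2 + 1 := by
    push_cast; ring
  have e2 : -((((n + 2 : ℕ) : ℝ) + 2) + 1) / 2 = -(((n : ℝ) + 2) + 1) / 2 - 1 := by
    push_cast; ring
  rw [e1, e2, Real.Gamma_add_one (by positivity), Real.rpow_sub_one (by norm_num)]
  ring

theorem JJ_two_pos : 0 < JJ ((2 : ℕ) : ℤ) := by
  rw [JJ_eq]
  positivity

theorem JJ_four : JJ 4 = 5 * JJ 2 := by
  have := JJ_step 2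
  norm_num at this
  exact this

theorem JJ_six : JJ 6 = 35 * JJ 2 := by
  have := JJ_step 4
  norm_num at this
  rw [this, JJ_four]
  ring

theorem gauss_hom {k : ℤ} {f : E3 → ℝ} (hk : Hom k f) :
    ∫ x, f x ∂(stdGaussian E3) = gz⁻¹ * JJ k * SI f := by
  rw [integral_stdGaussian]
  have h := polar hk (fun r => gz⁻¹ * Real.exp (-(1/2) * r ^ 2))
  have h2 : ∫ x : E3, gd x * f x =
      ∫ x : E3, (fun r => gz⁻¹ * Real.exp (-(1/2) * r ^ 2)) ‖x‖ * f x := rfl
  rw [h2, h]
  congr 1
  unfold JJ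
  rw [← integral_const_mul]
  congr 1
  ext r
  ring

end Helper80.CW
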