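import Pool.Agent.Helper80.CW.GDens

namespace Helper80.CW

open Set Metric MeasureTheory ProbabilityTheory
open scoped ContDiff Topology RealInnerProductSpace

/-- one-dimensional Gaussian moments -/
noncomputable def mo (n : ℕ) : ℝ := ∫ y, y ^ n ∂(gaussianReal 0 1)

theorem mo_eq (n : ℕ) : mo n = iteratedDeriv n (fun t : ℝ => Real.exp (t ^ 2 / 2)) 0 := by
  have h := iteratedDeriv_mgf_zero (X := fun x : ℝ => x) (μ := gaussianReal 0 1) (by simp) n
  rw [mgf_fun_id_gaussianReal] at h
  simp only [zero_mul, zero_add, NNReal.coe_one, one_mul] at h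
  rw [h]
  rfl

theorem idd0 : iteratedDeriv 0 (fun t : ℝ => Real.exp (t ^ 2 / 2)) =
    fun t => 1 * Real.exp (t ^ 2 / 2) := by simp

theorem idd_succ {n : ℕ} {p p' : ℝ → ℝ} (hp : ∀ t, HasDerivAt p (p' t) t)
    (h : iteratedDeriv n (fun t : ℝ => Real.exp (t ^ 2 / 2)) = fun t => p t * Real.exp (t ^ 2 / 2)) :
    iteratedDeriv (n + 1) (fun t : ℝ => Real.exp (t ^ 2 / 2)) =
      fun t => (p' t + t * p t) * Real.exp (t ^ 2 / 2) := by
  rw [iteratedDeriv_succ, h]
  ext t
  have h1 : HasDerivAt (fun t : ℝ => Real.exp (t ^ 2 / 2)) (Real.exp (t ^ 2 / 2) * t) t := by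
    have h2 : HasDerivAt (fun t : ℝ => t ^ 2 / 2) t t := by
      have := (hasDerivAt_pow 2 t).div_const 2
      simpa using this
    exact h2.exp
  have h3 := (hp t).mul h1
  have h4 : deriv (fun t => p t * Real.exp (t ^ 2 / 2)) t = _ := h3.deriv
  rw [h4]
  ring

theorem idd1 : iteratedDeriv 1 (fun t : ℝ => Real.exp (t ^ 2 / 2)) =
    fun t => (t) * Real.exp (t ^ 2 / 2) := by
  have := idd_succ (n := 0) (p := fun _ => 1) (p' := fun _ => 0) (fun t => hasDerivAt_const t 1)
    idd0
  simpa using this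

theorem idd2 : iteratedDeriv 2 (fun t : ℝ => Real.exp (t ^ 2 / 2)) =
    fun t => (1 + t ^ 2) * Real.exp (t ^ 2 / 2) := by
  have := idd_succ (n := 1) (p := fun t => t) (p' := fun _ => 1) (fun t => hasDerivAt_id t)
    idd1
  rw [this]
  ext t
  ring

theorem idd3 : iteratedDeriv 3 (fun t : ℝ => Real.exp (t ^ 2 / 2)) =
    fun t => (3 * t + t ^ 3) * Real.exp (t ^ 2 / 2) := by
  have := idd_succ (n := 2) (p := fun t => 1 + t ^ 2) (p' := fun t => 2 * t)
    (fun t => by simpa using (hasDerivAt_pow 2 t).const_add 1) idd2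
  rw [this]
  ext t
  ring

theorem idd4 : iteratedDeriv 4 (fun t : ℝ => Real.exp (t ^ 2 / 2)) =
    fun t => (3 + 6 * t ^ 2 + t ^ 4) * Real.exp (t ^ 2 / 2) := by
  have := idd_succ (n := 3) (p := fun t => 3 * t + t ^ 3) (p' := fun t => 3 + 3 * t ^ 2)
    (fun t => by
      have h := ((hasDerivAt_id t).const_mul 3).add (hasDerivAt_pow 3 t)
      have e1 : (3 : ℝ) * 1 + ((3 : ℕ) : ℝ) * t ^ (3 - 1) = 3 + 3 * t ^ 2 := by norm_num
      rw [e1] at h
      exact h) idd3
  rw [this]
  ext t
  ring

theorem mo0 : mo 0 = 1 := by rw [mo_eq, idd0]; simp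
theorem mo1 : mo 1 = 0 := by rw [mo_eq, idd1]; simp
theorem mo2 : mo 2 = 1 := by rw [mo_eq, idd2]; simp
theorem mo3 : mo 3 = 0 := by rw [mo_eq, idd3]; simp
theorem mo4 : mo 4 = 3 := by rw [mo_eq, idd4]; simp

theorem integral_prod_pow (c : Fin 3 → ℕ) :
    ∫ y : E3, ∏ n, y n ^ c n ∂(stdGaussian E3) = ∏ n, mo (c n) := by
  rw [← map_pi_eq_stdGaussian, integral_map]
  · have := integral_fintype_prod_eq_prod (μ := fun _ : Fin 3 => gaussianReal 0 1)
      (fun (n : Fin 3) (y : ℝ) => y ^ c n)
    simp only at this ⊢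
    exact this
  · fun_prop
  · apply Continuous.aestronglyMeasurable
    fun_prop

def cnt (i j k l n : Fin 3) : ℕ :=
  (if i = n then 1 else 0) + (if j = n then 1 else 0) + (if k = n then 1 else 0) +
    (if l = n then 1 else 0)

theorem mon4_eq (y : E3) (i j k l : Fin 3) :
    y i * y j * y k * y l = ∏ n, y n ^ cnt i j k l n := by
  have h : ∀ (m : Fin 3), y m = ∏ n, y n ^ (if m = n then 1 else 0) := by
    intro m
    rw [Fin.prod_univ_three]
    fin_cases m <;> simp
  have h2 : ∏ n, y n ^ cnt i j k l n =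
      (∏ n, y n ^ (if i = n then 1 else 0)) * (∏ n, y n ^ (if j = n then 1 else 0)) *
      (∏ n, y n ^ (if k = n then 1 else 0)) * (∏ n, y n ^ (if l = n then 1 else 0)) := by
    rw [← Finset.prod_mul_distrib, ← Finset.prod_mul_distrib, ← Finset.prod_mul_distrib]
    apply Finset.prod_congr rfl
    intro n _
    unfold cnt
    rw [pow_add, pow_add, pow_add]
  rw [h2, ← h, ← h, ← h, ← h]

/-- table of moments -/
def tab (n : ℕ) : ℤ := if n = 0 then 1 else if n = 2 then 1 else if n = 4 then 3 else 0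

theorem mo_tab {n : ℕ} (hn : n ≤ 4) : mo n = (tab n : ℝ) := by
  interval_cases n <;> simp [tab, mo0, mo1, mo2, mo3, mo4]

theorem cnt_le (i j k l n : Fin 3) : cnt i j k l n ≤ 4 := by
  unfold cnt
  split_ifs <;> norm_num

theorem tab_eq : ∀ i j k l : Fin 3,
    tab (cnt i j k l 0) * tab (cnt i j k l 1) * tab (cnt i j k l 2) =
    (if i = j then 1 else 0) * (if k = l then 1 else 0) +
    (if i = k then 1 else 0) * (if j = l then 1 else 0) +
    (if i = l then 1 else 0) * (if j = k then 1 else 0) := by decide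

theorem tab_eq2 : ∀ i j : Fin 3,
    tab ((if i = 0 then 1 else 0) + (if j = 0 then 1 else 0)) *
    tab ((if i = 1 then 1 else 0) + (if j = 1 then 1 else 0)) *
    tab ((if i = 2 then 1 else 0) + (if j = 2 then 1 else 0)) =
    (if i = j then 1 else 0) := by decide

theorem int4 (i j k l : Fin 3) : ∫ y : E3, y i * y j * y k * y l ∂(stdGaussian E3) =
    (if i = j then 1 else 0) * (if k = l then 1 else 0) +
    (if i = k then 1 else 0) * (if j = l then 1 else 0) +
    (if i = l then 1 else 0) * (if j = k then 1 else 0) := by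
  simp only [mon4_eq]
  rw [integral_prod_pow, Fin.prod_univ_three, mo_tab (cnt_le _ _ _ _ _), mo_tab (cnt_le _ _ _ _ _),
    mo_tab (cnt_le _ _ _ _ _)]
  exact_mod_cast tab_eq i j k l

theorem int2 (i j : Fin 3) : ∫ y : E3, y i * y j ∂(stdGaussian E3) =
    (if i = j then 1 else 0) := by
  have h1 : ∀ y : E3, y i * y j =
      ∏ n, y n ^ ((if i = n then 1 else 0) + (if j = n then 1 else 0)) := by
    intro y
    rw [Fin.prod_univ_three]
    fin_cases i <;> fin_cases j <;> simp <;> ring
  simp only [h1]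
  have hle : ∀ n : Fin 3, ((if i = n then 1 else 0) + (if j = n then 1 else 0)) ≤ 4 := by
    intro n
    split_ifs <;> norm_num
  rw [integral_prod_pow (fun n => (if i = n then 1 else 0) + (if j = n then 1 else 0)),
    Fin.prod_univ_three, mo_tab (hle _), mo_tab (hle _), mo_tab (hle _)]
  exact_mod_cast tab_eq2 i j

theorem integrable_of_bound {f : E3 → ℝ} (hf : Continuous f) {C : ℝ} {n : ℕ}
    (h : ∀ y, |f y| ≤ C * (1 + ‖y‖ ^ n)) : Integrable f (stdGaussian E3) := by
  have h1 : Integrable (fun y : E3 => ‖y‖ ^ n) (stdGaussian E3) :=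
    (IsGaussian.memLp_id (stdGaussian E3) n (by simp)).integrable_norm_pow'
  have h2 : Integrable (fun y : E3 => C * (1 + ‖y‖ ^ n)) (stdGaussian E3) :=
    ((integrable_const 1).add h1).const_mul C
  apply h2.mono' hf.aestronglyMeasurable
  filter_upwards with y
  exact h y

theorem coord_le (y : E3) (i : Fin 3) : |y i| ≤ ‖y‖ := by
  have := EuclideanSpace.norm_eq y
  have h2 : |y i| ^ 2 ≤ ‖y‖ ^ 2 := by
    rw [norm_sq_eq, sq_abs]
    exact Finset.single_le_sum (f := fun i => y i ^ 2) (fun j _ => sq_nonneg _) (Finset.mem_univ i)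
  exact abs_le_of_sq_le_sq' (by simpa using h2) (norm_nonneg _) |> fun h => abs_le.2 h

theorem integrable4 (i j k l : Fin 3) :
    Integrable (fun y : E3 => y i * y j * y k * y l) (stdGaussian E3) := by
  apply integrable_of_bound (by fun_prop) (C := 1) (n := 4)
  intro y
  have h := fun i => coord_le y i
  have h0 := norm_nonneg y
  rw [abs_mul, abs_mul, abs_mul]
  have : |y i| * |y j| * |y k| * |y l| ≤ ‖y‖ * ‖y‖ * ‖y‖ * ‖y‖ := by
    gcongr <;> exact h _
  calc _ ≤ _ := this
    _ = ‖y‖ ^ 4 := by ring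
    _ ≤ _ := by linarith

theorem integrable2 (i j : Fin 3) :
    Integrable (fun y : E3 => y i * y j) (stdGaussian E3) := by
  apply integrable_of_bound (by fun_prop) (C := 1) (n := 2)
  intro y
  have h := fun i => coord_le y i
  have h0 := norm_nonneg y
  rw [abs_mul]
  have : |y i| * |y j| ≤ ‖y‖ * ‖y‖ := by
    gcongr <;> exact h _
  calc _ ≤ _ := this
    _ = ‖y‖ ^ 2 := by ring
    _ ≤ _ := by linarith

theorem int_quad (A : Fin 3 → Fin 3 → ℝ) :
    ∫ y : E3, (∑ i, ∑ j, A i j * (y i * y j)) ∂(stdGaussian E3) = ∑ i, A i i := by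
  rw [integral_finsetSum]
  · apply Finset.sum_congr rfl
    intro i _
    rw [integral_finsetSum]
    · simp only [integral_const_mul, int2]
      simp
    · intro j _
      exact (integrable2 i j).const_mul _
  · intro i _
    apply integrable_finsetSum
    intro j _
    exact (integrable2 i j).const_mul _

theorem int_quad_sq (A : Fin 3 → Fin 3 → ℝ) :
    ∫ y : E3, (∑ i, ∑ j, A i j * (y i * y j)) ^ 2 ∂(stdGaussian E3) =
      (∑ i, A i i) ^ 2 + ∑ i, ∑ j, (A i j ^ 2 + A i j * A j i) := by
  have h1 : ∀ y : E3, (∑ i, ∑ j, A i j * (y i * y j)) ^ 2 =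
      ∑ i, ∑ j, ∑ k, ∑ l, (A i j * A k l) * (y i * y j * y k * y l) := by
    intro y
    rw [sq, Finset.sum_mul]
    apply Finset.sum_congr rfl
    intro i _
    rw [Finset.sum_mul]
    apply Finset.sum_congr rfl
    intro j _
    rw [Finset.mul_sum]
    apply Finset.sum_congr rfl
    intro k _
    rw [Finset.mul_sum]
    apply Finset.sum_congr rfl
    intro l _
    ring
  simp only [h1]
  have hI : ∀ i j k l, Integrable (fun y : E3 => (A i j * A k l) * (y i * y j * y k * y l))
      (stdGaussian E3) := fun i j k l => (integrable4 i j k l).const_mul _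
  rw [integral_finsetSum _ (fun i _ => integrable_finsetSum _ (fun j _ =>
    integrable_finsetSum _ (fun k _ => integrable_finsetSum _ (fun l _ => hI i j k l))))]
  have h2 : ∀ i, ∫ y : E3, ∑ j, ∑ k, ∑ l, (A i j * A k l) * (y i * y j * y k * y l)
      ∂(stdGaussian E3) = ∑ j, ∑ k, ∑ l, (A i j * A k l) *
      ((if i = j then 1 else 0) * (if k = l then 1 else 0) +
      (if i = k then 1 else 0) * (if j = l then 1 else 0) +
      (if i = l then 1 else 0) * (if j = k then 1 else 0)) := by
    intro i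
    rw [integral_finsetSum _ (fun j _ =>
      integrable_finsetSum _ (fun k _ => integrable_finsetSum _ (fun l _ => hI i j k l)))]
    apply Finset.sum_congr rfl
    intro j _
    rw [integral_finsetSum _ (fun k _ => integrable_finsetSum _ (fun l _ => hI i j k l))]
    apply Finset.sum_congr rfl
    intro k _
    rw [integral_finsetSum _ (fun l _ => hI i j k l)]
    apply Finset.sum_congr rfl
    intro l _
    rw [integral_const_mul, int4]
  simp only [h2]
  simp [Fin.sum_univ_three]
  ring

end Helper80.CW
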