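import Pool.Agent.Helper80.CW.JMN
import Pool.Agent.Helper82.CW.Fin

/-!
# Volume of a body of constant width in a ball: the bound with general multipliers

`A0`, `A1`, `A2` are the parts of degree `0` in `(t, D)`, the coefficient of `t` and the
coefficient of `D` of a combination `co` of the family `JI`.
-/

namespace Helper80.CW

open Set Metric MeasureTheory Helper82.CW
open scoped ContDiff Topology RealInnerProductSpace Real

/-- part of degree zero -/
noncomputable def A0 (S : Finset (ℕ × ℕ)) (co : ℕ × ℕ → ℝ) (F Q : ℝ) : ℝ :=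
  ∑ p ∈ S, co p * ((p.1 : ℝ) * (p.1 - 1) * F ^ (p.1 - 2) * Q ^ (p.2 + 1) -
    p.1 * (p.1 + 1) * F ^ p.1 * Q ^ p.2)

/-- coefficient of the trace -/
noncomputable def A1 (S : Finset (ℕ × ℕ)) (co : ℕ × ℕ → ℝ) (F Q : ℝ) : ℝ :=
  ∑ p ∈ S, co p * ((p.1 : ℝ) * (2 * p.2 + 1) * F ^ (p.1 - 1) * Q ^ p.2 -
    2 * p.2 * (p.1 + 1) * F ^ (p.1 + 1) * Q ^ (p.2 - 1))

/-- coefficient of `D` -/
noncomputable def A2 (S : Finset (ℕ × ℕ)) (co : ℕ × ℕ → ℝ) (F Q : ℝ) : ℝ :=
  ∑ p ∈ S, co p * (2 * p.2 * F ^ p.1 *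
    (p.2 * Q ^ (p.2 - 1) - (p.2 - 1) * F ^ 2 * Q ^ (p.2 - 2)))

/-- the four inequalities for a certificate -/
structure Cert (S : Finset (ℕ × ℕ)) (co : ℕ × ℕ → ℝ) (r V : ℝ) : Prop where
  hk : ∀ F Q : ℝ, F ^ 2 ≤ Q → |F| + Q ≤ r → A2 S co F Q ≤ 1 / 2
  h0 : ∀ F Q : ℝ, F ^ 2 ≤ Q → |F| + Q ≤ r → 1 / 4 + A0 S co F Q - A2 S co F Q / 2 ≤ V
  hp : ∀ F Q : ℝ, F ^ 2 ≤ Q → |F| + Q ≤ r →
    -(1 / 4) + A0 S co F Q + A1 S co F Q + A2 S co F Q / 2 ≤ V
  hm : ∀ F Q : ℝ, F ^ 2 ≤ Q → |F| + Q ≤ r →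
    -(1 / 4) + A0 S co F Q - A1 S co F Q + A2 S co F Q / 2 ≤ V

theorem Cert.point {S : Finset (ℕ × ℕ)} {co : ℕ × ℕ → ℝ} {r V : ℝ} (hC : Cert S co r V)
    {F Q t D : ℝ} (h1 : F ^ 2 ≤ Q) (h2 : |F| + Q ≤ r) (ht : |t| ≤ 1) (hD : |t| - 1 / 2 ≤ D) :
    -(D / 2) + (A0 S co F Q + t * A1 S co F Q + D * A2 S co F Q) ≤ V := by
  have k := hC.hk F Q h1 h2
  have e0 := hC.h0 F Q h1 h2
  have ep := hC.hp F Q h1 h2
  have em := hC.hm F Q h1 h2
  have g := mul_le_mul_of_nonneg_right hD (sub_nonneg.2 k)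
  rcases abs_cases t with ⟨h3, h4⟩ | ⟨h3, h4⟩
  · rw [h3] at ht hD g
    have g1 := mul_le_mul_of_nonneg_left ep h4
    have g2 := mul_le_mul_of_nonneg_left e0 (sub_nonneg.2 ht)
    nlinarith
  · rw [h3] at ht hD g
    have g1 := mul_le_mul_of_nonneg_left em (neg_nonneg.2 h4.le)
    have g2 := mul_le_mul_of_nonneg_left e0 (sub_nonneg.2 ht)
    nlinarith

theorem JI_sm {f : E3 → ℝ} (hs : Sm f) (m n : ℕ) : Sm (JI m n f) :=
  (((((Sm.const _).mul (hs.pow _)).mul (hs.gr2.pow _)).sub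
    (((Sm.const _).mul (hs.pow _)).mul (hs.gr2.pow _))).add
    (hs.lap.mul ((((Sm.const _).mul (hs.pow _)).mul (hs.gr2.pow _)).sub
      (((Sm.const _).mul (hs.pow _)).mul (hs.gr2.pow _))))).add
    ((((Sm.const _).mul ((hs.lap.pow 2).sub hs.hs2)).mul (hs.pow _)).mul
      (((Sm.const _).mul (hs.gr2.pow _)).sub
        (((Sm.const _).mul (hs.pow 2)).mul (hs.gr2.pow _))))

theorem SI_fsum (S : Finset (ℕ × ℕ)) (F : ℕ × ℕ → E3 → ℝ) (hF : ∀ p, Sm (F p)) :
    SI (fun x => ∑ p ∈ S, F p x) = ∑ p ∈ S, SI (F p) := by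
  unfold SI
  exact integral_finsetSum S (fun p _ => (hF p).integrable_sphere)

theorem SI_comb {f : E3 → ℝ} (hs : Sm f) (hk : Hom 1 f) (S : Finset (ℕ × ℕ)) (co : ℕ × ℕ → ℝ) :
    SI (fun x => ∑ p ∈ S, co p * JI p.1 p.2 f x) = 0 := by
  rw [SI_fsum S (fun p x => co p * JI p.1 p.2 f x)
    (fun p => (Sm.const _).mul (JI_sm hs p.1 p.2))]
  apply Finset.sum_eq_zero
  intro p _
  rw [SI_const_mul, Jmn hs hk]
  simp

theorem comb_eq (S : Finset (ℕ × ℕ)) (co : ℕ × ℕ → ℝ) (f : E3 → ℝ) (x : E3) :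
    ∑ p ∈ S, co p * JI p.1 p.2 f x = A0 S co (f x) (gr2 f x) + lap f x * A1 S co (f x) (gr2 f x) +
      (lap f x ^ 2 - hs2 f x) * A2 S co (f x) (gr2 f x) := by
  unfold A0 A1 A2
  rw [Finset.mul_sum, Finset.mul_sum, ← Finset.sum_add_distrib, ← Finset.sum_add_distrib]
  apply Finset.sum_congr rfl
  intro p _
  unfold JI
  ring

/-- scaling -/
theorem pd_pd_cm (a : ℝ) {f : E3 → ℝ} (hs : Sm f) (i j : Fin 3) {x : E3} (hx : x ≠ 0) :
    pd j (pd i (fun x => a * f x)) x = a * pd j (pd i f) x := by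
  rw [pd_congr (g := fun y => a * pd i f y) (fun y hy => pd_const_mul a hs i hy) j hx,
    pd_const_mul a (hs.pd i) j hx]

theorem lap_cm (a : ℝ) {f : E3 → ℝ} (hs : Sm f) {x : E3} (hx : x ≠ 0) :
    lap (fun x => a * f x) x = a * lap f x := by
  unfold lap
  rw [Finset.mul_sum]
  apply Finset.sum_congr rfl
  intro i _
  exact pd_pd_cm a hs i i hx

theorem hs2_cm (a : ℝ) {f : E3 → ℝ} (hs : Sm f) {x : E3} (hx : x ≠ 0) :
    hs2 (fun x => a * f x) x = a ^ 2 * hs2 f x := by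
  unfold hs2
  rw [Finset.mul_sum]
  apply Finset.sum_congr rfl
  intro i _
  rw [Finset.mul_sum]
  apply Finset.sum_congr rfl
  intro j _
  rw [pd_pd_cm a hs i j hx]
  ring

theorem gr2_cm (a : ℝ) {f : E3 → ℝ} (hs : Sm f) {x : E3} (hx : x ≠ 0) :
    gr2 (fun x => a * f x) x = a ^ 2 * gr2 f x := by
  unfold gr2
  rw [Finset.mul_sum]
  apply Finset.sum_congr rfl
  intro i _
  rw [pd_const_mul a hs i hx]
  ring

theorem sq_le_gr2 {f : E3 → ℝ} (hs : Sm f) (hk : Hom 1 f) {x : E3} (hx : ‖x‖ = 1) :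
    f x ^ 2 ≤ gr2 f x := by
  have hx0 : x ≠ 0 := by
    rintro rfl
    simp at hx
  have hn := sum_sq_one hx
  have ef := Helper80.CW.euler hk hs hx0
  push_cast at ef
  rw [one_mul] at ef
  have h := Finset.sum_mul_sq_le_sq_mul_sq Finset.univ (fun i => x i) (fun i => pd i f x)
  rw [ef] at h
  unfold gr2
  simp only [Fin.sum_univ_three] at h ⊢
  rw [show x 0 ^ 2 + x 1 ^ 2 + x 2 ^ 2 = 1 from hn, one_mul] at h
  exact h

section
variable {f : E3 → ℝ} {c : ℝ}

/-- lower bound for the mixed discriminant integral -/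
theorem sig_lower_gen (h : SSup f c) {R r V : ℝ} (hR : 0 ≤ R) (hb : ∀ x, f x ≤ R * ‖x‖)
    (hRr : R ^ 2 - c ^ 2 / 4 ≤ c ^ 2 * r) {S : Finset (ℕ × ℕ)} {co : ℕ × ℕ → ℝ}
    (hC : Cert S co r V) :
    -(8 * π * c ^ 2 * V) ≤ SI (fun x => lap (oddpart f c) x ^ 2 - hs2 (oddpart f c) x) := by
  have hc := h.cpos
  set G := oddpart f c with hG
  have hs := h.oddpart_sm
  have hh := h.oddpart_hom
  rw [← hG] at hs hh
  have hc2 : 0 < c ^ 2 := by positivity
  set g : E3 → ℝ := fun x => (1 / c) * G x with hg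
  have gs : Sm g := (Sm.const _).mul hs
  have gh : Hom 1 g := hh.const_mul _
  have key : SI (fun x => (-(1 / 2)) * (lap g x ^ 2 - hs2 g x) +
      ∑ p ∈ S, co p * JI p.1 p.2 g x) ≤ SI (fun _ => V) := by
    apply SI_mono
    · exact ((Sm.const _).mul ((gs.lap.pow 2).sub gs.hs2)).add
        (Sm.sum (fun p _ => (Sm.const _).mul (JI_sm gs p.1 p.2)))
    · exact Sm.const _
    · intro x hx
      have hx0 : x ≠ 0 := by
        rintro rfl
        simp at hx
      obtain ⟨b1, b2⟩ := hess_bounds h hx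
      have b3 := ball_bound h hR hb hx
      rw [← hG] at b1 b2 b3
      have e1 : lap g x = (1 / c) * lap G x := lap_cm _ hs hx0
      have e2 : hs2 g x = (1 / c) ^ 2 * hs2 G x := hs2_cm _ hs hx0
      have e3 : gr2 g x = (1 / c) ^ 2 * gr2 G x := gr2_cm _ hs hx0
      have e4 : g x = (1 / c) * G x := rfl
      have p1 : g x ^ 2 ≤ gr2 g x := sq_le_gr2 gs gh hx
      have hci : 0 < 1 / c := by positivity
      have p2 : |g x| + gr2 g x ≤ r := by
        rw [e3, e4, abs_mul, abs_of_pos hci]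
        have : 1 / c * |G x| + (1 / c) ^ 2 * gr2 G x = (gr2 G x + c * |G x|) / c ^ 2 := by
          field_simp
          ring
        rw [this, div_le_iff₀ hc2]
        linarith
      have p3 : |lap g x| ≤ 1 := by
        rw [e1, abs_mul, abs_of_pos hci, one_div, inv_mul_le_iff₀ hc]
        linarith
      have p4 : |lap g x| - 1 / 2 ≤ lap g x ^ 2 - hs2 g x := by
        rw [e1, e2, abs_mul, abs_of_pos hci]
        have : (1 / c * lap G x) ^ 2 - (1 / c) ^ 2 * hs2 G x =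
            (lap G x ^ 2 - hs2 G x) / c ^ 2 := by
          field_simp
        rw [this, le_div_iff₀ hc2]
        have : (1 / c * |lap G x| - 1 / 2) * c ^ 2 = c * |lap G x| - c ^ 2 / 2 := by
          field_simp
        rw [this]
        exact b2
      have := hC.point p1 p2 p3 p4
      rw [comb_eq]
      linarith
  rw [SI_const, SI_add ((Sm.const _).mul ((gs.lap.pow 2).sub gs.hs2))
    (Sm.sum (fun p _ => (Sm.const _).mul (JI_sm gs p.1 p.2))), SI_comb gs gh, SI_const_mul] at key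
  have e5 : SI (fun x => lap g x ^ 2 - hs2 g x) =
      (1 / c ^ 2) * SI (fun x => lap G x ^ 2 - hs2 G x) := by
    rw [← SI_const_mul]
    apply SI_congr
    intro x hx
    have hx0 : x ≠ 0 := by
      rintro rfl
      simp at hx
    rw [show lap g x = (1 / c) * lap G x from lap_cm _ hs hx0,
      show hs2 g x = (1 / c) ^ 2 * hs2 G x from hs2_cm _ hs hx0]
    field_simp
  rw [e5] at key
  have k2 : -(8 * π * V) ≤ (1 / c ^ 2) * SI (fun x => lap G x ^ 2 - hs2 G x) := by linarith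
  rw [one_div, le_inv_mul_iff₀ hc2] at k2
  linarith

/-- the volume integral -/
theorem vol_lower_gen (h : SSup f c) {R r V : ℝ} (hR : 0 ≤ R) (hb : ∀ x, f x ≤ R * ‖x‖)
    (hRr : R ^ 2 - c ^ 2 / 4 ≤ c ^ 2 * r) {S : Finset (ℕ × ℕ)} {co : ℕ × ℕ → ℝ}
    (hC : Cert S co r V) :
    6 * (c ^ 3 * (π / 6 - 2 * π * V)) ≤ SI (fun x => f x * (lap f x ^ 2 - hs2 f x)) := by
  have h1 := sig_lower_gen h hR hb hRr hC
  have hc := h.cpos
  rw [vol_id h]
  have h2 := mul_le_mul_of_nonneg_left h1 (show 0 ≤ 3 * c / 2 by positivity)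
  refine le_trans (le_of_eq ?_) (add_le_add_left h2 _)
  ring

end

variable {K : Set E3}

/-- **volume of a body of constant width `1` in a ball, general multipliers** -/
theorem volume_gen (hK : IsCompact K) (hc : Convex ℝ K) (hw : Width1 K) {x0 : E3} {R r V : ℝ}
    (hR1 : R ≤ 1) (hsub : K ⊆ closedBall x0 R) (hr : R ^ 2 - 1 / 4 < r)
    {S : Finset (ℕ × ℕ)} {co : ℕ × ℕ → ℝ} (hC : Cert S co r V) :
    ENNReal.ofReal (π / 6 - 2 * π * V) ≤ volume K := by
  have hR := H0_supp_ball hK hw hR1 hsub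
  have hRh := half_le hK hw hR1 hsub
  set K0 : Set E3 := (fun y => y + x0) ⁻¹' K with hK0
  have hK0c : IsCompact K0 := by
    have : K0 = (fun y => y - x0) '' K := by
      ext y
      constructor
      · intro hy
        exact ⟨y + x0, hy, by simp⟩
      · rintro ⟨z, hz, rfl⟩
        simpa [hK0] using hz
    rw [this]
    exact hK.image (by fun_prop)
  have hvol : volume K0 = volume K := measure_preimage_add_right volume x0 K
  rw [← hvol]
  set re : ℝ → ℝ := fun ε => (R * (1 + ε) / (1 - ε)) ^ 2 - 1 / 4 with hre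
  have hstep : ∀ ε : ℝ, 0 < ε → ε < 1 → re ε ≤ r →
      ENNReal.ofReal ((1 - ε) ^ 3 * (π / 6 - 2 * π * V)) ≤
        volume (cthickening (R * ε) K0) := by
    intro ε hε hε1 hrer
    have hS := Ht_SSup hR hε hε1
    have hcw := cw_ge hε
    have hb : ∀ x, Ht (H0 K x0) ε x ≤ (R * (1 + ε)) * ‖x‖ := by
      intro x
      have h1 := Ht_le hR hε x
      have h2 := hR.bound x
      linarith
    have hquot : R ≤ R * (1 + ε) / (1 - ε) := by
      rw [le_div_iff₀ (by linarith)]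
      nlinarith
    have hr0 : 0 ≤ re ε := by
      have : (1 / 2 : ℝ) ^ 2 ≤ (R * (1 + ε) / (1 - ε)) ^ 2 :=
        pow_le_pow_left₀ (by norm_num) (by linarith) 2
      simp only [hre]
      linarith
    have hRr : (R * (1 + ε)) ^ 2 - cw ε ^ 2 / 4 ≤ cw ε ^ 2 * re ε := by
      have h1 : (1 - ε) ^ 2 ≤ cw ε ^ 2 := pow_le_pow_left₀ (by linarith) hcw 2
      have h2 : (R * (1 + ε)) ^ 2 = (1 - ε) ^ 2 * (R * (1 + ε) / (1 - ε)) ^ 2 := by
        have : (1 - ε) ≠ 0 := by linarith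
        field_simp
      have h3 := mul_le_mul_of_nonneg_right h1 (sq_nonneg (R * (1 + ε) / (1 - ε)))
      simp only [hre]
      nlinarith
    have hRr' : (R * (1 + ε)) ^ 2 - cw ε ^ 2 / 4 ≤ cw ε ^ 2 * r :=
      hRr.trans (mul_le_mul_of_nonneg_left hrer (sq_nonneg _))
    have h1 := volume_ge hS (vol_lower_gen hS (by nlinarith) hb hRr' hC)
    have h2 := body_sub' hK hc hw (f := Ht (H0 K x0) ε) (δ := R * ε) (Ht_le hR hε)
      (mul_nonneg hR.Rnn hε.le)
    have h3 := h1.trans (measure_mono h2)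
    refine le_trans (ENNReal.ofReal_le_ofReal_iff' |>.2 ?_) h3
    by_cases hB : 0 ≤ π / 6 - 2 * π * V
    · left
      have h5 : (1 - ε) ^ 3 ≤ (cw ε) ^ 3 := pow_le_pow_left₀ (by linarith) hcw 3
      exact mul_le_mul_of_nonneg_right h5 hB
    · right
      have : 0 < (1 - ε) ^ 3 := pow_pos (by linarith) 3
      exact (mul_neg_of_pos_of_neg this (not_le.1 hB)).le
  have hlim1 : Filter.Tendsto (fun ε : ℝ => volume (cthickening (R * ε) K0)) (𝓝[>] 0)
      (𝓝 (volume K0)) := by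
    have h1 := tendsto_measure_cthickening_of_isCompact (μ := (volume : Measure E3)) hK0c
    have h2 : Filter.Tendsto (fun ε : ℝ => R * ε) (𝓝[>] 0) (𝓝 0) := by
      have : Continuous (fun ε : ℝ => R * ε) := by fun_prop
      have h3 := this.tendsto 0
      simp only [mul_zero] at h3
      exact h3.mono_left nhdsWithin_le_nhds
    exact h1.comp h2
  have hlim2 : Filter.Tendsto (fun ε : ℝ => ENNReal.ofReal ((1 - ε) ^ 3 * (π / 6 - 2 * π * V)))
      (𝓝[>] 0) (𝓝 (ENNReal.ofReal (π / 6 - 2 * π * V))) := by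
    apply ENNReal.tendsto_ofReal
    have hcn : Continuous (fun ε : ℝ => (1 - ε) ^ 3 * (π / 6 - 2 * π * V)) := by fun_prop
    have h3 := hcn.tendsto 0
    simp only [sub_zero, one_pow, one_mul] at h3
    exact h3.mono_left nhdsWithin_le_nhds
  have hrc : ∀ᶠ ε : ℝ in 𝓝 0, re ε < r := by
    have h0 : re 0 = R ^ 2 - 1 / 4 := by
      simp [hre]
    have hrc : ContinuousAt re 0 := by
      have h1 : ContinuousAt (fun ε : ℝ => R * (1 + ε) / (1 - ε)) 0 := by
        apply ContinuousAt.div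
        · fun_prop
        · fun_prop
        · norm_num
      exact (h1.pow 2).sub continuousAt_const
    have h2 : re 0 < r := by rw [h0]; exact hr
    exact hrc.eventually_lt continuousAt_const h2
  apply le_of_tendsto_of_tendsto hlim2 hlim1
  have hlt : ∀ᶠ ε : ℝ in 𝓝 0, ε < 1 := eventually_lt_nhds one_pos
  filter_upwards [self_mem_nhdsWithin, hlt.filter_mono nhdsWithin_le_nhds,
    hrc.filter_mono nhdsWithin_le_nhds] with ε h1 h2 h3
  exact hstep ε h1 h2 h3.le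

end Helper80.CW
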