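import Pool.Agent.Helper82.CW.J3

/-!
# The full family of divergence identities without the mixed term

For a `1`-homogeneous function `f`, smooth off the origin, `q = |∇f|²`, `t = Δf`,
`σ = (Δf)² - |D²f|²`, and all `m n : ℕ`, on the unit sphere:
`∫ m(m-1) f^(m-2) q^(n+1) - m(m+1) f^m q^n + t (m(2n+1) f^(m-1) q^n - 2n(m+1) f^(m+1) q^(n-1))
   + 2n σ f^m (n q^(n-1) - (n-1) f² q^(n-2)) = 0`.
-/

namespace Helper80.CW

open Set Metric MeasureTheory Helper82.CW
open scoped ContDiff Topology RealInnerProductSpace Real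

/-- derivative of a power -/
theorem pd_pow {f : E3 → ℝ} (hf : Sm f) (m : ℕ) (i : Fin 3) {x : E3} (hx : x ≠ 0) :
    pd i (fun x => f x ^ m) x = (m : ℝ) * f x ^ (m - 1) * pd i f x := by
  unfold pd
  have h := ((hf.diffAt hx).hasFDerivAt.pow m).fderiv
  have e : fderiv ℝ (fun x => f x ^ m) x = ((m : ℝ) * f x ^ (m - 1)) • fderiv ℝ f x := by
    rw [h, nsmul_eq_mul]
  rw [e]
  simp

theorem hom_pow {k : ℤ} {f : E3 → ℝ} (hf : Hom k f) (n : ℕ) : Hom (n * k) (fun x => f x ^ n) := by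
  induction n with
  | zero =>
    intro r hr x hx
    simp
  | succ n ih =>
    have h := ih.mul hf
    have e : (fun x => f x ^ (n + 1)) = fun x => f x ^ n * f x := by
      funext x
      ring
    rw [e, show ((n + 1 : ℕ) : ℤ) * k = n * k + k by push_cast; ring]
    exact h

/-- the field -/
noncomputable def W (m n : ℕ) (f : E3 → ℝ) (i : Fin 3) : E3 → ℝ :=
  fun x => (m : ℝ) * (f x ^ (m - 1) * gr2 f x ^ n * pd i f x) +
    (2 * n : ℝ) * (f x ^ m * gr2 f x ^ (n - 1) * cofield f i x)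

theorem W_sm {f : E3 → ℝ} (hs : Sm f) (m n : ℕ) (i : Fin 3) : Sm (W m n f i) :=
  ((Sm.const _).mul (((hs.pow _).mul (hs.gr2.pow _)).mul (hs.pd i))).add
    ((Sm.const _).mul (((hs.pow _).mul (hs.gr2.pow _)).mul (cofield_sm hs i)))

theorem W_hom {f : E3 → ℝ} (hs : Sm f) (hk : Hom 1 f) (m n : ℕ) (i : Fin 3) :
    Hom ((m : ℤ) - 1) (W m n f i) := by
  intro r hr x hx
  have h1 : f (r • x) = r * f x := by simpa using hk r hr x hx
  have h2 : gr2 f (r • x) = gr2 f x := by simpa using hk.gr2 hs r hr x hx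
  have h3 : pd i f (r • x) = pd i f x := by simpa using hk.pd hs i r hr x hx
  have h4 : cofield f i (r • x) = r⁻¹ * cofield f i x := by
    have := cofield_hom hs hk i r hr x hx
    norm_num at this
    exact this
  have hr' : r ≠ 0 := hr.ne'
  unfold W
  rw [h1, h2, h3, h4, mul_pow, mul_pow]
  have e2 : r ^ m * r⁻¹ = r ^ ((m : ℤ) - 1) := by
    rw [zpow_sub₀ hr', zpow_natCast, zpow_one]
    rfl
  have e1 : (m : ℝ) * r ^ (m - 1) = (m : ℝ) * r ^ ((m : ℤ) - 1) := by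
    rcases m with _ | m
    · simp
    · congr 1
      rw [← zpow_natCast]
      congr 1
      simp
  rw [← e2] at e1 ⊢
  linear_combination (f x ^ (m - 1) * gr2 f x ^ n * pd i f x) * e1

theorem alg (m n : ℕ) (F q w t s : ℝ) :
    (m : ℝ) * ((((m - 1 : ℕ) : ℝ) * F ^ (m - 1 - 1) * q ^ n * q) +
      F ^ (m - 1) * ((n : ℝ) * q ^ (n - 1) * (2 * w)) + F ^ (m - 1) * q ^ n * t) +
    (2 * n : ℝ) * (((m : ℝ) * F ^ (m - 1) * q ^ (n - 1) * (t * q - w)) +
      F ^ m * (((n - 1 : ℕ) : ℝ) * q ^ (n - 1 - 1) * (s * (q - F ^ 2))) + F ^ m * q ^ (n - 1) * s) =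
    (m : ℝ) * (m - 1) * F ^ (m - 2) * q ^ (n + 1) + t * (m * (2 * n + 1) * F ^ (m - 1) * q ^ n) +
      2 * n * s * F ^ m * (n * q ^ (n - 1) - (n - 1) * F ^ 2 * q ^ (n - 2)) := by
  have hm : (m : ℝ) * (((m - 1 : ℕ) : ℝ) * F ^ (m - 1 - 1)) = (m : ℝ) * ((m - 1) * F ^ (m - 2)) := by
    rcases m with _ | m
    · simp
    · simp
  have hn : (n : ℝ) * (((n - 1 : ℕ) : ℝ) * q ^ (n - 1 - 1)) = (n : ℝ) * ((n - 1) * q ^ (n - 2)) := by
    rcases n with _ | n
    · simp
    · simp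
  have hn1 : (n : ℝ) * q ^ (n - 1) * q = (n : ℝ) * q ^ n := by
    rcases n with _ | n
    · simp
    · rw [Nat.add_sub_cancel]
      ring
  have hn2 : (n : ℝ) * ((n - 1) * q ^ (n - 2)) * q = (n : ℝ) * ((n - 1) * q ^ (n - 1)) := by
    rcases n with _ | _ | n
    · simp
    · simp
    · rw [show n + 1 + 1 - 2 = n by omega, show n + 1 + 1 - 1 = n + 1 by omega]
      ring
  linear_combination (q ^ n * q) * hm + 2 * F ^ m * (s * (q - F ^ 2)) * hn +
    (2 * m * F ^ (m - 1) * t) * hn1 + 2 * F ^ m * s * hn2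

/-- the divergence of the field -/
theorem W_div {f : E3 → ℝ} (hs : Sm f) (hk : Hom 1 f) (m n : ℕ) {x : E3} (hx : ‖x‖ = 1) :
    ∑ i, pd i (W m n f i) x =
      (m : ℝ) * (m - 1) * f x ^ (m - 2) * gr2 f x ^ (n + 1) +
        lap f x * (m * (2 * n + 1) * f x ^ (m - 1) * gr2 f x ^ n) +
        2 * n * (lap f x ^ 2 - hs2 f x) * f x ^ m *
          (n * gr2 f x ^ (n - 1) - (n - 1) * f x ^ 2 * gr2 f x ^ (n - 2)) := by
  have hx0 : x ≠ 0 := by
    rintro rfl
    simp at hx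
  set H : Fin 3 → ℝ := fun i => ∑ j, pd i (pd j f) x * pd j f x with hH
  have a1 : ∀ i, pd i (W m n f i) x =
      (m : ℝ) * ((((m - 1 : ℕ) : ℝ) * f x ^ (m - 1 - 1) * gr2 f x ^ n * (pd i f x * pd i f x)) +
        f x ^ (m - 1) * ((n : ℝ) * gr2 f x ^ (n - 1) * (2 * (H i * pd i f x))) +
        f x ^ (m - 1) * gr2 f x ^ n * pd i (pd i f) x) +
      (2 * n : ℝ) * (((m : ℝ) * f x ^ (m - 1) * gr2 f x ^ (n - 1) * (pd i f x * cofield f i x)) +
        f x ^ m * (((n - 1 : ℕ) : ℝ) * gr2 f x ^ (n - 1 - 1) * (2 * (H i * cofield f i x))) +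
        f x ^ m * gr2 f x ^ (n - 1) * pd i (cofield f i) x) := by
    intro i
    unfold W
    have s1 : Sm (fun x => f x ^ (m - 1) * gr2 f x ^ n) := (hs.pow _).mul (hs.gr2.pow _)
    have s2 : Sm (fun x => f x ^ m * gr2 f x ^ (n - 1)) := (hs.pow _).mul (hs.gr2.pow _)
    have s3 : Sm (fun x => f x ^ (m - 1) * gr2 f x ^ n * pd i f x) := s1.mul (hs.pd i)
    have s4 : Sm (fun x => f x ^ m * gr2 f x ^ (n - 1) * cofield f i x) := s2.mul (cofield_sm hs i)
    rw [pd_add ((Sm.const _).mul s3) ((Sm.const _).mul s4) i hx0, pd_const_mul _ s3 i hx0,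
      pd_const_mul _ s4 i hx0, pd_mul s1 (hs.pd i) i hx0, pd_mul s2 (cofield_sm hs i) i hx0,
      pd_mul (hs.pow _) (hs.gr2.pow _) i hx0, pd_mul (hs.pow _) (hs.gr2.pow _) i hx0,
      pd_pow hs, pd_pow hs, pd_pow hs.gr2, pd_pow hs.gr2, pd_gr2 hs i hx0]
    · ring
    all_goals exact hx0
  simp only [a1]
  have S1 : ∑ i, pd i f x * pd i f x = gr2 f x := by
    unfold gr2
    apply Finset.sum_congr rfl
    intro i _
    ring
  have S4 : ∑ i, pd i f x * cofield f i x = lap f x * gr2 f x - ∑ i, H i * pd i f x := by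
    rw [← S1, Finset.mul_sum, ← Finset.sum_sub_distrib]
    apply Finset.sum_congr rfl
    intro i _
    unfold cofield
    ring
  have S5 := cayley hs hk hx
  have S6 := div_cofield hs hx0
  have S3 : ∑ i, pd i (pd i f) x = lap f x := rfl
  rw [Finset.sum_add_distrib, ← Finset.mul_sum, ← Finset.mul_sum]
  simp only [Finset.sum_add_distrib, ← Finset.mul_sum]
  rw [S1, S3, S4, S5, S6]
  exact alg m n (f x) (gr2 f x) (∑ i, H i * pd i f x) (lap f x) (lap f x ^ 2 - hs2 f x)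

/-- the normal component of the field -/
theorem W_normal {f : E3 → ℝ} (hs : Sm f) (hk : Hom 1 f) (m n : ℕ) {x : E3} (hx : ‖x‖ = 1) :
    ∑ i, x i * W m n f i x = m * f x ^ m * gr2 f x ^ n +
      2 * n * f x ^ (m + 1) * gr2 f x ^ (n - 1) * lap f x := by
  have hx0 : x ≠ 0 := by
    rintro rfl
    simp at hx
  have b1 := Helper80.CW.euler hk hs hx0
  push_cast at b1
  rw [one_mul] at b1
  have b2 : ∀ j, ∑ i, x i * pd i (pd j f) x = 0 := by
    intro j
    have := Helper80.CW.euler (hk.pd hs j) (hs.pd j) hx0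
    simpa using this
  have b4 : ∑ i, x i * ∑ j, pd i (pd j f) x * pd j f x = 0 := by
    have b5 : ∑ i, x i * ∑ j, pd i (pd j f) x * pd j f x =
        ∑ j, (∑ i, x i * pd i (pd j f) x) * pd j f x := by
      simp only [Finset.mul_sum, Finset.sum_mul]
      rw [Finset.sum_comm]
      apply Finset.sum_congr rfl
      intro i _
      apply Finset.sum_congr rfl
      intro j _
      ring
    rw [b5]
    simp only [b2]
    simp
  have b3 : ∑ i, x i * cofield f i x = lap f x * f x := by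
    have : ∑ i, x i * cofield f i x =
        lap f x * (∑ i, x i * pd i f x) - ∑ i, x i * ∑ j, pd i (pd j f) x * pd j f x := by
      unfold cofield
      rw [Finset.mul_sum, ← Finset.sum_sub_distrib]
      apply Finset.sum_congr rfl
      intro i _
      ring
    rw [this, b1, b4]
    ring
  have c : ∑ i, x i * W m n f i x =
      (m : ℝ) * (f x ^ (m - 1) * gr2 f x ^ n) * (∑ i, x i * pd i f x) +
        (2 * n : ℝ) * (f x ^ m * gr2 f x ^ (n - 1)) * (∑ i, x i * cofield f i x) := by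
    rw [Finset.mul_sum, Finset.mul_sum, ← Finset.sum_add_distrib]
    apply Finset.sum_congr rfl
    intro i _
    unfold W
    ring
  rw [c, b1, b3]
  have e : (m : ℝ) * (f x ^ (m - 1) * gr2 f x ^ n) * f x = m * f x ^ m * gr2 f x ^ n := by
    rcases m with _ | m
    · simp
    · rw [Nat.add_sub_cancel]
      ring
  rw [e]
  ring

/-- the integrand -/
noncomputable def JI (m n : ℕ) (f : E3 → ℝ) : E3 → ℝ := fun x =>
  (m : ℝ) * (m - 1) * f x ^ (m - 2) * gr2 f x ^ (n + 1) - m * (m + 1) * f x ^ m * gr2 f x ^ n +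
    lap f x * (m * (2 * n + 1) * f x ^ (m - 1) * gr2 f x ^ n -
      2 * n * (m + 1) * f x ^ (m + 1) * gr2 f x ^ (n - 1)) +
    2 * n * (lap f x ^ 2 - hs2 f x) * f x ^ m *
      (n * gr2 f x ^ (n - 1) - (n - 1) * f x ^ 2 * gr2 f x ^ (n - 2))

/-- **the family of identities** -/
theorem Jmn {f : E3 → ℝ} (hs : Sm f) (hk : Hom 1 f) (m n : ℕ) : SI (JI m n f) = 0 := by
  have h := div_lemma (m := (m : ℤ) - 1) (W m n f) (W_sm hs m n) (W_hom hs hk m n)
  have sD : Sm (fun x => (m : ℝ) * (m - 1) * f x ^ (m - 2) * gr2 f x ^ (n + 1) +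
        lap f x * (m * (2 * n + 1) * f x ^ (m - 1) * gr2 f x ^ n) +
        2 * n * (lap f x ^ 2 - hs2 f x) * f x ^ m *
          (n * gr2 f x ^ (n - 1) - (n - 1) * f x ^ 2 * gr2 f x ^ (n - 2))) :=
    ((((Sm.const _).mul (hs.pow _)).mul (hs.gr2.pow _)).add
      (hs.lap.mul (((Sm.const _).mul (hs.pow _)).mul (hs.gr2.pow _)))).add
      ((((Sm.const _).mul ((hs.lap.pow 2).sub hs.hs2)).mul (hs.pow _)).mul
        (((Sm.const _).mul (hs.gr2.pow _)).sub
          (((Sm.const _).mul (hs.pow 2)).mul (hs.gr2.pow _))))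
  have sN : Sm (fun x => ((m : ℝ) + 1) * (m * f x ^ m * gr2 f x ^ n +
      2 * n * f x ^ (m + 1) * gr2 f x ^ (n - 1) * lap f x)) :=
    (Sm.const _).mul ((((Sm.const _).mul (hs.pow _)).mul (hs.gr2.pow _)).add
      ((((Sm.const _).mul (hs.pow _)).mul (hs.gr2.pow _)).mul hs.lap))
  rw [SI_congr (fun x hx => W_div hs hk m n hx), SI_congr (fun x hx => W_normal hs hk m n hx)] at h
  have e : JI m n f = fun x => ((m : ℝ) * (m - 1) * f x ^ (m - 2) * gr2 f x ^ (n + 1) +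
        lap f x * (m * (2 * n + 1) * f x ^ (m - 1) * gr2 f x ^ n) +
        2 * n * (lap f x ^ 2 - hs2 f x) * f x ^ m *
          (n * gr2 f x ^ (n - 1) - (n - 1) * f x ^ 2 * gr2 f x ^ (n - 2))) -
      ((m : ℝ) + 1) * (m * f x ^ m * gr2 f x ^ n +
        2 * n * f x ^ (m + 1) * gr2 f x ^ (n - 1) * lap f x) := by
    funext x
    unfold JI
    ring
  rw [e, SI_sub sD sN, h, SI_const_mul]
  push_cast
  ring

end Helper80.CW
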