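import Pool.Agent.Helper80.CW.Div

namespace Helper80.CW

open Set Metric MeasureTheory
open scoped ContDiff Topology

theorem SI_odd {k : ℤ} {f : E3 → ℝ} (hk : Hom k f) (hodd : ∀ x, f (-x) = - f x) : SI f = 0 := by
  have h1 := polar hk psi
  have h2 : ∫ x : E3, psi ‖x‖ * f x = ∫ x : E3, psi ‖x‖ * f (-x) := by
    have := integral_neg_eq_self (fun x : E3 => psi ‖x‖ * f x) volume
    rw [← this]
    simp
  have h3 : ∫ x : E3, psi ‖x‖ * f (-x) = - ∫ x : E3, psi ‖x‖ * f x := by
    rw [← integral_neg]
    congr 1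
    ext x
    rw [hodd]
    ring
  have h4 : ∫ x : E3, psi ‖x‖ * f x = 0 := by linarith
  rw [h4] at h1
  have hp := psi_pos_int (k + 1)
  rw [show k + 1 - 1 = k by ring] at hp
  rcases mul_eq_zero.1 h1.symm with h | h
  · exact absurd h hp.ne'
  · exact h

theorem SI_one : SI (fun _ => 1) = 4 * Real.pi := by
  unfold SI
  rw [integral_const]
  simp only [smul_eq_mul, mul_one]
  rw [Measure.toSphere_real_apply_univ, measureReal_def, EuclideanSpace.volume_ball_fin_three]
  have : 0 ≤ Real.pi := Real.pi_pos.le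
  rw [finrank_E3]
  simp
  rw [ENNReal.toReal_ofReal (by positivity)]
  ring

theorem SI_const (c : ℝ) : SI (fun _ => c) = c * (4 * Real.pi) := by
  have := SI_const_mul c (fun _ => 1)
  simp only [mul_one] at this
  rw [this, SI_one]

end Helper80.CW
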