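import Pool.Agent.Helper80.CW.Basic

namespace Helper80.CW

open Set Metric MeasureTheory
open scoped ContDiff Topology

/-- integral over the unit sphere -/
noncomputable def SI (f : E3 → ℝ) : ℝ :=
  ∫ u : sphere (0 : E3) 1, f u ∂(volume : Measure E3).toSphere

theorem integral_volumeIoiPow (g : ℝ → ℝ) :
    ∫ r : Ioi (0 : ℝ), g r ∂(Measure.volumeIoiPow 2) = ∫ r in Ioi (0 : ℝ), r ^ 2 * g r := by
  simp only [Measure.volumeIoiPow, ENNReal.ofReal]
  rw [integral_withDensity_eq_integral_smul,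
    integral_subtype_comap measurableSet_Ioi fun a ↦ Real.toNNReal (a ^ 2) • g a,
    setIntegral_congr_fun measurableSet_Ioi fun x hx ↦ ?_]
  · rw [NNReal.smul_def, Real.coe_toNNReal _ (pow_nonneg hx.out.le _)]
    rfl
  · exact (measurable_subtype_coe.pow_const _).real_toNNReal

theorem finrank_E3 : Module.finrank ℝ E3 = 3 := by simp

theorem polar {k : ℤ} {f : E3 → ℝ} (hk : Hom k f) (w : ℝ → ℝ) :
    ∫ x : E3, w ‖x‖ * f x = (∫ r in Ioi (0 : ℝ), r ^ 2 * (w r * r ^ k)) * SI f := by
  have h1 : ∫ x : E3, w ‖x‖ * f x =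
      ∫ x : ({(0)}ᶜ : Set E3), w ‖x.1‖ * f x.1 ∂((volume : Measure E3).comap (↑)) := by
    rw [integral_subtype_comap (measurableSet_singleton _).compl fun x ↦ w ‖x‖ * f x,
        restrict_compl_singleton]
  have h2 : ∫ x : ({(0)}ᶜ : Set E3), w ‖x.1‖ * f x.1 ∂((volume : Measure E3).comap (↑)) =
      ∫ p : sphere (0 : E3) 1 × Ioi (0 : ℝ), f p.1 * (w p.2 * (p.2 : ℝ) ^ k)
        ∂((volume : Measure E3).toSphere.prod (.volumeIoiPow (Module.finrank ℝ E3 - 1))) := by
    rw [← (volume : Measure E3).measurePreserving_homeomorphUnitSphereProd.integral_comp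
        (Homeomorph.measurableEmbedding _)]
    apply integral_congr_ae
    filter_upwards with x
    have hx : x.1 ≠ 0 := x.2
    have hn : 0 < ‖x.1‖ := norm_pos_iff.2 hx
    have h3 : f x.1 = ‖x.1‖ ^ k * f (‖x.1‖⁻¹ • x.1) := by
      rw [← hk _ hn _ (smul_ne_zero (inv_ne_zero hn.ne') hx), smul_smul,
        mul_inv_cancel₀ hn.ne', one_smul]
    rw [h3]
    simp
    ring
  rw [h1, h2, finrank_E3]
  have h4 := integral_prod_mul (μ := (volume : Measure E3).toSphere) (ν := Measure.volumeIoiPow 2)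
    (fun u : sphere (0 : E3) 1 => f u) (fun r : Ioi (0 : ℝ) => w r * (r : ℝ) ^ k)
  simp only [Nat.add_one_sub_one] at h4 ⊢
  rw [h4, integral_volumeIoiPow (fun r => w r * r ^ k), mul_comm]
  rfl

theorem Sm.continuous_sphere {f : E3 → ℝ} (hf : Sm f) :
    Continuous (fun u : sphere (0 : E3) 1 => f u) := by
  rw [continuous_iff_continuousAt]
  intro u
  have hu : (u : E3) ≠ 0 := by
    intro h
    have := u.2
    simp [h] at this
  exact ((hf _ hu).continuousAt).comp continuous_subtype_val.continuousAt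

theorem Sm.integrable_sphere {f : E3 → ℝ} (hf : Sm f) :
    Integrable (fun u : sphere (0 : E3) 1 => f u) (volume : Measure E3).toSphere :=
  (hf.continuous_sphere).integrable_of_hasCompactSupport
    (HasCompactSupport.of_compactSpace _)

theorem SI_add {f g : E3 → ℝ} (hf : Sm f) (hg : Sm g) :
    SI (fun x => f x + g x) = SI f + SI g :=
  integral_add hf.integrable_sphere hg.integrable_sphere

theorem SI_sub {f g : E3 → ℝ} (hf : Sm f) (hg : Sm g) :
    SI (fun x => f x - g x) = SI f - SI g :=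
  integral_sub hf.integrable_sphere hg.integrable_sphere

theorem SI_const_mul (c : ℝ) (f : E3 → ℝ) :
    SI (fun x => c * f x) = c * SI f := integral_const_mul _ _

theorem SI_congr {f g : E3 → ℝ} (h : ∀ x, ‖x‖ = 1 → f x = g x) : SI f = SI g := by
  unfold SI
  congr 1
  ext u
  exact h u (by simpa using u.2)

theorem SI_mono {f g : E3 → ℝ} (hf : Sm f) (hg : Sm g) (h : ∀ x, ‖x‖ = 1 → f x ≤ g x) :
    SI f ≤ SI g := by
  apply integral_mono hf.integrable_sphere hg.integrable_sphere
  intro u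
  exact h u (by simpa using u.2)

end Helper80.CW
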