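import Pool.Agent.Helper80.CW.Body3

namespace Helper80.CW

open Set Metric MeasureTheory
open scoped ContDiff Topology RealInnerProductSpace Real Convolution

/-- abstract support function of a width-one body containing the origin, inside the ball `R` -/
structure Supp (H : E3 → ℝ) (R : ℝ) : Prop where
  sub : ∀ x y, H (x + y) ≤ H x + H y
  smul : ∀ t : ℝ, 0 ≤ t → ∀ x, H (t • x) = t * H x
  nonneg : ∀ x, 0 ≤ H x
  bound : ∀ x, H x ≤ R * ‖x‖
  width : ∀ x, H x + H (-x) = ‖x‖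
  Rnn : 0 ≤ R

section
variable {H : E3 → ℝ} {R : ℝ}

theorem Supp.lip (h : Supp H R) (x y : E3) : |H x - H y| ≤ R * ‖x - y‖ := by
  rw [abs_le]
  have h1 := h.sub (x - y) y
  have h2 := h.sub (y - x) x
  have h3 := h.bound (x - y)
  have h4 := h.bound (y - x)
  rw [sub_add_cancel] at h1 h2
  rw [norm_sub_rev] at h4
  constructor <;> linarith

theorem Supp.cont (h : Supp H R) : Continuous H := by
  have : LipschitzWith ⟨R, h.Rnn⟩ H := by
    apply LipschitzWith.of_dist_le_mul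
    intro x y
    rw [Real.dist_eq, dist_eq_norm]
    exact h.lip x y
  exact this.continuous

/-! ### the mollifier -/

noncomputable def eta0 (ε : ℝ) (y : E3) : ℝ := Real.smoothTransition (1 - ‖y‖ ^ 2 / ε ^ 2)

theorem eta0_contDiff (ε : ℝ) : ContDiff ℝ ∞ (eta0 ε) := by
  unfold eta0
  apply Real.smoothTransition.contDiff.comp
  exact contDiff_const.sub ((contDiff_norm_sq ℝ).div_const _)

theorem eta0_nonneg (ε : ℝ) (y : E3) : 0 ≤ eta0 ε y := Real.smoothTransition.nonneg _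

theorem eta0_zero {ε : ℝ} (hε : 0 < ε) {y : E3} (hy : ε ≤ ‖y‖) : eta0 ε y = 0 := by
  apply Real.smoothTransition.zero_of_nonpos
  rw [sub_nonpos, le_div_iff₀ (by positivity), one_mul]
  exact pow_le_pow_left₀ hε.le hy 2

theorem eta0_one (ε : ℝ) : eta0 ε 0 = 1 := by
  unfold eta0
  simp [Real.smoothTransition.one]

theorem eta0_compact {ε : ℝ} (hε : 0 < ε) : HasCompactSupport (eta0 ε) := by
  apply HasCompactSupport.intro (isCompact_closedBall (0 : E3) ε)
  intro x hx
  apply eta0_zero hε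
  simp at hx
  exact hx.le

theorem eta0_congr (ε : ℝ) {x y : E3} (h : ‖x‖ = ‖y‖) : eta0 ε x = eta0 ε y := by
  unfold eta0
  rw [h]

noncomputable def etaZ (ε : ℝ) : ℝ := ∫ y, eta0 ε y

theorem etaZ_pos {ε : ℝ} (hε : 0 < ε) : 0 < etaZ ε :=
  (eta0_contDiff ε).continuous.integral_pos_of_hasCompactSupport_nonneg_nonzero
    (eta0_compact hε) (eta0_nonneg ε) (x := 0) (by rw [eta0_one]; exact one_ne_zero)

noncomputable def eta (ε : ℝ) (y : E3) : ℝ := (etaZ ε)⁻¹ * eta0 ε y

theorem eta_contDiff (ε : ℝ) : ContDiff ℝ ∞ (eta ε) := contDiff_const.mul (eta0_contDiff ε)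

theorem eta_nonneg {ε : ℝ} (hε : 0 < ε) (y : E3) : 0 ≤ eta ε y :=
  mul_nonneg (inv_nonneg.2 (etaZ_pos hε).le) (eta0_nonneg ε y)

theorem eta_zero {ε : ℝ} (hε : 0 < ε) {y : E3} (hy : ε ≤ ‖y‖) : eta ε y = 0 := by
  unfold eta
  rw [eta0_zero hε hy, mul_zero]

theorem eta_compact {ε : ℝ} (hε : 0 < ε) : HasCompactSupport (eta ε) :=
  (eta0_compact hε).mul_left

theorem eta_congr (ε : ℝ) {x y : E3} (h : ‖x‖ = ‖y‖) : eta ε x = eta ε y := by
  unfold eta
  rw [eta0_congr ε h]

theorem eta_integral {ε : ℝ} (hε : 0 < ε) : ∫ y, eta ε y = 1 := by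
  unfold eta
  rw [integral_const_mul]
  exact inv_mul_cancel₀ (etaZ_pos hε).ne'

theorem eta_mul_integrable {ε : ℝ} (hε : 0 < ε) {g : E3 → ℝ} (hg : Continuous g) :
    Integrable (fun y => eta ε y * g y) :=
  ((eta_contDiff ε).continuous.mul hg).integrable_of_hasCompactSupport
    (eta_compact hε).mul_right

/-- the mollified support function -/
noncomputable def Ht (H : E3 → ℝ) (ε : ℝ) (x : E3) : ℝ := ∫ y, eta ε y * H (x - ‖x‖ • y)

theorem Ht_int (h : Supp H R) {ε : ℝ} (hε : 0 < ε) (x : E3) (t : ℝ) :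
    Integrable (fun y => eta ε y * H (x - t • y)) := by
  apply eta_mul_integrable hε
  have := h.cont
  fun_prop

theorem Ht_int' (h : Supp H R) {ε : ℝ} (hε : 0 < ε) (x : E3) (t : ℝ) :
    Integrable (fun y => eta ε y * H (x + t • y)) := by
  apply eta_mul_integrable hε
  have := h.cont
  fun_prop

theorem Ht_flip (ε : ℝ) (x : E3) : Ht H ε x = ∫ y, eta ε y * H (x + ‖x‖ • y) := by
  unfold Ht
  rw [← integral_neg_eq_self (fun y => eta ε y * H (x - ‖x‖ • y)) volume]
  congr 1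
  ext y
  rw [eta_congr ε (norm_neg y), smul_neg, sub_neg_eq_add]

theorem Ht_smooth (h : Supp H R) {ε : ℝ} (hε : 0 < ε) : Sm (Ht H ε) := by
  set φ : E3 → ℝ := H ⋆[ContinuousLinearMap.mul ℝ ℝ, volume] (eta ε) with hφ
  have h1 : ContDiff ℝ ∞ φ :=
    (eta_compact hε).contDiff_convolution_right _ h.cont.locallyIntegrable (eta_contDiff ε)
  have h2 : ∀ z, φ z = ∫ y, eta ε y * H (z - y) := by
    intro z
    rw [hφ, convolution_eq_swap]
    congr 1
    ext y
    simp
    ring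
  have h3 : ∀ x, x ≠ 0 → Ht H ε x = ‖x‖ * φ (‖x‖⁻¹ • x) := by
    intro x hx
    have hn : 0 < ‖x‖ := norm_pos_iff.2 hx
    rw [h2, ← integral_const_mul]
    unfold Ht
    congr 1
    ext y
    have : x - ‖x‖ • y = ‖x‖ • (‖x‖⁻¹ • x - y) := by
      rw [smul_sub, smul_smul, mul_inv_cancel₀ hn.ne', one_smul]
    rw [this, h.smul _ hn.le]
    ring
  intro x hx
  have h4 : ContDiffAt ℝ ∞ (fun x => ‖x‖ * φ (‖x‖⁻¹ • x)) x := by
    have hn := contDiffAt_norm ℝ (n := ∞) hx
    have hn0 : ‖x‖ ≠ 0 := by simpa using hx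
    exact hn.mul (h1.contDiffAt.comp x ((hn.inv hn0).smul contDiffAt_id))
  apply h4.congr_of_eventuallyEq
  filter_upwards [isOpen_ne.mem_nhds hx] with z hz using h3 z hz

theorem Ht_hom (h : Supp H R) (ε : ℝ) : Hom 1 (Ht H ε) := by
  intro r hr x _
  unfold Ht
  rw [← integral_const_mul]
  congr 1
  ext y
  have : r • x - ‖r • x‖ • y = r • (x - ‖x‖ • y) := by
    rw [norm_smul, smul_sub, smul_smul, Real.norm_eq_abs, abs_of_pos hr]
  rw [this, h.smul r hr.le]
  simp
  ring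

theorem Supp.zero (h : Supp H R) : H 0 = 0 := by
  have := h.smul 0 le_rfl 0
  simpa using this

theorem Supp.mono (h : Supp H R) (z y : E3) {t s : ℝ} (ht : 0 ≤ t) (hts : t ≤ s) :
    H (z - t • y) + H (z + t • y) ≤ H (z - s • y) + H (z + s • y) := by
  rcases eq_or_lt_of_le (ht.trans hts) with hs | hs
  · have : t = s := by linarith
    rw [this]
  set l := (s + t) / (2 * s) with hl
  set m := (s - t) / (2 * s) with hm
  have hl0 : 0 ≤ l := by positivity
  have hm0 : 0 ≤ m := div_nonneg (by linarith) (by linarith)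
  have hlm : l + m = 1 := by
    rw [hl, hm]
    field_simp
    ring
  have hlm2 : (l - m) * s = t := by
    rw [hl, hm]
    field_simp
    ring
  have e1 : z + t • y = l • (z + s • y) + m • (z - s • y) := by
    have : l • (z + s • y) + m • (z - s • y) = (l + m) • z + ((l - m) * s) • y := by
      module
    rw [this, hlm, hlm2, one_smul]
  have e2 : z - t • y = l • (z - s • y) + m • (z + s • y) := by
    have : l • (z - s • y) + m • (z + s • y) = (l + m) • z - ((l - m) * s) • y := by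
      module
    rw [this, hlm, hlm2, one_smul]
  have h1 : H (z + t • y) ≤ l * H (z + s • y) + m * H (z - s • y) := by
    rw [e1]
    refine (h.sub _ _).trans ?_
    rw [h.smul l hl0, h.smul m hm0]
  have h2 : H (z - t • y) ≤ l * H (z - s • y) + m * H (z + s • y) := by
    rw [e2]
    refine (h.sub _ _).trans ?_
    rw [h.smul l hl0, h.smul m hm0]
  have h3 : l * H (z - s • y) + m * H (z + s • y) + (l * H (z + s • y) + m * H (z - s • y)) =
      (l + m) * (H (z - s • y) + H (z + s • y)) := by ring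
  rw [hlm, one_mul] at h3
  linarith

theorem Ht_sub (h : Supp H R) {ε : ℝ} (hε : 0 < ε) (x y : E3) :
    Ht H ε (x + y) ≤ Ht H ε x + Ht H ε y := by
  have key : ∀ z, 2 * Ht H ε z = ∫ w, eta ε w * (H (z - ‖z‖ • w) + H (z + ‖z‖ • w)) := by
    intro z
    have e1 : ∫ w, eta ε w * (H (z - ‖z‖ • w) + H (z + ‖z‖ • w)) =
        (∫ w, eta ε w * H (z - ‖z‖ • w)) + ∫ w, eta ε w * H (z + ‖z‖ • w) := by
      rw [← integral_add (Ht_int h hε z _) (Ht_int' h hε z _)]
      congr 1
      ext w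
      ring
    rw [e1, ← Ht_flip]
    unfold Ht
    ring
  have hI : ∀ z (t : ℝ), Integrable (fun w => eta ε w * (H (z - t • w) + H (z + t • w))) := by
    intro z t
    apply eta_mul_integrable hε
    have := h.cont
    fun_prop
  have h2 : 2 * Ht H ε (x + y) ≤ 2 * Ht H ε x + 2 * Ht H ε y := by
    rw [key, key, key, ← integral_add (hI _ _) (hI _ _)]
    apply integral_mono (hI _ _) ((hI _ _).add (hI _ _))
    intro w
    simp only [Pi.add_apply]
    rw [← mul_add]
    apply mul_le_mul_of_nonneg_left _ (eta_nonneg hε w)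
    refine (h.mono (x + y) w (norm_nonneg _) (norm_add_le x y)).trans ?_
    have a1 : H (x + y - (‖x‖ + ‖y‖) • w) ≤ H (x - ‖x‖ • w) + H (y - ‖y‖ • w) := by
      have : x + y - (‖x‖ + ‖y‖) • w = (x - ‖x‖ • w) + (y - ‖y‖ • w) := by module
      rw [this]
      exact h.sub _ _
    have a2 : H (x + y + (‖x‖ + ‖y‖) • w) ≤ H (x + ‖x‖ • w) + H (y + ‖y‖ • w) := by
      have : x + y + (‖x‖ + ‖y‖) • w = (x + ‖x‖ • w) + (y + ‖y‖ • w) := by module
      rw [this]
      exact h.sub _ _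
    linarith
  linarith

/-- the width constant -/
noncomputable def cw (ε : ℝ) : ℝ := ∫ y, eta ε y * ‖e 0 - y‖

theorem norm_e (i : Fin 3) : ‖e i‖ = 1 := by simp [e]

theorem rot_inv (ε : ℝ) {u : E3} (hu : ‖u‖ = 1) : ∫ y, eta ε y * ‖u - y‖ = cw ε := by
  set T := (ℝ ∙ (u - e 0))ᗮ.reflection with hT
  have hTu : T u = e 0 := Submodule.reflection_sub (by rw [hu, norm_e])
  have h1 := T.measurePreserving.integral_comp T.toHomeomorph.measurableEmbedding
    (fun y => eta ε y * ‖e 0 - y‖)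
  unfold cw
  rw [← h1]
  congr 1
  ext y
  rw [eta_congr ε (T.norm_map y), ← hTu, ← map_sub, T.norm_map]

theorem Ht_width (h : Supp H R) {ε : ℝ} (hε : 0 < ε) (x : E3) :
    Ht H ε x + Ht H ε (-x) = cw ε * ‖x‖ := by
  have h1 : Ht H ε (-x) = ∫ y, eta ε y * H (-(x - ‖x‖ • y)) := by
    rw [Ht_flip]
    congr 1
    ext y
    rw [norm_neg]
    congr 2
    abel
  have hc := h.cont
  have h2 : Integrable (fun y => eta ε y * H (-(x - ‖x‖ • y))) := by
    apply eta_mul_integrable hε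
    fun_prop
  have h3 : Ht H ε x + Ht H ε (-x) = ∫ y, eta ε y * ‖x - ‖x‖ • y‖ := by
    rw [h1]
    unfold Ht
    rw [← integral_add (Ht_int h hε x _) h2]
    congr 1
    ext y
    rw [← mul_add, h.width]
  rw [h3]
  by_cases hx : x = 0
  · subst hx
    simp
  have hn : 0 < ‖x‖ := norm_pos_iff.2 hx
  have hu : ‖‖x‖⁻¹ • x‖ = 1 := by simp [norm_smul, hn.ne']
  rw [← rot_inv ε hu, mul_comm, ← integral_const_mul]
  congr 1
  ext y
  have : x - ‖x‖ • y = ‖x‖ • (‖x‖⁻¹ • x - y) := by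
    rw [smul_sub, smul_smul, mul_inv_cancel₀ hn.ne', one_smul]
  rw [this, norm_smul, norm_norm]
  ring

theorem cw_ge {ε : ℝ} (hε : 0 < ε) : 1 - ε ≤ cw ε := by
  have h1 : 1 - ε = ∫ y, eta ε y * (1 - ε) := by
    rw [integral_mul_const, eta_integral hε, one_mul]
  rw [h1]
  apply integral_mono (eta_mul_integrable hε continuous_const)
    (eta_mul_integrable hε (by fun_prop))
  intro y
  simp only
  by_cases hy : ε ≤ ‖y‖
  · rw [eta_zero hε hy]
    simp
  · apply mul_le_mul_of_nonneg_left _ (eta_nonneg hε y)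
    have := norm_sub_norm_le (e 0) y
    rw [norm_e] at this
    linarith

theorem Ht_le (h : Supp H R) {ε : ℝ} (hε : 0 < ε) (x : E3) :
    Ht H ε x ≤ H x + R * ε * ‖x‖ := by
  have h1 : H x + R * ε * ‖x‖ = ∫ y, eta ε y * (H x + R * ε * ‖x‖) := by
    rw [integral_mul_const, eta_integral hε, one_mul]
  rw [h1]
  unfold Ht
  apply integral_mono (Ht_int h hε x _) (eta_mul_integrable hε continuous_const)
  intro y
  simp only
  by_cases hy : ε ≤ ‖y‖
  · rw [eta_zero hε hy]
    simp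
  · apply mul_le_mul_of_nonneg_left _ (eta_nonneg hε y)
    have h2 := h.sub x (-(‖x‖ • y))
    rw [← sub_eq_add_neg] at h2
    have h3 := h.bound (-(‖x‖ • y))
    rw [norm_neg, norm_smul, norm_norm] at h3
    have h4 : R * (‖x‖ * ‖y‖) ≤ R * ε * ‖x‖ := by
      have : ‖x‖ * ‖y‖ ≤ ‖x‖ * ε := mul_le_mul_of_nonneg_left (not_le.1 hy).le (norm_nonneg _)
      calc R * (‖x‖ * ‖y‖) ≤ R * (‖x‖ * ε) := mul_le_mul_of_nonneg_left this h.Rnn
        _ = _ := by ring
    linarith

theorem Ht_nonneg (h : Supp H R) {ε : ℝ} (hε : 0 < ε) (x : E3) : 0 ≤ Ht H ε x := by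
  unfold Ht
  exact integral_nonneg (fun y => mul_nonneg (eta_nonneg hε y) (h.nonneg _))

theorem Ht_SSup (h : Supp H R) {ε : ℝ} (hε : 0 < ε) (hε1 : ε < 1) : SSup (Ht H ε) (cw ε) where
  sm := Ht_smooth h hε
  hom := Ht_hom h ε
  zero := by
    unfold Ht
    simp [h.zero]
  sub := Ht_sub h hε
  nonneg := Ht_nonneg h hε
  width := Ht_width h hε
  cpos := lt_of_lt_of_le (by linarith) (cw_ge hε)

end

end Helper80.CW
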