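import Pool.Agent.Helper80.CW.GMom
import Pool.Agent.Helper80.CW.Circle

namespace Helper80.CW

open Set Metric MeasureTheory ProbabilityTheory
open scoped ContDiff Topology RealInnerProductSpace Real

theorem hom_bound {k : ℕ} {f : E3 → ℝ} (hs : Sm f) (hk : Hom k f) (h0 : f 0 = 0) :
    ∃ C, 0 ≤ C ∧ ∀ x, |f x| ≤ C * ‖x‖ ^ k := by
  have hc : ContinuousOn f (sphere (0 : E3) 1) := by
    intro x hx
    have hx0 : x ≠ 0 := by
      rintro rfl
      simp at hx
    exact (hs x hx0).continuousAt.continuousWithinAt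
  obtain ⟨C, hC⟩ := (isCompact_sphere (0 : E3) 1).exists_bound_of_continuousOn hc
  refine ⟨max C 0, le_max_right _ _, ?_⟩
  intro x
  by_cases hx : x = 0
  · subst hx
    rw [h0, abs_zero]
    positivity
  · have hn : 0 < ‖x‖ := norm_pos_iff.2 hx
    have h3 : f x = ‖x‖ ^ k * f (‖x‖⁻¹ • x) := by
      have := hk ‖x‖ hn (‖x‖⁻¹ • x) (smul_ne_zero (inv_ne_zero hn.ne') hx)
      rw [smul_smul, mul_inv_cancel₀ hn.ne', one_smul, zpow_natCast] at this
      exact this
    have h4 : |f (‖x‖⁻¹ • x)| ≤ C := by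
      apply hC
      simp [norm_smul, hn.ne']
    rw [h3, abs_mul, abs_of_nonneg (by positivity : (0 : ℝ) ≤ ‖x‖ ^ k), mul_comm]
    gcongr
    exact h4.trans (le_max_left _ _)

theorem hom_cont {k : ℕ} {f : E3 → ℝ} (hs : Sm f) (hk : Hom k f) (h0 : f 0 = 0) (h1 : 1 ≤ k) :
    Continuous f := by
  obtain ⟨C, hC0, hC⟩ := hom_bound hs hk h0
  rw [continuous_iff_continuousAt]
  intro x
  by_cases hx : x = 0
  · subst hx
    rw [ContinuousAt, h0]
    apply squeeze_zero_norm (a := fun x : E3 => C * ‖x‖ ^ k)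
    · intro y
      exact hC y
    · have : Continuous (fun x : E3 => C * ‖x‖ ^ k) := by fun_prop
      have h2 := this.tendsto 0
      simpa [show k ≠ 0 by omega] using h2
  · exact (hs x hx).continuousAt

theorem hom_hasFDerivAt_zero {k : ℕ} {f : E3 → ℝ} (hs : Sm f) (hk : Hom k f) (h0 : f 0 = 0)
    (h1 : 2 ≤ k) : HasFDerivAt f (0 : E3 →L[ℝ] ℝ) 0 := by
  obtain ⟨C, hC0, hC⟩ := hom_bound hs hk h0
  apply Asymptotics.IsBigO.hasFDerivAt (n := k) _ (by omega)
  apply Asymptotics.IsBigO.of_bound C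
  filter_upwards with x
  simpa using hC x

theorem hom_diff {k : ℕ} {f : E3 → ℝ} (hs : Sm f) (hk : Hom k f) (h0 : f 0 = 0)
    (h1 : 2 ≤ k) : Differentiable ℝ f := by
  intro x
  by_cases hx : x = 0
  · subst hx
    exact (hom_hasFDerivAt_zero hs hk h0 h1).differentiableAt
  · exact hs.diffAt hx

theorem hom_pd_zero {k : ℕ} {f : E3 → ℝ} (hs : Sm f) (hk : Hom k f) (h0 : f 0 = 0)
    (h1 : 2 ≤ k) (i : Fin 3) : pd i f 0 = 0 := by
  unfold pd
  rw [(hom_hasFDerivAt_zero hs hk h0 h1).fderiv]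
  simp

section Star

variable {P : E3 → ℝ}

/-- the quadratic form of the Hessian -/
noncomputable def Qf (P : E3 → ℝ) (x y : E3) : ℝ := ∑ i, ∑ j, pd j (pd i P) x * (y i * y j)

/-- the differential -/
noncomputable def Df (P : E3 → ℝ) (x y : E3) : ℝ := ∑ i, y i * pd i P x

/-- the star integrand -/
noncomputable def Fs (P : E3 → ℝ) (p : E3 × E3) : ℝ :=
  (Qf P p.1 p.2 - 3 * P p.1) ^ 2 - 10 * (Df P p.1 p.2) ^ 2 + 9 * (P p.1) ^ 2

structure Good (P : E3 → ℝ) : Prop where
  sm : Sm P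
  hom : Hom 3 P
  zero : P 0 = 0
  odd : ∀ x, P (-x) = - P x

theorem Good.pd1 (h : Good P) (i : Fin 3) : Sm (pd i P) ∧ Hom (2 : ℕ) (pd i P) ∧ pd i P 0 = 0 := by
  refine ⟨h.sm.pd i, ?_, hom_pd_zero (k := 3) h.sm (by exact_mod_cast h.hom) h.zero (by norm_num) i⟩
  have := h.hom.pd h.sm i
  norm_num at this
  exact_mod_cast this

theorem Good.pd2 (h : Good P) (i j : Fin 3) :
    Sm (pd j (pd i P)) ∧ Hom (1 : ℕ) (pd j (pd i P)) ∧ pd j (pd i P) 0 = 0 := by
  obtain ⟨h1, h2, h3⟩ := h.pd1 i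
  refine ⟨h1.pd j, ?_, hom_pd_zero h1 h2 h3 (by norm_num) j⟩
  have := h2.pd h1 j
  norm_num at this
  exact_mod_cast this

theorem Good.cont (h : Good P) : Continuous P :=
  hom_cont (k := 3) h.sm (by exact_mod_cast h.hom) h.zero (by norm_num)

theorem Good.cont1 (h : Good P) (i : Fin 3) : Continuous (pd i P) :=
  hom_cont (h.pd1 i).1 (h.pd1 i).2.1 (h.pd1 i).2.2 (by norm_num)

theorem Good.cont2 (h : Good P) (i j : Fin 3) : Continuous (pd j (pd i P)) :=
  hom_cont (h.pd2 i j).1 (h.pd2 i j).2.1 (h.pd2 i j).2.2 (by norm_num)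

theorem Good.diff (h : Good P) : Differentiable ℝ P :=
  hom_diff (k := 3) h.sm (by exact_mod_cast h.hom) h.zero (by norm_num)

theorem Good.diff1 (h : Good P) (i : Fin 3) : Differentiable ℝ (pd i P) :=
  hom_diff (h.pd1 i).1 (h.pd1 i).2.1 (h.pd1 i).2.2 (by norm_num)

theorem Good.euler (h : Good P) (x : E3) : ∑ i, x i * pd i P x = 3 * P x := by
  by_cases hx : x = 0
  · subst hx
    simp [h.zero]
  · have := CW.euler h.hom h.sm hx
    simpa using this

theorem Good.Fs_cont (h : Good P) : Continuous (Fs P) := by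
  unfold Fs Qf Df
  have h0 : Continuous (fun p : E3 × E3 => P p.1) := h.cont.comp continuous_fst
  have h1 : ∀ i, Continuous (fun p : E3 × E3 => pd i P p.1) := fun i => (h.cont1 i).comp continuous_fst
  have h2 : ∀ i j, Continuous (fun p : E3 × E3 => pd j (pd i P) p.1) :=
    fun i j => (h.cont2 i j).comp continuous_fst
  have hy : ∀ i, Continuous (fun p : E3 × E3 => p.2 i) := fun i => by fun_prop
  have s2 : Continuous (fun p : E3 × E3 => ∑ i, ∑ j, pd j (pd i P) p.1 * (p.2 i * p.2 j)) :=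
    continuous_finsetSum _ (fun i _ => continuous_finsetSum _ (fun j _ =>
      (h2 i j).mul ((hy i).mul (hy j))))
  have s1 : Continuous (fun p : E3 × E3 => ∑ i, p.2 i * pd i P p.1) :=
    continuous_finsetSum _ (fun i _ => (hy i).mul (h1 i))
  exact (((s2.sub (h0.const_mul 3)).pow 2).sub ((s1.pow 2).const_mul 10)).add ((h0.pow 2).const_mul 9)

theorem Good.Fs_bound (h : Good P) : ∃ C, 0 ≤ C ∧ ∀ (p : E3 × E3) (R : ℝ), ‖p.1‖ ≤ R → ‖p.2‖ ≤ R →
    |Fs P p| ≤ C * R ^ 6 := by
  obtain ⟨C0, hC0, b0⟩ := hom_bound (k := 3) h.sm (by exact_mod_cast h.hom) h.zero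
  have e1 : ∀ i, ∃ C, 0 ≤ C ∧ ∀ x, |pd i P x| ≤ C * ‖x‖ ^ 2 :=
    fun i => hom_bound (h.pd1 i).1 (h.pd1 i).2.1 (h.pd1 i).2.2
  have e2 : ∀ i j, ∃ C, 0 ≤ C ∧ ∀ x, |pd j (pd i P) x| ≤ C * ‖x‖ ^ 1 :=
    fun i j => hom_bound (h.pd2 i j).1 (h.pd2 i j).2.1 (h.pd2 i j).2.2
  choose C1 hC1 b1 using e1
  choose C2 hC2 b2 using e2
  set A := ∑ i, ∑ j, C2 i j with hA
  set B := ∑ i, C1 i with hB
  have hA0 : 0 ≤ A := Finset.sum_nonneg (fun i _ => Finset.sum_nonneg (fun j _ => hC2 i j))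
  have hB0 : 0 ≤ B := Finset.sum_nonneg (fun i _ => hC1 i)
  refine ⟨(A + 3 * C0) ^ 2 + 10 * B ^ 2 + 9 * C0 ^ 2, by positivity, ?_⟩
  intro p R h1 h2
  have hR : 0 ≤ R := (norm_nonneg _).trans h1
  have q0 : |P p.1| ≤ C0 * R ^ 3 := (b0 _).trans (by gcongr)
  have q2 : |Qf P p.1 p.2| ≤ A * R ^ 3 := by
    unfold Qf
    rw [hA, Finset.sum_mul]
    apply (Finset.abs_sum_le_sum_abs _ _).trans
    apply Finset.sum_le_sum
    intro i _
    rw [Finset.sum_mul]
    apply (Finset.abs_sum_le_sum_abs _ _).trans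
    apply Finset.sum_le_sum
    intro j _
    rw [abs_mul, abs_mul]
    have c1 := (coord_le p.2 i).trans h2
    have c2 := (coord_le p.2 j).trans h2
    have c3 : |pd j (pd i P) p.1| ≤ C2 i j * R := by
      refine (b2 i j _).trans ?_
      rw [pow_one]
      exact mul_le_mul_of_nonneg_left h1 (hC2 i j)
    calc _ ≤ (C2 i j * R) * (R * R) := by
          apply mul_le_mul c3 _ (by positivity) (mul_nonneg (hC2 i j) hR)
          exact mul_le_mul c1 c2 (abs_nonneg _) hR
      _ = _ := by ring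
  have q1 : |Df P p.1 p.2| ≤ B * R ^ 3 := by
    unfold Df
    rw [hB, Finset.sum_mul]
    apply (Finset.abs_sum_le_sum_abs _ _).trans
    apply Finset.sum_le_sum
    intro i _
    rw [abs_mul]
    have c1 := (coord_le p.2 i).trans h2
    have c3 : |pd i P p.1| ≤ C1 i * R ^ 2 := by
      refine (b1 i _).trans ?_
      exact mul_le_mul_of_nonneg_left (pow_le_pow_left₀ (norm_nonneg _) h1 2) (hC1 i)
    calc _ ≤ R * (C1 i * R ^ 2) := mul_le_mul c1 c3 (abs_nonneg _) hR
      _ = _ := by ring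
  unfold Fs
  have t1 : |Qf P p.1 p.2 - 3 * P p.1| ≤ (A + 3 * C0) * R ^ 3 := by
    calc _ ≤ |Qf P p.1 p.2| + |3 * P p.1| := abs_sub _ _
      _ = |Qf P p.1 p.2| + 3 * |P p.1| := by rw [abs_mul]; norm_num
      _ ≤ _ := by linarith
  have t2 : (Qf P p.1 p.2 - 3 * P p.1) ^ 2 ≤ ((A + 3 * C0) * R ^ 3) ^ 2 := by
    rw [← sq_abs]
    exact pow_le_pow_left₀ (abs_nonneg _) t1 2
  have t3 : (Df P p.1 p.2) ^ 2 ≤ (B * R ^ 3) ^ 2 := by
    rw [← sq_abs]
    exact pow_le_pow_left₀ (abs_nonneg _) q1 2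
  have t4 : (P p.1) ^ 2 ≤ (C0 * R ^ 3) ^ 2 := by
    rw [← sq_abs]
    exact pow_le_pow_left₀ (abs_nonneg _) q0 2
  have e : ((A + 3 * C0) ^ 2 + 10 * B ^ 2 + 9 * C0 ^ 2) * R ^ 6 =
    ((A + 3 * C0) * R ^ 3) ^ 2 + 10 * (B * R ^ 3) ^ 2 + 9 * (C0 * R ^ 3) ^ 2 := by ring
  rw [e, abs_le]
  constructor <;> nlinarith [sq_nonneg (Qf P p.1 p.2 - 3 * P p.1), sq_nonneg (Df P p.1 p.2), sq_nonneg (P p.1)]

theorem Good.circle (h : Good P) (p : E3 × E3) :
    0 ≤ ∫ t in (0 : ℝ)..(2 * π), Fs P (ContinuousLinearMap.rotation t p) := by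
  set X : ℝ → E3 := fun t => Real.cos t • p.1 + Real.sin t • p.2 with hX
  set Y : ℝ → E3 := fun t => -Real.sin t • p.1 + Real.cos t • p.2 with hY
  have dX : ∀ t, HasDerivAt X (Y t) t := by
    intro t
    exact ((Real.hasDerivAt_cos t).smul_const p.1).add ((Real.hasDerivAt_sin t).smul_const p.2)
  have dY : ∀ t, HasDerivAt Y (- X t) t := by
    intro t
    have := ((Real.hasDerivAt_sin t).neg.smul_const p.1).add ((Real.hasDerivAt_cos t).smul_const p.2)
    have e : (-Real.cos t) • p.1 + (-Real.sin t) • p.2 = - X t := by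
      simp only [hX, neg_smul]
      abel
    rw [e] at this
    exact this
  have dXi : ∀ (i : Fin 3) t, HasDerivAt (fun s => X s i) (Y t i) t := by
    intro i t
    exact ((EuclideanSpace.proj i : E3 →L[ℝ] ℝ).hasFDerivAt.comp_hasDerivAt t (dX t))
  have dYi : ∀ (i : Fin 3) t, HasDerivAt (fun s => Y s i) (- X t i) t := by
    intro i t
    exact ((EuclideanSpace.proj i : E3 →L[ℝ] ℝ).hasFDerivAt.comp_hasDerivAt t (dY t))
  have dg : ∀ {f : E3 → ℝ}, Differentiable ℝ f → ∀ t,
      HasDerivAt (fun s => f (X s)) (∑ i, Y t i * pd i f (X t)) t := by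
    intro f hf t
    rw [← fderiv_eq_sum]
    exact (hf (X t)).hasFDerivAt.comp_hasDerivAt t (dX t)
  have cX : Continuous X := continuous_iff_continuousAt.2 (fun t => (dX t).continuousAt)
  have cY : Continuous Y := continuous_iff_continuousAt.2 (fun t => (dY t).continuousAt)
  have key := circle_ineq (φ := fun t => P (X t)) (φ' := fun t => Df P (X t) (Y t))
    (φ'' := fun t => Qf P (X t) (Y t) - 3 * P (X t)) ?_ ?_ ?_ ?_
  · exact key
  · intro t
    exact dg h.diff t
  · intro t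
    have h1 : HasDerivAt (fun s => ∑ i, Y s i * pd i P (X s))
        (∑ i, (- X t i * pd i P (X t) + Y t i * ∑ j, Y t j * pd j (pd i P) (X t))) t := by
      exact HasDerivAt.fun_sum (u := Finset.univ) (A := fun (i : Fin 3) s => Y s i * pd i P (X s))
        (A' := fun i => (- X t i * pd i P (X t) + Y t i * ∑ j, Y t j * pd j (pd i P) (X t)))
        (x := t) (fun i _ => (dYi i t).mul (dg (h.diff1 i) t))
    have e0 : Qf P (X t) (Y t) - 3 * P (X t) =
        (∑ i, (- X t i * pd i P (X t) + Y t i * ∑ j, Y t j * pd j (pd i P) (X t))) := by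
     rw [← h.euler (X t)]
     unfold Qf
     rw [Finset.sum_add_distrib]
     have e1 : ∑ i, - X t i * pd i P (X t) = - ∑ i, X t i * pd i P (X t) := by
       rw [← Finset.sum_neg_distrib]
       apply Finset.sum_congr rfl
       intro i _
       ring
     have e2 : ∑ i, ∑ j, pd j (pd i P) (X t) * (Y t i * Y t j) =
         ∑ i, Y t i * ∑ j, Y t j * pd j (pd i P) (X t) := by
       apply Finset.sum_congr rfl
       intro i _
       rw [Finset.mul_sum]
       apply Finset.sum_congr rfl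
       intro j _
       ring
     rw [e1, e2]
     ring
    simp only [e0]
    exact h1
  · have h0 : Continuous (fun t => P (X t)) := h.cont.comp cX
    have h2 : ∀ i j, Continuous (fun t => pd j (pd i P) (X t)) := fun i j => (h.cont2 i j).comp cX
    have hy : ∀ i, Continuous (fun t => Y t i) := fun i =>
      continuous_iff_continuousAt.2 (fun t => (dYi i t).continuousAt)
    unfold Qf
    exact (continuous_finsetSum _ (fun i _ => continuous_finsetSum _ (fun j _ =>
      (h2 i j).mul ((hy i).mul (hy j))))).sub (h0.const_mul 3)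
  · intro t
    have : X (t + π) = - X t := by
      simp only [hX, Real.cos_add_pi, Real.sin_add_pi, neg_smul]
      abel
    simp only [this, h.odd]

theorem star (h : Good P) : 0 ≤ ∫ p, Fs P p ∂((stdGaussian E3).prod (stdGaussian E3)) := by
  set μ : Measure (E3 × E3) := (stdGaussian E3).prod (stdGaussian E3) with hμ
  have hrot : ∀ t : ℝ, ∫ p, Fs P (ContinuousLinearMap.rotation t p) ∂μ = ∫ p, Fs P p ∂μ := by
    intro t
    have h1 : μ.map (ContinuousLinearMap.rotation t) = μ :=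
      IsGaussian.map_rotation_eq_self (μ := stdGaussian E3) (by simp) t
    conv_rhs => rw [← h1]
    rw [integral_map]
    · exact (ContinuousLinearMap.continuous _).aemeasurable
    · exact h.Fs_cont.aestronglyMeasurable
  obtain ⟨C, hC0, hC⟩ := h.Fs_bound
  have hint6 : Integrable (fun p : E3 × E3 => ‖p‖ ^ 6) μ :=
    (IsGaussian.memLp_id μ 6 (by simp)).integrable_norm_pow'
  have hrc : Continuous (fun q : ℝ × (E3 × E3) => (ContinuousLinearMap.rotation q.1 q.2 : E3 × E3)) := by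
    simp only [ContinuousLinearMap.rotation_apply]
    fun_prop
  have hF : Integrable (Function.uncurry fun (t : ℝ) (p : E3 × E3) =>
      Fs P (ContinuousLinearMap.rotation t p)) ((volume.restrict (uIoc (0 : ℝ) (2 * π))).prod μ) := by
    have hg : Integrable (fun q : ℝ × (E3 × E3) => C * 64 * ‖q.2‖ ^ 6)
        ((volume.restrict (uIoc (0 : ℝ) (2 * π))).prod μ) := by
      have : IsFiniteMeasure (volume.restrict (uIoc (0 : ℝ) (2 * π))) := by
        constructor
        rw [Measure.restrict_apply_univ, uIoc_of_le two_pi_pos'.le, Real.volume_Ioc]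
        exact ENNReal.ofReal_lt_top
      exact (hint6.comp_snd (volume.restrict (uIoc (0 : ℝ) (2 * π)))).const_mul _
    apply hg.mono'
    · exact (h.Fs_cont.comp hrc).aestronglyMeasurable
    · filter_upwards with q
      have e1 : ‖(ContinuousLinearMap.rotation q.1 q.2 : E3 × E3).1‖ ≤ 2 * ‖q.2‖ := by
        rw [ContinuousLinearMap.rotation_apply]
        simp only
        calc _ ≤ ‖Real.cos q.1 • q.2.1‖ + ‖Real.sin q.1 • q.2.2‖ := norm_add_le _ _
          _ = |Real.cos q.1| * ‖q.2.1‖ + |Real.sin q.1| * ‖q.2.2‖ := by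
            rw [norm_smul, norm_smul]; rfl
          _ ≤ 1 * ‖q.2‖ + 1 * ‖q.2‖ := by
            gcongr
            · exact Real.abs_cos_le_one _
            · exact norm_fst_le _
            · exact Real.abs_sin_le_one _
            · exact norm_snd_le _
          _ = _ := by ring
      have e2 : ‖(ContinuousLinearMap.rotation q.1 q.2 : E3 × E3).2‖ ≤ 2 * ‖q.2‖ := by
        rw [ContinuousLinearMap.rotation_apply]
        simp only
        calc _ ≤ ‖-Real.sin q.1 • q.2.1‖ + ‖Real.cos q.1 • q.2.2‖ := norm_add_le _ _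
          _ = |Real.sin q.1| * ‖q.2.1‖ + |Real.cos q.1| * ‖q.2.2‖ := by
            rw [norm_smul, norm_smul, norm_neg]; rfl
          _ ≤ 1 * ‖q.2‖ + 1 * ‖q.2‖ := by
            gcongr
            · exact Real.abs_sin_le_one _
            · exact norm_fst_le _
            · exact Real.abs_cos_le_one _
            · exact norm_snd_le _
          _ = _ := by ring
      calc ‖Function.uncurry (fun (t : ℝ) (p : E3 × E3) =>
            Fs P (ContinuousLinearMap.rotation t p)) q‖ =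
            |Fs P (ContinuousLinearMap.rotation q.1 q.2)| := rfl
        _ ≤ C * (2 * ‖q.2‖) ^ 6 := hC _ _ e1 e2
        _ = C * 64 * ‖q.2‖ ^ 6 := by ring
  have hsw := intervalIntegral_integral_swap (a := 0) (b := 2 * π) hF
  simp only [hrot] at hsw
  rw [intervalIntegral.integral_const, smul_eq_mul] at hsw
  have hpos : 0 ≤ ∫ p, (∫ t in (0 : ℝ)..(2 * π), Fs P (ContinuousLinearMap.rotation t p)) ∂μ :=
    integral_nonneg (fun p => h.circle p)
  rw [← hsw] at hpos
  have := two_pi_pos'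
  have h3 : 0 < 2 * π - 0 := by linarith
  exact nonneg_of_mul_nonneg_right hpos h3

end Star

end Helper80.CW
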